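import Pool.Agent.P.MP_7cff07_gt.Defs

namespace Pool.Agent.P.MP_7cff07_gt

open Finset

variable {V : Type} [LinearOrder V]

/-- sign of a vertex relative to a finite set -/
def sgn (σ : Finset V) (v : V) : ℤ := (-1 : ℤ) ^ (σ.filter (fun w => w < v)).card

lemma sgn_mul_self (σ : Finset V) (v : V) : sgn σ v * sgn σ v = 1 := by
  unfold sgn
  rw [← pow_add, ← two_mul, pow_mul]
  simp

lemma sgn_insert {σ : Finset V} {u : V} (hu : u ∉ σ) (v : V) :
    sgn (insert u σ) v = (if u < v then -1 else 1) * sgn σ v := by
  unfold sgn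
  rw [Finset.filter_insert]
  split_ifs with h
  · rw [Finset.card_insert_of_notMem (by simp [hu]), pow_succ]; ring
  · simp

lemma sgn_erase {σ : Finset V} {u : V} (hu : u ∈ σ) (v : V) :
    sgn (σ.erase u) v = (if u < v then -1 else 1) * sgn σ v := by
  have h := sgn_insert (σ := σ.erase u) (u := u) (by simp) v
  rw [Finset.insert_erase hu] at h
  rw [h]
  split_ifs <;> ring

/-- deletion of a vertex -/
noncomputable def del (v : V) : (Finset V →₀ ℤ) →ₗ[ℤ] (Finset V →₀ ℤ) :=
  Finsupp.linearCombination ℤ fun σ : Finset V =>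
    if v ∈ σ then sgn σ v • Finsupp.single (σ.erase v) (1 : ℤ) else 0

/-- cone with a vertex -/
noncomputable def cone (v : V) : (Finset V →₀ ℤ) →ₗ[ℤ] (Finset V →₀ ℤ) :=
  Finsupp.linearCombination ℤ fun σ : Finset V =>
    if v ∈ σ then 0 else sgn σ v • Finsupp.single (insert v σ) (1 : ℤ)

lemma del_single (v : V) (σ : Finset V) :
    del v (Finsupp.single σ 1) =
      if v ∈ σ then sgn σ v • Finsupp.single (σ.erase v) (1 : ℤ) else 0 := by
  simp [del]

lemma cone_single (v : V) (σ : Finset V) :
    cone v (Finsupp.single σ 1) =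
      if v ∈ σ then 0 else sgn σ v • Finsupp.single (insert v σ) (1 : ℤ) := by
  simp [cone]

lemma boundary_single (σ : Finset V) :
    boundary V (Finsupp.single σ 1) =
      ∑ v ∈ σ, sgn σ v • Finsupp.single (σ.erase v) (1 : ℤ) := by
  simp [boundary, sgn]

omit [LinearOrder V] in
lemma lin_ext {M : Type*} [AddCommGroup M] {f g : (Finset V →₀ ℤ) →ₗ[ℤ] M}
    (h : ∀ σ, f (Finsupp.single σ 1) = g (Finsupp.single σ 1)) : f = g := by
  apply Finsupp.lhom_ext'
  intro σ
  ext
  simpa using h σ

lemma boundary_eq_sum [Fintype V] : boundary V = ∑ v : V, del v := by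
  apply lin_ext
  intro σ
  rw [boundary_single, LinearMap.sum_apply]
  simp only [del_single]
  rw [← Finset.sum_filter]
  congr 1
  ext v; simp

lemma del_del (u v : V) : del u ∘ₗ del v = - (del v ∘ₗ del u) := by
  apply lin_ext
  intro σ
  simp only [LinearMap.comp_apply, LinearMap.neg_apply, del_single]
  by_cases huv : u = v
  · subst huv
    by_cases hu : u ∈ σ
    · simp only [hu, if_true, map_smul, del_single, Finset.notMem_erase, if_false, smul_zero,
        neg_zero]
    · simp [hu]
  by_cases hu : u ∈ σ <;> by_cases hv : v ∈ σ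
  · have h1 : u ∈ σ.erase v := by simp [hu, huv]
    have h2 : v ∈ σ.erase u := by simp [hv, Ne.symm huv]
    simp only [hu, hv, if_true, map_smul, del_single, h1, h2, smul_smul]
    rw [sgn_erase hv, sgn_erase hu, Finset.erase_right_comm, ← neg_smul]
    congr 1
    rcases lt_or_gt_of_ne huv with h | h
    · simp [h, not_lt_of_gt h]; ring
    · simp [h, not_lt_of_gt h]; ring
  · have h2 : v ∉ σ.erase u := by simp [hv]
    simp only [hu, hv, if_true, if_false, map_smul, del_single, h2, map_zero, smul_zero, neg_zero]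
  · have h1 : u ∉ σ.erase v := by simp [hu]
    simp only [hu, hv, if_true, if_false, map_smul, del_single, h1, map_zero, smul_zero, neg_zero]
  · simp [hu, hv]

lemma del_cone_self (v : V) : del v ∘ₗ cone v + cone v ∘ₗ del v = LinearMap.id := by
  apply lin_ext
  intro σ
  simp only [LinearMap.add_apply, LinearMap.comp_apply, del_single, cone_single,
    LinearMap.id_apply]
  by_cases hv : v ∈ σ
  · simp only [hv, if_true, map_zero, zero_add, map_smul, cone_single, Finset.notMem_erase,
      if_false, smul_smul, Finset.insert_erase hv]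
    rw [sgn_erase hv]
    simp [sgn_mul_self]
  · simp only [hv, if_false, map_zero, add_zero, map_smul, del_single, Finset.mem_insert_self,
      if_true, smul_smul, Finset.erase_insert hv]
    rw [sgn_insert hv]
    simp [sgn_mul_self]

lemma del_cone_ne {u v : V} (huv : u ≠ v) : del u ∘ₗ cone v + cone v ∘ₗ del u = 0 := by
  apply lin_ext
  intro σ
  simp only [LinearMap.add_apply, LinearMap.comp_apply, del_single, cone_single,
    LinearMap.zero_apply]
  by_cases hu : u ∈ σ <;> by_cases hv : v ∈ σ
  · have h2 : v ∈ σ.erase u := by simp [hv, Ne.symm huv]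
    simp only [hu, hv, if_true, map_smul, cone_single, h2, map_zero, smul_zero, add_zero]
  · have h1 : u ∈ insert v σ := by simp [hu]
    have h2 : v ∉ σ.erase u := by simp [hv]
    simp only [hu, hv, if_true, if_false, map_smul, del_single, cone_single, h1, h2, smul_smul]
    rw [sgn_insert hv, sgn_erase hu, Finset.erase_insert_of_ne (Ne.symm huv), ← add_smul]
    have : sgn σ v * ((if v < u then -1 else 1) * sgn σ u) +
        sgn σ u * ((if u < v then -1 else 1) * sgn σ v) = 0 := by
      rcases lt_or_gt_of_ne huv with h | h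
      · simp [h, not_lt_of_gt h]; ring
      · simp [h, not_lt_of_gt h]; ring
    rw [this, zero_smul]
  · simp [hu, hv]
  · have h1 : u ∉ insert v σ := by simp [hu, huv]
    simp only [hu, hv, if_false, map_smul, del_single, h1, map_zero, smul_zero, add_zero]

lemma boundary_cone [Fintype V] (v : V) (c : Finset V →₀ ℤ) :
    boundary V (cone v c) = c - cone v (boundary V c) := by
  have h : boundary V (cone v c) + cone v (boundary V c) = c := by
    rw [boundary_eq_sum, LinearMap.sum_apply, LinearMap.sum_apply, map_sum,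
      ← Finset.sum_add_distrib, Finset.sum_eq_single v]
    · exact LinearMap.congr_fun (del_cone_self v) c
    · intro u _ hu; exact LinearMap.congr_fun (del_cone_ne hu) c
    · simp
  exact eq_sub_of_add_eq h

lemma del_boundary [Fintype V] (v : V) (c : Finset V →₀ ℤ) :
    del v (boundary V c) = - boundary V (del v c) := by
  rw [boundary_eq_sum]
  simp only [LinearMap.sum_apply, map_sum, ← Finset.sum_neg_distrib]
  apply Finset.sum_congr rfl
  intro u _
  exact LinearMap.congr_fun (del_del v u) c

lemma boundary_boundary [Fintype V] (c : Finset V →₀ ℤ) :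
    boundary V (boundary V c) = 0 := by
  have h : boundary V (boundary V c) = - boundary V (boundary V c) := by
    conv_lhs => rw [boundary_eq_sum, LinearMap.sum_apply]
    simp only [← boundary_eq_sum, del_boundary]
    rw [Finset.sum_neg_distrib, ← map_sum, ← LinearMap.sum_apply, ← boundary_eq_sum]
  ext σ
  have := congrArg (fun f => f σ) h
  simp only [Finsupp.neg_apply] at this
  simp only [Finsupp.coe_zero, Pi.zero_apply]
  omega

omit [LinearOrder V] in
lemma map_supported_le {M : Type*} [AddCommGroup M] (f : (Finset V →₀ ℤ) →ₗ[ℤ] M)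
    {S : Set (Finset V)} {N : Submodule ℤ M} (h : ∀ σ ∈ S, f (Finsupp.single σ 1) ∈ N)
    {c : Finset V →₀ ℤ} (hc : c ∈ Finsupp.supported ℤ ℤ S) : f c ∈ N := by
  rw [Finsupp.supported_eq_span_single] at hc
  have : Submodule.span ℤ ((fun i => Finsupp.single i (1 : ℤ)) '' S) ≤ N.comap f := by
    rw [Submodule.span_le]
    rintro _ ⟨σ, hσ, rfl⟩
    exact h σ hσ
  exact this hc

omit [LinearOrder V] in
lemma eq_on_supported {M : Type*} [AddCommGroup M] (f g : (Finset V →₀ ℤ) →ₗ[ℤ] M)
    {S : Set (Finset V)} (h : ∀ σ ∈ S, f (Finsupp.single σ 1) = g (Finsupp.single σ 1))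
    {c : Finset V →₀ ℤ} (hc : c ∈ Finsupp.supported ℤ ℤ S) : f c = g c := by
  have := map_supported_le (f - g) (N := ⊥) (S := S) (by
    intro σ hσ; simp [h σ hσ]) hc
  simpa [sub_eq_zero] using this

omit [LinearOrder V] in
lemma single_mem_supported {S : Set (Finset V)} {σ : Finset V} (h : σ ∈ S) :
    Finsupp.single σ (1 : ℤ) ∈ Finsupp.supported ℤ ℤ S :=
  Finsupp.single_mem_supported ℤ 1 h

lemma nontrivial_reducedHomology_iff (K : Set (Finset V)) (q : ℕ) :
    Nontrivial (reducedHomology K q) ↔
      ∃ z ∈ chains K (q + 1), boundary V z = 0 ∧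
        ∀ c ∈ chains K (q + 2), boundary V c ≠ z := by
  unfold reducedHomology
  rw [Submodule.Quotient.nontrivial_iff]
  constructor
  · intro h
    by_contra hcon
    push Not at hcon
    apply h
    rw [eq_top_iff]
    rintro ⟨z, hz1, hz2⟩ -
    obtain ⟨c, hc, hcz⟩ := hcon z hz1 hz2
    exact ⟨c, hc, hcz⟩
  · rintro ⟨z, hz1, hz2, h⟩ htop
    have : (⟨z, hz1, hz2⟩ : ↥(chains K (q + 1) ⊓ LinearMap.ker (boundary V))) ∈
        ((chains K (q + 2)).map (boundary V)).submoduleOf
          (chains K (q + 1) ⊓ LinearMap.ker (boundary V)) := by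
      rw [htop]; trivial
    obtain ⟨c, hc, hcz⟩ := this
    exact h c hc hcz

end Pool.Agent.P.MP_7cff07_gt
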