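import Pool.Agent.P.MP_7cff07_gt.Config

namespace Pool.Agent.P.MP_7cff07_gt

open Finset

variable {κ : Type} [Fintype κ] [DecidableEq κ]

omit [Fintype κ] in
lemma genH_add_self (o : Option κ) : genH o + genH o = 0 := by
  rcases o with _ | k
  · simp [genH, CharTwo.add_self_eq_zero]
  · simp [genH, z2_add_self]

omit [Fintype κ] in
lemma adjH_symm (x y : ZMod 2 × (κ → ZMod 2)) (h : adjH x y) : adjH y x := by
  obtain ⟨o, rfl⟩ := h
  exact ⟨o, by rw [add_assoc, genH_add_self, add_zero]⟩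

omit [Fintype κ] in
lemma adjH_irrefl (x : ZMod 2 × (κ → ZMod 2)) : ¬ adjH x x := by
  rintro ⟨o, h⟩
  have h0 : genH o = 0 := by simpa using h
  rcases o with _ | k
  · simp [genH] at h0
  · simp [genH] at h0

lemma adjH_deg (v : ZMod 2 × (κ → ZMod 2)) :
    ∃ N : Finset (ZMod 2 × (κ → ZMod 2)), N.card ≤ Fintype.card κ + 1 ∧
      ∀ w, adjH v w → w ∈ N := by
  refine ⟨Finset.univ.image (fun o => v + genH o), ?_, ?_⟩
  · refine Finset.card_image_le.trans ?_
    simp
  · rintro w ⟨o, rfl⟩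
    exact Finset.mem_image_of_mem _ (Finset.mem_univ _)

/-- the additive map with prescribed values on the unit vectors -/
def lin {A : Type} [AddCommGroup A] [Module (ZMod 2) A] (c : κ → A) : (κ → ZMod 2) →+ A where
  toFun u := ∑ k, u k • c k
  map_zero' := by simp
  map_add' u v := by simp [add_smul, Finset.sum_add_distrib]

lemma lin_single {A : Type} [AddCommGroup A] [Module (ZMod 2) A] (c : κ → A) (k : κ) :
    lin c (Pi.single k 1) = c k := by
  simp [lin, Pi.single_apply, ite_smul]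

lemma exists_surj {α β : Type} [Fintype α] [Fintype β] [Nonempty α]
    (h : Fintype.card α ≤ Fintype.card β) : ∃ f : β → α, Function.Surjective f := by
  obtain ⟨e⟩ := Function.Embedding.nonempty_of_card_le h
  exact ⟨Function.invFun e, Function.invFun_surjective e.injective⟩

theorem exists_code (a : ℕ) (ha : 1 ≤ a) (ha2 : 2 ^ a ≤ Fintype.card κ + 2) :
    ∃ J : Finset (ZMod 2 × (κ → ZMod 2)), IDS adjH J ∧
      2 ^ a * J.card = 2 ^ (Fintype.card κ + 1) := by
  have : Nonempty {v : Fin a → ZMod 2 // v ≠ 0} :=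
    ⟨⟨1, fun h => one_ne_zero (congrFun h ⟨0, ha⟩)⟩⟩
  obtain ⟨col, hcol⟩ := exists_surj (α := {v : Fin a → ZMod 2 // v ≠ 0}) (β := Option κ) (by
    simp only [ne_eq, Fintype.card_subtype_compl, Fintype.card_pi, ZMod.card, Finset.prod_const,
      Finset.card_univ, Fintype.card_fin, Fintype.card_unique, Fintype.card_option]
    omega)
  let syn : ZMod 2 × (κ → ZMod 2) →+ (Fin a → ZMod 2) :=
    (AddMonoidHom.mk' (fun e : ZMod 2 => e • (col none).1) (fun _ _ => add_smul _ _ _)).coprod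
      (lin (fun k => (col (some k)).1))
  have hsyn : ∀ o, syn (genH o) = (col o).1 := by
    rintro (_ | k)
    · simp [syn, genH]
    · simp [syn, genH, lin_single]
  have hsurj : Function.Surjective syn := by
    intro v
    by_cases hv : v = 0
    · exact ⟨0, by rw [map_zero, hv]⟩
    · obtain ⟨o, ho⟩ := hcol ⟨v, hv⟩
      exact ⟨genH o, by rw [hsyn, ho]⟩
  refine ⟨Finset.univ.filter (fun x => syn x = 0), ⟨?_, ?_⟩, ?_⟩
  · rintro x hx y hy ⟨o, rfl⟩
    simp only [Finset.mem_filter, Finset.mem_univ, true_and] at hx hy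
    rw [map_add, hx, zero_add, hsyn] at hy
    exact (col o).2 hy
  · intro x hx
    simp only [Finset.mem_filter, Finset.mem_univ, true_and] at hx
    obtain ⟨o, ho⟩ := hcol ⟨_, hx⟩
    refine ⟨x + genH o, ?_, o, rfl⟩
    simp only [Finset.mem_filter, Finset.mem_univ, true_and]
    rw [map_add, hsyn, ho, z2_add_self]
  · have := card_ker_mul syn hsurj
    simp only [Fintype.card_pi, ZMod.card, Finset.prod_const, Finset.card_univ, Fintype.card_fin,
      Fintype.card_prod] at this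
    rw [this, pow_succ, mul_comm]

theorem exists_UZ (M : ℕ) (h4 : 4 ≤ Fintype.card κ) (hM : 8 * M ≤ 2 ^ Fintype.card κ) :
    ∃ (U : Finset (κ → ZMod 2)) (Z : Finset (ZMod 2 × (κ → ZMod 2))), U.card = M ∧
      Indep adjH Z ∧ Z.card ≤ M * (1 + 2 * Fintype.card κ ^ 2) ∧ (∀ u ∈ U, (0, u) ∈ Z) ∧
      (∀ u ∈ U, ∀ k, u + Pi.single k 1 ∉ U) ∧
      ∀ u ∈ U, ∀ k e, ∃ l, (e, u + Pi.single k 1 + Pi.single l 1) ∈ Z ∧
        u + Pi.single k 1 + Pi.single l 1 ∉ U := by
  obtain ⟨c, hc⟩ := exists_surj (α := ZMod 2 × ZMod 2) (β := κ) (by simpa using h4)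
  let lab : (κ → ZMod 2) →+ ZMod 2 × ZMod 2 := lin c
  let par : (κ → ZMod 2) →+ ZMod 2 := lin (fun _ => 1)
  have hlab : ∀ k, lab (Pi.single k 1) = c k := lin_single _
  have hpar : ∀ k, par (Pi.single k 1) = 1 := lin_single _
  have hsurj : Function.Surjective (par.prod lab) := by
    rintro ⟨e, d⟩
    obtain ⟨k, hk⟩ := hc d
    obtain ⟨l, hl⟩ := hc 0
    rcases (by decide : ∀ c : ZMod 2, c = 0 ∨ c = 1) e with rfl | rfl
    · exact ⟨Pi.single k 1 + Pi.single l 1, by
        simp [hlab, hpar, hk, hl, CharTwo.add_self_eq_zero]⟩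
    · exact ⟨Pi.single k 1, by simp [hlab, hpar, hk]⟩
  have hker := card_ker_mul _ hsurj
  simp only [Fintype.card_pi, ZMod.card, Finset.prod_const, Finset.card_univ,
    Fintype.card_prod] at hker
  obtain ⟨U, hU, hUc⟩ := Finset.exists_subset_card_eq
    (s := Finset.univ.filter (fun x => (par.prod lab) x = 0)) (n := M) (by omega)
  have hU' : ∀ u ∈ U, par u = 0 ∧ lab u = 0 := by
    intro u hu
    have := (Finset.mem_filter.1 (hU hu)).2
    simpa using this
  let f : (κ → ZMod 2) × κ × κ × ZMod 2 → ZMod 2 × (κ → ZMod 2) :=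
    fun p => (p.2.2.2, p.1 + Pi.single p.2.1 1 + Pi.single p.2.2.1 1)
  let Z := U.image (fun u => ((0 : ZMod 2), u)) ∪
    ((U ×ˢ Finset.univ).image f).filter (fun y => lab y.2 = (y.1 + 1, y.1))
  have hZ : ∀ y ∈ Z, par y.2 = 0 ∧ ((y.1 = 0 ∧ lab y.2 = 0) ∨ lab y.2 = (y.1 + 1, y.1)) := by
    intro y hy
    rcases Finset.mem_union.1 hy with hy | hy
    · obtain ⟨u, hu, rfl⟩ := Finset.mem_image.1 hy
      exact ⟨(hU' u hu).1, Or.inl ⟨rfl, (hU' u hu).2⟩⟩
    · obtain ⟨hy1, hy2⟩ := Finset.mem_filter.1 hy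
      obtain ⟨p, hp, rfl⟩ := Finset.mem_image.1 hy1
      refine ⟨?_, Or.inr hy2⟩
      simp only [f, map_add, hpar, (hU' _ (Finset.mem_product.1 hp).1).1]
      rfl
  refine ⟨U, Z, hUc, ?_, ?_, ?_, ?_, ?_⟩
  · rintro ⟨e, u⟩ hx y hy ⟨o, rfl⟩
    have h1 := hZ _ hx
    have h2 := hZ _ hy
    rcases o with _ | k
    · simp only [genH, Prod.mk_add_mk, add_zero] at h1 h2
      generalize lab u = d at h1 h2
      exact (by decide : ∀ (e : ZMod 2) (d : ZMod 2 × ZMod 2),
        ((e = 0 ∧ d = 0) ∨ d = (e + 1, e)) →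
          ¬ ((e + 1 = 0 ∧ d = 0) ∨ d = (e + 1 + 1, e + 1))) e d h1.2 h2.2
    · simp only [genH, Prod.mk_add_mk, add_zero, map_add, hpar] at h1 h2
      rw [h1.1] at h2
      exact absurd h2.1 (by decide)
  · calc Z.card ≤ _ := Finset.card_union_le _ _
      _ ≤ U.card + (U ×ˢ (Finset.univ : Finset (κ × κ × ZMod 2))).card :=
        add_le_add Finset.card_image_le
          ((Finset.card_filter_le _ _).trans Finset.card_image_le)
      _ = _ := by
        simp only [Finset.card_product, Finset.card_univ, Fintype.card_prod, ZMod.card, hUc]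
        ring
  · intro u hu
    exact Finset.mem_union_left _ (Finset.mem_image_of_mem _ hu)
  · intro u hu k h
    have h1 := (hU' _ h).1
    rw [map_add, (hU' _ hu).1, hpar] at h1
    exact absurd h1 (by decide)
  · intro u hu k e
    obtain ⟨l, hl⟩ := hc ((e + 1, e) - c k)
    have h1 : lab (u + Pi.single k 1 + Pi.single l 1) = (e + 1, e) := by
      rw [map_add, map_add, (hU' _ hu).2, hlab, hlab, hl]; simp
    refine ⟨l, Finset.mem_union_right _ (Finset.mem_filter.2 ⟨?_, h1⟩), fun h => ?_⟩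
    · exact Finset.mem_image.2 ⟨(u, k, l, e), by simp [hu], rfl⟩
    · rw [(hU' _ h).2] at h1
      exact (by decide : ∀ e : ZMod 2, (0 : ZMod 2 × ZMod 2) ≠ (e + 1, e)) e h1

end Pool.Agent.P.MP_7cff07_gt
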