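import Mathlib

namespace Pool.Agent.P.MP_7cff07_gt

open Finset

variable {H : Type} [Fintype H] [DecidableEq H] {adj : H → H → Prop}

/-- independent sets -/
def Indep (adj : H → H → Prop) (J : Finset H) : Prop := ∀ x ∈ J, ∀ y ∈ J, ¬ adj x y

/-- independent dominating sets -/
def IDS (adj : H → H → Prop) (J : Finset H) : Prop :=
  Indep adj J ∧ ∀ x, x ∉ J → ∃ y ∈ J, adj x y

lemma exists_IDS_superset (hsymm : ∀ x y, adj x y → adj y x) (hirr : ∀ x, ¬ adj x x)
    {S : Finset H} (hS : Indep adj S) : ∃ J, S ⊆ J ∧ IDS adj J := by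
  classical
  obtain ⟨J, hJ, hmax⟩ := Finset.exists_max_image
    (Finset.univ.filter (fun J : Finset H => S ⊆ J ∧ Indep adj J)) Finset.card
    ⟨S, by simp [hS]⟩
  simp only [Finset.mem_filter, Finset.mem_univ, true_and] at hJ hmax
  refine ⟨J, hJ.1, hJ.2, fun x hx => ?_⟩
  by_contra hcon
  push Not at hcon
  have : Indep adj (insert x J) := by
    intro a ha b hb
    rcases Finset.mem_insert.1 ha with rfl | ha' <;> rcases Finset.mem_insert.1 hb with rfl | hb'
    · exact hirr _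
    · exact hcon b hb'
    · exact fun h => hcon a ha' (hsymm _ _ h)
    · exact hJ.2 a ha' b hb'
  have h2 := hmax (insert x J) ⟨hJ.1.trans (Finset.subset_insert _ _), this⟩
  rw [Finset.card_insert_of_notMem hx] at h2
  omega

lemma IDS_move (hsymm : ∀ x y, adj x y → adj y x) (hirr : ∀ x, ¬ adj x x) {D : ℕ}
    (hdeg : ∀ v, ∃ N : Finset H, N.card ≤ D ∧ ∀ w, adj v w → w ∈ N)
    {J : Finset H} (hJ : IDS adj J) (v : H) :
    ∃ J', IDS adj J' ∧ v ∈ J' ∧ (∀ x ∈ J, ¬ adj v x → x ∈ J') ∧ J.card ≤ J'.card + D ∧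
      J'.card ≤ J.card + (D * D + 1) := by
  classical
  choose N hN1 hN2 using hdeg
  have hS : Indep adj (insert v (J.filter (fun x => ¬ adj v x))) := by
    intro a ha b hb
    rcases Finset.mem_insert.1 ha with rfl | ha' <;> rcases Finset.mem_insert.1 hb with rfl | hb'
    · exact hirr _
    · exact (Finset.mem_filter.1 hb').2
    · exact fun h => (Finset.mem_filter.1 ha').2 (hsymm _ _ h)
    · exact hJ.1 a (Finset.mem_filter.1 ha').1 b (Finset.mem_filter.1 hb').1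
  obtain ⟨J', hsub, hJ'⟩ := exists_IDS_superset hsymm hirr hS
  have hv : v ∈ J' := hsub (Finset.mem_insert_self _ _)
  have hkeep : ∀ x ∈ J, ¬ adj v x → x ∈ J' := fun x hx h =>
    hsub (Finset.mem_insert_of_mem (Finset.mem_filter.2 ⟨hx, h⟩))
  refine ⟨J', hJ', hv, hkeep, ?_, ?_⟩
  · have : J ⊆ J' ∪ N v := by
      intro x hx
      by_cases h : adj v x
      · exact Finset.mem_union_right _ (hN2 v x h)
      · exact Finset.mem_union_left _ (hkeep x hx h)
    calc J.card ≤ (J' ∪ N v).card := Finset.card_le_card this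
      _ ≤ J'.card + (N v).card := Finset.card_union_le _ _
      _ ≤ _ := by have := hN1 v; omega
  · have : J' ⊆ J ∪ (N v).biUnion N := by
      intro x hx
      by_cases hxJ : x ∈ J
      · exact Finset.mem_union_left _ hxJ
      obtain ⟨y, hy, hxy⟩ := hJ.2 x hxJ
      have hvy : adj v y := by
        by_contra h
        exact hJ'.1 x hx y (hkeep y hy h) hxy
      exact Finset.mem_union_right _
        (Finset.mem_biUnion.2 ⟨y, hN2 v y hvy, hN2 y x (hsymm _ _ hxy)⟩)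
    calc J'.card ≤ (J ∪ (N v).biUnion N).card := Finset.card_le_card this
      _ ≤ J.card + ((N v).biUnion N).card := Finset.card_union_le _ _
      _ ≤ J.card + (N v).card * D := by
        gcongr
        exact Finset.card_biUnion_le_card_mul _ _ _ (fun a _ => hN1 a)
      _ ≤ J.card + D * D := by gcongr; exact hN1 v
      _ ≤ _ := by omega

lemma IDS_absorb (hsymm : ∀ x y, adj x y → adj y x) (hirr : ∀ x, ¬ adj x x) {D : ℕ}
    (hdeg : ∀ v, ∃ N : Finset H, N.card ≤ D ∧ ∀ w, adj v w → w ∈ N)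
    {A : Finset H} (hA : IDS adj A) (Z : Finset H) (hZ : Indep adj Z) :
    ∃ J, IDS adj J ∧ Z ⊆ J ∧ A.card ≤ J.card + Z.card * D ∧
      J.card ≤ A.card + Z.card * (D * D + 1) := by
  induction Z using Finset.induction_on with
  | empty => exact ⟨A, hA, by simp, by simp, by simp⟩
  | insert v Z hv ih =>
    obtain ⟨J, hJ, hZJ, h1, h2⟩ := ih (fun x hx y hy =>
      hZ x (Finset.mem_insert_of_mem hx) y (Finset.mem_insert_of_mem hy))
    obtain ⟨J', hJ', hvJ', hkeep, h3, h4⟩ := IDS_move hsymm hirr hdeg hJ v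
    refine ⟨J', hJ', ?_, ?_, ?_⟩
    · intro x hx
      rcases Finset.mem_insert.1 hx with rfl | hx'
      · exact hvJ'
      · exact hkeep x (hZJ hx') (hZ v (Finset.mem_insert_self _ _) x hx)
    · rw [Finset.card_insert_of_notMem hv, add_mul]; omega
    · rw [Finset.card_insert_of_notMem hv, add_mul]; omega

lemma IDS_interpolate (hsymm : ∀ x y, adj x y → adj y x) (hirr : ∀ x, ¬ adj x x) {D : ℕ}
    (hdeg : ∀ v, ∃ N : Finset H, N.card ≤ D ∧ ∀ w, adj v w → w ∈ N)
    {A : Finset H} (hA : IDS adj A) {Z : Finset H} (hZA : Z ⊆ A) {q : ℕ} (hq : A.card ≤ q)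
    (k : ℕ) : ∀ J : Finset H, (A \ J).card = k → IDS adj J → Z ⊆ J → q ≤ J.card + D →
      ∃ J', IDS adj J' ∧ Z ⊆ J' ∧ J'.card ≤ q ∧ q ≤ J'.card + D := by
  induction k using Nat.strong_induction_on with
  | _ k ih =>
  intro J hk hJ hZJ hqJ
  by_cases hle : J.card ≤ q
  · exact ⟨J, hJ, hZJ, hle, hqJ⟩
  have hne : (A \ J).Nonempty := by
    rw [Finset.sdiff_nonempty]
    intro hAJ
    have : J ⊆ A := by
      intro x hx
      by_contra hxA
      obtain ⟨y, hy, hxy⟩ := hA.2 x hxA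
      exact hJ.1 x hx y (hAJ hy) hxy
    have := Finset.card_le_card this
    omega
  obtain ⟨v, hv⟩ := hne
  obtain ⟨hvA, hvJ⟩ := Finset.mem_sdiff.1 hv
  obtain ⟨J', hJ', hvJ', hkeep, h3, -⟩ := IDS_move hsymm hirr hdeg hJ v
  refine ih (A \ J').card ?_ J' rfl hJ' ?_ (by omega)
  · rw [← hk]
    apply Finset.card_lt_card
    refine ⟨fun x hx => ?_, fun h => ?_⟩
    · obtain ⟨hxA, hxJ⟩ := Finset.mem_sdiff.1 hx
      exact Finset.mem_sdiff.2 ⟨hxA, fun h => hxJ (hkeep x h (hA.1 v hvA x hxA))⟩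
    · exact (Finset.mem_sdiff.1 (h hv)).2 hvJ'
  · intro x hx
    exact hkeep x (hZJ hx) (hA.1 v hvA x (hZA hx))

theorem exists_IDS_near (hsymm : ∀ x y, adj x y → adj y x) (hirr : ∀ x, ¬ adj x x) {D : ℕ}
    (hdeg : ∀ v, ∃ N : Finset H, N.card ≤ D ∧ ∀ w, adj v w → w ∈ N)
    {A B : Finset H} (hA : IDS adj A) (hB : IDS adj B) {Z : Finset H} (hZ : Indep adj Z) {q : ℕ}
    (h1 : A.card + Z.card * (D * D + 1) ≤ q) (h2 : q + Z.card * D ≤ B.card) :
    ∃ J, IDS adj J ∧ Z ⊆ J ∧ J.card ≤ q ∧ q ≤ J.card + D := by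
  obtain ⟨A', hA', hZA', -, h3⟩ := IDS_absorb hsymm hirr hdeg hA Z hZ
  obtain ⟨B', hB', hZB', h4, -⟩ := IDS_absorb hsymm hirr hdeg hB Z hZ
  exact IDS_interpolate hsymm hirr hdeg hA' hZA' (by omega) _ B' rfl hB' hZB' (by omega)

end Pool.Agent.P.MP_7cff07_gt
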