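import Pool.Agent.P.MP_7cff07_gt.Gadget
import Pool.Agent.P.MP_7cff07_gt.IDS

namespace Pool.Agent.P.MP_7cff07_gt

open Finset

lemma card_filter_mem_of_surjective {G A : Type} [AddCommGroup G] [AddCommGroup A] [Fintype G]
    [Fintype A] [DecidableEq G] [DecidableEq A] (Ψ : G →+ A) (hΨ : Function.Surjective Ψ)
    (S : Finset A) :
    (Finset.univ.filter (fun x => Ψ x ∈ S)).card =
      S.card * (Finset.univ.filter (fun x => Ψ x = 0)).card := by
  rw [Finset.card_eq_sum_card_fiberwise (f := Ψ) (t := S) (by intro x hx; simpa using hx),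
    ← smul_eq_mul, ← Finset.sum_const]
  refine Finset.sum_congr rfl fun a ha => ?_
  obtain ⟨g, rfl⟩ := hΨ a
  refine Finset.card_bij' (fun x _ => x - g) (fun x _ => x + g) ?_ ?_ ?_ ?_
  · intro x hx
    simp only [Finset.mem_filter, Finset.mem_univ, true_and] at hx ⊢
    rw [map_sub, hx.2, sub_self]
  · intro x hx
    simp only [Finset.mem_filter, Finset.mem_univ, true_and] at hx ⊢
    rw [map_add, hx, zero_add]
    exact ⟨ha, rfl⟩
  · intro x _; simp
  · intro x _; simp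

lemma card_ker_mul {G A : Type} [AddCommGroup G] [AddCommGroup A] [Fintype G]
    [Fintype A] [DecidableEq G] [DecidableEq A] (Ψ : G →+ A) (hΨ : Function.Surjective Ψ) :
    Fintype.card A * (Finset.univ.filter (fun x => Ψ x = 0)).card = Fintype.card G := by
  have := card_filter_mem_of_surjective Ψ hΨ Finset.univ
  simp only [Finset.mem_univ, Finset.filter_true, Finset.card_univ] at this
  exact this.symm

variable {ι κ : Type} [Fintype ι] [DecidableEq ι] [Fintype κ] [DecidableEq κ]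

/-- generators of the big cube -/
def genG : Fin 8 ⊕ ι → (Fin 8 → ZMod 2) × (ι → ZMod 2) :=
  Sum.elim (fun i => (Pi.single i 1, 0)) (fun j => (0, Pi.single j 1))

/-- generators of the small cube -/
def genH : Option κ → ZMod 2 × (κ → ZMod 2)
  | none => (1, 0)
  | some k => (0, Pi.single k 1)

/-- adjacency in the small cube -/
def adjH (x y : ZMod 2 × (κ → ZMod 2)) : Prop := ∃ o, y = x + genH o

/-- the data of the covering map between the two cubes -/
structure Cover (ι κ : Type) [DecidableEq ι] [DecidableEq κ] where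
  φ : (ι → ZMod 2) →+ (κ → ZMod 2)
  χ : (ι → ZMod 2) →+ ZMod 2
  θ : (ι → ZMod 2) →+ ZMod 2
  par : (Fin 8 → ZMod 2) →+ ZMod 2
  χg : (Fin 8 → ZMod 2) →+ ZMod 2
  τ : ι → ZMod 2
  γ : ι → κ
  hφ : ∀ j, φ (Pi.single j 1) = Pi.single (γ j) 1
  hboth : ∀ k c, ∃ j, γ j = k ∧ χ (Pi.single j 1) = c
  hφτ : φ τ = 0
  hθτ : θ τ = 1
  hpar : ∀ i, par (Pi.single i 1) = 1
  hpar1 : par 1 = 0
  hbothg : ∀ c, ∃ i, χg (Pi.single i 1) = c
  hχτ : χg 1 + χ τ = 1

/-- a good positive set -/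
structure Good (τ : (Fin 8 → ZMod 2) × (ι → ZMod 2))
    (σ : Finset ((Fin 8 → ZMod 2) × (ι → ZMod 2))) : Prop where
  anti : ∀ x ∈ σ, x + τ ∉ σ
  indep : ∀ x ∈ σ, ∀ i, x + genG i ∉ σ ∧ x + genG i + τ ∉ σ
  dom : ∀ u, u ∉ σ → u + τ ∉ σ → ∃ i, u + genG i ∈ σ

lemma z2_add_self {α : Type} (x : α → ZMod 2) : x + x = 0 := by
  ext i
  simp [CharTwo.add_self_eq_zero]

namespace Cover

variable (C : Cover ι κ)

/-- the covering map -/
def Φ : (Fin 8 → ZMod 2) × (ι → ZMod 2) →+ ZMod 2 × (κ → ZMod 2) := C.par.prodMap C.φ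

/-- the colouring -/
def col : (Fin 8 → ZMod 2) × (ι → ZMod 2) →+ ZMod 2 := C.χg.coprod C.χ

omit [Fintype ι] [Fintype κ] in
lemma Φ_apply (x : (Fin 8 → ZMod 2) × (ι → ZMod 2)) : C.Φ x = (C.par x.1, C.φ x.2) := rfl

omit [Fintype ι] [Fintype κ] in
lemma Φ_tau : C.Φ (1, C.τ) = 0 := by
  rw [Φ_apply, C.hpar1, C.hφτ]; rfl

omit [Fintype ι] [Fintype κ] in
lemma col_tau : C.col (1, C.τ) = 1 := C.hχτ

omit [Fintype ι] [Fintype κ] in
lemma Φ_gen (i : Fin 8 ⊕ ι) : ∃ o, C.Φ (genG i) = genH o := by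
  rcases i with i | j
  · exact ⟨none, by simp [Φ_apply, genG, genH, C.hpar]⟩
  · exact ⟨some (C.γ j), by simp [Φ_apply, genG, genH, C.hφ]⟩

omit [Fintype ι] [Fintype κ] in
lemma exists_lift (o : Option κ) (c : ZMod 2) :
    ∃ i, C.Φ (genG i) = genH o ∧ C.col (genG i) = c := by
  rcases o with _ | k
  · obtain ⟨i, hi⟩ := C.hbothg c
    exact ⟨Sum.inl i, by simp [Φ_apply, genG, genH, C.hpar], by simp [col, genG, hi]⟩
  · obtain ⟨j, hj, hj'⟩ := C.hboth k c
    exact ⟨Sum.inr j, by simp [Φ_apply, genG, genH, C.hφ, hj], by simp [col, genG, hj']⟩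

omit [Fintype ι] in
lemma φ_surjective : Function.Surjective C.φ := by
  intro u
  have hu : u = ∑ k, Pi.single k (u k) := (Finset.univ_sum_single u).symm
  rw [hu]
  refine AddSubgroup.sum_mem C.φ.range fun k _ => ?_
  obtain ⟨j, hj, -⟩ := C.hboth k 0
  rcases (by decide : ∀ c : ZMod 2, c = 0 ∨ c = 1) (u k) with h | h
  · rw [h]; simp
  · rw [h]; exact ⟨Pi.single j 1, by rw [C.hφ, hj]⟩

omit [Fintype ι] in
lemma Φcol_surjective : Function.Surjective (C.Φ.prod C.col) := by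
  rintro ⟨⟨e, u⟩, c⟩
  obtain ⟨x, hx⟩ := C.φ_surjective u
  have h0 : ∀ d : ZMod 2, (((1, 0), d) : (ZMod 2 × (κ → ZMod 2)) × ZMod 2) ∈
      (C.Φ.prod C.col).range := by
    intro d
    obtain ⟨i, h1, h2⟩ := C.exists_lift none d
    exact ⟨genG i, by simp [h1, h2, genH]⟩
  have h1 : (((0, u), C.χ x) : (ZMod 2 × (κ → ZMod 2)) × ZMod 2) ∈ (C.Φ.prod C.col).range :=
    ⟨(0, x), by simp [Φ_apply, col, hx]⟩
  rcases (by decide : ∀ c : ZMod 2, c = 0 ∨ c = 1) e with rfl | rfl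
  · have := AddSubgroup.add_mem _ h1 (AddSubgroup.add_mem _ (h0 0) (h0 (c - C.χ x)))
    convert this using 1
    simp [CharTwo.add_self_eq_zero]
  · have := AddSubgroup.add_mem _ h1 (h0 (c - C.χ x))
    convert this using 1
    simp

omit [Fintype ι] in
lemma φθ_surjective : Function.Surjective (C.φ.prod C.θ) := by
  rintro ⟨u, c⟩
  obtain ⟨x, hx⟩ := C.φ_surjective u
  by_cases h : C.θ x = c
  · exact ⟨x, by simp [hx, h]⟩
  · refine ⟨x + C.τ, ?_⟩
    simp only [AddMonoidHom.prod_apply, map_add, hx, C.hφτ, C.hθτ, add_zero, Prod.mk.injEq,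
      true_and, Prod.mk_add_mk]
    exact (by decide : ∀ a c : ZMod 2, ¬ a = c → a + 1 = c) _ _ h

theorem good_of_sites (J : Finset (ZMod 2 × (κ → ZMod 2))) (U : Finset (κ → ZMod 2))
    (hJ : IDS adjH J) (hU1 : ∀ u ∈ U, ∀ k, u + Pi.single k 1 ∉ U)
    (hU2 : ∀ u ∈ U, ∀ k e, ∃ l, (e, u + Pi.single k 1 + Pi.single l 1) ∈ J ∧
      u + Pi.single k 1 + Pi.single l 1 ∉ U)
    (Ps Ns : (ι → ZMod 2) → Finset (Fin 8 → ZMod 2)) (hval : ∀ x, Valid (Ps x) (Ns x))
    (hanti : ∀ x z, z + 1 ∈ Ps (x + C.τ) ↔ z ∈ Ns x) :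
    Good (1, C.τ) (Finset.univ.filter (fun x : (Fin 8 → ZMod 2) × (ι → ZMod 2) =>
      if C.φ x.2 ∈ U then x.1 ∈ Ps x.2 else (C.Φ x ∈ J ∧ C.col x = 0))) := by
  set σ := (Finset.univ.filter (fun x : (Fin 8 → ZMod 2) × (ι → ZMod 2) =>
      if C.φ x.2 ∈ U then x.1 ∈ Ps x.2 else (C.Φ x ∈ J ∧ C.col x = 0))) with hσ
  have m1 : ∀ x : (Fin 8 → ZMod 2) × (ι → ZMod 2), C.φ x.2 ∈ U → (x ∈ σ ↔ x.1 ∈ Ps x.2) := by
    intro x hx; simp [hσ, hx]
  have m2 : ∀ x : (Fin 8 → ZMod 2) × (ι → ZMod 2), C.φ x.2 ∉ U →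
      (x ∈ σ ↔ C.Φ x ∈ J ∧ C.col x = 0) := by
    intro x hx; simp [hσ, hx]
  have m3 : ∀ x : (Fin 8 → ZMod 2) × (ι → ZMod 2), C.φ x.2 ∈ U →
      (x + (1, C.τ) ∈ σ ↔ x.1 ∈ Ns x.2) := by
    intro x hx
    rw [m1 _ (by simpa [C.hφτ] using hx)]
    exact hanti _ _
  have m4 : ∀ x : (Fin 8 → ZMod 2) × (ι → ZMod 2), C.φ x.2 ∉ U →
      (x + (1, C.τ) ∈ σ ↔ C.Φ x ∈ J ∧ C.col x = 1) := by
    intro x hx
    rw [m2 _ (by simpa [C.hφτ] using hx), map_add, map_add, C.Φ_tau, C.col_tau, add_zero]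
    exact and_congr_right fun _ => (by decide : ∀ a : ZMod 2, a + 1 = 0 ↔ a = 1) _
  have i1 : ∀ x : (Fin 8 → ZMod 2) × (ι → ZMod 2), C.φ x.2 ∈ U →
      ((x ∈ σ ∨ x + (1, C.τ) ∈ σ) ↔ (x.1 ∈ Ps x.2 ∨ x.1 ∈ Ns x.2)) := by
    intro x hx; rw [m1 x hx, m3 x hx]
  have i2 : ∀ x : (Fin 8 → ZMod 2) × (ι → ZMod 2), C.φ x.2 ∉ U →
      ((x ∈ σ ∨ x + (1, C.τ) ∈ σ) ↔ C.Φ x ∈ J) := by
    intro x hx
    rw [m2 x hx, m4 x hx, ← and_or_left]
    exact and_iff_left ((by decide : ∀ a : ZMod 2, a = 0 ∨ a = 1) _)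
  have hnb : ∀ u ∈ U, ∀ k e, (e, u + Pi.single k 1) ∉ J := by
    intro u hu k e hmem
    obtain ⟨l, hl, -⟩ := hU2 u hu k e
    exact hJ.1 _ hmem _ hl ⟨some l, by simp [genH]⟩
  have hind : ∀ x : (Fin 8 → ZMod 2) × (ι → ZMod 2), ∀ i, (x ∈ σ ∨ x + (1, C.τ) ∈ σ) →
      ¬ (x + genG i ∈ σ ∨ x + genG i + (1, C.τ) ∈ σ) := by
    intro x i hx hy
    by_cases hxU : C.φ x.2 ∈ U <;> by_cases hyU : C.φ (x + genG i).2 ∈ U
    · rcases i with i | j
      · rw [i1 _ hxU] at hx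
        rw [i1 _ hyU] at hy
        simp only [genG, Sum.elim_inl, Prod.fst_add, Prod.snd_add, add_zero] at hy
        exact (hval x.2).indep x.1 i hx hy
      · simp only [genG, Sum.elim_inr, Prod.snd_add, map_add, C.hφ] at hyU
        exact hU1 _ hxU _ hyU
    · rcases i with i | j
      · exact hyU (by simpa [genG] using hxU)
      · rw [i2 _ hyU] at hy
        simp only [Φ_apply, genG, Sum.elim_inr, map_add, C.hφ] at hy
        exact hnb _ hxU _ _ hy
    · rcases i with i | j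
      · exact hxU (by simpa [genG] using hyU)
      · rw [i2 _ hxU] at hx
        simp only [genG, Sum.elim_inr, Prod.snd_add, map_add, C.hφ] at hyU
        refine hnb _ hyU (C.γ j) (C.par x.1) ?_
        rwa [add_assoc, z2_add_self, add_zero]
    · rw [i2 _ hxU] at hx
      rw [i2 _ hyU] at hy
      obtain ⟨o, ho⟩ := C.Φ_gen i
      exact hJ.1 _ hx _ hy ⟨o, by rw [map_add, ho]⟩
  refine ⟨?_, ?_, ?_⟩
  · intro x hx hx'
    by_cases hxU : C.φ x.2 ∈ U
    · exact (hval x.2).disj _ ((m1 x hxU).1 hx) ((m3 x hxU).1 hx')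
    · have h1 := ((m2 x hxU).1 hx).2
      have h2 := ((m4 x hxU).1 hx').2
      rw [h1] at h2
      exact zero_ne_one h2
  · intro x hx i
    exact not_or.1 (hind x i (Or.inl hx))
  · intro x hx hx'
    by_cases hxU : C.φ x.2 ∈ U
    · obtain ⟨⟨i, hi⟩, -⟩ := (hval x.2).dom x.1 (fun h => hx ((m1 x hxU).2 h))
        (fun h => hx' ((m3 x hxU).2 h))
      refine ⟨Sum.inl i, (m1 _ (by simpa [genG] using hxU)).2 ?_⟩
      simpa [genG] using hi
    · have hxJ : C.Φ x ∉ J := fun h => (not_or.2 ⟨hx, hx'⟩) ((i2 x hxU).2 h)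
      have : ∃ o, C.Φ x + genH o ∈ J ∧ (C.Φ x + genH o).2 ∉ U := by
        obtain ⟨y, hy, o, rfl⟩ := hJ.2 _ hxJ
        by_cases hyU : (C.Φ x + genH o).2 ∈ U
        · rcases o with _ | k
          · exact absurd (by simpa [genH, Φ_apply] using hyU) hxU
          · obtain ⟨l, hl, hl'⟩ := hU2 _ hyU k (C.par x.1)
            simp only [Φ_apply, genH, Prod.snd_add] at hl hl'
            rw [add_assoc (C.φ x.2), z2_add_self, add_zero] at hl hl'
            exact ⟨some l, by simpa [Φ_apply, genH] using hl, by simpa [Φ_apply, genH] using hl'⟩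
        · exact ⟨o, hy, hyU⟩
      obtain ⟨o, ho, ho'⟩ := this
      obtain ⟨i, hi, hi'⟩ := C.exists_lift o (C.col x)
      rw [← hi, ← map_add] at ho ho'
      refine ⟨i, (m2 (x + genG i) ho').2 ⟨ho, ?_⟩⟩
      rw [map_add, hi', CharTwo.add_self_eq_zero]

theorem card_sites (J : Finset (ZMod 2 × (κ → ZMod 2))) (U : Finset (κ → ZMod 2))
    (hJ : IDS adjH J) (hU0 : ∀ u ∈ U, (0, u) ∈ J)
    (Ps : (ι → ZMod 2) → Finset (Fin 8 → ZMod 2)) :
    (Finset.univ.filter (fun x : (Fin 8 → ZMod 2) × (ι → ZMod 2) =>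
      if C.φ x.2 ∈ U then x.1 ∈ Ps x.2 else (C.Φ x ∈ J ∧ C.col x = 0))).card =
      (J.card - U.card) * (Finset.univ.filter (fun x => (C.Φ.prod C.col) x = 0)).card +
        ∑ x ∈ Finset.univ.filter (fun x => C.φ x ∈ U), (Ps x).card := by
  have hJU : (J.filter (fun y => y.2 ∉ U)).card = J.card - U.card := by
    have h1 : J.filter (fun y => y.2 ∈ U) = U.image (fun u => ((0 : ZMod 2), u)) := by
      ext ⟨e, u⟩
      simp only [Finset.mem_filter, Finset.mem_image, Prod.mk.injEq]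
      constructor
      · rintro ⟨h1, h2⟩
        refine ⟨u, h2, ?_, rfl⟩
        rcases (by decide : ∀ c : ZMod 2, c = 0 ∨ c = 1) e with rfl | rfl
        · rfl
        · exact absurd ⟨none, by simp [genH]⟩ (hJ.1 _ (hU0 u h2) _ h1)
      · rintro ⟨u', hu', rfl, rfl⟩
        exact ⟨hU0 _ hu', hu'⟩
    have h2 := Finset.card_filter_add_card_filter_not (s := J) (fun y => y.2 ∈ U)
    rw [h1, Finset.card_image_of_injective _ (Prod.mk_right_injective _)] at h2
    omega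
  rw [← Finset.card_filter_add_card_filter_not
    (fun x : (Fin 8 → ZMod 2) × (ι → ZMod 2) => C.φ x.2 ∉ U)]
  congr 1
  · rw [← hJU, ← Finset.card_image_of_injective (J.filter (fun y => y.2 ∉ U))
      (Prod.mk_left_injective (0 : ZMod 2)),
      ← card_filter_mem_of_surjective _ C.Φcol_surjective]
    congr 1
    ext x
    simp only [Finset.mem_filter, Finset.mem_univ, true_and, Finset.mem_image,
      AddMonoidHom.prod_apply, Prod.mk.injEq]
    constructor
    · rintro ⟨h1, h2⟩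
      rw [if_neg h2] at h1
      exact ⟨_, ⟨h1.1, h2⟩, rfl, h1.2.symm⟩
    · rintro ⟨y, ⟨h1, h2⟩, rfl, h3⟩
      have h2' : C.φ x.2 ∉ U := h2
      rw [if_neg h2']
      exact ⟨⟨h1, h3.symm⟩, h2'⟩
  · rw [Finset.card_eq_sum_card_fiberwise (f := Prod.snd)
      (t := Finset.univ.filter (fun x => C.φ x ∈ U)) (by intro x hx; simp at hx ⊢; exact hx.2)]
    refine Finset.sum_congr rfl fun x hx => ?_
    have hx' : C.φ x ∈ U := (Finset.mem_filter.1 hx).2
    rw [← Finset.card_image_of_injective (Ps x) (Prod.mk_left_injective x)]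
    congr 1
    ext ⟨z, w⟩
    simp only [Finset.mem_filter, Finset.mem_univ, true_and, Finset.mem_image, Prod.mk.injEq,
      not_not]
    constructor
    · rintro ⟨⟨h1, h2⟩, rfl⟩
      rw [if_pos h2] at h1
      exact ⟨z, h1, rfl, rfl⟩
    · rintro ⟨z', h1, rfl, rfl⟩
      rw [if_pos hx']
      exact ⟨⟨h1, hx'⟩, rfl⟩

theorem exists_good (J : Finset (ZMod 2 × (κ → ZMod 2))) (U : Finset (κ → ZMod 2))
    (hJ : IDS adjH J) (hU0 : ∀ u ∈ U, (0, u) ∈ J) (hU1 : ∀ u ∈ U, ∀ k, u + Pi.single k 1 ∉ U)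
    (hU2 : ∀ u ∈ U, ∀ k e, ∃ l, (e, u + Pi.single k 1 + Pi.single l 1) ∈ J ∧
      u + Pi.single k 1 + Pi.single l 1 ∉ U) (t : ℕ)
    (ht : t ≤ (Finset.univ.filter (fun x => C.φ x ∈ U ∧ C.θ x = 0)).card) :
    ∃ σ, Good (1, C.τ) σ ∧ σ.card =
      (J.card - U.card) * (Finset.univ.filter (fun x => (C.Φ.prod C.col) x = 0)).card +
        68 * (Finset.univ.filter (fun x => C.φ x ∈ U ∧ C.θ x = 0)).card + t := by
  obtain ⟨P, N, hv, hc⟩ := exists_gadget
  obtain ⟨T, hT, hTc⟩ := Finset.exists_subset_card_eq ht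
  let Ps : (ι → ZMod 2) → Finset (Fin 8 → ZMod 2) := fun x =>
    if C.θ x = 0 then P (decide (x ∈ T)) else
      Finset.univ.filter (fun z => z + 1 ∈ N (decide (x + C.τ ∈ T)))
  let Ns : (ι → ZMod 2) → Finset (Fin 8 → ZMod 2) := fun x =>
    if C.θ x = 0 then N (decide (x ∈ T)) else
      Finset.univ.filter (fun z => z + 1 ∈ P (decide (x + C.τ ∈ T)))
  have hflip : ∀ x, C.θ (x + C.τ) = 0 ↔ ¬ C.θ x = 0 := by
    intro x
    rw [map_add, C.hθτ]
    exact (by decide : ∀ a : ZMod 2, a + 1 = 0 ↔ ¬ a = 0) _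
  have hττ : ∀ x : ι → ZMod 2, x + C.τ + C.τ = x := by
    intro x; rw [add_assoc, z2_add_self, add_zero]
  have h11 : ∀ z : Fin 8 → ZMod 2, z + 1 + 1 = z := by
    intro x; rw [add_assoc, z2_add_self, add_zero]
  refine ⟨_, C.good_of_sites J U hJ hU1 hU2 Ps Ns ?_ ?_, ?_⟩
  · intro x
    by_cases h : C.θ x = 0
    · simp only [Ps, Ns, h, if_true]; exact hv _
    · simp only [Ps, Ns, h, if_false]; exact (hv _).swap_shift
  · intro x z
    by_cases h : C.θ x = 0
    · have h' : ¬ C.θ (x + C.τ) = 0 := by rw [hflip]; exact not_not.2 h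
      simp only [Ps, Ns, h, h', if_true, if_false, hττ, Finset.mem_filter, Finset.mem_univ,
        true_and, h11]
    · have h' : C.θ (x + C.τ) = 0 := (hflip x).2 h
      simp only [Ps, Ns, h, h', if_true, if_false, Finset.mem_filter, Finset.mem_univ, true_and]
  · rw [C.card_sites J U hJ hU0 Ps, add_assoc]
    congr 1
    rw [← Finset.sum_filter_add_sum_filter_not _ (fun x => C.θ x = 0), Finset.filter_filter,
      Finset.filter_filter]
    have e1 : ∑ x ∈ Finset.univ.filter (fun x => C.φ x ∈ U ∧ ¬ C.θ x = 0), (Ps x).card =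
        ∑ x ∈ Finset.univ.filter (fun x => C.φ x ∈ U ∧ C.θ x = 0),
          (N (decide (x ∈ T))).card := by
      refine Finset.sum_bij' (fun x _ => x + C.τ) (fun x _ => x + C.τ) ?_ ?_ ?_ ?_ ?_
      · intro x hx
        simp only [Finset.mem_filter, Finset.mem_univ, true_and] at hx ⊢
        exact ⟨by simpa [C.hφτ] using hx.1, (hflip x).2 hx.2⟩
      · intro x hx
        simp only [Finset.mem_filter, Finset.mem_univ, true_and] at hx ⊢
        exact ⟨by simpa [C.hφτ] using hx.1, by rw [hflip]; exact not_not.2 hx.2⟩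
      · intro x _; exact hττ x
      · intro x _; exact hττ x
      · intro x hx
        simp only [Finset.mem_filter, Finset.mem_univ, true_and] at hx
        simp only [Ps, hx.2, if_false]
        refine Finset.card_bij' (fun z _ => z + 1) (fun z _ => z + 1) ?_ ?_ ?_ ?_
        · intro z hz; simpa using hz
        · intro z hz; simpa [h11] using hz
        · intro z _; exact h11 z
        · intro z _; exact h11 z
    have e2 : ∑ x ∈ Finset.univ.filter (fun x => C.φ x ∈ U ∧ C.θ x = 0), (Ps x).card =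
        ∑ x ∈ Finset.univ.filter (fun x => C.φ x ∈ U ∧ C.θ x = 0),
          (P (decide (x ∈ T))).card := by
      refine Finset.sum_congr rfl fun x hx => ?_
      simp only [Finset.mem_filter, Finset.mem_univ, true_and] at hx
      simp only [Ps, hx.2, if_true]
    rw [e1, e2, ← Finset.sum_add_distrib]
    simp only [hc]
    rw [Finset.sum_add_distrib, Finset.sum_const, smul_eq_mul, mul_comm]
    congr 1
    simp only [decide_eq_true_eq]
    rw [Finset.sum_ite_mem, Finset.inter_eq_right.2 hT, Finset.sum_const, smul_eq_mul, mul_one,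
      hTc]

end Cover

end Pool.Agent.P.MP_7cff07_gt
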