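import Mathlib

namespace Pool.Agent.P.MP_7cff07_gt

/-- The simplicial boundary operator on integral chains of finite subsets of a linearly ordered
vertex set; a vertex is sent to the empty simplex (augmentation). -/
noncomputable def boundary (V : Type) [LinearOrder V] :
    (Finset V →₀ ℤ) →ₗ[ℤ] (Finset V →₀ ℤ) :=
  Finsupp.linearCombination ℤ fun σ : Finset V =>
    ∑ v ∈ σ, (-1 : ℤ) ^ (σ.filter (fun w => w < v)).card • Finsupp.single (σ.erase v) (1 : ℤ)

/-- Integral chains supported on the members of `K` with exactly `k` vertices. -/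
noncomputable def chains {V : Type} (K : Set (Finset V)) (k : ℕ) : Submodule ℤ (Finset V →₀ ℤ) :=
  Finsupp.supported ℤ ℤ {σ | σ ∈ K ∧ σ.card = k}

/-- Reduced simplicial homology in degree `q` with integer coefficients: cycles modulo
boundaries. -/
def reducedHomology {V : Type} [LinearOrder V] (K : Set (Finset V)) (q : ℕ) : Type :=
  ↥(chains K (q + 1) ⊓ LinearMap.ker (boundary V)) ⧸
    ((chains K (q + 2)).map (boundary V)).submoduleOf
      (chains K (q + 1) ⊓ LinearMap.ker (boundary V))

/-- The Vietoris-Rips complex at scale `r` of a subset `X` of the cube with Hamming distance. -/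
def VR {n : ℕ} (X : Set (Lex (Fin n → Bool))) (r : ℕ) : Set (Finset (Lex (Fin n → Bool))) :=
  {σ | (↑σ : Set (Lex (Fin n → Bool))) ⊆ X ∧
    ∀ x ∈ σ, ∀ y ∈ σ, hammingDist (ofLex x) (ofLex y) ≤ r}

end Pool.Agent.P.MP_7cff07_gt
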