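import Pool.Agent.P.MP_7cff07_gt.Vanish

namespace Pool.Agent.P.MP_7cff07_gt

open Finset

variable {V : Type} [LinearOrder V] {W : Type} [DecidableEq W]

/-- the mod two functional detecting a simplex of the retract -/
noncomputable def lam (π : V → W) (S : Finset W) : (Finset V →₀ ℤ) →ₗ[ℤ] ZMod 2 :=
  Finsupp.linearCombination ℤ fun τ : Finset V => if τ.image π = S then (1 : ZMod 2) else 0

omit [LinearOrder V] in
lemma lam_single (π : V → W) (S : Finset W) (τ : Finset V) :
    lam π S (Finsupp.single τ 1) = if τ.image π = S then (1 : ZMod 2) else 0 := by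
  simp [lam]

lemma sgn_smul_zmod (σ : Finset V) (v : V) (c : ZMod 2) : sgn σ v • c = c := by
  unfold sgn
  rcases neg_one_pow_eq_or ℤ (σ.filter (fun w => w < v)).card with h | h <;> rw [h]
  · simp
  · simp [CharTwo.neg_eq]

lemma lam_boundary_single {π : V → W} {S : Finset W} {ρ : Finset V}
    (hcard : ρ.card = S.card + 1)
    (hmax : S ⊆ ρ.image π → ∀ v ∈ ρ, π v ∈ S) :
    lam π S (boundary V (Finsupp.single ρ 1)) = 0 := by
  rw [boundary_single, map_sum]
  simp only [map_smul, lam_single, sgn_smul_zmod]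
  rw [Finset.sum_ite, Finset.sum_const_zero, add_zero, Finset.sum_const, nsmul_one]
  rcases (ρ.filter (fun v => (ρ.erase v).image π = S)).eq_empty_or_nonempty with h | ⟨v0, hv0⟩
  · rw [h]; simp
  obtain ⟨hv0ρ, hv0S⟩ := Finset.mem_filter.1 hv0
  have hsub : S ⊆ ρ.image π := by
    rw [← hv0S]; exact Finset.image_subset_image (Finset.erase_subset _ _)
  have hinj : Set.InjOn π ↑(ρ.erase v0) := by
    rw [← Finset.card_image_iff, hv0S, Finset.card_erase_of_mem hv0ρ, hcard]; rfl
  have h1 : π v0 ∈ (ρ.erase v0).image π := by rw [hv0S]; exact hmax hsub v0 hv0ρ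
  obtain ⟨u0, hu0, hu0'⟩ := Finset.mem_image.1 h1
  obtain ⟨hne, hu0ρ⟩ := Finset.mem_erase.1 hu0
  have : ρ.filter (fun v => (ρ.erase v).image π = S) = {v0, u0} := by
    ext v
    simp only [Finset.mem_filter, Finset.mem_insert, Finset.mem_singleton]
    constructor
    · rintro ⟨hvρ, hvS⟩
      by_contra hcon
      push Not at hcon
      have h2 : π v ∈ (ρ.erase v).image π := by rw [hvS]; exact hmax hsub v hvρ
      obtain ⟨u, hu, hu'⟩ := Finset.mem_image.1 h2
      obtain ⟨huv, huρ⟩ := Finset.mem_erase.1 hu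
      have hv' : v ∈ ρ.erase v0 := Finset.mem_erase.2 ⟨hcon.1, hvρ⟩
      by_cases huv0 : u = v0
      · subst huv0
        exact hcon.2 (hinj hv' hu0 (hu'.symm.trans hu0'.symm))
      · exact huv (hinj (Finset.mem_erase.2 ⟨huv0, huρ⟩) hv' hu')
    · rintro (rfl | rfl)
      · exact ⟨hv0ρ, hv0S⟩
      · refine ⟨hu0ρ, ?_⟩
        apply Finset.Subset.antisymm
        · intro w hw
          obtain ⟨u, hu, rfl⟩ := Finset.mem_image.1 hw
          exact hmax hsub u (Finset.mem_of_mem_erase hu)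
        · intro w hw
          rw [← hv0S] at hw
          obtain ⟨u, hu, rfl⟩ := Finset.mem_image.1 hw
          by_cases huv : u = v
          · subst huv
            exact Finset.mem_image.2 ⟨v0, Finset.mem_erase.2 ⟨hne.symm, hv0ρ⟩, hu0'.symm⟩
          · exact Finset.mem_image.2
              ⟨u, Finset.mem_erase.2 ⟨huv, Finset.mem_of_mem_erase hu⟩, rfl⟩
  rw [this, Finset.card_pair hne.symm]
  rfl

theorem nontrivial_of_cross [Fintype V] {close : V → V → Prop} (hrefl : ∀ x, close x x)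
    (hsymm : ∀ x y, close x y → close y x) (X : Set V)
    {cw : W → W → Prop} (XW : Set W) (π : V → W) (s : W → V)
    (hπX : ∀ v ∈ X, π v ∈ XW) (hπ : ∀ u ∈ X, ∀ v ∈ X, close u v → cw (π u) (π v))
    (hsX : ∀ w ∈ XW, s w ∈ X) (hs : ∀ w ∈ XW, ∀ w' ∈ XW, cw w w' → close (s w) (s w'))
    (hπs : ∀ w ∈ XW, π (s w) = w)
    (σ : Finset W) (y : W → W) (hσX : ∀ x ∈ σ, x ∈ XW) (hyX : ∀ x ∈ σ, y x ∈ XW)
    (hxx : ∀ x ∈ σ, ∀ x' ∈ σ, cw x x') (hxy : ∀ x ∈ σ, ∀ x' ∈ σ, x ≠ x' → cw x (y x'))
    (hyy : ∀ x ∈ σ, ∀ x' ∈ σ, cw (y x) (y x')) (hfar : ∀ x ∈ σ, ¬ cw x (y x))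
    (hmax : ∀ w ∈ XW, (∀ x ∈ σ, cw w x) → w ∈ σ)
    (q : ℕ) (hq : σ.card = q + 1) :
    Nontrivial (reducedHomology (Cl close X) q) := by
  classical
  have hyσ : ∀ x ∈ σ, y x ∉ σ := fun x hx h => hfar x hx (hxx x hx _ h)
  have key : ∀ S : Finset W, S ⊆ σ → ∃ z ∈ chains (Cl close
      {v | ∃ x ∈ S, v = s x ∨ v = s (y x)}) S.card, boundary V z = 0 ∧ lam π S z = 1 := by
    intro S
    induction S using Finset.induction_on with
    | empty =>
      intro _
      refine ⟨Finsupp.single ∅ 1, single_mem_supported ⟨⟨by simp, by simp⟩, by simp⟩, ?_, ?_⟩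
      · rw [boundary_single]; simp
      · rw [lam_single]; simp
    | insert x S hx ih =>
      intro hS
      have hxσ : x ∈ σ := hS (Finset.mem_insert_self _ _)
      have hSσ : S ⊆ σ := (Finset.subset_insert _ _).trans hS
      obtain ⟨z, hz, hz0, hz1⟩ := ih hSσ
      have hsub : {v | ∃ x ∈ S, v = s x ∨ v = s (y x)} ⊆
          {v | ∃ x' ∈ insert x S, v = s x' ∨ v = s (y x')} := by
        rintro v ⟨x', hx', h⟩
        exact ⟨x', Finset.mem_insert_of_mem hx', h⟩
      have hc1 : ∀ v ∈ {v | ∃ x ∈ S, v = s x ∨ v = s (y x)}, close (s x) v := by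
        rintro v ⟨x', hx', rfl | rfl⟩
        · exact hs _ (hσX _ hxσ) _ (hσX _ (hSσ hx')) (hxx _ hxσ _ (hSσ hx'))
        · exact hs _ (hσX _ hxσ) _ (hyX _ (hSσ hx'))
            (hxy _ hxσ _ (hSσ hx') (by rintro rfl; exact hx hx'))
      have hc2 : ∀ v ∈ {v | ∃ x ∈ S, v = s x ∨ v = s (y x)}, close (s (y x)) v := by
        rintro v ⟨x', hx', rfl | rfl⟩
        · exact hsymm _ _ (hs _ (hσX _ (hSσ hx')) _ (hyX _ hxσ)
            (hxy _ (hSσ hx') _ hxσ (by rintro rfl; exact hx hx')))
        · exact hs _ (hyX _ hxσ) _ (hyX _ (hSσ hx')) (hyy _ hxσ _ (hSσ hx'))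
      refine ⟨cone (s x) z - cone (s (y x)) z, ?_, ?_, ?_⟩
      · rw [Finset.card_insert_of_notMem hx]
        exact Submodule.sub_mem _
          (cone_mem_chains hrefl hsymm hsub ⟨x, Finset.mem_insert_self _ _, Or.inl rfl⟩ hc1 hz)
          (cone_mem_chains hrefl hsymm hsub ⟨x, Finset.mem_insert_self _ _, Or.inr rfl⟩ hc2 hz)
      · rw [map_sub, boundary_cone, boundary_cone, hz0]; simp
      · have e1 : lam π (insert x S) (cone (s (y x)) z) = 0 := by
          refine eq_on_supported (lam π (insert x S) ∘ₗ cone (s (y x))) 0 ?_ hz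
          rintro τ -
          rw [LinearMap.comp_apply, cone_single]
          split_ifs with h
          · simp
          · rw [map_smul, lam_single, if_neg]
            · simp
            · intro himg
              have : π (s (y x)) ∈ (insert (s (y x)) τ).image π :=
                Finset.mem_image_of_mem _ (Finset.mem_insert_self _ _)
              rw [himg, hπs _ (hyX _ hxσ)] at this
              exact hyσ x hxσ (hS this)
        have e2 : lam π (insert x S) (cone (s x) z) = lam π S z := by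
          refine eq_on_supported (lam π (insert x S) ∘ₗ cone (s x)) (lam π S) ?_ hz
          rintro τ ⟨⟨hτ, -⟩, -⟩
          have hxτ : x ∉ τ.image π := by
            intro h
            obtain ⟨v, hv, hv'⟩ := Finset.mem_image.1 h
            obtain ⟨x', hx', rfl | rfl⟩ := hτ hv
            · rw [hπs _ (hσX _ (hSσ hx'))] at hv'
              exact hx (hv' ▸ hx')
            · rw [hπs _ (hyX _ (hSσ hx'))] at hv'
              exact hyσ x' (hSσ hx') (hv' ▸ hxσ)
          have hsx : s x ∉ τ := fun h => hxτ (Finset.mem_image.2 ⟨_, h, hπs _ (hσX _ hxσ)⟩)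
          rw [LinearMap.comp_apply, cone_single, if_neg hsx, map_smul, sgn_smul_zmod, lam_single,
            lam_single, Finset.image_insert, hπs _ (hσX _ hxσ)]
          congr 1
          apply propext
          constructor
          · intro h
            rw [← Finset.erase_insert hxτ, h, Finset.erase_insert hx]
          · intro h; rw [h]
        rw [map_sub, e1, e2, hz1, sub_zero]
  obtain ⟨z, hz, hz0, hz1⟩ := key σ subset_rfl
  rw [nontrivial_reducedHomology_iff]
  refine ⟨z, ?_, hz0, ?_⟩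
  · rw [← hq]
    refine chains_mono ?_ hz
    rintro v ⟨x, hx, rfl | rfl⟩
    · exact hsX _ (hσX _ hx)
    · exact hsX _ (hyX _ hx)
  · intro c hc hcz
    have : lam π σ (boundary V c) = 0 := by
      refine eq_on_supported (lam π σ ∘ₗ boundary V) 0 ?_ hc
      rintro ρ ⟨⟨hρ1, hρ2⟩, hρ3⟩
      rw [LinearMap.comp_apply, LinearMap.zero_apply]
      refine lam_boundary_single (by omega) ?_
      intro hsub v hv
      refine hmax _ (hπX _ (hρ1 hv)) fun x hx => ?_
      obtain ⟨u, hu, rfl⟩ := Finset.mem_image.1 (hsub hx)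
      exact hπ _ (hρ1 hv) _ (hρ1 hu) (hρ2 v hv u hu)
    rw [hcz, hz1] at this
    exact one_ne_zero this

end Pool.Agent.P.MP_7cff07_gt
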