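import Mathlib

namespace Pool.Agent.P.MP_7cff07_gt

open Finset

variable {ι : Type} [Fintype ι] [DecidableEq ι]

section alg
variable {A : Type} [CommRing A]

/-- flip element of the group algebra -/
noncomputable def gX (A : Type) [CommRing A] (k : ι) : AddMonoidAlgebra A (ι → ZMod 2) :=
  AddMonoidAlgebra.single (Pi.single k 1) 1

/-- the square-zero linear forms -/
noncomputable def ell (J : Finset ι) (a : ι → ι → A) (j : ι) : AddMonoidAlgebra A (ι → ZMod 2) :=
  (1 + gX A j) + ∑ k ∈ J, a j k • (1 + gX A k)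

/-- their product -/
noncomputable def om (J : Finset ι) (a : ι → ι → A) : AddMonoidAlgebra A (ι → ZMod 2) :=
  ∏ j ∈ Jᶜ, ell J a j

omit [Fintype ι] [DecidableEq ι] in
lemma add_self_cube (x : ι → ZMod 2) : x + x = 0 := by
  ext i
  simp [CharTwo.add_self_eq_zero]

omit [Fintype ι] [DecidableEq ι] in
lemma alg_add_self (h2 : ∀ c : A, c + c = 0) (x : AddMonoidAlgebra A (ι → ZMod 2)) :
    x + x = 0 := by
  ext E
  simp [h2]

omit [Fintype ι] in
lemma gX_sq (k : ι) : gX A k * gX A k = 1 := by
  unfold gX
  rw [AddMonoidAlgebra.single_mul_single, add_self_cube, mul_one, AddMonoidAlgebra.one_def]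

omit [Fintype ι] in
lemma y_sq (h2 : ∀ c : A, c + c = 0) (k : ι) : (1 + gX A k) * (1 + gX A k) = 0 := by
  have h := alg_add_self h2 (1 + gX A k)
  have : (1 + gX A k) * (1 + gX A k) = (1 + gX A k) + (gX A k * gX A k + gX A k) := by ring
  rw [this, gX_sq, h]

omit [Fintype ι] in
lemma ell_sq (h2 : ∀ c : A, c + c = 0) (J : Finset ι) (a : ι → ι → A) (j : ι) :
    ell J a j * ell J a j = 0 := by
  have hadd : ∀ x y : AddMonoidAlgebra A (ι → ZMod 2), x * x = 0 → y * y = 0 →
      (x + y) * (x + y) = 0 := by
    intro x y hx hy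
    have : (x + y) * (x + y) = x * x + y * y + (x * y + x * y) := by ring
    rw [this, hx, hy, alg_add_self h2 (x * y)]; simp
  unfold ell
  refine hadd _ _ (y_sq h2 j) ?_
  refine Finset.sum_induction _ (fun x => x * x = 0) hadd (by simp) ?_
  intro k _
  rw [smul_mul_smul_comm, y_sq h2, smul_zero]

/-- low support -/
def Low (s : ℕ) (x : AddMonoidAlgebra A (ι → ZMod 2)) : Prop :=
  ∀ E, s < hammingNorm E → x.coeff E = 0

lemma hammingNorm_add_le' (x y : ι → ZMod 2) :
    hammingNorm (x + y) ≤ hammingNorm x + hammingNorm y := by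
  unfold hammingNorm
  refine le_trans (Finset.card_le_card ?_) (Finset.card_union_le _ _)
  intro i hi
  simp only [Finset.mem_filter, Finset.mem_univ, true_and, Finset.mem_union, Pi.add_apply] at hi ⊢
  by_contra h
  push Not at h
  exact hi (by rw [h.1, h.2, add_zero])

lemma Low.mul {s t : ℕ} {x y : AddMonoidAlgebra A (ι → ZMod 2)} (hx : Low s x) (hy : Low t y) :
    Low (s + t) (x * y) := by
  intro E hE
  rw [AddMonoidAlgebra.coeff_mul_apply_left]
  refine Finset.sum_eq_zero ?_
  intro h hh
  have h1 : hammingNorm h ≤ s := by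
    by_contra hc
    exact (Finsupp.mem_support_iff.1 hh) (hx h (not_le.1 hc))
  have h2 : t < hammingNorm (-h + E) := by
    have := hammingNorm_add_le' h (-h + E)
    rw [add_neg_cancel_left] at this
    omega
  simp [hy _ h2]

lemma low_y (k : ι) : Low 1 (1 + gX A k) := by
  intro E hE
  have h0 : E ≠ 0 := by rintro rfl; simp at hE
  have h1 : Pi.single k 1 ≠ E := by
    rintro rfl
    have : hammingNorm (Pi.single k (1 : ZMod 2) : ι → ZMod 2) ≤ 1 := by
      unfold hammingNorm
      refine le_trans (Finset.card_le_card (t := {k}) fun i hi => ?_) (by simp)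
      simp only [Finset.mem_filter, Finset.mem_univ, true_and] at hi
      by_contra hik
      exact hi (Pi.single_eq_of_ne (by simpa using hik) _)
    omega
  simp [gX, AddMonoidAlgebra.one_def, h0.symm, h1]

lemma low_ell (J : Finset ι) (a : ι → ι → A) (j : ι) : Low 1 (ell J a j) := by
  intro E hE
  unfold ell
  rw [AddMonoidAlgebra.coeff_add, Finsupp.add_apply, low_y j E hE, AddMonoidAlgebra.coeff_sum,
    Finsupp.finsetSum_apply, zero_add]
  refine Finset.sum_eq_zero fun k _ => ?_
  rw [AddMonoidAlgebra.coeff_smul_apply, low_y k E hE, smul_zero]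

lemma low_om (J : Finset ι) (a : ι → ι → A) : Low (Jᶜ.card) (om J a) := by
  unfold om
  generalize Jᶜ = T
  induction T using Finset.induction_on with
  | empty =>
    intro E hE
    have h0 : E ≠ 0 := by rintro rfl; simp at hE
    simp [AddMonoidAlgebra.one_def, h0.symm]
  | insert j T hj ih =>
    rw [Finset.prod_insert hj, Finset.card_insert_of_notMem hj, add_comm]
    exact (low_ell J a j).mul ih

lemma single_mul_om_mem [DecidableEq A] (h2 : ∀ c : A, c + c = 0) (J : Finset ι) (a : ι → ι → A)
    (x : ι → ZMod 2) :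
    AddMonoidAlgebra.single x 1 * om J a ∈ Submodule.span A
      (↑(J.powerset.image (fun S => (∏ k ∈ S, (1 + gX A k)) * om J a)) :
        Set (AddMonoidAlgebra A (ι → ZMod 2))) := by
  set Z := Submodule.span A
      (↑(J.powerset.image (fun S => (∏ k ∈ S, (1 + gX A k)) * om J a)) :
        Set (AddMonoidAlgebra A (ι → ZMod 2))) with hZ
  have hgen : ∀ S ⊆ J, (∏ k ∈ S, (1 + gX A k)) * om J a ∈ Z := by
    intro S hS
    apply Submodule.subset_span
    simp only [Finset.coe_image, Finset.coe_powerset, Set.mem_image]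
    exact ⟨S, hS, rfl⟩
  have hJ : ∀ k ∈ J, ∀ S ⊆ J, (1 + gX A k) * ((∏ k ∈ S, (1 + gX A k)) * om J a) ∈ Z := by
    intro k hk S hS
    by_cases hkS : k ∈ S
    · rw [← Finset.mul_prod_erase S _ hkS, ← mul_assoc, ← mul_assoc, y_sq h2]
      simp
    · rw [← mul_assoc, ← Finset.prod_insert hkS (f := fun k => 1 + gX A k)]
      exact hgen _ (Finset.insert_subset hk hS)
  have hall : ∀ k, ∀ S ⊆ J, (1 + gX A k) * ((∏ k ∈ S, (1 + gX A k)) * om J a) ∈ Z := by
    intro k S hS
    by_cases hk : k ∈ J
    · exact hJ k hk S hS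
    · have h0 : ell J a k * om J a = 0 := by
        unfold om
        rw [← Finset.mul_prod_erase Jᶜ _ (Finset.mem_compl.2 hk), ← mul_assoc, ell_sq h2]
        simp
      have h1 : (1 + gX A k) = ell J a k - ∑ l ∈ J, a k l • (1 + gX A l) := by
        unfold ell; simp
      rw [h1, sub_mul, mul_left_comm, h0, mul_zero, zero_sub, Finset.sum_mul]
      refine Submodule.neg_mem _ (Submodule.sum_mem _ fun l hl => ?_)
      rw [smul_mul_assoc]
      exact Submodule.smul_mem _ _ (hJ l hl S hS)
  have hX : ∀ k, ∀ z ∈ Z, gX A k * z ∈ Z := by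
    intro k z hz
    have hy : (1 + gX A k) * z ∈ Z := by
      have : Z ≤ Z.comap (LinearMap.mulLeft A (1 + gX A k)) := by
        rw [hZ, Submodule.span_le]
        intro u hu
        simp only [Finset.coe_image, Finset.coe_powerset, Set.mem_image] at hu
        obtain ⟨S, hS, rfl⟩ := hu
        exact hall k S hS
      exact this hz
    have : gX A k * z = (1 + gX A k) * z - z := by ring
    rw [this]
    exact Submodule.sub_mem _ hy hz
  have hx : x = ∑ k ∈ Finset.univ.filter (fun k => x k ≠ 0), Pi.single k 1 := by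
    ext i
    rw [Finset.sum_apply]
    simp only [Pi.single_apply, Finset.sum_ite_eq, Finset.mem_filter, Finset.mem_univ, true_and]
    generalize x i = c
    revert c; decide
  rw [hx]
  generalize Finset.univ.filter (fun k => x k ≠ 0) = D
  induction D using Finset.induction_on with
  | empty =>
    have := hgen ∅ (Finset.empty_subset _)
    simpa [AddMonoidAlgebra.one_def] using this
  | insert k D hk ih =>
    rw [Finset.sum_insert hk]
    have := hX k _ ih
    rwa [← mul_assoc, gX, AddMonoidAlgebra.single_mul_single, one_mul] at this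

lemma map_om {B : Type} [CommRing B] (f : A →+* B) (J : Finset ι) (a : ι → ι → A) :
    AddMonoidAlgebra.mapRingHom (ι → ZMod 2) f (om J a) = om J (fun j k => f (a j k)) := by
  unfold om
  rw [map_prod]
  refine Finset.prod_congr rfl fun j _ => ?_
  ext E
  simp [ell, gX, AddMonoidAlgebra.one_def, Finsupp.single_apply]

end alg

lemma exists_coeff_om (J : Finset ι) (E : ι → ZMod 2) (hE : hammingNorm E ≤ Jᶜ.card) :
    ∃ a : ι → ι → ZMod 2, (om J a).coeff E = 1 := by
  classical
  rcases isEmpty_or_nonempty ι with hι | hι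
  · refine ⟨0, ?_⟩
    have h1 : Jᶜ = ∅ := Subsingleton.elim _ _
    have h2 : E = 0 := Subsingleton.elim _ _
    simp [om, h1, h2, AddMonoidAlgebra.one_def]
  set EJ := J.filter (fun k => E k ≠ 0) with hEJ
  set S0 := Jᶜ.filter (fun k => E k ≠ 0) with hS0
  have hcard : EJ.card ≤ (Jᶜ \ S0).card := by
    have h1 : EJ.card + S0.card = hammingNorm E := by
      unfold hammingNorm
      rw [← Finset.card_union_of_disjoint]
      · congr 1; ext i; by_cases hi : i ∈ J <;> simp [hEJ, hS0, hi]
      · exact Finset.disjoint_filter_filter disjoint_compl_right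
    have h2 : (Jᶜ \ S0).card + S0.card = Jᶜ.card :=
      Finset.card_sdiff_add_card_eq_card (Finset.filter_subset _ _)
    omega
  obtain ⟨ψ, hψ1, hψ2⟩ := Set.Finite.exists_injOn_of_encard_le (s := (↑EJ : Set ι))
    (t := (↑(Jᶜ \ S0) : Set ι)) (Finset.finite_toSet _)
    (by simpa only [Set.encard_coe_eq_coe_finsetCard, Nat.cast_le])
  refine ⟨fun j k => if k ∈ EJ ∧ ψ k = j then 1 else 0, ?_⟩
  set b : ι → ι → ZMod 2 := fun j => ∑ k ∈ EJ.filter (fun k => ψ k = j), Pi.single k 1 with hb
  have hell : ∀ j, ell J (fun j k => if k ∈ EJ ∧ ψ k = j then (1 : ZMod 2) else 0) j =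
      AddMonoidAlgebra.single (Pi.single j 1) 1 + AddMonoidAlgebra.single (b j) 1 := by
    intro j
    have h1 : ∑ k ∈ J, (if k ∈ EJ ∧ ψ k = j then (1 : ZMod 2) else 0) • (1 + gX (ZMod 2) k) =
        ∑ k ∈ EJ.filter (fun k => ψ k = j), (1 + gX (ZMod 2) k) := by
      simp only [ite_smul, one_smul, zero_smul]
      rw [← Finset.sum_filter]
      congr 1
      ext k
      simp only [Finset.mem_filter, hEJ]
      tauto
    unfold ell
    rw [h1]
    have h3 : (EJ.filter (fun k => ψ k = j)).card ≤ 1 := by
      rw [Finset.card_le_one]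
      intro k hk l hl
      have hk' := Finset.mem_filter.1 hk
      have hl' := Finset.mem_filter.1 hl
      exact hψ2 hk'.1 hl'.1 (hk'.2.trans hl'.2.symm)
    rcases Finset.card_le_one_iff_subset_singleton.1 h3 with ⟨k, hk⟩
    rcases Finset.subset_singleton_iff.1 hk with h | h
    · simp only [hb, h, Finset.sum_empty, add_zero]
      rw [add_comm]; rfl
    · simp only [hb, h, Finset.sum_singleton]
      have := alg_add_self (ι := ι) (A := ZMod 2) CharTwo.add_self_eq_zero 1
      calc 1 + gX (ZMod 2) j + (1 + gX (ZMod 2) k)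
          = (1 + 1) + (gX (ZMod 2) j + gX (ZMod 2) k) := by ring
        _ = _ := by rw [this, zero_add]; rfl
  unfold om
  simp only [hell]
  rw [Finset.prod_add]
  simp only [AddMonoidAlgebra.prod_single, AddMonoidAlgebra.single_mul_single,
    Finset.prod_const_one, mul_one]
  rw [AddMonoidAlgebra.coeff_sum, Finsupp.finsetSum_apply, Finset.sum_eq_single S0]
  · have h1 : ∑ j ∈ Jᶜ \ S0, b j = ∑ k ∈ EJ, Pi.single k 1 := by
      simp only [hb]
      exact Finset.sum_fiberwise_of_maps_to (fun k hk => hψ1 hk) _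
    have h2 : ∑ j ∈ S0, (Pi.single j 1 : ι → ZMod 2) + ∑ k ∈ EJ, Pi.single k 1 = E := by
      ext i
      simp only [Pi.add_apply, Finset.sum_apply, Pi.single_apply, Finset.sum_ite_eq, hS0, hEJ,
        Finset.mem_filter, Finset.mem_compl]
      by_cases hi : i ∈ J
      · simp only [hi, not_true_eq_false, false_and, if_false, true_and, zero_add]
        generalize E i = c
        revert c; decide
      · simp only [hi, not_false_eq_true, false_and, if_false, true_and, add_zero]
        generalize E i = c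
        revert c; decide
    rw [h1, h2]; simp
  · intro S hS hne
    rw [AddMonoidAlgebra.coeff_single, Finsupp.single_apply, if_neg]
    intro hEq
    apply hne
    ext i
    by_cases hi : i ∈ J
    · have : i ∉ S := fun h => (Finset.mem_compl.1 (Finset.mem_powerset.1 hS h)) hi
      simp [hS0, hi, this]
    · have hbi : ∀ j, b j i = 0 := by
        intro j
        simp only [hb, Finset.sum_apply, Pi.single_apply, Finset.sum_ite_eq, Finset.mem_filter,
          hEJ, hi, false_and, if_false]
      have := congrFun hEq i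
      simp only [Pi.add_apply, Finset.sum_apply, hbi, Finset.sum_const_zero, add_zero,
        Pi.single_apply, Finset.sum_ite_eq] at this
      simp only [hS0, Finset.mem_filter, Finset.mem_compl, hi, not_false_eq_true, true_and, ← this]
      by_cases hiS : i ∈ S <;> simp [hiS]
  · intro h
    exact absurd (Finset.mem_powerset.2 (Finset.filter_subset _ _)) h

lemma hammingNorm_add_one (x y : ι → ZMod 2) :
    hammingNorm (-x + (y + 1)) + hammingDist x y = Fintype.card ι := by
  unfold hammingNorm hammingDist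
  rw [← Finset.card_union_of_disjoint, ← Finset.card_univ]
  · congr 1
    ext i
    simp only [Finset.mem_union, Finset.mem_filter, Finset.mem_univ, true_and, Pi.add_apply,
      Pi.neg_apply, Pi.one_apply, iff_true]
    exact (by decide : ∀ c d : ZMod 2, -c + (d + 1) ≠ 0 ∨ c ≠ d) _ _
  · rw [Finset.disjoint_filter]
    intro i _
    simp only [Pi.add_apply, Pi.neg_apply, Pi.one_apply]
    exact (by decide : ∀ c d : ZMod 2, -c + (d + 1) ≠ 0 → ¬ c ≠ d) _ _

theorem skew_bound (r m : ℕ) (v w : Fin m → ι → ZMod 2)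
    (h1 : ∀ i j, hammingDist (v i) (v j) ≤ r) (h2 : ∀ i, ¬ hammingDist (v i) (w i) ≤ r)
    (h3 : ∀ i j, i < j → hammingDist (v i) (w j) ≤ r) : m ≤ 2 ^ r := by
  classical
  rcases Nat.eq_zero_or_pos m with rfl | hm
  · simp
  have hr : r + 1 ≤ (Finset.univ : Finset ι).card := by
    have := h2 ⟨0, hm⟩
    have h4 := hammingDist_le_card_fintype (x := v ⟨0, hm⟩) (y := w ⟨0, hm⟩)
    rw [Finset.card_univ]; omega
  obtain ⟨J, -, hJ⟩ := Finset.exists_subset_card_eq hr
  have hJc : Jᶜ.card + (r + 1) = Fintype.card ι := by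
    rw [← hJ, add_comm]; exact Finset.card_add_card_compl J
  let A := MvPolynomial (ι × ι) (ZMod 2)
  let a : ι → ι → A := fun j k => MvPolynomial.X (j, k)
  have hA2 : ∀ c : A, c + c = 0 := fun c => CharTwo.add_self_eq_zero c
  let M : (ι → ZMod 2) → (ι → ZMod 2) → A := fun x y => (om J a).coeff (-x + (y + 1))
  have hM0 : ∀ x y, hammingDist x y ≤ r → M x y = 0 := by
    intro x y hxy
    apply low_om
    have := hammingNorm_add_one x y
    omega
  have hM1 : ∀ x y, ¬ hammingDist x y ≤ r → M x y ≠ 0 := by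
    intro x y hxy h0
    obtain ⟨a0, ha0⟩ := exists_coeff_om J (-x + (y + 1)) (by
      have := hammingNorm_add_one x y
      omega)
    have := map_om (MvPolynomial.eval (fun p : ι × ι => a0 p.1 p.2)) J a
    have h5 := congrArg (fun u => u.coeff (-x + (y + 1))) this
    simp only [AddMonoidAlgebra.coeff_mapRingHom, a, MvPolynomial.eval_X] at h5
    change (om J a).coeff (-x + (y + 1)) = 0 at h0
    simp only [a] at h0
    rw [h0, ha0] at h5
    simp at h5
  let p : Fin m ⊕ Fin m → ι → ZMod 2 := Sum.elim v w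
  let q : Fin m ⊕ Fin m → ι → ZMod 2 := Sum.elim w v
  let N : Matrix (Fin m ⊕ Fin m) (Fin m ⊕ Fin m) A := Matrix.of fun s t => M (p s) (q t)
  have hN : N = Matrix.fromBlocks (Matrix.of fun i j => M (v i) (w j)) 0
      (Matrix.of fun i j => M (w i) (w j)) (Matrix.of fun i j => M (w i) (v j)) := by
    ext s t : 2
    rcases s with i | i <;> rcases t with j | j <;> simp [N, p, q, hM0 _ _ (h1 _ _)]
  have hdet : N.det ≠ 0 := by
    rw [hN, Matrix.det_fromBlocks_zero₁₂]
    refine mul_ne_zero ?_ ?_
    · rw [Matrix.det_of_isLowerTriangular]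
      · exact Finset.prod_ne_zero_iff.2 fun i _ => hM1 _ _ (h2 i)
      · intro i j hij
        exact hM0 _ _ (h3 i j hij)
    · rw [Matrix.det_of_isUpperTriangular]
      · exact Finset.prod_ne_zero_iff.2 fun i _ => hM1 _ _ (by rw [hammingDist_comm]; exact h2 i)
      · intro i j hij
        exact hM0 _ _ (by rw [hammingDist_comm]; exact h3 j i hij)
  have hli := Matrix.linearIndependent_rows_of_det_ne_zero hdet
  let L : AddMonoidAlgebra A (ι → ZMod 2) →ₗ[A] (Fin m ⊕ Fin m → A) :=
    LinearMap.pi fun t => (Finsupp.lapply (q t + 1)) ∘ₗ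
      (AddMonoidAlgebra.coeffLinearEquiv A).toLinearMap
  let u : Fin m ⊕ Fin m → AddMonoidAlgebra A (ι → ZMod 2) :=
    fun s => AddMonoidAlgebra.single (p s) 1 * om J a
  have hLu : L ∘ u = fun s => N s := by
    ext s t : 2
    simp [L, u, N, M]
  have hu : LinearIndependent A u := LinearIndependent.of_comp L (by rw [hLu]; exact hli)
  have := linearIndependent_le_span_aux' u hu
    (↑(J.powerset.image (fun S => (∏ k ∈ S, (1 + gX A k)) * om J a)) :
        Set (AddMonoidAlgebra A (ι → ZMod 2))) (by
      rintro _ ⟨s, rfl⟩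
      exact single_mul_om_mem hA2 J a (p s))
  simp only [Fintype.card_sum, Fintype.card_fin, Finset.coe_sort_coe, Fintype.card_coe] at this
  have h6 := Finset.card_image_le (s := J.powerset)
    (f := fun S => (∏ k ∈ S, (1 + gX A k)) * om J a)
  rw [Finset.card_powerset, hJ, pow_succ] at h6
  omega

end Pool.Agent.P.MP_7cff07_gt
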