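import Pool.Agent.P.MP_7cff07_gt.Vanish
import Pool.Agent.P.MP_7cff07_gt.Rank

namespace Pool.Agent.P.MP_7cff07_gt

open Finset

/-- bits as elements of the field with two elements -/
def bz (b : Bool) : ZMod 2 := if b then 1 else 0

lemma bz_injective : Function.Injective bz := by decide

lemma hammingDist_bz {ι : Type} [Fintype ι] (x y : ι → Bool) :
    hammingDist (fun i => bz (x i)) (fun i => bz (y i)) = hammingDist x y :=
  hammingDist_comp (fun _ => bz) (fun _ => bz_injective)

lemma VR_eq {n : ℕ} (X : Set (Lex (Fin n → Bool))) (r : ℕ) :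
    VR X r = Cl (fun x y => hammingDist (ofLex x) (ofLex y) ≤ r) X := rfl

theorem vanish_top (n r q : ℕ) (X : Set (Lex (Fin n → Bool))) (hq : 2 ^ r ≤ q) :
    ¬ Nontrivial (reducedHomology (VR X r) q) := by
  rw [VR_eq]
  refine not_nontrivial_of_not_skew (by simp) (fun x y h => by rwa [hammingDist_comm]) X q ?_
  rintro ⟨v, w, -, -, h1, h2, h3⟩
  have := skew_bound r (q + 1) (fun i k => bz (ofLex (v i) k)) (fun i k => bz (ofLex (w i) k))
    (fun i j => by rw [hammingDist_bz]; exact h1 i j)
    (fun i => by rw [hammingDist_bz]; exact h2 i)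
    (fun i j hij => by rw [hammingDist_bz]; exact h3 i j hij)
  omega

end Pool.Agent.P.MP_7cff07_gt
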