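import Pool.Agent.P.MP_7cff07_gt.Config
import Pool.Agent.P.MP_7cff07_gt.Top
import Pool.Agent.P.MP_7cff07_gt.Nonvanish

namespace Pool.Agent.P.MP_7cff07_gt

open Finset

variable {ι : Type} [Fintype ι] [DecidableEq ι]

lemma hammingNorm_le_one_iff (v : ι → ZMod 2) :
    hammingNorm v ≤ 1 ↔ v = 0 ∨ ∃ j, v = Pi.single j 1 := by
  constructor
  · intro h
    by_cases hv : v = 0
    · exact Or.inl hv
    · right
      obtain ⟨j, hj⟩ := Function.ne_iff.1 hv
      refine ⟨j, ?_⟩
      ext i
      by_cases hi : i = j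
      · subst hi
        rw [Pi.single_eq_same]
        exact (by decide : ∀ c : ZMod 2, c ≠ 0 → c = 1) _ hj
      · rw [Pi.single_eq_of_ne hi]
        by_contra h0
        exact hi (Finset.card_le_one.1 h i (by simpa using h0) j (by simpa using hj))
  · rintro (rfl | ⟨j, rfl⟩)
    · simp
    · unfold hammingNorm
      refine le_trans (Finset.card_le_card (t := {j}) fun i hi => ?_) (by simp)
      simp only [Finset.mem_filter, Finset.mem_univ, true_and] at hi
      by_contra hik
      exact hi (Pi.single_eq_of_ne (by simpa using hik) _)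

omit [Fintype ι] [DecidableEq ι] in
lemma z2_eq_add_iff (a b c : ι → ZMod 2) : a + b = c ↔ a = c + b := by
  constructor
  · rintro rfl; rw [add_assoc, z2_add_self, add_zero]
  · rintro rfl; rw [add_assoc, z2_add_self, add_zero]

lemma far_iff {r : ℕ} (hr : Fintype.card ι = r + 2) (a b : ι → ZMod 2) :
    ¬ hammingDist a b ≤ r ↔ (a + b = 1 ∨ ∃ j, a + b = 1 + Pi.single j 1) := by
  have h1 := hammingNorm_add_one a b
  have h2 : -a + (b + 1) = a + b + 1 := by
    rw [neg_eq_of_add_eq_zero_left (z2_add_self a), add_assoc]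
  rw [h2] at h1
  have h3 : ¬ hammingDist a b ≤ r ↔ hammingNorm (a + b + 1) ≤ 1 := by omega
  rw [h3, hammingNorm_le_one_iff]
  simp only [z2_eq_add_iff (a + b) 1, zero_add, add_comm (1 : ι → ZMod 2)]

lemma exists_twist (τ : ι → ZMod 2) (hτ : τ = 1 ∨ ∃ i, τ = 1 + Pi.single i 1 ∧ ∑ j, τ j = 0) :
    ∃ T : (ι → ZMod 2) →+ (ι → ZMod 2), (∀ y, T (T y) = y) ∧
      ∀ v, (T v = 1 ∨ ∃ j, T v = 1 + Pi.single j 1) ↔ (v = τ ∨ ∃ j, v = τ + Pi.single j 1) := by
  rcases hτ with rfl | ⟨i, hi, hs⟩
  · exact ⟨AddMonoidHom.id _, fun _ => rfl, fun _ => Iff.rfl⟩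
  let T : (ι → ZMod 2) →+ (ι → ZMod 2) := AddMonoidHom.mk'
    (fun y => y + Pi.single i (∑ j, τ j * y j)) (by
      intro x y
      simp only [Pi.add_apply, mul_add, Finset.sum_add_distrib, Pi.single_add]
      abel)
  have hT : ∀ y, T y = y + Pi.single i (∑ j, τ j * y j) := fun _ => rfl
  have hτi : τ i = 0 := by rw [hi]; simp [CharTwo.add_self_eq_zero]
  have hτj : ∀ j, j ≠ i → τ j = 1 := by intro j hj; rw [hi]; simp [hj]
  have h1 : ∀ c, T (Pi.single i c) = Pi.single i c := by
    intro c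
    rw [hT]
    simp [Pi.single_apply, hτi]
  have h2 : ∀ j, j ≠ i → T (Pi.single j 1) = Pi.single j 1 + Pi.single i 1 := by
    intro j hj
    rw [hT]
    simp [Pi.single_apply, hτj j hj]
  have h3 : T τ = τ := by
    rw [hT]
    have : ∑ j, τ j * τ j = 0 := by
      rw [← hs]
      exact Finset.sum_congr rfl fun j _ => (by decide : ∀ c : ZMod 2, c * c = c) _
    rw [this]; simp
  have hTT : ∀ y, T (T y) = y := by
    intro y
    conv_lhs => rw [hT y]
    rw [map_add, h1, hT, add_assoc, z2_add_self, add_zero]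
  have hone : (1 : ι → ZMod 2) = τ + Pi.single i 1 := by
    rw [hi, add_assoc, z2_add_self, add_zero]
  have hiff : ∀ v w, T v = w ↔ v = T w := by
    intro v w
    constructor
    · rintro rfl; exact (hTT v).symm
    · rintro rfl; exact hTT w
  have h4 : T 1 = τ + Pi.single i 1 := by rw [hone, map_add, h3, h1]
  have h5 : T (1 + Pi.single i 1) = τ := by rw [← hi, h3]
  have h6 : ∀ j, j ≠ i → T (1 + Pi.single j 1) = τ + Pi.single j 1 := by
    intro j hj
    rw [map_add, h4, h2 j hj, add_comm (Pi.single j 1), add_assoc, ← add_assoc (Pi.single i 1),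
      z2_add_self, zero_add]
  refine ⟨T, hTT, fun v => ?_⟩
  simp only [hiff]
  constructor
  · rintro (h | ⟨j, h⟩)
    · exact Or.inr ⟨i, h.trans h4⟩
    · by_cases hj : j = i
      · subst hj; exact Or.inl (h.trans h5)
      · exact Or.inr ⟨j, h.trans (h6 j hj)⟩
  · rintro (h | ⟨j, h⟩)
    · exact Or.inr ⟨i, h.trans h5.symm⟩
    · by_cases hj : j = i
      · subst hj; exact Or.inl (h.trans h4.symm)
      · exact Or.inr ⟨j, h.trans (h6 j hj).symm⟩

lemma hammingDist_comp_embedding_le {α β γ : Type} [Fintype α] [Fintype β] [DecidableEq γ]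
    (f : α ↪ β) (x y : β → γ) :
    hammingDist (fun i => x (f i)) (fun i => y (f i)) ≤ hammingDist x y := by
  unfold hammingDist
  refine Finset.card_le_card_of_injOn f ?_ f.injective.injOn
  intro i hi
  simpa using hi

lemma hammingDist_extend_le {α β γ : Type} [Fintype α] [Fintype β] [DecidableEq γ]
    (f : α ↪ β) (x y : α → γ) (c : β → γ) :
    hammingDist (Function.extend f x c) (Function.extend f y c) ≤ hammingDist x y := by
  classical
  unfold hammingDist
  refine le_trans (Finset.card_le_card ?_) (Finset.card_image_le (f := f))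
  intro k hk
  simp only [Finset.mem_filter, Finset.mem_univ, true_and] at hk
  by_cases h : ∃ i, f i = k
  · obtain ⟨i, rfl⟩ := h
    rw [f.injective.extend_apply, f.injective.extend_apply] at hk
    exact Finset.mem_image_of_mem _ (by simpa using hk)
  · rw [Function.extend_apply' _ _ _ h, Function.extend_apply' _ _ _ h] at hk
    exact absurd rfl hk

/-- elements of the field with two elements as bits -/
def zb (c : ZMod 2) : Bool := decide (c = 1)

lemma bz_zb : ∀ c, bz (zb c) = c := by decide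

lemma zb_injective : Function.Injective zb := by decide

/-- nonvanishing from a signed configuration in a cube -/
theorem nontrivial_of_config {r n q : ℕ} (hr : Fintype.card ι = r + 2) (hn : r + 2 ≤ n)
    (τ : ι → ZMod 2) (hτ : τ = 1 ∨ ∃ i, τ = 1 + Pi.single i 1 ∧ ∑ j, τ j = 0)
    (σ : Finset (ι → ZMod 2)) (h1 : ∀ x ∈ σ, x + τ ∉ σ)
    (h2 : ∀ x ∈ σ, ∀ i, x + Pi.single i 1 ∉ σ ∧ x + Pi.single i 1 + τ ∉ σ)
    (h3 : ∀ u, u ∉ σ → u + τ ∉ σ → ∃ i, u + Pi.single i 1 ∈ σ) (hq : σ.card = q + 1) :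
    Nontrivial (reducedHomology (VR (Set.univ : Set (Lex (Fin n → Bool))) r) q) := by
  obtain ⟨T, hTT, hT⟩ := exists_twist τ hτ
  obtain ⟨f⟩ := Function.Embedding.nonempty_of_card_le (α := ι) (β := Fin n) (by simp; omega)
  have hcw : ∀ a b, ¬ hammingDist (T a) (T b) ≤ r ↔
      (b = a + τ ∨ ∃ j, b = a + Pi.single j 1 + τ) := by
    intro a b
    rw [far_iff hr, ← map_add, hT]
    simp only [add_comm a b, z2_eq_add_iff b a]
    refine or_congr (by rw [add_comm]) (exists_congr fun j => ?_)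
    rw [show τ + Pi.single j 1 + a = a + Pi.single j 1 + τ by abel]
  have hττ : ∀ x : ι → ZMod 2, x + τ + τ = x := by
    intro x; rw [add_assoc, z2_add_self, add_zero]
  have hxx : ∀ x ∈ σ, ∀ x' ∈ σ, hammingDist (T x) (T x') ≤ r := by
    intro x hx x' hx'
    by_contra h
    rcases (hcw _ _).1 h with rfl | ⟨j, rfl⟩
    · exact h1 x hx hx'
    · exact (h2 x hx j).2 hx'
  rw [VR_eq]
  refine nontrivial_of_cross (V := Lex (Fin n → Bool)) (by simp) (fun x y h => by rwa [hammingDist_comm]) Set.univ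
    (cw := fun a b => hammingDist (T a) (T b) ≤ r) Set.univ
    (fun v : Lex (Fin n → Bool) => T (fun i => bz (ofLex v (f i))))
    (fun w => toLex (Function.extend f (fun i => zb (T w i)) (fun _ => false)))
    (by simp) ?_ (by simp) ?_ ?_ σ (fun x => x + τ) (by simp) (by simp) hxx ?_ ?_ ?_ ?_ q hq
  · intro u _ v _ h
    simp only [hTT]
    rw [hammingDist_bz (fun i => ofLex u (f i)) (fun i => ofLex v (f i))]
    exact (hammingDist_comp_embedding_le f _ _).trans h
  · intro w _ w' _ h
    simp only [ofLex_toLex]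
    refine (hammingDist_extend_le f _ _ _).trans ?_
    rwa [hammingDist_comp (fun _ => zb) (fun _ => zb_injective)]
  · intro w _
    simp only [ofLex_toLex, f.injective.extend_apply, bz_zb]
    exact hTT w
  · intro x hx x' hx' hne
    by_contra h
    rcases (hcw _ _).1 h with h' | ⟨j, h'⟩
    · exact hne (add_right_cancel h').symm
    · rw [add_right_cancel h'] at hx'
      exact (h2 x hx j).1 hx'
  · intro x hx x' hx'
    by_contra h
    rcases (hcw _ _).1 h with h' | ⟨j, h'⟩
    · rw [add_right_cancel h'] at hx'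
      exact h1 x hx hx'
    · rw [add_right_cancel h', add_right_comm] at hx'
      exact (h2 x hx j).2 hx'
  · intro x _
    exact (hcw _ _).2 (Or.inl rfl)
  · intro w _ hw
    by_contra hwσ
    by_cases h : w + τ ∈ σ
    · exact (hcw _ _).2 (Or.inl rfl) (hw _ h)
    · obtain ⟨i, hi⟩ := h3 (w + τ) h (by rwa [hττ])
      exact (hcw _ _).2 (Or.inr ⟨i, add_right_comm _ _ _⟩) (hw _ hi)

theorem nontrivial_of_good {r n q : ℕ} (hr : Fintype.card ι + 6 = r) (hn : r + 2 ≤ n)
    (τ : ι → ZMod 2) (hτ : τ = 1 ∨ ∃ i, τ = 1 + Pi.single i 1 ∧ ∑ j, τ j = 0)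
    (σ : Finset ((Fin 8 → ZMod 2) × (ι → ZMod 2))) (hσ : Good (1, τ) σ) (hq : σ.card = q + 1) :
    Nontrivial (reducedHomology (VR (Set.univ : Set (Lex (Fin n → Bool))) r) q) := by
  let E : (Fin 8 ⊕ ι → ZMod 2) ≃ (Fin 8 → ZMod 2) × (ι → ZMod 2) :=
    Equiv.sumArrowEquivProdArrow _ _ _
  have hE : ∀ a b, E (a + b) = E a + E b := fun _ _ => rfl
  have hEτ : E (Sum.elim 1 τ) = (1, τ) := rfl
  have hEg : ∀ i, E (Pi.single i 1) = genG i := by
    rintro (i | i)
    · ext j <;> simp [E, genG, Pi.single_apply]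
    · ext j <;> simp [E, genG, Pi.single_apply]
  refine nontrivial_of_config (ι := Fin 8 ⊕ ι) (by simp; omega) hn (Sum.elim 1 τ) ?_
    (Finset.univ.filter (fun x => E x ∈ σ)) ?_ ?_ ?_ ?_
  · rcases hτ with rfl | ⟨i, hi, hs⟩
    · left; ext (j | j) <;> rfl
    · right
      refine ⟨Sum.inr i, ?_, ?_⟩
      · ext (j | j)
        · simp
        · simp [hi, Pi.single_apply]
      · rw [Fintype.sum_sum_type]
        simp only [Sum.elim_inl, Sum.elim_inr, hs, add_zero]
        decide
  · intro x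
    simp only [Finset.mem_filter, Finset.mem_univ, true_and, hE, hEτ]
    exact hσ.anti _
  · intro x hx i
    simp only [Finset.mem_filter, Finset.mem_univ, true_and, hE, hEτ, hEg] at hx ⊢
    exact hσ.indep _ hx i
  · intro x
    simp only [Finset.mem_filter, Finset.mem_univ, true_and, hE, hEτ, hEg]
    exact hσ.dom _
  · rw [← hq]
    exact Finset.card_bij' (fun x _ => E x) (fun x _ => E.symm x) (by simp) (by simp) (by simp)
      (by simp)

end Pool.Agent.P.MP_7cff07_gt
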