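import Pool.Agent.P.MP_7cff07_gt.Coarse
import Pool.Agent.P.MP_7cff07_gt.Transfer

namespace Pool.Agent.P.MP_7cff07_gt

open Finset

section sizes
variable {ι κ : Type} [Fintype ι] [DecidableEq ι] [Fintype κ] [DecidableEq κ]

theorem Cover.sizes (C : Cover ι κ) {h : ℕ} (hh : Fintype.card κ = h) (h4 : 4 ≤ h)
    (hM : 8 * (128 * (h + 2)) ≤ 2 ^ h) :
    ∃ lo F z A : ℕ, 1 ≤ lo ∧ F * 2 ^ h = 2 ^ (Fintype.card ι + 6) ∧ (h + 2) * A ≤ 2 ^ (h + 2) ∧
      z ≤ 128 * (h + 2) * (1 + 2 * h ^ 2) ∧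
      ∀ j, j + F * (A + z * ((h + 1) * (h + 1) + 1) + z * (h + 1)) ≤ F * 2 ^ h →
        ∃ σ, Good (1, C.τ) σ ∧ σ.card = lo + j := by
  obtain ⟨U, Z, hUc, hZ, hZc, hU0, hU1, hU2⟩ := exists_UZ (κ := κ) (128 * (h + 2))
    (by rwa [hh]) (by rwa [hh])
  obtain ⟨A, hA, hAc⟩ := exists_code (κ := κ) (Nat.log 2 (h + 2))
    (Nat.log_pos (by norm_num) (by omega))
    (by rw [hh]; exact Nat.pow_log_le_self 2 (by omega))
  obtain ⟨B, hB, hBc⟩ := exists_code (κ := κ) 1 le_rfl (by omega)
  rw [hh] at hAc hBc hZc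
  have hBc' : B.card = 2 ^ h := by rw [pow_succ 2 h] at hBc; omega
  set F := (Finset.univ.filter (fun x => (C.Φ.prod C.col) x = 0)).card with hF
  set F' := (Finset.univ.filter (fun x => (C.φ.prod C.θ) x = 0)).card with hF'
  set P := (Finset.univ.filter (fun x => C.φ x ∈ U ∧ C.θ x = 0)).card with hP
  have hF1 := card_ker_mul _ C.Φcol_surjective
  have hF2 := card_ker_mul _ C.φθ_surjective
  simp only [Fintype.card_pi, ZMod.card, Finset.prod_const, Finset.card_univ,
    Fintype.card_prod, Fintype.card_fin, hh] at hF1 hF2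
  rw [← hF] at hF1
  rw [← hF'] at hF2
  have hpos : 0 < 2 ^ h := by positivity
  have hFF : F = 128 * F' := by
    apply Nat.eq_of_mul_eq_mul_left (show 0 < 2 * 2 ^ h * 2 by positivity)
    rw [hF1, ← hF2]; ring
  have hPF : P = 128 * (h + 2) * F' := by
    rw [← hUc, ← Finset.card_image_of_injective U (Prod.mk_left_injective (0 : ZMod 2)), hF',
      ← card_filter_mem_of_surjective _ C.φθ_surjective, hP]
    congr 1
    ext x
    simp only [Finset.mem_filter, Finset.mem_univ, true_and, Finset.mem_image,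
      AddMonoidHom.prod_apply, Prod.mk.injEq]
    constructor
    · rintro ⟨h1, h2⟩; exact ⟨_, h1, rfl, h2.symm⟩
    · rintro ⟨u, h1, rfl, h2⟩; exact ⟨h1, h2.symm⟩
  have hF'pos : 0 < F' := by
    rcases Nat.eq_zero_or_pos F' with h0 | h0
    · rw [h0, mul_zero] at hF2
      exact absurd hF2.symm (by positivity)
    · exact h0
  have hFpos : 0 < F := by omega
  have hMz : U.card ≤ Z.card := by
    rw [← Finset.card_image_of_injective U (Prod.mk_right_injective (0 : ZMod 2))]
    refine Finset.card_le_card ?_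
    intro y hy
    obtain ⟨u, hu, rfl⟩ := Finset.mem_image.1 hy
    exact hU0 u hu
  set q0 := A.card + Z.card * ((h + 1) * (h + 1) + 1) with hq0
  have hMq : U.card ≤ q0 := by
    have : Z.card ≤ Z.card * ((h + 1) * (h + 1) + 1) := Nat.le_mul_of_pos_right _ (by omega)
    omega
  refine ⟨68 * P + F * (q0 - U.card), F, Z.card, A.card, ?_, ?_, ?_, hZc, ?_⟩
  · have : 0 < P := by rw [hPF]; positivity
    omega
  · apply Nat.eq_of_mul_eq_mul_left (show 0 < 4 by norm_num)
    calc 4 * (F * 2 ^ h) = 2 * 2 ^ h * 2 * F := by ring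
      _ = _ := by rw [hF1]; ring
  · have h1 := Nat.lt_pow_succ_log_self (b := 2) (by norm_num) (h + 2)
    calc (h + 2) * A.card ≤ 2 ^ (Nat.log 2 (h + 2)).succ * A.card :=
          Nat.mul_le_mul_right _ h1.le
      _ = 2 * (2 ^ Nat.log 2 (h + 2) * A.card) := by rw [Nat.succ_eq_add_one, pow_succ]; ring
      _ = _ := by rw [hAc]; ring
  · intro j hj
    have hdm := Nat.div_add_mod j F
    have hmod := Nat.mod_lt j hFpos
    rw [← hq0] at hj
    generalize j / F = d at hdm
    have hq2 : q0 + d + Z.card * (h + 1) ≤ B.card := by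
      rw [hBc']
      apply Nat.le_of_mul_le_mul_left _ hFpos
      have : F * (q0 + d + Z.card * (h + 1)) = F * d + F * (q0 + Z.card * (h + 1)) := by ring
      omega
    obtain ⟨J, hJ, hZJ, hJ1, hJ2⟩ := exists_IDS_near (adj := adjH) adjH_symm adjH_irrefl
      (D := h + 1) (by intro v; rw [← hh]; exact adjH_deg v) hA hB hZ (q := q0 + d)
      (by omega) hq2
    have hMJ : U.card ≤ J.card := hMz.trans (Finset.card_le_card hZJ)
    obtain ⟨σ, hσ, hσc⟩ := C.exists_good J U hJ (fun u hu => hZJ (hU0 u hu)) hU1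
      (fun u hu k e => by
        obtain ⟨l, hl, hl'⟩ := hU2 u hu k e
        exact ⟨l, hZJ hl, hl'⟩)
      (F * (q0 + d - J.card) + j % F) (by
        rw [← hP]
        have e1 : P = F * (h + 1) + F := by rw [hPF, hFF]; ring
        have e2 : F * (q0 + d - J.card) ≤ F * (h + 1) := Nat.mul_le_mul_left _ (by omega)
        omega)
    refine ⟨σ, hσ, ?_⟩
    rw [hσc, ← hF, ← hP]
    have e3 : (J.card - U.card) * F + F * (q0 + d - J.card) = F * (q0 - U.card) + F * d := by
      rw [mul_comm _ F, ← mul_add, ← mul_add]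
      congr 1
      omega
    omega

end sizes

/-- the concrete covering -/
def mkCover (h e : ℕ) (k0 : Fin h) : Cover ((Fin h ⊕ Fin h) ⊕ Fin e) (Fin h) where
  φ := lin (fun j => Pi.single (Sum.elim (Sum.elim id id) (fun _ => k0) j) 1)
  χ := lin (Sum.elim (Sum.elim 0 1) 0)
  θ := Pi.evalAddMonoidHom (fun _ => ZMod 2) (Sum.inl (Sum.inl k0))
  par := lin (fun _ => 1)
  χg := lin ![1, (h : ZMod 2), 0, 0, 0, 0, 0, 0]
  τ := Sum.elim 1 0
  γ := Sum.elim (Sum.elim id id) (fun _ => k0)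
  hφ j := lin_single _ _
  hboth k c := by
    rcases (by decide : ∀ c : ZMod 2, c = 0 ∨ c = 1) c with rfl | rfl
    · exact ⟨Sum.inl (Sum.inl k), rfl, by rw [lin_single]; rfl⟩
    · exact ⟨Sum.inl (Sum.inr k), rfl, by rw [lin_single]; rfl⟩
  hφτ := by
    simp [lin, Fintype.sum_sum_type, z2_add_self]
  hθτ := rfl
  hpar i := lin_single _ _
  hpar1 := by
    simp only [lin, AddMonoidHom.coe_mk, ZeroHom.coe_mk]
    decide
  hbothg c := by
    rcases (by decide : ∀ c : ZMod 2, c = 0 ∨ c = 1) c with rfl | rfl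
    · exact ⟨2, by rw [lin_single]; rfl⟩
    · exact ⟨0, by rw [lin_single]; rfl⟩
  hχτ := by
    simp [lin, Fintype.sum_sum_type, Fin.sum_univ_succ, add_assoc, CharTwo.add_self_eq_zero]

lemma degrees_subset (n r : ℕ) :
    {q | Nontrivial (reducedHomology (VR (Set.univ : Set (Lex (Fin n → Bool))) r) q)} ⊆
      ↑(Finset.range (2 ^ r)) := by
  intro q hq
  by_contra h
  exact vanish_top n r q _ (by simpa using h) hq

lemma ncard_le (n r : ℕ) :
    {q | Nontrivial (reducedHomology (VR (Set.univ : Set (Lex (Fin n → Bool))) r) q)}.ncard ≤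
      2 ^ r := by
  have := Set.ncard_le_ncard (degrees_subset n r) (Finset.finite_toSet _)
  rwa [Set.ncard_coe_finset, Finset.card_range] at this

lemma pow_six_le (h : ℕ) : h ^ 6 ≤ 6 ^ 6 * 2 ^ h := by
  have h1 : h / 6 + 1 ≤ 2 ^ (h / 6) := Nat.lt_two_pow_self
  have h2 : h ≤ 6 * 2 ^ (h / 6) := by omega
  calc h ^ 6 ≤ (6 * 2 ^ (h / 6)) ^ 6 := Nat.pow_le_pow_left h2 6
    _ = 6 ^ 6 * 2 ^ (h / 6 * 6) := by rw [mul_pow, ← pow_mul]
    _ ≤ 6 ^ 6 * 2 ^ h := by
      gcongr
      · norm_num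
      · omega

lemma big_enough {h : ℕ} (hh : 15 ≤ h) : 8 * (128 * (h + 2)) ≤ 2 ^ h := by
  induction h, hh using Nat.le_induction with
  | base => norm_num
  | succ k hk ih =>
    rw [pow_succ]
    generalize 2 ^ k = p at ih
    nlinarith

theorem lower_bound {n r : ℕ} (hr : 36 ≤ r) (hn : r + 2 ≤ n) :
    r * 2 ^ r ≤ r *
      {q | Nontrivial (reducedHomology (VR (Set.univ : Set (Lex (Fin n → Bool))) r) q)}.ncard +
        4000000000 * 2 ^ r := by
  obtain ⟨h, e, he, hre⟩ : ∃ h e, e ≤ 1 ∧ r = 2 * h + e + 6 :=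
    ⟨(r - 6) / 2, (r - 6) % 2, by omega, by omega⟩
  have h15 : 15 ≤ h := by omega
  let C := mkCover h e ⟨0, by omega⟩
  have hcard : Fintype.card ((Fin h ⊕ Fin h) ⊕ Fin e) + 6 = r := by simp; omega
  have hτ : C.τ = 1 ∨ ∃ i, C.τ = 1 + Pi.single i 1 ∧ ∑ j, C.τ j = 0 := by
    rcases Nat.le_one_iff_eq_zero_or_eq_one.1 he with rfl | rfl
    · left
      ext (j | j)
      · rfl
      · exact j.elim0
    · right
      refine ⟨Sum.inr 0, ?_, ?_⟩
      · ext (j | j)
        · simp [C, mkCover]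
        · have : j = 0 := Subsingleton.elim _ _
          subst this
          simp [C, mkCover, CharTwo.add_self_eq_zero]
      · simp [C, mkCover, Fintype.sum_sum_type, CharTwo.add_self_eq_zero]
  obtain ⟨lo, F, z, A, hlo, hF, hA, hz, hall⟩ := C.sizes (Fintype.card_fin h) (by omega)
    (big_enough h15)
  rw [hcard] at hF
  set E := A + z * ((h + 1) * (h + 1) + 1) + z * (h + 1) with hE
  set S := {q | Nontrivial (reducedHomology (VR (Set.univ : Set (Lex (Fin n → Bool))) r) q)}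
    with hS
  have h1 : F * 2 ^ h - F * E ≤ S.ncard := by
    have hsub : (↑((Finset.range (F * 2 ^ h - F * E)).image (fun j => lo - 1 + j)) : Set ℕ) ⊆
        S := by
      intro q hq
      obtain ⟨j, hj, rfl⟩ := Finset.mem_image.1 hq
      obtain ⟨σ, hσ, hσc⟩ := hall j (by have := Finset.mem_range.1 hj; omega)
      exact nontrivial_of_good hcard hn C.τ hτ σ hσ (by omega)
    have := Set.ncard_le_ncard hsub ((Finset.finite_toSet _).subset (degrees_subset n r))
    rwa [Set.ncard_coe_finset, Finset.card_image_of_injective _ (add_right_injective _),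
      Finset.card_range] at this
  have h2 : r * E ≤ 4000000000 * 2 ^ h := by
    have e1 : r * A ≤ 16 * 2 ^ h := by
      calc r * A ≤ 4 * (h + 2) * A := Nat.mul_le_mul_right _ (by omega)
        _ = 4 * ((h + 2) * A) := by ring
        _ ≤ 4 * 2 ^ (h + 2) := by gcongr
        _ = 16 * 2 ^ h := by ring
    have e2 : r * (z * ((h + 1) * (h + 1) + 1 + (h + 1))) ≤ 72576 * h ^ 6 := by
      have a1 : r ≤ 9 * h := by omega
      have a2 : z ≤ 128 * (3 * h) * (3 * h ^ 2) := by
        refine hz.trans ?_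
        gcongr
        · omega
        · nlinarith
      have a3 : (h + 1) * (h + 1) + 1 + (h + 1) ≤ 7 * h ^ 2 := by nlinarith
      calc r * (z * ((h + 1) * (h + 1) + 1 + (h + 1)))
          ≤ (9 * h) * ((128 * (3 * h) * (3 * h ^ 2)) * (7 * h ^ 2)) := by gcongr
        _ = 72576 * h ^ 6 := by ring
    have e3 := pow_six_le h
    have e4 : r * E = r * A + r * (z * ((h + 1) * (h + 1) + 1 + (h + 1))) := by rw [hE]; ring
    omega
  have h3 : r * (F * E) ≤ 4000000000 * 2 ^ r := by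
    calc r * (F * E) = F * (r * E) := by ring
      _ ≤ F * (4000000000 * 2 ^ h) := by gcongr
      _ = 4000000000 * (F * 2 ^ h) := by ring
      _ = _ := by rw [hF]
  have h4 : 2 ^ r ≤ S.ncard + F * E := by omega
  calc r * 2 ^ r ≤ r * (S.ncard + F * E) := by gcongr
    _ = r * S.ncard + r * (F * E) := by ring
    _ ≤ _ := by omega

theorem asymptotic : ∃ C : ℝ, ∀ r n : ℕ, 1 ≤ r → r + 2 ≤ n →
    |({q | Nontrivial (reducedHomology (VR (Set.univ : Set (Lex (Fin n → Bool))) r) q)}.ncard : ℝ)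
      / 2 ^ r - 1| ≤ C / r := by
  refine ⟨4000000000, fun r n hr hn => ?_⟩
  set N := {q | Nontrivial (reducedHomology (VR (Set.univ : Set (Lex (Fin n → Bool))) r) q)}.ncard
    with hN
  have h1 : (N : ℝ) ≤ 2 ^ r := by exact_mod_cast ncard_le n r
  have h2 : (r : ℝ) * 2 ^ r ≤ r * N + 4000000000 * 2 ^ r := by
    rcases le_or_gt 36 r with h | h
    · exact_mod_cast lower_bound h hn
    · have : (r : ℝ) ≤ 4000000000 := by exact_mod_cast (by omega : r ≤ 4000000000)
      have h3 : (r : ℝ) * 2 ^ r ≤ 4000000000 * 2 ^ r := by gcongr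
      have h4 : (0 : ℝ) ≤ r * N := by positivity
      linarith
  have hp : (0 : ℝ) < 2 ^ r := by positivity
  have hr' : (0 : ℝ) < r := by exact_mod_cast hr
  rw [abs_sub_comm, abs_of_nonneg (by rw [sub_nonneg, div_le_one hp]; exact h1),
    le_div_iff₀ hr', one_sub_div hp.ne', div_mul_eq_mul_div, div_le_iff₀ hp]
  linarith

end Pool.Agent.P.MP_7cff07_gt
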