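import Mathlib

namespace Pool.Agent.P.MP_7cff07_gt

open Finset

/-- binary code of a vertex of the 8-cube -/
def enc (z : Fin 8 → ZMod 2) : ℕ := ∑ i, (z i).val * 2 ^ i.val

/-- positive vertices of the two gadgets -/
def gP (t : Bool) (z : Fin 8 → ZMod 2) : Bool :=
  Nat.testBit (if t then
    57899688741150504529472304668682915987649214792488430268159543490819406708737 else
    456163179598631574790447174936196933142813840994898905661950541843922977) (enc z)

/-- negative vertices of the two gadgets -/
def gN (t : Bool) (z : Fin 8 → ZMod 2) : Bool :=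
  Nat.testBit (if t then
    565447245478537783109062253992378915673037586945962037750201961673881821312 else
    65143651278484401184492796647192009076665259841417308521712907264006656508424) (enc z)

lemma gadget_card : ∀ t : Bool, (Finset.univ.filter (fun z => gP t z = true)).card +
    (Finset.univ.filter (fun z => gN t z = true)).card = 68 + (if t then 1 else 0) := by
  decide +kernel

lemma gadget_disj : ∀ (t : Bool) (z : Fin 8 → ZMod 2), gP t z = true → ¬ gN t z = true := by
  decide +kernel

lemma gadget_indep : ∀ (t : Bool) (z : Fin 8 → ZMod 2) (i : Fin 8),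
    (gP t z = true ∨ gN t z = true) →
      ¬ (gP t (z + Pi.single i 1) = true ∨ gN t (z + Pi.single i 1) = true) := by
  decide +kernel

lemma gadget_dom : ∀ (t : Bool) (z : Fin 8 → ZMod 2), ¬ gP t z = true → ¬ gN t z = true →
    (∃ i, gP t (z + Pi.single i 1) = true) ∧ ∃ i, gN t (z + Pi.single i 1) = true := by
  decide +kernel

/-- a valid signed configuration of the 8-cube -/
structure Valid (P N : Finset (Fin 8 → ZMod 2)) : Prop where
  disj : ∀ z ∈ P, z ∉ N
  indep : ∀ z i, (z ∈ P ∨ z ∈ N) → ¬ (z + Pi.single i 1 ∈ P ∨ z + Pi.single i 1 ∈ N)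
  dom : ∀ z, z ∉ P → z ∉ N → (∃ i, z + Pi.single i 1 ∈ P) ∧ ∃ i, z + Pi.single i 1 ∈ N

theorem exists_gadget : ∃ P N : Bool → Finset (Fin 8 → ZMod 2), (∀ t, Valid (P t) (N t)) ∧
    ∀ t, (P t).card + (N t).card = 68 + (if t then 1 else 0) := by
  refine ⟨fun t => Finset.univ.filter (fun z => gP t z = true),
    fun t => Finset.univ.filter (fun z => gN t z = true), fun t => ⟨?_, ?_, ?_⟩, gadget_card⟩
  · intro z; simpa using gadget_disj t z
  · intro z i; simpa only [Finset.mem_filter, Finset.mem_univ, true_and] using gadget_indep t z i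
  · intro z; simpa only [Finset.mem_filter, Finset.mem_univ, true_and] using gadget_dom t z

lemma Valid.swap_shift {P N : Finset (Fin 8 → ZMod 2)} (h : Valid P N) :
    Valid (Finset.univ.filter (fun z => z + 1 ∈ N)) (Finset.univ.filter (fun z => z + 1 ∈ P)) := by
  refine ⟨?_, ?_, ?_⟩
  · intro z
    simp only [Finset.mem_filter, Finset.mem_univ, true_and]
    exact fun h1 h2 => h.disj _ h2 h1
  · intro z i
    simp only [Finset.mem_filter, Finset.mem_univ, true_and, add_right_comm z _ 1]
    intro h1 h2
    exact h.indep (z + 1) i h1.symm h2.symm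
  · intro z
    simp only [Finset.mem_filter, Finset.mem_univ, true_and, add_right_comm z _ 1]
    intro h1 h2
    exact (h.dom (z + 1) h2 h1).symm

end Pool.Agent.P.MP_7cff07_gt
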