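import Mathlib

namespace Pool.Agent.P.MP_7cff07_gt

open Finset

section count
variable {V C : Type} [Fintype V] [DecidableEq V] [Fintype C] [DecidableEq C]

lemma card_ne_mul (Q : (V → C) → Prop) [DecidablePred Q] (v : V) (γ : C)
    (hQ : ∀ κ δ, Q κ → Q (Function.update κ v δ)) :
    ((univ.filter fun κ => Q κ ∧ κ v ≠ γ).card : ℝ) * Fintype.card C =
      (univ.filter Q).card * (Fintype.card C - 1) := by
  have h1 : ∀ δ, (univ.filter fun κ => Q κ ∧ κ v = δ).card =
      (univ.filter fun κ => Q κ ∧ κ v = γ).card := by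
    intro δ
    refine card_nbij' (fun κ => Function.update κ v γ) (fun κ => Function.update κ v δ) ?_ ?_ ?_ ?_
    · intro κ h; simp only [coe_filter, mem_univ, true_and, Set.mem_ofPred_eq] at h ⊢
      exact ⟨hQ _ _ h.1, by simp⟩
    · intro κ h; simp only [coe_filter, mem_univ, true_and, Set.mem_ofPred_eq] at h ⊢
      exact ⟨hQ _ _ h.1, by simp⟩
    · intro κ h; simp only [coe_filter, mem_univ, true_and, Set.mem_ofPred_eq] at h
      simp [← h.2]
    · intro κ h; simp only [coe_filter, mem_univ, true_and, Set.mem_ofPred_eq] at h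
      simp [← h.2]
  have h2 : (univ.filter Q).card =
      Fintype.card C * (univ.filter fun κ => Q κ ∧ κ v = γ).card := by
    rw [card_eq_sum_card_fiberwise (f := fun κ => κ v) (t := univ) (fun _ _ => mem_univ _)]
    simp only [filter_filter, h1, sum_const, card_univ, smul_eq_mul]
  have h3 := card_filter_add_card_filter_not (s := univ.filter Q) (fun κ => κ v = γ)
  simp only [filter_filter] at h3
  have h4 : ((univ.filter fun κ => Q κ ∧ κ v ≠ γ).card : ℝ) =
      (univ.filter Q).card - (univ.filter fun κ => Q κ ∧ κ v = γ).card := by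
    rw [← h3]; push_cast; ring
  rw [h4, h2]; push_cast; ring

lemma card_avoid (Q : (V → C) → Prop) [DecidablePred Q] (γ : C) (e : Finset V)
    (hQ : ∀ v ∈ e, ∀ κ δ, Q κ → Q (Function.update κ v δ)) :
    ((univ.filter fun κ => Q κ ∧ ∀ v ∈ e, κ v ≠ γ).card : ℝ) * (Fintype.card C : ℝ) ^ e.card =
      (univ.filter Q).card * (Fintype.card C - 1 : ℝ) ^ e.card := by
  induction e using Finset.induction_on with
  | empty => simp
  | insert a e ha ih =>
    have h1 := card_ne_mul (fun κ => Q κ ∧ ∀ v ∈ e, κ v ≠ γ) a γ (fun κ δ h =>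
      ⟨hQ a (mem_insert_self _ _) κ δ h.1, fun v hv => by
        rw [Function.update_of_ne (by rintro rfl; exact ha hv)]; exact h.2 v hv⟩)
    have h2 := ih fun v hv => hQ v (mem_insert_of_mem hv)
    have h3 : (univ.filter fun κ => Q κ ∧ ∀ v ∈ insert a e, κ v ≠ γ) =
        univ.filter fun κ => (Q κ ∧ ∀ v ∈ e, κ v ≠ γ) ∧ κ a ≠ γ := by
      ext κ; simp only [mem_filter, forall_mem_insert]; tauto
    rw [h3, card_insert_of_notMem ha, pow_succ', ← mul_assoc, h1, mul_right_comm, h2]; ring

omit [Fintype V] in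
lemma chain_bound {g : Finset V → ℝ} {θ : ℝ} (hθ : 0 ≤ θ) {n : ℕ}
    (H : ∀ Z : Finset V, Z.card < n → ∀ v ∉ Z, θ * g Z ≤ g (insert v Z)) (Y D : Finset V) :
    Disjoint Y D → (Y ∪ D).card ≤ n → θ ^ D.card * g Y ≤ g (Y ∪ D) := by
  induction D using Finset.induction_on with
  | empty => simp
  | insert a D ha ih =>
    intro hd hc
    rw [disjoint_insert_right] at hd
    have ha' : a ∉ Y ∪ D := by simp [ha, hd.1]
    rw [union_insert, card_insert_of_notMem ha'] at hc
    rw [union_insert, card_insert_of_notMem ha, pow_succ', mul_assoc]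
    exact (mul_le_mul_of_nonneg_left (ih hd.2 (by omega)) hθ).trans (H _ (by omega) a ha')

theorem polychromatic {I : Type} [Fintype I] [Nonempty C] (e : I → Finset V) (L Δ : ℕ)
    (hL : ∀ i, L ≤ (e i).card) (hΔ : ∀ v, (univ.filter fun i => v ∈ e i).card ≤ Δ)
    (hL1 : 1 ≤ L) (hnum : 2 * Δ * (Fintype.card C : ℝ) ^ 2 *
      ((Fintype.card C - 1 : ℝ) / (Fintype.card C - 1 / 2)) ^ L ≤ 1) :
    ∃ κ : V → C, ∀ i γ, ∃ v ∈ e i, κ v = γ := by
  classical
  set s : ℝ := (Fintype.card C : ℝ) with hs
  have hs1 : 1 ≤ s := by rw [hs]; exact_mod_cast Fintype.card_pos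
  let G : Finset V → (V → C) → Prop := fun X κ => ∀ i, e i ⊆ X → ∀ γ, ∃ v ∈ e i, κ v = γ
  let g : Finset V → ℝ := fun X => (univ.filter (G X)).card
  set θ : ℝ := (s - 1 / 2) / s with hθ
  set ρ : ℝ := (s - 1) / (s - 1 / 2) with hρ
  have hθ0 : 0 < θ := div_pos (by linarith) (by linarith)
  have hθ1 : θ ≤ 1 := (div_le_one (by linarith)).2 (by linarith)
  have hρ0 : 0 ≤ ρ := div_nonneg (by linarith) (by linarith)
  have hρ1 : ρ ≤ 1 := (div_le_one (by linarith)).2 (by linarith)
  have hg0 : ∀ X, 0 ≤ g X := fun X => Nat.cast_nonneg _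
  have step : ∀ n, ∀ X : Finset V, X.card = n → ∀ v ∉ X, θ * g X ≤ g (insert v X) := by
    intro n
    induction n using Nat.strong_induction_on with
    | _ n ih =>
    intro X hX v hv
    have bad : ∀ i γ, ((univ.filter fun κ => G (X \ e i) κ ∧ ∀ w ∈ e i, κ w ≠ γ).card : ℝ) ≤
        ρ ^ L * g X := by
      intro i γ
      have h1 := card_avoid (G (X \ e i)) γ (e i) (fun w hw κ δ h j hj γ' => by
        obtain ⟨u, hu, hu'⟩ := h j hj γ'
        refine ⟨u, hu, ?_⟩
        rwa [Function.update_of_ne]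
        rintro rfl
        exact (mem_sdiff.1 (hj hu)).2 hw)
      have h2 := chain_bound (g := g) hθ0.le (n := n) (fun Z hZ => ih _ hZ Z rfl) (X \ e i)
        (X ∩ e i) (disjoint_sdiff_inter _ _) (by rw [sdiff_union_inter, hX])
      rw [sdiff_union_inter] at h2
      have h3 : θ ^ (e i).card * g (X \ e i) ≤ g X :=
        (mul_le_mul_of_nonneg_right (pow_le_pow_of_le_one hθ0.le hθ1
          (card_le_card inter_subset_right)) (hg0 _)).trans h2
      have h4 : ((univ.filter fun κ => G (X \ e i) κ ∧ ∀ w ∈ e i, κ w ≠ γ).card : ℝ) =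
          ρ ^ (e i).card * (θ ^ (e i).card * g (X \ e i)) := by
        have h5 : ρ * θ = (s - 1) / s := by
          have : s - 1 / 2 ≠ 0 := by linarith
          rw [hρ, hθ, div_mul_div_cancel₀ this]
        rw [← mul_assoc, ← mul_pow, h5, div_pow, div_mul_eq_mul_div, eq_div_iff (by positivity),
          h1, mul_comm]
      rw [h4]
      exact mul_le_mul (pow_le_pow_of_le_one hρ0 hρ1 (hL i)) h3
        (mul_nonneg (by positivity) (hg0 _)) (by positivity)
    have hsub : univ.filter (G X) ⊆ univ.filter (G (insert v X)) ∪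
        ((univ.filter fun i => v ∈ e i) ×ˢ (univ : Finset C)).biUnion fun p =>
          univ.filter fun κ => G (X \ e p.1) κ ∧ ∀ w ∈ e p.1, κ w ≠ p.2 := by
      intro κ hκ
      simp only [mem_filter, mem_univ, true_and, mem_union, mem_biUnion, mem_product, and_true,
        Prod.exists] at hκ ⊢
      by_cases h : G (insert v X) κ
      · exact Or.inl h
      right
      simp only [G, not_forall, not_exists, not_and] at h
      obtain ⟨i, hi, γ, hγ⟩ := h
      refine ⟨i, γ, ?_, fun j hj => hκ j (hj.trans sdiff_subset), hγ⟩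
      by_contra hvi
      obtain ⟨u, hu, hu'⟩ := hκ i ((subset_insert_iff_of_notMem hvi).1 hi) γ
      exact hγ u hu hu'
    have h1 : g X ≤ g (insert v X) + Δ * s * (ρ ^ L * g X) := by
      have h2 := (card_le_card hsub).trans ((card_union_le _ _).trans
        (Nat.add_le_add_left card_biUnion_le _))
      have h3 : g X ≤ g (insert v X) + ∑ p ∈ ((univ.filter fun i => v ∈ e i) ×ˢ (univ : Finset C)),
          ((univ.filter fun κ => G (X \ e p.1) κ ∧ ∀ w ∈ e p.1, κ w ≠ p.2).card : ℝ) := by
        simp only [g]; exact_mod_cast h2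
      refine h3.trans (add_le_add_right ((sum_le_card_nsmul _ _ _ fun p _ => bad p.1 p.2).trans ?_) _)
      rw [nsmul_eq_mul, card_product, card_univ]
      refine mul_le_mul_of_nonneg_right ?_ (mul_nonneg (by positivity) (hg0 _))
      push_cast
      exact mul_le_mul_of_nonneg_right (by exact_mod_cast hΔ v) (by linarith)
    have h2 : θ ≤ 1 - Δ * s * ρ ^ L := by
      rw [hθ, div_le_iff₀ (by linarith)]; nlinarith
    have := mul_le_mul_of_nonneg_right h2 (hg0 X)
    nlinarith
  have h1 := chain_bound (g := g) hθ0.le (n := Fintype.card V) (fun Z _ => step _ Z rfl) ∅ univ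
    (by simp) (by simp)
  have h2 : 0 < g ∅ := by
    simp only [g, Nat.cast_pos, card_pos]
    refine ⟨fun _ => Classical.arbitrary C, mem_filter.2 ⟨mem_univ _, fun i hi => ?_⟩⟩
    have := hL i
    rw [subset_empty.1 hi, card_empty] at this
    omega
  have h3 : 0 < g (∅ ∪ univ) := lt_of_lt_of_le (by positivity) h1
  simp only [g, Nat.cast_pos, card_pos, empty_union] at h3
  obtain ⟨κ, hκ⟩ := h3
  exact ⟨κ, fun i => (mem_filter.1 hκ).2 i (subset_univ _)⟩

end count

/-- colourings of a cube in which central vertices see all colours above and below -/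
theorem cube_colouring (C : Type) [Fintype C] [Nonempty C] : ∃ b0 : ℕ, ∀ (B : Type) [Fintype B]
    [DecidableEq B] (a : B), b0 ≤ Fintype.card B → ∃ κ : Finset B → C, ∀ p : Finset B,
      Fintype.card B ≤ 4 * p.card → 4 * p.card ≤ 3 * Fintype.card B → ∀ γ,
        (∃ i ∉ p, i ≠ a ∧ κ (insert i p) = γ) ∧ ∃ i ∈ p, κ (p.erase i) = γ := by
  classical
  set s : ℝ := (Fintype.card C : ℝ) with hs
  have hs1 : 1 ≤ s := by rw [hs]; exact_mod_cast Fintype.card_pos
  set ρ : ℝ := (s - 1) / (s - 1 / 2) with hρ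
  have hρ0 : 0 ≤ ρ := div_nonneg (by linarith) (by linarith)
  have hρ1 : ρ < 1 := (div_lt_one (by linarith)).2 (by linarith)
  have ht := tendsto_self_mul_const_pow_of_lt_one hρ0 hρ1
  obtain ⟨L0, hL0⟩ := Filter.eventually_atTop.1
    (ht.eventually (gt_mem_nhds (show (0 : ℝ) < 1 / (64 * s ^ 2) by positivity)))
  refine ⟨8 * (L0 + 1), fun B _ _ a hb => ?_⟩
  set b := Fintype.card B with hbd
  let e : {p : Finset B // b ≤ 4 * p.card ∧ 4 * p.card ≤ 3 * b} × Bool → Finset (Finset B) :=
    fun q => if q.2 then (q.1.1ᶜ.erase a).image (fun i => insert i q.1.1) else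
      q.1.1.image (q.1.1.erase)
  obtain ⟨κ, hκ⟩ := polychromatic (C := C) e (b / 8) (2 * b) (by
      rintro ⟨⟨p, hp⟩, _ | _⟩
      · simp only [e, Bool.false_eq_true, if_false]
        rw [card_image_of_injOn (erase_injOn p)]; omega
      · simp only [e, if_true]
        rw [card_image_of_injOn]
        · have := pred_card_le_card_erase (s := pᶜ) (a := a)
          rw [card_compl] at this
          omega
        · intro i hi j hj h
          exact insert_inj_on p (by simpa using mem_of_mem_erase hi)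
            (by simpa using mem_of_mem_erase hj) h) (by
      intro v
      calc _ ≤ ((univ : Finset (B × Bool)).image fun q =>
            (if q.2 then v.erase q.1 else insert q.1 v, q.2)).card := by
            refine card_le_card_of_injOn (fun q => (q.1.1, q.2)) ?_ ?_
            · rintro ⟨⟨p, hp⟩, _ | _⟩ h <;>
                simp only [e, coe_filter, mem_univ, true_and, Set.mem_ofPred_eq, if_true,
                  Bool.false_eq_true, if_false, mem_image, mem_compl, mem_erase] at h <;>
                obtain ⟨i, hi, rfl⟩ := h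
              · exact mem_image.2 ⟨(i, false), mem_univ _, by simp [hi]⟩
              · exact mem_image.2 ⟨(i, true), mem_univ _, by simp [hi.2]⟩
            · rintro ⟨⟨p, hp⟩, x⟩ _ ⟨⟨p', hp'⟩, x'⟩ _ h
              simpa using h
        _ ≤ _ := card_image_le.trans (by simp [hbd, mul_comm])) (by omega) (by
      have h1 := hL0 (b / 8) (by omega)
      have h2 : (b : ℝ) ≤ 16 * (b / 8 : ℕ) := by exact_mod_cast (by omega : b ≤ 16 * (b / 8))
      rw [lt_div_iff₀ (by positivity)] at h1
      have h3 : 0 ≤ s ^ 2 * ρ ^ (b / 8) := by positivity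
      have := mul_le_mul_of_nonneg_right h2 h3
      push_cast
      nlinarith)
  refine ⟨κ, fun p h1 h2 γ => ⟨?_, ?_⟩⟩
  · obtain ⟨v, hv, hv'⟩ := hκ (⟨p, h1, h2⟩, true) γ
    simp only [e, if_true, mem_image, mem_compl, mem_erase] at hv
    obtain ⟨i, hi, rfl⟩ := hv
    exact ⟨i, hi.2, hi.1, hv'⟩
  · obtain ⟨v, hv, hv'⟩ := hκ (⟨p, h1, h2⟩, false) γ
    simp only [e, Bool.false_eq_true, if_false, mem_image] at hv
    obtain ⟨i, hi, rfl⟩ := hv
    exact ⟨i, hi, hv'⟩

end Pool.Agent.P.MP_7cff07_gt
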