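import Pool.Agent.P.MP_7cff07_gt.SlSparse

namespace Pool.Agent.P.MP_7cff07_gt

open Finset

lemma subset_sum_exact {α : Type} [DecidableEq α] (lo hi : α → ℕ) (K u : ℕ) {T U : Finset α}
    (hU : U ⊆ T) (hK : U.card = K) (hu : u ≤ K) (hhi : ∀ p ∈ T, hi p ≤ K) {n : ℕ}
    (h1 : ∑ p ∈ T, lo p + K * K ≤ n) (h2 : n + K * K ≤ ∑ p ∈ T, hi p) :
    ∃ m : α → ℕ, (∀ p ∈ U, m p = u ∨ m p = u + 1) ∧ (∀ p ∉ U, m p = lo p ∨ m p = hi p) ∧
      ∑ p ∈ T, m p = n := by
  have e1 := sum_sdiff hU (f := lo)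
  have e2 := sum_sdiff hU (f := hi)
  have e3 : ∑ p ∈ U, hi p ≤ K * K := by
    simpa [hK] using sum_le_card_nsmul U hi K fun p hp => hhi p (hU hp)
  have e4 : K * u ≤ K * K := Nat.mul_le_mul_left _ hu
  obtain ⟨m1, a1, a2, a3⟩ := subset_sum lo hi K (T \ U)
    (fun p hp => by have := hhi p (mem_sdiff.1 hp).1; omega) (n - K * u) (by omega) (by omega)
  obtain ⟨m2, b1, b2, b3⟩ := subset_sum (fun _ => u) (fun _ => u + 1) 0 U (fun _ _ => le_rfl)
    (n - ∑ p ∈ T \ U, m1 p) (by simp [hK]; omega) (by simp [hK, mul_add]; omega)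
  refine ⟨fun p => if p ∈ U then m2 p else m1 p, fun p hp => by simpa [hp] using b1 p,
    fun p hp => by simpa [hp] using a1 p, ?_⟩
  have c1 : ∑ p ∈ T \ U, (if p ∈ U then m2 p else m1 p) = ∑ p ∈ T \ U, m1 p :=
    sum_congr rfl fun p hp => if_neg (mem_sdiff.1 hp).2
  have c2 : ∑ p ∈ U, (if p ∈ U then m2 p else m1 p) = ∑ p ∈ U, m2 p :=
    sum_congr rfl fun p hp => if_pos hp
  rw [← sum_sdiff hU, c1, c2]
  omega

lemma rout_add {e b t c1 c2 : ℕ} (ht : e ≤ t) (hc : c2 + 1 ≤ e) :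
    Rout e b c1 c2 t + ∑ j ∈ Icc c1 (c2 + 1), e.choose j * b.choose (t - j) =
      (e + b).choose t := by
  rw [vdm ht, ← sum_filter_add_sum_filter_not (range (e + 1)) (Areg c1 c2), Rout, sum_filter]
  congr 1
  · refine sum_congr rfl fun j hj => ?_
    have : j ≤ t := by have := mem_range.1 hj; omega
    simp [this]
  · refine sum_congr ?_ fun _ _ => rfl
    ext j
    rw [mem_Icc, mem_filter, mem_range]
    unfold Areg
    omega

theorem window (g : ℕ) : ∃ k0 : ℕ, ∀ k, k0 ≤ k → ∀ (i u q : ℕ) (lo : ℕ → ℕ) (α : ℝ), 0 ≤ α →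
    4 * i + 4 ≤ g → Av (Fin (2 * g + 1)) g u → Av (Fin (2 * g + 1)) g (u + 1) →
    (∀ c, g ≤ c + 2 * i → c ≤ g + 2 * i → Av (Fin (2 * g + 1)) c (lo c) ∧
      (lo c : ℝ) ≤ α * (2 * g + 1 + 1).choose (c + 1)) → ∀ A : ℕ,
    A = ∑ j ∈ Icc (g - 2 * i) (g + 2 * i + 1),
      (2 * g + 1).choose j * (2 * k - (2 * g + 1)).choose (k - j) →
    ((2 * k).choose k - 2 * q : ℝ) ≤ (1 - 8 * α) * A - 2 * (2 ^ (2 * g + 1)) ^ 2 →
    13 / 14 * (A : ℝ) + 2 * (2 ^ (2 * g + 1)) ^ 2 ≤ (2 * k).choose k - 2 * q →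
    OAv (Fin (2 * k + 1)) k q := by
  obtain ⟨e, he⟩ : ∃ e, e = 2 * g + 1 := ⟨_, rfl⟩
  rw [← he]
  obtain ⟨b0, hb0⟩ := step_odd e
  refine ⟨b0 + (4 * e + 1) * (3 * e) + 4 * e + 4 + 2 ^ e * 2 ^ e,
    fun k hk i u q lo α hα hi hu hu' hlo A hA h1 h2 => ?_⟩
  obtain ⟨b, hb⟩ : ∃ b, 2 * k = e + b := ⟨2 * k - e, by omega⟩
  rw [show 2 * k - e = b by omega] at hA
  have hr : ∀ i ≤ e, ∀ j ≤ e, b.choose (k - i) ≤ 2 * b.choose (k - j) := fun i hi j hj =>
    ratio_choose (W := e) (by rw [show e + 2 * e = 3 * e by ring]; omega) (by omega) (by omega)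
      hi hj
  have hact : ∀ c, Act (g - 2 * i) (g + 2 * i) c → g ≤ c + 2 * i ∧ c ≤ g + 2 * i := by
    intro c hc; simp only [Act] at hc; omega
  have key := fun m hm => hb0 (Fin (b + 1)) 0 k (g - 2 * i) (g + 2 * i) m (by simp; omega)
    (by omega) (by omega) (by omega) (by omega) (by omega) (by simp; omega) (by simp; omega)
    (by simp; omega) hm
  simp only [Fintype.card_fin, Nat.add_sub_cancel] at key
  have htop : ∀ c, Act (g - 2 * i) (g + 2 * i) c → Av (Fin e) c ((e - 1).choose c) := by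
    intro c hc
    have := hact c hc
    simpa using av_top (ι := Fin e) (c := c) (by simp; omega) (by simp; omega)
  obtain ⟨n0, -, hn0⟩ := key (fun p => (e - 1).choose (k - p.card)) fun p _ hp => htop _ hp
  obtain ⟨R, hR⟩ : ∃ R, Rout e b (g - 2 * i) (g + 2 * i) k = 2 * R :=
    ⟨Rout e b (g - 2 * i) (g + 2 * i) k / 2, by omega⟩
  have hRA := rout_add (e := e) (b := b) (t := k) (c1 := g - 2 * i) (c2 := g + 2 * i) (by omega)
    (by omega)
  rw [← hA, hR, ← hb] at hRA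
  set s : Finset (Fin (b + 1)) := univ.erase 0 with hs
  have hsc : s.card = b := by simp [hs]
  set S := (range (e + 1)).filter (Act (g - 2 * i) (g + 2 * i)) with hS
  set T := s.powerset.filter fun p => Act (g - 2 * i) (g + 2 * i) (k - p.card) with hT
  have hsum : ∀ F : ℕ → ℕ, ∑ p ∈ T, F (k - p.card) = ∑ c ∈ S, b.choose (k - c) * F c := by
    intro F
    rw [hT, hS, sum_filter, sum_filter, sum_sites s (e := e) (by omega) (by omega) (by omega),
      hsc]
  set X := ∑ c ∈ S, e.choose c * b.choose (k - c) with hX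
  have f1 : X ≤ A := by
    rw [hA]
    refine sum_le_sum_of_subset fun c hc => ?_
    have := hact c (mem_filter.1 hc).2
    exact mem_Icc.2 (by omega)
  have f2 : A ≤ 7 * X := by
    have g1 : Icc (g - 2 * i) (g + 2 * i + 1) ⊆ S ∪ S.image (· + 1) := by
      intro j hj
      have := mem_Icc.1 hj
      simp only [hS, mem_union, mem_filter, mem_range, mem_image, Act]
      by_cases hp : j % 2 = (g - 2 * i) % 2
      · left; omega
      · right; exact ⟨j - 1, by omega, by omega⟩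
    have g2 := sum_union_inter (s₁ := S) (s₂ := S.image (· + 1))
      (f := fun j => e.choose j * b.choose (k - j))
    rw [sum_image (fun x _ y _ h => by simpa using h)] at g2
    have g3 : ∑ c ∈ S, e.choose (c + 1) * b.choose (k - (c + 1)) ≤ 6 * X := by
      rw [hX, mul_sum]
      refine sum_le_sum fun c hc => ?_
      have := hact c (mem_filter.1 hc).2
      have a1 : e.choose (c + 1) ≤ 3 * e.choose c := by
        refine Nat.le_of_mul_le_mul_right ?_ (Nat.succ_pos c)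
        rw [Nat.choose_succ_right_eq, mul_comm 3, mul_assoc]
        exact Nat.mul_le_mul_left _ (by omega)
      have := Nat.mul_le_mul a1 (hr (c + 1) (by omega) c (by omega))
      linarith
    have := sum_le_sum_of_subset (f := fun j => e.choose j * b.choose (k - j)) g1
    omega
  have f3 : ((∑ p ∈ T, lo (k - p.card) : ℕ) : ℝ) ≤ 4 * α * X := by
    rw [hsum, hX]
    push_cast
    rw [mul_sum]
    refine sum_le_sum fun c hc => ?_
    have := hact c (mem_filter.1 hc).2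
    have a1 : (e + 1).choose (c + 1) ≤ 4 * e.choose c := by
      refine Nat.le_of_mul_le_mul_right ?_ (Nat.succ_pos c)
      rw [← Nat.add_one_mul_choose_eq, mul_right_comm]
      exact Nat.mul_le_mul_right _ (by omega)
    have a2 : ((e + 1).choose (c + 1) : ℝ) ≤ 4 * e.choose c := by exact_mod_cast a1
    have a3 := (hlo c this.1 this.2).2.trans (mul_le_mul_of_nonneg_left a2 hα)
    have := mul_le_mul_of_nonneg_left a3 (Nat.cast_nonneg (b.choose (k - c)))
    linarith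
  have f4 : X ≤ 4 * ∑ p ∈ T, (e - 1).choose (k - p.card) := by
    rw [hsum, hX, mul_sum]
    refine sum_le_sum fun c hc => ?_
    have := hact c (mem_filter.1 hc).2
    have a1 : e.choose c ≤ 4 * (e - 1).choose c := by
      refine Nat.le_of_mul_le_mul_right ?_ (show 0 < e - c by omega)
      have a2 := Nat.choose_mul_succ_eq (e - 1) c
      rw [show e - 1 + 1 = e by omega] at a2
      rw [← a2, mul_comm 4, mul_assoc]
      exact Nat.mul_le_mul_left _ (by omega)
    have := Nat.mul_le_mul_right (b.choose (k - c)) a1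
    linarith
  obtain ⟨U, hU, hUc⟩ := exists_subset_card_eq (s := powersetCard (k - g) s) (n := 2 ^ e) (by
    rw [card_powersetCard, hsc]
    have a1 : 2 * k ≤ (2 * k).choose k := by
      simpa using Nat.choose_le_middle 1 (2 * k)
    have a2 : (2 * k).choose k ≤ 2 ^ e * (2 * b.choose (k - g)) := by
      rw [hb, vdm (by omega), ← Nat.sum_range_choose, sum_mul]
      exact sum_le_sum fun j hj => Nat.mul_le_mul_left _
        (hr j (by have := mem_range.1 hj; omega) g (by omega))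
    refine Nat.le_of_mul_le_mul_left (c := 2 ^ e) ?_ (by positivity)
    have a3 : 2 ^ e * 2 ^ e ≤ k := by omega
    linarith)
  have hUg : ∀ p ∈ U, k - p.card = g := fun p hp => by
    have := (mem_powersetCard.1 (hU hp)).2; omega
  have hUT : U ⊆ T := fun p hp => mem_filter.2 ⟨mem_powerset.2 (mem_powersetCard.1 (hU hp)).1,
    by rw [hUg p hp]; simp only [Act]; omega⟩
  have c1 : (X : ℝ) ≤ A := by exact_mod_cast f1
  have c2 : (A : ℝ) ≤ 7 * X := by exact_mod_cast f2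
  have c4 : (X : ℝ) ≤ 4 * ((∑ p ∈ T, (e - 1).choose (k - p.card) : ℕ) : ℝ) := by
    exact_mod_cast f4
  have c5 : 2 * (R : ℝ) + A = (2 * k).choose k := by exact_mod_cast hRA
  have c6 := mul_le_mul_of_nonneg_left c1 hα
  have d1 : ∑ p ∈ T, lo (k - p.card) + 2 ^ e * 2 ^ e + R ≤ q := by
    have : ((∑ p ∈ T, lo (k - p.card) : ℕ) : ℝ) + 2 ^ e * 2 ^ e + R ≤ q := by nlinarith
    exact_mod_cast this
  have d2 : q + 2 ^ e * 2 ^ e ≤ ∑ p ∈ T, (e - 1).choose (k - p.card) + R := by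
    have : (q : ℝ) + 2 ^ e * 2 ^ e ≤ ((∑ p ∈ T, (e - 1).choose (k - p.card) : ℕ) : ℝ) + R := by
      nlinarith
    exact_mod_cast this
  obtain ⟨m, m1, m2, m3⟩ := subset_sum_exact (fun p => lo (k - p.card))
    (fun p => (e - 1).choose (k - p.card)) (2 ^ e) u hUT hUc (by simpa using hu.le)
    (fun p hp => by simpa using (htop _ (mem_filter.1 hp).2).le) (n := q - R) (by omega)
    (by omega)
  obtain ⟨n, hn, hn'⟩ := key m fun p _ hp => by
    by_cases h : p ∈ U
    · rw [hUg p h]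
      rcases m1 p h with h | h <;> rw [h] <;> assumption
    · rcases m2 p h with h | h <;> rw [h]
      · exact (hlo _ (hact _ hp).1 (hact _ hp).2).1
      · exact htop _ hp
  rw [← sum_filter, ← hT, m3, hR] at hn'
  obtain rfl : n = q := by omega
  exact hn.congr (by simp; omega)

theorem odd_sizes {ε : ℝ} (hε : 0 < ε) : ∃ k0 : ℕ, ∀ k, k0 ≤ k → ∀ q : ℕ,
    ε * (2 * k).choose k ≤ 2 * q → 2 * q ≤ (1 - ε) * (2 * k).choose k →
    OAv (Fin (2 * k + 1)) k q := by
  obtain ⟨D, hD⟩ := SA_all (show 0 < ε / 224 by positivity)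
  obtain ⟨g1, hg1⟩ := unit_av
  obtain ⟨g2, hg2⟩ := exists_nat_ge (1 / (ε / 432) ^ 2)
  obtain ⟨i, g, a1, a2, a3, a4⟩ := exists_window (D + 2) (show 0 < ε / 4 by positivity) (g1 + g2)
  obtain ⟨u, hu, hu'⟩ := hg1 g (by omega)
  have hδ := choose_small (δ := ε / 432) (by positivity) (g := g) (by
    rw [div_le_iff₀ (by positivity)] at hg2
    have : (g2 : ℝ) ≤ g := by exact_mod_cast (by omega : g2 ≤ g)
    nlinarith [sq_nonneg (ε / 432)])
  obtain ⟨k1, hk1⟩ := window g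
  obtain ⟨e, he⟩ : ∃ e, e = 2 * g + 1 := ⟨_, rfl⟩
  rw [← he] at hk1 hu hu' hδ a4
  have a5 : D * (4 * i + 1 + 1) + 8 * i + 4 ≤ g := by nlinarith
  choose! lo hlo using fun c => hD (4 * i + 1) e c (by omega)
  obtain ⟨k2, hk2⟩ := exists_nat_ge (108 * (2 ^ e) ^ 2 / ε)
  refine ⟨k1 + k2 + (4 * e + 1) * (3 * e) + e, fun k hk q h1 h2 => ?_⟩
  obtain ⟨b, hb⟩ : ∃ b, 2 * k = e + b := ⟨2 * k - e, by omega⟩
  have hr : ∀ i ≤ e, ∀ j ≤ e, b.choose (k - i) ≤ 2 * b.choose (k - j) := fun i hi j hj =>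
    ratio_choose (W := e) (by rw [show e + 2 * e = 3 * e by ring]; omega) (by omega) (by omega)
      hi hj
  set TT : ℝ := ((2 * k).choose k : ℝ) with hTT
  have hT1 : 216 * (2 ^ e) ^ 2 ≤ ε * TT := by
    have b1 : 2 * k2 ≤ (2 * k).choose k :=
      le_trans (show 2 * k2 ≤ 2 * k by omega) (by simpa using Nat.choose_le_middle 1 (2 * k))
    have b2 : 2 * (k2 : ℝ) ≤ TT := by rw [hTT]; exact_mod_cast b1
    rw [div_le_iff₀ hε] at hk2
    nlinarith
  have hK : (0 : ℝ) < (2 ^ e) ^ 2 := by positivity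
  have hT0 : 0 < TT := by
    by_contra h
    have := mul_nonpos_of_nonneg_of_nonpos hε.le (not_lt.1 h)
    linarith
  have hε1 : ε ≤ 1 / 2 := by
    by_contra h
    nlinarith
  let A : ℕ → ℕ := fun i => ∑ j ∈ Icc (g - 2 * i) (g + 2 * i + 1), e.choose j * b.choose (k - j)
  have hF : ∀ j ≤ e, ((e.choose j * b.choose (k - j) : ℕ) : ℝ) ≤ ε / 216 * TT := by
    intro j hj
    have b1 : (2 : ℝ) ^ e * b.choose (k - j) ≤ 2 * TT := by
      rw [hTT, hb]; exact_mod_cast mass_le (by omega) (hr j hj)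
    have b2 := mul_le_mul_of_nonneg_right (hδ j) (Nat.cast_nonneg (b.choose (k - j)))
    push_cast
    nlinarith
  have hsum : ∀ s : Finset ℕ, (∀ j ∈ s, j ≤ e) → s.card ≤ 4 →
      ((∑ j ∈ s, e.choose j * b.choose (k - j) : ℕ) : ℝ) ≤ ε / 54 * TT := by
    intro s hs hc
    rw [Nat.cast_sum]
    refine (sum_le_card_nsmul _ _ _ fun j hj => hF j (hs j hj)).trans ?_
    rw [nsmul_eq_mul]
    have : (s.card : ℝ) ≤ 4 := by exact_mod_cast hc
    nlinarith [mul_pos hε hT0]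
  have hex : ∃ i' ≤ i, TT - 2 * q ≤ (1 - 8 * (ε / 224)) * A i' - 2 * (2 ^ e) ^ 2 := by
    refine ⟨i, le_rfl, ?_⟩
    have b1 := rout_le (b' := b) (c1 := g - 2 * i) (c2 := g + 2 * i) (w := 4 * i + 1) le_rfl
      (show e ≤ k by omega) hr (fun j hj => by simp only [Areg] at hj; omega)
    have b2 := rout_add (e := e) (b := b) (t := k) (c1 := g - 2 * i) (c2 := g + 2 * i) (by omega)
      (by omega)
    rw [← hb] at b1 b2
    have b3 : (Rout e b (g - 2 * i) (g + 2 * i) k : ℝ) + A i = TT := by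
      rw [hTT]; exact_mod_cast b2
    have b4 : (Rout e b (g - 2 * i) (g + 2 * i) k : ℝ) ≤ ε / 4 * TT := by
      refine le_of_mul_le_mul_left ?_ (show (0 : ℝ) < ((4 * i + 1 : ℕ) : ℝ) ^ 2 by positivity)
      have := mul_le_mul_of_nonneg_right a4 hT0.le
      nlinarith
    have b5 : (A i : ℝ) ≤ TT := by
      have : (0 : ℝ) ≤ Rout e b (g - 2 * i) (g + 2 * i) k := Nat.cast_nonneg _
      linarith
    nlinarith [mul_le_mul_of_nonneg_left b5 hε.le]
  classical
  obtain ⟨b1, b2⟩ := Nat.find_spec hex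
  have b3 := fun j => Nat.find_min hex (m := j)
  generalize Nat.find hex = i' at b1 b2 b3
  refine hk1 k (by omega) i' u q lo (ε / 224) (by positivity) (by omega) hu hu'
    (fun c c1 c2 => hlo c (by omega) (by omega)) (A i') (by rw [show 2 * k - e = b by omega]) b2 ?_
  have b4 : (1 - 8 * (ε / 224)) * (A i' - ε / 54 * TT) ≤ TT - 2 * q + 2 * (2 ^ e) ^ 2 := by
    rcases i' with _ | j
    · have := hsum (Icc (g - 2 * 0) (g + 2 * 0 + 1)) (fun j hj => by
        have := mem_Icc.1 hj; omega) (by simp; omega)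
      have b5 : (A 0 : ℝ) - ε / 54 * TT ≤ 0 := by linarith
      have := mul_nonpos_of_nonneg_of_nonpos (show 0 ≤ 1 - 8 * (ε / 224) by linarith) b5
      nlinarith
    · have b5 := b3 j (Nat.lt_succ_self j)
      have b6 : Icc (g - 2 * j) (g + 2 * j + 1) ⊆ Icc (g - 2 * (j + 1)) (g + 2 * (j + 1) + 1) :=
        Icc_subset_Icc (by omega) (by omega)
      have b7 := hsum (Icc (g - 2 * (j + 1)) (g + 2 * (j + 1) + 1) \ Icc (g - 2 * j) (g + 2 * j + 1))
        (fun x hx => by have := mem_Icc.1 (mem_sdiff.1 hx).1; omega)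
        (by rw [card_sdiff_of_subset b6]; simp; omega)
      have b8 := sum_sdiff b6 (f := fun j => e.choose j * b.choose (k - j))
      have b9 : (A (j + 1) : ℝ) - ε / 54 * TT ≤ A j := by
        simp only [A]
        rw [← b8]
        push_cast at b7 ⊢
        linarith
      have := mul_le_mul_of_nonneg_left b9 (show 0 ≤ 1 - 8 * (ε / 224) by linarith)
      have b10 := not_and.1 b5 (by omega)
      linarith
  by_cases b5 : (A i' : ℝ) - ε / 54 * TT ≤ 0
  · nlinarith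
  · have := mul_le_mul_of_nonneg_right (show 27 / 28 ≤ 1 - 8 * (ε / 224) by linarith)
      (not_le.1 b5).le
    nlinarith

theorem nontrivial_slice {n l r q : ℕ} (h1 : r / 2 + 1 ≤ l) (h2 : l + (r / 2 + 1) ≤ n)
    (h3 : 2 * (r / 2) + 3 ≤ n) (h : OAv (Fin (2 * (r / 2 + 1) + 1)) (r / 2 + 1) (q + 1)) :
    Nontrivial (reducedHomology (VR (slice n l) r) q) := by
  obtain ⟨M, σ, h, hq⟩ := h.congr (κ := Fin (2 * (r / 2) + 3)) (by simp; omega)
  rw [VR_eq]
  exact Str.nontrivial (by simp) (fun x y h => by rwa [hammingDist_comm])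
    (fun x y h => h.symm) (ret_odd h1 h2 h3) h hq

theorem slice_asymptotic {ε : ℝ} (hε : 0 < ε) : ∃ r0 : ℕ, ∀ r n l : ℕ, r0 ≤ r → r / 2 + 1 ≤ l →
    l + (r / 2 + 1) ≤ n → 2 * (r / 2) + 3 ≤ n →
    |({q | Nontrivial (reducedHomology (VR (slice n l) r) q)}.ncard : ℝ) /
      (2 * (r / 2) + 1).choose (r / 2) - 1| ≤ ε := by
  obtain ⟨k0, hk0⟩ := odd_sizes (show 0 < ε / 4 by positivity)
  obtain ⟨k1, hk1⟩ := exists_nat_ge (2 / ε)
  refine ⟨2 * (k0 + k1), fun r n l hr h1 h2 h3 => ?_⟩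
  set S := {q | Nontrivial (reducedHomology (VR (slice n l) r) q)} with hS
  set Top := (2 * (r / 2) + 1).choose (r / 2) with hTop
  have e1 : (2 * (r / 2 + 1)).choose (r / 2 + 1) = 2 * Top := by
    rw [show 2 * (r / 2 + 1) = (2 * (r / 2) + 1) + 1 by ring, Nat.choose_succ_succ',
      Nat.choose_symm_half]; ring
  have e2 : k1 + 1 ≤ Top := by
    have : 2 * (r / 2 + 1) ≤ (2 * (r / 2 + 1)).choose (r / 2 + 1) := by
      simpa using Nat.choose_le_middle 1 (2 * (r / 2 + 1))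
    omega
  have e3 : (k1 : ℝ) + 1 ≤ Top := by exact_mod_cast e2
  have hT0 : (0 : ℝ) < Top := by have : (0 : ℝ) ≤ k1 := Nat.cast_nonneg _; linarith
  have e4 : 2 ≤ ε * Top := by rw [div_le_iff₀ hε] at hk1; nlinarith
  have hsub : S ⊆ ↑(range Top) := by
    intro q hq
    by_contra h
    exact vanish_slice n l r q (by simpa using h) hq
  have u1 : (S.ncard : ℝ) ≤ Top := by
    have := Set.ncard_le_ncard hsub (Finset.finite_toSet _)
    rw [Set.ncard_coe_finset, card_range] at this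
    exact_mod_cast this
  have u2 : (1 - ε) * Top ≤ S.ncard := by
    rcases le_or_gt 1 ε with hε1 | hε1
    · exact (mul_nonpos_of_nonpos_of_nonneg (by linarith) hT0.le).trans (Nat.cast_nonneg _)
    have hp : 0 ≤ (1 - ε / 4) * Top := mul_nonneg (by linarith) hT0.le
    have v1 : (↑(Ico ⌊ε / 4 * Top⌋₊ ⌊(1 - ε / 4) * Top⌋₊) : Set ℕ) ⊆ S := by
      intro q hq
      obtain ⟨a1, a2⟩ := mem_Ico.1 hq
      refine nontrivial_slice h1 h2 h3 (hk0 _ (by omega) _ ?_ ?_) <;> rw [e1] <;> push_cast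
      · have b1 := Nat.lt_floor_add_one (ε / 4 * Top)
        have b2 : (⌊ε / 4 * Top⌋₊ : ℝ) ≤ q := by exact_mod_cast a1
        linarith
      · have b1 := Nat.floor_le hp
        have b2 : (q : ℝ) + 1 ≤ ⌊(1 - ε / 4) * Top⌋₊ := by exact_mod_cast a2
        linarith
    have v2 := Set.ncard_le_ncard v1 ((Finset.finite_toSet _).subset hsub)
    rw [Set.ncard_coe_finset, Nat.card_Ico, Nat.sub_le_iff_le_add] at v2
    have v3 : (⌊(1 - ε / 4) * Top⌋₊ : ℝ) ≤ S.ncard + ⌊ε / 4 * Top⌋₊ := by exact_mod_cast v2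
    have b1 := Nat.lt_floor_add_one ((1 - ε / 4) * Top)
    have b2 := Nat.floor_le (show 0 ≤ ε / 4 * Top by positivity)
    linarith
  rw [abs_sub_comm, abs_of_nonneg (by rw [sub_nonneg, div_le_one hT0]; exact u1),
    one_sub_div hT0.ne', div_le_iff₀ hT0]
  linarith

end Pool.Agent.P.MP_7cff07_gt
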