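import Pool.Agent.P.MP_7cff07_gt.SlStr

namespace Pool.Agent.P.MP_7cff07_gt

open Finset

instance {ι : Type} (c : ℕ) (v : Finset ι) : Decidable (lv c v) :=
  inferInstanceAs (Decidable (v.card = c ∨ v.card = c + 1))

/-- decoding of bit masks -/
def decode (n : ℕ) : Finset (Fin 9) := univ.filter fun i => n.testBit i

/-- comparability of bit masks -/
def cmpN (n m : ℕ) : Prop := n ≠ m ∧ (n &&& m = n ∨ m &&& n = m)

instance (n m : ℕ) : Decidable (cmpN n m) :=
  inferInstanceAs (Decidable (n ≠ m ∧ (n &&& m = n ∨ m &&& n = m)))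

lemma decode_subset {n m : ℕ} (hn : n < 512) : decode n ⊆ decode m ↔ n &&& m = n := by
  constructor
  · intro h
    apply Nat.eq_of_testBit_eq
    intro i
    rw [Nat.testBit_and]
    by_cases hi : i < 9
    · have := @h ⟨i, hi⟩
      simp only [decode, mem_filter, mem_univ, true_and] at this
      cases h1 : n.testBit i
      · rfl
      · simp [this h1]
    · have : n.testBit i = false := Nat.testBit_lt_two_pow
        (hn.trans_le (Nat.pow_le_pow_right (n := 2) (by norm_num) (not_lt.1 hi)))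
      simp [this]
  · intro h i hi
    simp only [decode, mem_filter, mem_univ, true_and] at hi ⊢
    rw [← h, Nat.testBit_and] at hi
    simp only [Bool.and_eq_true] at hi
    exact hi.2

lemma decode_inj {n m : ℕ} (hn : n < 512) (hm : m < 512) (h : decode n = decode m) : n = m := by
  rw [← (decode_subset hn).1 h.le, Nat.and_comm, (decode_subset hm).1 h.ge]

lemma cmp_decode {n m : ℕ} (hn : n < 512) (hm : m < 512) :
    cmp (decode n) (decode m) ↔ cmpN n m := by
  unfold cmp cmpN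
  rw [lt_iff_le_and_ne, lt_iff_le_and_ne, ← decode_subset hn, ← decode_subset hm]
  have : decode n ≠ decode m ↔ n ≠ m := not_congr ⟨decode_inj hn hm, fun h => by rw [h]⟩
  rw [ne_comm (a := decode m), this]
  tauto

lemma decode_surj (v : Finset (Fin 9)) : ∃ n < 512, decode n = v := by
  have : Function.Bijective fun n : Fin 512 => decode n :=
    (Fintype.bijective_iff_injective_and_card _).2
      ⟨fun n m h => Fin.ext (decode_inj n.2 m.2 h), by simp⟩
  obtain ⟨n, hn⟩ := this.2 v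
  exact ⟨n, n.2, hn⟩

lemma av_of_lists (c : ℕ) (S Y : List ℕ) (hb : ∀ n ∈ S ++ Y, n < 512) (h0 : S.Nodup)
    (h1 : ∀ v ∈ S ++ Y, lv c (decode v)) (h2 : ∀ v ∈ S ++ Y, ∃ w ∈ S ++ Y, cmpN v w)
    (h3 : ∀ v ∈ S ++ Y, ∀ w ∈ S ++ Y, cmpN v w →
      (v ∈ S ↔ w ∉ S) ∧ ∀ w' ∈ S ++ Y, cmpN v w' → w = w')
    (h4 : ∀ v < 512, lv c (decode v) → v ∉ S → ∃ w ∈ S, cmpN v w) : Av (Fin 9) c S.length := by
  have hS : ∀ n ∈ S, n < 512 := fun n hn => hb n (List.mem_append_left _ hn)
  have hm : ∀ n < 512, decode n ∈ S.toFinset.image decode ↔ n ∈ S := by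
    intro n hn
    simp only [mem_image, List.mem_toFinset]
    exact ⟨fun ⟨m, h1, h2⟩ => decode_inj (hS m h1) hn h2 ▸ h1, fun h => ⟨n, h, rfl⟩⟩
  refine ⟨fun v => ∃ n ∈ S ++ Y, decode n = v, S.toFinset.image decode,
    ⟨?_, ?_, ?_, ?_, ?_, ?_⟩, ?_⟩
  · intro v hv
    obtain ⟨n, hn, rfl⟩ := mem_image.1 hv
    exact ⟨n, List.mem_append_left _ (List.mem_toFinset.1 hn), rfl⟩
  · rintro _ ⟨n, hn, rfl⟩; exact h1 n hn
  · rintro _ ⟨n, hn, rfl⟩
    obtain ⟨m, hm, h⟩ := h2 n hn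
    exact ⟨_, ⟨m, hm, rfl⟩, (cmp_decode (hb _ hn) (hb _ hm)).2 h⟩
  · rintro _ _ _ ⟨n, a, rfl⟩ ⟨m, b, rfl⟩ ⟨k, c, rfl⟩ d e
    rw [(h3 n a m b ((cmp_decode (hb _ a) (hb _ b)).1 d)).2 k c
      ((cmp_decode (hb _ a) (hb _ c)).1 e)]
  · rintro _ _ ⟨n, a, rfl⟩ ⟨m, b, rfl⟩ d
    rw [hm _ (hb _ a), hm _ (hb _ b)]
    exact (h3 n a m b ((cmp_decode (hb _ a) (hb _ b)).1 d)).1
  · intro v a b
    obtain ⟨n, hn, rfl⟩ := decode_surj v
    obtain ⟨m, c, d⟩ := h4 n hn a (by rwa [hm _ hn] at b)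
    exact ⟨_, (hm _ (hS _ c)).2 c, (cmp_decode hn (hS _ c)).2 d⟩
  · rw [card_image_of_injOn, List.toFinset_card_of_nodup h0]
    intro n a m b
    exact decode_inj (hS _ (by simpa using a)) (hS _ (by simpa using b))

theorem av_42 : Av (Fin 9) 3 42 :=
  av_of_lists 3
    [259, 13, 21, 69, 25, 41, 97, 161, 193, 14, 38, 42, 138, 82, 146, 194, 28, 84, 100, 388,
      152, 168, 328, 304, 208, 135, 75, 51, 293, 393, 337, 401, 278, 326, 282, 354, 418, 300,
      204, 180, 120, 480]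
    [7, 37, 137, 81, 145, 22, 70, 26, 74, 50, 98, 162, 44, 76, 88, 176, 224, 267, 269, 277,
      325, 281, 297, 353, 417, 449, 270, 294, 390, 298, 394, 338, 402, 450, 284, 340, 356, 312,
      408, 360, 424, 464]
    (by decide +kernel) (by decide +kernel) (by decide +kernel) (by decide +kernel)
    (by decide +kernel) (by decide +kernel)

theorem av_43 : Av (Fin 9) 3 43 :=
  av_of_lists 3
    [131, 13, 69, 73, 273, 289, 22, 70, 262, 42, 50, 82, 322, 52, 276, 164, 292, 196, 56, 152,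
      280, 392, 176, 208, 224, 39, 27, 267, 99, 149, 389, 169, 113, 449, 142, 202, 402, 418,
      92, 108, 332, 360, 368]
    [67, 259, 21, 261, 25, 81, 321, 38, 274, 162, 194, 28, 44, 140, 268, 168, 296, 304,
      15, 43, 51, 147, 101, 165, 105, 393, 177, 401, 225, 417, 78, 150, 390, 90, 154, 330, 116,
      404, 356, 452, 120, 344, 464]
    (by decide +kernel) (by decide +kernel) (by decide +kernel) (by decide +kernel)
    (by decide +kernel) (by decide +kernel)

end Pool.Agent.P.MP_7cff07_gt
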