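import Pool.Agent.P.MP_7cff07_gt.SlStep
import Pool.Agent.P.MP_7cff07_gt.SlColour

namespace Pool.Agent.P.MP_7cff07_gt

open Finset

/-- number of outer edges -/
def Rout (e b c1 c2 t : ℕ) : ℕ :=
  ∑ j ∈ range (e + 1), if Areg c1 c2 j ∧ j ≤ t then e.choose j * b.choose (t - j) else 0

/-- available sizes in an odd graph -/
def OAv (ι : Type) (k m : ℕ) : Prop :=
  ∃ (M : Finset ι → Prop) (σ : Finset (Finset ι)),
    Str Disjoint (fun v => v.card = k) M σ ∧ σ.card = m

lemma OAv.congr {ι κ : Type} [Fintype ι] [Fintype κ] {c m : ℕ} (h : OAv ι c m)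
    (hc : Fintype.card ι = Fintype.card κ) : OAv κ c m := by
  obtain ⟨M, σ, h, rfl⟩ := h
  exact ⟨_, _, h.map (Fintype.equivOfCardEq hc).finsetCongr (fun v w => by simp [disjoint_map])
    (fun v => by simp), card_map _⟩

lemma Str.toSum {B E : Type} {t : ℕ} {M : Finset B × Finset E → Prop}
    {σ : Finset (Finset B × Finset E)} (h : Str cmp (lvp t) M σ) :
    Str cmp (lv t) (fun w => M (Finset.sumEquiv w))
      (σ.map Finset.sumEquiv.symm.toEquiv.toEmbedding) :=
  h.map Finset.sumEquiv.symm.toEquiv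
    (fun v w => by simp only [cmp, OrderIso.coe_toEquiv, OrderIso.lt_iff_lt])
    (fun v => by simp [lv, lvp])

lemma exists_sites {B : Type} {e t c1 c2 : ℕ} (hc1 : 2 ≤ c1) (hc2 : c2 + 2 < e)
    (P : Finset B → Prop) (m : Finset B → ℕ) (κ : Finset B → Finset (Fin e))
    (hm : ∀ p, P p → Act c1 c2 (t - p.card) → Av (Fin e) (t - p.card) (m p)) :
    ∃ (M : Finset B → Finset (Fin e) → Prop) (S : Finset B → Finset (Finset (Fin e))),
      ∀ p, P p → Act c1 c2 (t - p.card) → Str cmp (lv (t - p.card)) (M p) (S p) ∧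
        (S p).card = m p ∧ (lv (t - p.card) (κ p) → κ p ∈ S p) := by
  have : ∀ p, ∃ (M : Finset (Fin e) → Prop) (S : Finset (Finset (Fin e))),
      P p → Act c1 c2 (t - p.card) → Str cmp (lv (t - p.card)) M S ∧
        S.card = m p ∧ (lv (t - p.card) (κ p) → κ p ∈ S) := by
    intro p
    by_cases h : P p ∧ Act c1 c2 (t - p.card)
    · obtain ⟨M, S, h⟩ := (hm p h.1 h.2).target (by have := h.2.1; omega)
        (by have := h.2.2.1; rw [Fintype.card_fin]; omega) (κ p)
      exact ⟨M, S, fun _ _ => h⟩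
    · exact ⟨fun _ => True, ∅, fun h1 h2 => absurd ⟨h1, h2⟩ h⟩
  choose M S h using this
  exact ⟨M, S, h⟩

theorem step_av (e : ℕ) : ∃ b0 : ℕ, ∀ (B : Type) [Fintype B] [DecidableEq B] (t c1 c2 : ℕ)
    (m : Finset B → ℕ), b0 ≤ Fintype.card B → 2 ≤ c1 → c1 ≤ c2 → c2 % 2 = c1 % 2 → c2 + 2 < e →
    Fintype.card B + 4 * e ≤ 4 * t → 4 * (t + 1) ≤ 3 * Fintype.card B →
    (∀ p, Act c1 c2 (t - p.card) → Av (Fin e) (t - p.card) (m p)) →
    Av (B ⊕ Fin e) t ((∑ p, if Act c1 c2 (t - p.card) then m p else 0) +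
      Rout e (Fintype.card B - 1) c1 c2 t) := by
  obtain ⟨b0, hb0⟩ := cube_colouring (Finset (Fin e))
  refine ⟨b0, fun B _ _ t c1 c2 m hb hc1 hc12 hpar hc2 h1 h2 hm => ?_⟩
  obtain ⟨a⟩ : Nonempty B := Fintype.card_pos_iff.1 (by omega)
  obtain ⟨κ, hκ⟩ := hb0 B a hb
  obtain ⟨M, S, hS⟩ := exists_sites hc1 hc2 (fun _ => True) m κ fun p _ => hm p
  have hx : ∀ x : Finset (Fin e), x.card ≤ e := fun x => by simpa using card_le_univ x
  have key := step_str (a := a) (h := (⟨0, by omega⟩ : Fin e)) hc1 hc12 hpar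
    (by rwa [Fintype.card_fin]) (by omega) (by omega) (fun p hp => (hS p trivial hp).1)
    (fun p x h3 h4 => by
      obtain ⟨i, hi, -, hi'⟩ := (hκ p (by have := hx x; omega) (by omega) x).1
      have h5 : t - (insert i p).card = x.card - 1 := by rw [card_insert_of_notMem hi]; omega
      refine ⟨i, hi, hi' ▸ (hS _ trivial (h5 ▸ h4)).2.2 ?_⟩
      rw [h5, hi']; right; have := h4.1; omega)
    (fun p x h3 h4 => by
      obtain ⟨i, hi, hi'⟩ := (hκ p (by have := hx x; omega) (by omega) x).2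
      have h5 : t - (p.erase i).card = x.card := by have := card_erase_add_one hi; omega
      refine ⟨i, hi, hi' ▸ (hS _ trivial (h5 ▸ h4)).2.2 ?_⟩
      rw [h5, hi']; left; rfl)
  refine ⟨_, _, key.toSum, ?_⟩
  rw [card_map, card_stS fun p hp x hx => (hS p trivial hp).1.lev _ ((hS p trivial hp).1.sub _ hx),
    Fintype.card_fin]
  congr 1
  refine sum_congr rfl fun p _ => ?_
  split_ifs with h
  · exact (hS p trivial h).2.1
  · rfl

theorem step_odd (e : ℕ) : ∃ b0 : ℕ, ∀ (B : Type) [Fintype B] [DecidableEq B] (a : B)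
    (t c1 c2 : ℕ) (m : Finset B → ℕ), b0 ≤ Fintype.card B → 2 ≤ c1 → c1 ≤ c2 →
    c2 % 2 = c1 % 2 → c1 + c2 + 1 = e → c2 + 2 < e → Fintype.card B + e = 2 * t + 1 →
    Fintype.card B + 4 * e ≤ 4 * t → 4 * (t + 1) ≤ 3 * Fintype.card B →
    (∀ p, a ∉ p → Act c1 c2 (t - p.card) → Av (Fin e) (t - p.card) (m p)) →
    ∃ n, OAv (B ⊕ Fin e) t n ∧ 2 * n =
      2 * (∑ p ∈ (univ.erase a).powerset, if Act c1 c2 (t - p.card) then m p else 0) +
      Rout e (Fintype.card B - 1) c1 c2 t := by
  obtain ⟨b0, hb0⟩ := cube_colouring (Finset (Fin e))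
  refine ⟨b0, fun B _ _ a t c1 c2 m hb hc1 hc12 hpar hc hc2 ht h1 h2 hm => ?_⟩
  obtain ⟨κ, hκ⟩ := hb0 B a hb
  obtain ⟨M0, S0, hS0⟩ := exists_sites hc1 hc2 (fun p => a ∉ p) m κ hm
  have hx : ∀ x : Finset (Fin e), x.card ≤ e := fun x => by simpa using card_le_univ x
  have hxc : ∀ x : Finset (Fin e), xᶜ.card + x.card = e := fun x => by
    simp
  have hpc : ∀ p : Finset B, pᶜ.card + p.card = Fintype.card B := card_compl_add_card
  have hact : ∀ p : Finset B, Act c1 c2 (t - p.card) → Act c1 c2 (t - pᶜ.card) ∧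
      t - pᶜ.card + (t - p.card) + 1 = e := by
    intro p hp
    have := hpc p
    simp only [Act] at *
    omega
  let M : Finset B → Finset (Fin e) → Prop := fun p x => if a ∈ p then M0 pᶜ xᶜ else M0 p x
  let S : Finset B → Finset (Finset (Fin e)) := fun p =>
    if a ∈ p then (S0 pᶜ).map (cpl _).toEmbedding else S0 p
  have hS : ∀ p, Act c1 c2 (t - p.card) → Str cmp (lv (t - p.card)) (M p) (S p) := by
    intro p hp
    by_cases ha : a ∈ p
    · simpa only [M, S, ha, if_true] using (hS0 pᶜ (by simpa using ha) (hact p hp).1).1.mirror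
        (c' := t - p.card) (by rw [Fintype.card_fin]; exact (hact p hp).2)
    · simpa only [M, S, ha, if_false] using (hS0 p ha hp).1
  have hMc : ∀ p x, M p x → M pᶜ xᶜ := by
    intro p x; by_cases ha : a ∈ p <;> simp [M, ha]
  have hSc : ∀ p x, x ∈ S p → xᶜ ∈ S pᶜ := by
    intro p x; by_cases ha : a ∈ p <;> simp [S, ha, cpl]
  have up0 : ∀ (p : Finset B) (x : Finset (Fin e)), a ∉ p → p.card + x.card = t →
      Act c1 c2 (x.card - 1) → ∃ b ∉ p, b ≠ a ∧ x ∈ S (insert b p) := by
    intro p x ha h3 h4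
    obtain ⟨i, hi, hia, hi'⟩ := (hκ p (by have := hx x; omega) (by omega) x).1
    have h5 : t - (insert i p).card = x.card - 1 := by rw [card_insert_of_notMem hi]; omega
    have h6 : a ∉ insert i p := by simp [ha, hia.symm]
    refine ⟨i, hi, hia, ?_⟩
    simp only [S, h6, if_false]
    refine hi' ▸ (hS0 _ h6 (h5 ▸ h4)).2.2 ?_
    rw [h5, hi']; right; have := h4.1; omega
  have down0 : ∀ (p : Finset B) (x : Finset (Fin e)), a ∉ p → p.card + x.card = t + 1 →
      Act c1 c2 x.card → ∃ b ∈ p, x ∈ S (p.erase b) := by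
    intro p x ha h3 h4
    obtain ⟨i, hi, hi'⟩ := (hκ p (by have := hx x; omega) (by omega) x).2
    have h5 : t - (p.erase i).card = x.card := by have := card_erase_add_one hi; omega
    have h6 : a ∉ p.erase i := by simp [ha]
    refine ⟨i, hi, ?_⟩
    simp only [S, h6, if_false]
    refine hi' ▸ (hS0 _ h6 (h5 ▸ h4)).2.2 ?_
    rw [h5, hi']; left; rfl
  have key := step_str (a := a) (h := (⟨0, by omega⟩ : Fin e)) hc1 hc12 hpar
    (by rwa [Fintype.card_fin]) (by omega) (by omega) hS
    (fun p x h3 h4 => by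
      by_cases ha : a ∈ p
      · have := hpc p
        have := hxc x
        obtain ⟨b, hb, h⟩ := down0 pᶜ xᶜ (by simpa using ha) (by omega)
          (by simp only [Act] at *; omega)
        exact ⟨b, by simpa using hb, by simpa using hSc _ _ h⟩
      · obtain ⟨b, hb, -, h⟩ := up0 p x ha h3 h4
        exact ⟨b, hb, h⟩)
    (fun p x h3 h4 => by
      by_cases ha : a ∈ p
      · have := hpc p
        have := hxc x
        obtain ⟨b, hb, -, h⟩ := up0 pᶜ xᶜ (by simpa using ha) (by omega)
          (by simp only [Act] at *; omega)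
        exact ⟨b, by simpa using hb, by simpa using hSc _ _ h⟩
      · exact down0 p x ha h3 h4)
  have hcs : ∀ v : Finset (B ⊕ Fin e), Finset.sumEquiv vᶜ =
      ((Finset.sumEquiv v).1ᶜ, (Finset.sumEquiv v).2ᶜ) := fun v => by
    ext <;> simp
  have := key.toSum.fold (k := t) (by simp [ht]) (fun v hv => by
      rw [hcs]
      generalize Finset.sumEquiv v = w at hv
      obtain ⟨p, x⟩ := w
      have := hpc p
      have := hxc x
      rcases hv with hv | ⟨hv, h⟩
      · exact Or.inl ⟨(hact p hv.1).1, hMc _ _ hv.2⟩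
      · refine Or.inr ⟨by simp only [Areg] at *; omega, ?_⟩
        simp only [mem_compl, not_not]
        rcases h with h | h
        · exact Or.inr ⟨h.1, by dsimp only at *; omega⟩
        · exact Or.inl ⟨h.1, by dsimp only at *; omega⟩) (fun v hv => by
      rw [mem_map_equiv] at hv ⊢
      change Finset.sumEquiv _ ∈ _ at hv ⊢
      rw [hcs]
      generalize Finset.sumEquiv v = w at hv
      obtain ⟨p, x⟩ := w
      have := hpc p
      have := hxc x
      rw [mem_stS] at hv ⊢
      rcases hv with hv | ⟨hv, h⟩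
      · exact Or.inl ⟨(hact p hv.1).1, hSc _ _ hv.2⟩
      · refine Or.inr ⟨by simp only [Areg] at *; omega, ?_⟩
        simp only [mem_compl, not_not, Lsig] at h ⊢
        by_cases h0 : (⟨0, by omega⟩ : Fin e) ∈ x <;> simp only [h0] at h ⊢ <;>
          rcases h with h | h
        · exact Or.inr ⟨h.1, by omega, by simp at h ⊢; omega⟩
        · exact Or.inl ⟨h.1, by omega, by simp at h ⊢; omega⟩
        · exact Or.inr ⟨h.1, by omega, by simp at h ⊢; omega⟩
        · exact Or.inl ⟨h.1, by omega, by simp at h ⊢; omega⟩)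
  refine ⟨_, ⟨_, _, this.1, rfl⟩, ?_⟩
  rw [this.2, card_map, card_stS fun p hp x hx => (hS p hp).lev _ ((hS p hp).sub _ hx),
    Fintype.card_fin]
  congr 1
  rw [← sum_filter_add_sum_filter_not univ (fun p : Finset B => a ∈ p), two_mul]
  have h7 : (univ.filter fun p : Finset B => a ∉ p) = (univ.erase a).powerset := by
    ext p; simp [subset_erase]
  congr 1
  · rw [← h7]
    refine sum_nbij' compl compl (by simp) (by simp) (by simp) (by simp) fun p hp => ?_
    have ha : a ∈ p := by simpa using hp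
    by_cases h : Act c1 c2 (t - p.card)
    · simp only [h, (hact p h).1, S, ha, if_true, card_map]
      exact (hS0 pᶜ (by simpa using ha) (hact p h).1).2.1
    · rw [if_neg h, if_neg fun h' => h (by simpa using (hact _ h').1)]
  · rw [← h7]
    refine sum_congr rfl fun p hp => ?_
    have ha : a ∉ p := by simpa using hp
    split_ifs with h
    · simp only [S, ha, if_false]; exact (hS0 p ha h).2.1
    · rfl

lemma sum_sites {B : Type} [DecidableEq B] (s : Finset B) {e t c1 c2 : ℕ} (hc1 : 1 ≤ c1)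
    (hc2 : c2 ≤ e) (ht : e ≤ t) (F : ℕ → ℕ) :
    (∑ p ∈ s.powerset, if Act c1 c2 (t - p.card) then F (t - p.card) else 0) =
      ∑ c ∈ range (e + 1), if Act c1 c2 c then s.card.choose (t - c) * F c else 0 := by
  have h1 : ∀ p : Finset B, (if Act c1 c2 (t - p.card) then F (t - p.card) else 0) =
      ∑ c ∈ range (e + 1), if Act c1 c2 c ∧ p.card = t - c then F c else 0 := by
    intro p
    split_ifs with h
    · rw [sum_eq_single (t - p.card), if_pos ⟨h, by have := h.1; omega⟩]
      · intro c hc hne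
        rw [if_neg]
        rintro ⟨-, h2⟩
        have := mem_range.1 hc
        omega
      · intro hn; exact absurd (mem_range.2 (by have := h.2.1; omega)) hn
    · refine (sum_eq_zero fun c hc => if_neg ?_).symm
      rintro ⟨h2, h3⟩
      have := mem_range.1 hc
      exact h (by rwa [show t - p.card = c by omega])
  simp only [h1]
  rw [sum_comm]
  refine sum_congr rfl fun c _ => ?_
  split_ifs with h
  · simp only [h, true_and]
    rw [← sum_filter, sum_const, smul_eq_mul, ← powersetCard_eq_filter, card_powersetCard]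
  · simp [h]

end Pool.Agent.P.MP_7cff07_gt
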