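import Mathlib

namespace Pool.Agent.P.MP_7cff07_gt

open Finset

lemma ratio_seq {E : ℕ} (g : ℕ → ℕ) (h : ∀ j < E, 2 * E * g (j + 1) ≤ (2 * E + 1) * g j)
    {i j : ℕ} (hij : i ≤ j) (hj : j ≤ E) : g j ≤ 2 * g i := by
  have key : ∀ d, i + d ≤ E → (2 * E - d) * g (i + d) ≤ 2 * E * g i := by
    intro d
    induction d with
    | zero => simp
    | succ d ih =>
      intro hd
      refine le_trans ?_ (ih (by omega))
      have h1 := h (i + d) (by omega)
      obtain ⟨x, hx⟩ : ∃ x, 2 * E = d + 1 + x := ⟨2 * E - (d + 1), by omega⟩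
      rw [show 2 * E - (d + 1) = x by omega, show 2 * E - d = x + 1 by omega, ← add_assoc]
      refine Nat.le_of_mul_le_mul_left ?_ (show 0 < 2 * E by omega)
      calc 2 * E * (x * g (i + d + 1)) = x * (2 * E * g (i + d + 1)) := by ring
        _ ≤ x * ((2 * E + 1) * g (i + d)) := Nat.mul_le_mul_left _ h1
        _ = (x * (2 * E + 1)) * g (i + d) := by ring
        _ ≤ (2 * E * (x + 1)) * g (i + d) := Nat.mul_le_mul_right _ (by nlinarith)
        _ = _ := by ring
  obtain ⟨d, rfl⟩ := Nat.exists_eq_add_of_le hij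
  rcases Nat.eq_zero_or_pos E with rfl | hE
  · obtain rfl : d = 0 := by omega
    simp only [add_zero]; omega
  · refine Nat.le_of_mul_le_mul_left ?_ hE
    calc E * g (i + d) ≤ (2 * E - d) * g (i + d) := Nat.mul_le_mul_right _ (by omega)
      _ ≤ 2 * E * g i := key d hj
      _ = _ := by ring

lemma ratio_choose {E b t W : ℕ} (h : (4 * E + 1) * (W + 2 * E) ≤ b) (h1 : b ≤ 2 * t + W)
    (h2 : 2 * t ≤ b + W) {i j : ℕ} (hi : i ≤ E) (hj : j ≤ E) :
    b.choose (t - i) ≤ 2 * b.choose (t - j) := by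
  have h3 : 4 * E * (W + 2 * E) + W + 2 * E ≤ b := by nlinarith
  have hE : E ≤ t := by nlinarith
  have step : ∀ u, t ≤ u + E → u + 1 ≤ t → 2 * E * b.choose (u + 1) ≤ (2 * E + 1) * b.choose u ∧
      2 * E * b.choose u ≤ (2 * E + 1) * b.choose (u + 1) := by
    intro u a1 a2
    have e1 := Nat.choose_succ_right_eq b u
    obtain ⟨v, hv⟩ : ∃ v, b = u + v := ⟨b - u, by
      have : u ≤ b := by nlinarith
      omega⟩
    rw [show b - u = v by omega] at e1
    have hv0 : 0 < v := by nlinarith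
    constructor
    · refine Nat.le_of_mul_le_mul_right ?_ (show 0 < u + 1 by omega)
      rw [mul_assoc, e1]
      have : 2 * E * v ≤ (2 * E + 1) * (u + 1) := by nlinarith
      nlinarith [Nat.mul_le_mul_left (b.choose u) this]
    · refine Nat.le_of_mul_le_mul_right ?_ hv0
      rw [mul_assoc, ← e1]
      have : 2 * E * (u + 1) ≤ (2 * E + 1) * v := by nlinarith
      nlinarith [Nat.mul_le_mul_left (b.choose (u + 1)) this]
  rcases le_total j i with hij | hij
  · refine ratio_seq (E := E) (fun j => b.choose (t - j)) (fun j hj => ?_) hij hi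
    have := (step (t - (j + 1)) (by omega) (by omega)).2
    rwa [show t - (j + 1) + 1 = t - j by omega] at this
  · have := ratio_seq (E := E) (fun j => b.choose (t - E + j))
      (fun j hj => (step (t - E + j) (by omega) (by omega)).1) (i := E - j) (j := E - i)
      (by omega) (by omega)
    rwa [show t - E + (E - i) = t - i by omega, show t - E + (E - j) = t - j by omega] at this

lemma vdm {e b t : ℕ} (h : e ≤ t) :
    (e + b).choose t = ∑ j ∈ range (e + 1), e.choose j * b.choose (t - j) := by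
  rw [Nat.add_choose_eq, Nat.sum_antidiagonal_eq_sum_range_succ_mk]
  symm
  refine sum_subset (range_subset_range.2 (by omega)) fun j _ hj => ?_
  rw [Nat.choose_eq_zero_of_lt (by simpa using hj), zero_mul]

lemma second_moment (e : ℕ) :
    ∑ j ∈ range (e + 1), (e.choose j : ℝ) * (2 * (j : ℝ) - e) ^ 2 = (e : ℝ) * 2 ^ e := by
  induction e with
  | zero => simp
  | succ e ih =>
    have h1 := sum_choose_succ_mul (R := ℝ) (fun i _ => (2 * (i : ℝ) - (e + 1 : ℕ)) ^ 2) e
    have h2 : ∑ j ∈ range (e + 1), (e.choose j : ℝ) = 2 ^ e := by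
      exact_mod_cast Nat.sum_range_choose e
    rw [h1, ← sum_add_distrib]
    have h3 : ∀ j ∈ range (e + 1), (e.choose j : ℝ) * (2 * (j : ℝ) - (e + 1 : ℕ)) ^ 2 +
        (e.choose j : ℝ) * (2 * ((j + 1 : ℕ) : ℝ) - (e + 1 : ℕ)) ^ 2 =
        2 * ((e.choose j : ℝ) * (2 * j - e) ^ 2) + 2 * (e.choose j : ℝ) := by
      intro j _; push_cast; ring
    rw [sum_congr rfl h3, sum_add_distrib, ← mul_sum, ← mul_sum, ih, h2]
    push_cast; ring

lemma tail_bound {e w : ℕ} (P : ℕ → Prop) [DecidablePred P]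
    (hP : ∀ j, P j → 2 * j + w ≤ e ∨ e + w ≤ 2 * j) :
    (w : ℝ) ^ 2 * ∑ j ∈ range (e + 1), (if P j then (e.choose j : ℝ) else 0) ≤ e * 2 ^ e := by
  rw [← second_moment, mul_sum]
  refine sum_le_sum fun j _ => ?_
  split_ifs with h
  · rw [mul_comm]
    refine mul_le_mul_of_nonneg_left ?_ (Nat.cast_nonneg _)
    have hw : (0 : ℝ) ≤ w := Nat.cast_nonneg _
    rcases hP j h with h | h
    · have : (2 * j + w : ℝ) ≤ e := by exact_mod_cast h
      nlinarith
    · have : (e + w : ℝ) ≤ 2 * j := by exact_mod_cast h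
      nlinarith
  · rw [mul_zero]; positivity

lemma central_sq (n : ℕ) : n.centralBinom ^ 2 * (2 * n + 1) ≤ 16 ^ n := by
  induction n with
  | zero => simp
  | succ n ih =>
    refine Nat.le_of_mul_le_mul_left ?_ (show 0 < (n + 1) ^ 2 by positivity)
    have h := Nat.succ_mul_centralBinom_succ n
    calc (n + 1) ^ 2 * ((n + 1).centralBinom ^ 2 * (2 * (n + 1) + 1))
        = ((n + 1) * (n + 1).centralBinom) ^ 2 * (2 * n + 3) := by ring
      _ = (4 * (2 * n + 1) * (2 * n + 3)) * (n.centralBinom ^ 2 * (2 * n + 1)) := by rw [h]; ring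
      _ ≤ (16 * (n + 1) ^ 2) * 16 ^ n := Nat.mul_le_mul (by nlinarith) ih
      _ = _ := by ring

lemma choose_small {δ : ℝ} (hδ : 0 < δ) {g : ℕ} (hg : 1 ≤ δ ^ 2 * g) (j : ℕ) :
    ((2 * g + 1).choose j : ℝ) ≤ δ * 2 ^ (2 * g + 1) := by
  have h1 : (2 * g + 1).choose j ≤ (2 * g + 1).choose g := by
    simpa [show (2 * g + 1) / 2 = g by omega] using Nat.choose_le_middle j (2 * g + 1)
  have h2 : (g + 1).centralBinom = 2 * (2 * g + 1).choose g := by
    rw [Nat.centralBinom_eq_two_mul_choose, show 2 * (g + 1) = (2 * g + 1) + 1 by ring,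
      Nat.choose_succ_succ', Nat.choose_symm_half]; ring
  have h3 := central_sq (g + 1)
  rw [h2] at h3
  have h4 : (((2 * g + 1).choose g : ℕ) : ℝ) ^ 2 * g ≤ (2 ^ (2 * g + 1)) ^ 2 := by
    have : ((2 * g + 1).choose g) ^ 2 * g ≤ (2 ^ (2 * g + 1)) ^ 2 := by
      have e1 : (2 ^ (2 * g + 1)) ^ 2 * 4 = 16 ^ (g + 1) := by
        rw [show 16 = 2 ^ 4 by norm_num, ← pow_mul, ← pow_mul]; ring
      nlinarith [Nat.zero_le (((2 * g + 1).choose g) ^ 2)]
    exact_mod_cast this
  refine le_trans (Nat.cast_le.2 h1) (le_of_sq_le_sq ?_ (by positivity))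
  have h5 : (0 : ℝ) ≤ (((2 * g + 1).choose g : ℕ) : ℝ) ^ 2 := by positivity
  have h6 := mul_le_mul_of_nonneg_left h4 (sq_nonneg δ)
  have h7 := mul_le_mul_of_nonneg_left hg h5
  nlinarith

lemma subset_sum {α : Type} [DecidableEq α] (lo hi : α → ℕ) (K : ℕ) (T : Finset α)
    (hK : ∀ p ∈ T, hi p ≤ lo p + K + 1) : ∀ n, ∑ p ∈ T, lo p ≤ n → n ≤ ∑ p ∈ T, hi p →
      ∃ m : α → ℕ, (∀ p, m p = lo p ∨ m p = hi p) ∧ ∑ p ∈ T, m p ≤ n ∧ n ≤ ∑ p ∈ T, m p + K := by
  induction T using Finset.induction_on with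
  | empty => intro n _ h; exact ⟨lo, fun _ => Or.inl rfl, by simp, by simp at h; simp [h]⟩
  | insert q T hq ih =>
    intro n h1 h2
    rw [sum_insert hq] at h1 h2
    have hu : ∀ (m : α → ℕ) (x : ℕ), ∑ p ∈ insert q T, Function.update m q x p = x + ∑ p ∈ T, m p := by
      intro m x
      rw [sum_insert hq, Function.update_self]
      congr 1
      exact sum_congr rfl fun p hp => Function.update_of_ne (by rintro rfl; exact hq hp) _ _
    have hv : ∀ (m : α → ℕ), (∀ p, m p = lo p ∨ m p = hi p) →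
        ∀ p, Function.update m q (lo q) p = lo p ∨ Function.update m q (lo q) p = hi p := by
      intro m hm p
      by_cases h : p = q
      · subst h; simp
      · rw [Function.update_of_ne h]; exact hm p
    by_cases h3 : n ≤ lo q + ∑ p ∈ T, hi p
    · obtain ⟨m, a1, a2, a3⟩ := ih (fun p hp => hK p (mem_insert_of_mem hp)) (n - lo q)
        (by omega) (by omega)
      exact ⟨_, hv m a1, by rw [hu]; omega, by rw [hu]; omega⟩
    · have := hK q (mem_insert_self _ _)
      by_cases h4 : n = hi q + ∑ p ∈ T, hi p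
      · exact ⟨hi, fun _ => Or.inr rfl, by rw [sum_insert hq]; omega, by rw [sum_insert hq]; omega⟩
      · exact ⟨_, hv hi fun _ => Or.inr rfl, by rw [hu]; omega, by rw [hu]; omega⟩

end Pool.Agent.P.MP_7cff07_gt
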