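import Mathlib

namespace Pool.Agent.P.MP_7cff07_gt

open Module Polynomial

section lin
variable {K V : Type} [Field K] [Infinite K] [AddCommGroup V] [Module K V]

lemma exists_generic {I : Type} [Finite I] (n : ℕ) :
    ∀ (W : I → Submodule K V), (∀ s, Module.Finite K (W s)) → (∀ s, finrank K (W s) ≤ n) →
      ∃ g : Fin n → Module.Dual K V, ∀ s, ∀ v ∈ W s, (∀ i, g i v = 0) → v = 0 := by
  induction n with
  | zero =>
    intro W hf hW
    refine ⟨Fin.elim0, fun s v hv _ => ?_⟩
    have := hf s
    have h0 : W s = ⊥ := Submodule.finrank_eq_zero.1 (Nat.le_zero.1 (hW s))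
    simpa [h0] using hv
  | succ n ih =>
    intro W hf hW
    have h1 : ∀ s : {s // W s ≠ ⊥}, ∃ v ∈ W s.1, v ≠ 0 := fun s =>
      (Submodule.ne_bot_iff _).1 s.2
    choose v hv hv0 using h1
    obtain ⟨f, hf0⟩ := Module.exists_dual_forall_apply_ne_zero (K := K) v hv0
    obtain ⟨g, hg⟩ := ih (fun s => W s ⊓ LinearMap.ker f)
      (fun s => by have := hf s; exact Submodule.finiteDimensional_inf_left _ _) (fun s => by
        have := hf s
        by_cases hs : W s = ⊥
        · rw [hs, bot_inf_eq, finrank_bot]; exact Nat.zero_le _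
        · have hlt : W s ⊓ LinearMap.ker f < W s := by
            refine lt_of_le_of_ne inf_le_left fun h => ?_
            have h2 := hv ⟨s, hs⟩
            rw [← h] at h2
            exact hf0 ⟨s, hs⟩ h2.2
          have := Submodule.finrank_lt_finrank_of_lt hlt
          have := hW s
          omega)
    refine ⟨Fin.cons f g, fun s w hw h0 => hg s w ⟨hw, ?_⟩ fun i => ?_⟩
    · simpa using h0 0
    · simpa using h0 i.succ

omit [Infinite K] in
lemma triangular_indep {I : Type} [Fintype I] [LinearOrder I] (u : I → V)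
    (φ : I → Module.Dual K V) (h1 : ∀ s, φ s (u s) ≠ 0) (h2 : ∀ s t, s < t → φ t (u s) = 0) :
    LinearIndependent K u := by
  classical
  rw [Fintype.linearIndependent_iff]
  intro g hg
  by_contra hne
  push Not at hne
  obtain ⟨t, ht, hmax⟩ := Finset.exists_max_image (Finset.univ.filter fun s => g s ≠ 0) id
    (by obtain ⟨i, hi⟩ := hne; exact ⟨i, by simpa using hi⟩)
  have ht' : g t ≠ 0 := by simpa using ht
  have := congrArg (φ t) hg
  rw [map_sum, map_zero, Finset.sum_eq_single t] at this
  · simp only [map_smul, smul_eq_mul, mul_eq_zero] at this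
    exact this.elim ht' (h1 t)
  · intro s _ hst
    by_cases hs : g s = 0
    · simp [hs]
    · have := hmax s (by simpa using hs)
      simp [h2 s t (lt_of_le_of_ne this hst)]
  · simp

theorem skew_lin {I : Type} [Fintype I] [LinearOrder I] (k : ℕ)
    (α β : I → (Fin k → K) →ₗ[K] V) (hd : ∀ s, LinearMap.ker ((α s).coprod (β s)) = ⊥)
    (hn : ∀ s t, s < t → ∃ c d, c ≠ 0 ∧ α s c = β t d) :
    Fintype.card I ≤ (k + k).choose k := by
  obtain ⟨g, hg⟩ := exists_generic (K := K) (k + k)
    (fun s => LinearMap.range ((α s).coprod (β s))) (fun s => inferInstance)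
    (fun s => by simpa using LinearMap.finrank_range_le ((α s).coprod (β s)))
  let f : V →ₗ[K] (Fin (k + k) → K) := LinearMap.pi g
  have hinj : ∀ s, LinearMap.ker (f ∘ₗ (α s).coprod (β s)) = ⊥ := by
    intro s
    rw [LinearMap.ker_eq_bot']
    intro m hm
    have h0 := hg s _ ⟨m, rfl⟩ (fun i => congrFun hm i)
    exact (LinearMap.ker_eq_bot'.1 (hd s)) m h0
  choose L hL using fun s => LinearMap.exists_leftInverse_of_injective _ (hinj s)
  let G : I → (Fin (k + k) → K) →ₗ[K] (Fin k → K) := fun s => LinearMap.fst K _ _ ∘ₗ L s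
  have hGa : ∀ s c, G s (f (α s c)) = c := by
    intro s c
    have := LinearMap.congr_fun (hL s) (c, 0)
    simp only [LinearMap.comp_apply, LinearMap.coprod_apply, map_zero, add_zero,
      LinearMap.id_apply] at this
    simp [G, this]
  have hGb : ∀ s d, G s (f (β s d)) = 0 := by
    intro s d
    have := LinearMap.congr_fun (hL s) (0, d)
    simp only [LinearMap.comp_apply, LinearMap.coprod_apply, map_zero, zero_add,
      LinearMap.id_apply] at this
    simp [G, this]
  have hli := triangular_indep (K := K)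
    (fun s => exteriorPower.ιMulti K k (fun j => f (α s (Pi.basisFun K (Fin k) j))))
    (fun t => exteriorPower.alternatingMapLinearEquiv
      ((Pi.basisFun K (Fin k)).det.compLinearMap (G t)))
    (fun s => by
      rw [exteriorPower.alternatingMapLinearEquiv_apply_ιMulti,
        AlternatingMap.compLinearMap_apply]
      simp only [hGa]
      rw [(Pi.basisFun K (Fin k)).det_self]
      exact one_ne_zero)
    (fun s t hst => by
      rw [exteriorPower.alternatingMapLinearEquiv_apply_ιMulti,
        AlternatingMap.compLinearMap_apply]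
      apply AlternatingMap.map_linearDependent
      obtain ⟨c, d, hc, hcd⟩ := hn s t hst
      rw [Fintype.linearIndependent_iff]
      intro h
      apply hc
      ext j
      apply h c
      have h3 : ∑ i, c i • Pi.basisFun K (Fin k) i = c := by
        simpa using (Pi.basisFun K (Fin k)).sum_repr c
      simp only [← map_smul, ← map_sum]
      rw [h3, hcd, hGb])
  have := hli.fintype_card_le_finrank
  rwa [exteriorPower.finrank_eq, finrank_fin_fun] at this

end lin

/-- skew set-pair bound with a threshold -/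
theorem skew_sets {I : Type} [Fintype I] [LinearOrder I] (k l : ℕ) (A B : I → Finset ℚ)
    (hA : ∀ s, (A s).card = l) (hB : ∀ s, (B s).card = l)
    (hd : ∀ s, k ≤ (A s \ B s).card) (hn : ∀ s t, s < t → (A s \ B t).card < k) :
    Fintype.card I ≤ (k + k).choose k := by
  classical
  let P : Finset ℚ → ℚ[X] := fun x => ∏ i ∈ x, (X - C i)
  have hP0 : ∀ x, P x ≠ 0 := fun x => (monic_prod_X_sub_C _ _).ne_zero
  have hPd : ∀ x, (P x).degree = x.card := fun x => by
    rw [degree_eq_natDegree (hP0 x)]
    simp [P, natDegree_finsetProd_X_sub_C_eq_card]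
  have hPe : ∀ x, ∀ i ∈ x, (P x).eval i = 0 := fun x i hi => by
    simp only [P, eval_prod, eval_sub, eval_X, eval_C]
    exact Finset.prod_eq_zero hi (sub_self _)
  let γ : Finset ℚ → (Fin k → ℚ) →ₗ[ℚ] ℚ[X] := fun x =>
    LinearMap.mulLeft ℚ (P x) ∘ₗ (degreeLT ℚ k).subtype ∘ₗ (degreeLTEquiv ℚ k).symm.toLinearMap
  have hγ : ∀ x c, γ x c = P x * ((degreeLTEquiv ℚ k).symm c : ℚ[X]) := fun x c => rfl
  have hγ0 : ∀ x c, γ x c = 0 → c = 0 := by
    intro x c h
    rw [hγ, mul_eq_zero] at h
    have h1 := h.resolve_left (hP0 x)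
    exact (degreeLTEquiv ℚ k).symm.map_eq_zero_iff.1 (Subtype.ext h1)
  refine skew_lin k (fun s => γ (A s)) (fun s => γ (B s)) (fun s => ?_) (fun s t hst => ?_)
  · rw [LinearMap.ker_eq_bot']
    rintro ⟨c, d⟩ h
    simp only [LinearMap.coprod_apply] at h
    have h1 : γ (B s) d = 0 := by
      refine eq_zero_of_degree_lt_of_eval_finset_eq_zero (A s ∪ B s) ?_ ?_
      · rw [hγ, degree_mul, hPd, hB]
        have h2 := mem_degreeLT.1 ((degreeLTEquiv ℚ k).symm d).2
        have h3 : l + k ≤ (A s ∪ B s).card := by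
          rw [← Finset.card_sdiff_add_card, hB]; have := hd s; omega
        calc (l : WithBot ℕ) + _ < l + k := WithBot.add_lt_add_left (by simp) h2
          _ ≤ _ := by exact_mod_cast h3
      · intro i hi
        rcases Finset.mem_union.1 hi with hi | hi
        · rw [eq_neg_of_add_eq_zero_right h, hγ]; simp [hPe _ _ hi]
        · rw [hγ]; simp [hPe _ _ hi]
    rw [h1, add_zero] at h
    rw [hγ0 _ _ h, hγ0 _ _ h1]; rfl
  · have h1 := hn s t hst
    have h2 : (B t \ A s).card < k := by
      rwa [Finset.card_sdiff_comm (by rw [hA, hB])]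
    have m1 : P (B t \ A s) ∈ degreeLT ℚ k := mem_degreeLT.2 (by rw [hPd]; exact_mod_cast h2)
    have m2 : P (A s \ B t) ∈ degreeLT ℚ k := mem_degreeLT.2 (by rw [hPd]; exact_mod_cast h1)
    refine ⟨degreeLTEquiv ℚ k ⟨_, m1⟩, degreeLTEquiv ℚ k ⟨_, m2⟩, ?_, ?_⟩
    · intro h
      exact hP0 _ (congrArg Subtype.val ((degreeLTEquiv ℚ k).map_eq_zero_iff.1 h))
    · simp only [hγ, LinearEquiv.symm_apply_apply, P]
      rw [← Finset.prod_union Finset.disjoint_sdiff, ← Finset.prod_union Finset.disjoint_sdiff,
        Finset.union_sdiff_self_eq_union, Finset.union_sdiff_self_eq_union, Finset.union_comm]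

end Pool.Agent.P.MP_7cff07_gt
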