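import Pool.Agent.P.MP_7cff07_gt.Nonvanish
import Pool.Agent.P.MP_7cff07_gt.Top
import Pool.Agent.P.MP_7cff07_gt.SlUpper

namespace Pool.Agent.P.MP_7cff07_gt

open Finset

/-- support of a cube vertex as a set of naturals -/
def supp {n : ℕ} (x : Lex (Fin n → Bool)) : Finset ℕ :=
  (univ.filter fun i => ofLex x i = true).map Fin.valEmbedding

/-- slice of the cube -/
def slice (n l : ℕ) : Set (Lex (Fin n → Bool)) :=
  {x | (univ.filter fun i => ofLex x i = true).card = l}

lemma card_supp {n l : ℕ} {x : Lex (Fin n → Bool)} (hx : x ∈ slice n l) : (supp x).card = l := by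
  rw [supp, card_map]; exact hx

lemma ham_supp {n l : ℕ} {x y : Lex (Fin n → Bool)} (hx : x ∈ slice n l) (hy : y ∈ slice n l) :
    hammingDist (ofLex x) (ofLex y) = 2 * (supp x \ supp y).card := by
  have h1 : (supp y \ supp x).card = (supp x \ supp y).card :=
    card_sdiff_comm (by rw [card_supp hx, card_supp hy])
  rw [two_mul]
  conv_rhs => rw [← h1]; congr; rw [h1]
  simp only [supp, ← Finset.map_sdiff, card_map]
  rw [← card_union_of_disjoint disjoint_sdiff_sdiff, hammingDist]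
  congr 1
  ext i
  simp only [mem_filter, mem_univ, true_and, mem_union, mem_sdiff]
  cases ofLex x i <;> cases ofLex y i <;> simp

lemma close_iff {n l r : ℕ} {x y : Lex (Fin n → Bool)} (hx : x ∈ slice n l)
    (hy : y ∈ slice n l) :
    hammingDist (ofLex x) (ofLex y) ≤ r ↔ (supp x \ supp y).card ≤ r / 2 := by
  rw [ham_supp hx hy]; omega

theorem vanish_slice (n l r q : ℕ) (hq : (2 * (r / 2) + 1).choose (r / 2) ≤ q) :
    ¬ Nontrivial (reducedHomology (VR (slice n l) r) q) := by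
  rw [VR_eq]
  refine not_nontrivial_of_not_skew (by simp) (fun x y h => by rwa [hammingDist_comm]) _ q ?_
  rintro ⟨v, w, hv, hw, h1, h2, h3⟩
  let e : ℕ ↪ ℚ := ⟨Nat.cast, Nat.cast_injective⟩
  let p : Fin (q + 1) ⊕ (Fin (q + 1))ᵒᵈ → Lex (Fin n → Bool) :=
    Sum.elim v (fun i => w (OrderDual.ofDual i))
  let p' : Fin (q + 1) ⊕ (Fin (q + 1))ᵒᵈ → Lex (Fin n → Bool) :=
    Sum.elim w (fun i => v (OrderDual.ofDual i))
  have hp : ∀ s, p s ∈ slice n l := by rintro (s | s); exacts [hv _, hw _]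
  have hp' : ∀ s, p' s ∈ slice n l := by rintro (s | s); exacts [hw _, hv _]
  have := skew_sets (I := Fin (q + 1) ⊕ₗ (Fin (q + 1))ᵒᵈ) (r / 2 + 1) l
    (fun s => (supp (p (ofLex s))).map e) (fun s => (supp (p' (ofLex s))).map e)
    (fun s => by rw [card_map, card_supp (hp _)]) (fun s => by rw [card_map, card_supp (hp' _)])
    (fun s => by
      rw [← Finset.map_sdiff, card_map, Nat.succ_le_iff, ← not_le, ← close_iff (hp _) (hp' _)]
      rcases s with s | s
      · exact h2 s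
      · rw [hammingDist_comm]; exact h2 _)
    (fun s t hst => by
      rw [← Finset.map_sdiff, card_map, Nat.lt_succ_iff, ← close_iff (hp _) (hp' _)]
      rcases s with s | s <;> rcases t with t | t
      · exact h3 s t (Sum.Lex.inl_lt_inl_iff.1 hst)
      · exact h1 _ _
      · exact absurd hst Sum.Lex.not_inr_lt_inl
      · have h6 : s < t := Sum.Lex.inr_lt_inr_iff.1 hst
        rw [hammingDist_comm]; exact h3 _ _ h6)
  have h4 : Fintype.card (Fin (q + 1) ⊕ₗ (Fin (q + 1))ᵒᵈ) = (q + 1) + (q + 1) := by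
    rw [Fintype.card_lex, Fintype.card_sum, Fintype.card_orderDual, Fintype.card_fin]
  have h5 : (r / 2 + 1 + (r / 2 + 1)).choose (r / 2 + 1) =
      2 * (2 * (r / 2) + 1).choose (r / 2) := by
    rw [show r / 2 + 1 + (r / 2 + 1) = (2 * (r / 2) + 1) + 1 by ring, Nat.choose_succ_succ',
      Nat.choose_symm_half]; ring
  omega

/-- retraction of one graph onto another -/
def Ret {V W : Type} (X : Set V) (c : V → V → Prop) (Y : Set W) (d : W → W → Prop) : Prop :=
  ∃ (π : V → W) (s : W → V), (∀ v ∈ X, π v ∈ Y) ∧ (∀ u ∈ X, ∀ v ∈ X, c u v → d (π u) (π v)) ∧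
    (∀ w ∈ Y, s w ∈ X) ∧ (∀ w ∈ Y, ∀ w' ∈ Y, d w w' → c (s w) (s w')) ∧ ∀ w ∈ Y, π (s w) = w

lemma Ret.refl {V : Type} (X : Set V) (c : V → V → Prop) : Ret X c X c :=
  ⟨id, id, fun _ h => h, fun _ _ _ _ h => h, fun _ h => h, fun _ _ _ _ h => h, fun _ _ => rfl⟩

lemma Ret.trans {V W U : Type} {X : Set V} {c : V → V → Prop} {Y : Set W} {d : W → W → Prop}
    {Z : Set U} {e : U → U → Prop} (h1 : Ret X c Y d) (h2 : Ret Y d Z e) : Ret X c Z e := by
  obtain ⟨π, s, a1, a2, a3, a4, a5⟩ := h1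
  obtain ⟨π', s', b1, b2, b3, b4, b5⟩ := h2
  exact ⟨π' ∘ π, s ∘ s', fun v hv => b1 _ (a1 v hv),
    fun u hu v hv h => b2 _ (a1 u hu) _ (a1 v hv) (a2 u hu v hv h),
    fun w hw => a3 _ (b3 w hw), fun w hw w' hw' h => a4 _ (b3 w hw) _ (b3 w' hw') (b4 w hw w' hw' h),
    fun w hw => by simp [a5 _ (b3 w hw), b5 w hw]⟩

/-- slices as sets of naturals -/
def Sl (n l : ℕ) : Set (Finset ℕ) := {u | u ⊆ range n ∧ u.card = l}

/-- closeness of sets -/
def cl (ρ : ℕ) (u v : Finset ℕ) : Prop := (u \ v).card ≤ ρ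

lemma ret_bool (n l r : ℕ) :
    Ret (slice n l) (fun x y => hammingDist (ofLex x) (ofLex y) ≤ r) (Sl n l) (cl (r / 2)) := by
  have key : ∀ w ∈ Sl n l, supp (toLex fun i : Fin n => decide (i.1 ∈ w)) = w := by
    intro w hw
    ext i
    simp only [supp, ofLex_toLex, decide_eq_true_eq, mem_map, mem_filter, mem_univ, true_and,
      Fin.valEmbedding_apply]
    constructor
    · rintro ⟨a, ha, rfl⟩; exact ha
    · intro hi; exact ⟨⟨i, mem_range.1 (hw.1 hi)⟩, hi, rfl⟩
  have hs : ∀ w ∈ Sl n l, (toLex fun i : Fin n => decide (i.1 ∈ w)) ∈ slice n l := by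
    intro w hw
    have := congrArg card (key w hw)
    rw [supp, card_map, hw.2] at this
    exact this
  refine ⟨supp, fun w => toLex fun i => decide (i.1 ∈ w), fun v hv => ⟨?_, card_supp hv⟩,
    fun u hu v hv h => (close_iff hu hv).1 h, hs, fun w hw w' hw' h => ?_, key⟩
  · intro i hi
    obtain ⟨a, -, rfl⟩ := mem_map.1 hi
    exact mem_range.2 a.2
  · refine (close_iff (hs w hw) (hs w' hw')).2 ?_
    rw [key w hw, key w' hw']; exact h

lemma ret_compl {n l l' : ℕ} (ρ : ℕ) (h : l + l' = n) : Ret (Sl n l) (cl ρ) (Sl n l') (cl ρ) := by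
  have h1 : ∀ {a b : ℕ}, a + b = n → ∀ v ∈ Sl n a, range n \ v ∈ Sl n b := by
    intro a b hab v hv
    refine ⟨sdiff_subset, ?_⟩
    rw [card_sdiff_of_subset hv.1, card_range, hv.2]; omega
  have h2 : ∀ {a : ℕ}, ∀ u ∈ Sl n a, ∀ v ∈ Sl n a, cl ρ u v →
      cl ρ (range n \ u) (range n \ v) := by
    intro a u hu v hv huv
    unfold cl at huv ⊢
    rw [card_sdiff_comm (by rw [hu.2, hv.2])] at huv
    refine le_trans (card_le_card ?_) huv
    intro i hi
    simp only [mem_sdiff] at hi ⊢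
    tauto
  exact ⟨fun v => range n \ v, fun v => range n \ v, h1 h, h2, h1 (by omega), h2,
    fun w hw => Finset.sdiff_sdiff_eq_self hw.1⟩

/-- least natural outside a finite set -/
noncomputable def mex (u : Finset ℕ) : ℕ := Nat.find (Infinite.exists_notMem_finset u)

lemma mex_notMem (u : Finset ℕ) : mex u ∉ u := Nat.find_spec (Infinite.exists_notMem_finset u)

lemma mem_of_lt_mex {u : Finset ℕ} {i : ℕ} (h : i < mex u) : i ∈ u := by
  have := Nat.find_min (Infinite.exists_notMem_finset u) h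
  simpa using this

lemma ret_del {n l : ℕ} (ρ : ℕ) (h : l ≤ n) : Ret (Sl (n + 1) l) (cl ρ) (Sl n l) (cl ρ) := by
  let π : Finset ℕ → Finset ℕ := fun u => if n ∈ u then insert (mex u) (u.erase n) else u
  have hm : ∀ u ∈ Sl (n + 1) l, n ∈ u → mex u < n := by
    intro u hu hn
    by_contra hc
    have h1 : range (n + 1) ⊆ u := by
      intro i hi
      rcases Nat.lt_succ_iff_lt_or_eq.1 (mem_range.1 hi) with hi | rfl
      · exact mem_of_lt_mex (by omega)
      · exact hn
    have := card_le_card h1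
    rw [card_range, hu.2] at this
    omega
  have hπ : ∀ u ∈ Sl (n + 1) l, π u ∈ Sl n l := by
    intro u hu
    have hsub : ∀ i ∈ u, i ≠ n → i < n := fun i hi hne => by
      have := mem_range.1 (hu.1 hi); omega
    simp only [π]
    split_ifs with hn
    · refine ⟨?_, ?_⟩
      · intro i hi
        rcases mem_insert.1 hi with rfl | hi
        · exact mem_range.2 (hm u hu hn)
        · exact mem_range.2 (hsub i (mem_of_mem_erase hi) (ne_of_mem_erase hi))
      · rw [card_insert_of_notMem (fun h => mex_notMem u (mem_of_mem_erase h)),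
          card_erase_add_one hn, hu.2]
    · exact ⟨fun i hi => mem_range.2 (hsub i hi (by rintro rfl; exact hn hi)), hu.2⟩
  have key : ∀ u ∈ Sl (n + 1) l, ∀ v ∈ Sl (n + 1) l, (n ∉ u ∨ (n ∈ v ∧ mex u ≤ mex v)) →
      (π u \ π v).card ≤ (u \ v).card := by
    intro u hu v hv huv
    refine card_le_card fun i hi => ?_
    simp only [π] at hi
    by_cases h1 : n ∈ u <;> by_cases h2 : n ∈ v <;>
      simp only [h1, h2, if_true, if_false, mem_sdiff, mem_insert, mem_erase, not_or, not_and] at hi ⊢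
    · have h3 : mex u ≤ mex v := by tauto
      rcases hi with ⟨rfl | hi, h4, h5⟩
      · exact absurd (mem_of_lt_mex (lt_of_le_of_ne h3 h4)) (h5 (hm u hu h1).ne)
      · exact ⟨hi.2, h5 hi.1⟩
    · tauto
    · exact ⟨hi.1, hi.2.2 (by rintro rfl; exact h1 hi.1)⟩
    · exact hi
  refine ⟨π, id, hπ, fun u hu v hv huv => ?_, fun w hw => ⟨hw.1.trans (by simp), hw.2⟩,
    fun _ _ _ _ h => h, fun w hw => ?_⟩
  · unfold cl at huv ⊢
    by_cases hc : n ∉ u ∨ (n ∈ v ∧ mex u ≤ mex v)
    · exact (key u hu v hv hc).trans huv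
    · rw [card_sdiff_comm (by rw [(hπ u hu).2, (hπ v hv).2])]
      rw [card_sdiff_comm (by rw [hu.2, hv.2])] at huv
      refine (key v hv u hu ?_).trans huv
      push Not at hc
      by_cases h2 : n ∈ v
      · exact Or.inr ⟨hc.1, (hc.2 h2).le⟩
      · exact Or.inl h2
  · have : n ∉ w := fun hn => by simpa using hw.1 hn
    simp [π, this]

lemma ret_dels {n m l : ℕ} (ρ : ℕ) (h : l ≤ n) (hm : n ≤ m) :
    Ret (Sl m l) (cl ρ) (Sl n l) (cl ρ) := by
  induction m, hm using Nat.le_induction with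
  | base => exact Ret.refl _ _
  | succ m hm ih => exact (ret_del ρ (h.trans hm)).trans ih

lemma ret_fin (N ρ : ℕ) : Ret (Sl N (ρ + 1)) (cl ρ)
    {u : Finset (Fin N) | u.card = ρ + 1} (fun u v => ¬ Disjoint u v) := by
  have key : ∀ u ∈ Sl N (ρ + 1), (univ.filter fun i : Fin N => i.1 ∈ u).map Fin.valEmbedding = u := by
    intro w hw
    ext i
    simp only [mem_map, mem_filter, mem_univ, true_and, Fin.valEmbedding_apply]
    constructor
    · rintro ⟨a, ha, rfl⟩; exact ha
    · intro hi; exact ⟨⟨i, mem_range.1 (hw.1 hi)⟩, hi, rfl⟩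
  have hcl : ∀ u v : Finset ℕ, u.card = ρ + 1 → (cl ρ u v ↔ ¬ Disjoint u v) := by
    intro u v hu
    unfold cl
    rw [← Finset.sdiff_eq_self_iff_disjoint, ← Nat.lt_succ_iff, Nat.succ_eq_add_one, ← hu]
    constructor
    · intro h1 h2; rw [h2] at h1; exact lt_irrefl _ h1
    · intro h1; exact card_lt_card (ssubset_of_ne_of_subset h1 sdiff_subset)
  refine ⟨fun u => univ.filter fun i : Fin N => i.1 ∈ u, fun w => w.map Fin.valEmbedding,
    fun v hv => ?_, fun u hu v hv h => ?_, fun w hw => ⟨?_, ?_⟩, fun w hw w' _ h => ?_,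
    fun w _ => ?_⟩
  · have := congrArg card (key v hv)
    rw [card_map, hv.2] at this
    exact this
  · rw [hcl u v hu.2, ← key u hu, ← key v hv, disjoint_map] at h
    exact h
  · intro i hi
    obtain ⟨a, -, rfl⟩ := mem_map.1 hi
    exact mem_range.2 a.2
  · rw [card_map]; exact hw
  · rw [hcl _ _ (by rw [card_map]; exact hw), disjoint_map]; exact h
  · ext i
    simp [Fin.val_inj]

theorem ret_odd {n l r : ℕ} (h1 : r / 2 + 1 ≤ l) (h2 : l + (r / 2 + 1) ≤ n)
    (h3 : 2 * (r / 2) + 3 ≤ n) :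
    Ret (slice n l) (fun x y => hammingDist (ofLex x) (ofLex y) ≤ r)
      {u : Finset (Fin (2 * (r / 2) + 3)) | u.card = r / 2 + 1} (fun u v => ¬ Disjoint u v) := by
  refine (ret_bool n l r).trans (Ret.trans ?_ (ret_fin _ _))
  rcases h1.eq_or_lt with rfl | h1
  · exact ret_dels _ (by omega) h3
  · exact (ret_dels _ (n := l + (r / 2 + 1)) (by omega) h2).trans
      ((ret_compl _ rfl).trans (ret_dels _ (by omega) (by omega)))

end Pool.Agent.P.MP_7cff07_gt
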