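import Pool.Agent.P.MP_7cff07_gt.SlGlue
import Pool.Agent.P.MP_7cff07_gt.SlNum
import Pool.Agent.P.MP_7cff07_gt.SlGadget

namespace Pool.Agent.P.MP_7cff07_gt

open Finset

lemma mass_le {e b t i : ℕ} (ht : e ≤ t)
    (hr : ∀ j ≤ e, b.choose (t - i) ≤ 2 * b.choose (t - j)) :
    2 ^ e * b.choose (t - i) ≤ 2 * (e + b).choose t := by
  rw [vdm ht, ← Nat.sum_range_choose, sum_mul, mul_sum]
  refine sum_le_sum fun j hj => ?_
  have := Nat.mul_le_mul_left (e.choose j) (hr j (by have := mem_range.1 hj; omega))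
  linarith

lemma rout_le {e b b' t c1 c2 w : ℕ} (hb : b' ≤ b) (ht : e ≤ t)
    (hr : ∀ i ≤ e, ∀ j ≤ e, b.choose (t - i) ≤ 2 * b.choose (t - j))
    (hP : ∀ j, Areg c1 c2 j → 2 * j + w ≤ e ∨ e + w ≤ 2 * j) :
    (w : ℝ) ^ 2 * Rout e b' c1 c2 t ≤ 2 * e * (e + b).choose t := by
  have h1 := tail_bound (Areg c1 c2) hP
  have h2 : (2 : ℝ) ^ e * Rout e b' c1 c2 t ≤
      (∑ j ∈ range (e + 1), (if Areg c1 c2 j then (e.choose j : ℝ) else 0)) *
        (2 * (e + b).choose t) := by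
    rw [Rout, sum_mul]
    push_cast
    rw [mul_sum]
    refine sum_le_sum fun j hj => ?_
    have hj' : j ≤ e := by have := mem_range.1 hj; omega
    by_cases h : Areg c1 c2 j
    · rw [if_pos ⟨h, by omega⟩, if_pos h, mul_left_comm]
      refine mul_le_mul_of_nonneg_left ?_ (Nat.cast_nonneg _)
      have := (Nat.mul_le_mul_left (2 ^ e) (Nat.choose_le_choose (t - j) hb)).trans
        (mass_le ht (hr j hj'))
      exact_mod_cast this
    · simp [h]
  refine le_of_mul_le_mul_left ?_ (show (0 : ℝ) < 2 ^ e by positivity)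
  have h3 := mul_le_mul_of_nonneg_left h2 (sq_nonneg (w : ℝ))
  have h4 := mul_le_mul_of_nonneg_right h1 (show (0 : ℝ) ≤ 2 * (e + b).choose t by positivity)
  nlinarith

/-- existence of sparse structures at all nearly central levels -/
def SA (α : ℝ) : Prop := ∃ D : ℕ, ∀ w e c : ℕ, D * (w + 1) ≤ e → e ≤ 2 * c + w → 2 * c ≤ e + w →
  ∃ m, Av (Fin e) c m ∧ (m : ℝ) ≤ α * (e + 1).choose (c + 1)

lemma SA_one : SA 1 := by
  refine ⟨2, fun w e c h1 h2 h3 => ⟨(e - 1).choose c, ?_, ?_⟩⟩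
  · simpa using av_top (ι := Fin e) (c := c) (by simp; omega) (by simp; omega)
  · rw [one_mul, Nat.cast_le, Nat.choose_succ_succ]
    exact (Nat.choose_le_choose c (Nat.sub_le e 1)).trans (Nat.le_add_right _ _)

lemma exists_window (D : ℕ) {η : ℝ} (hη : 0 < η) (g0 : ℕ) : ∃ i g : ℕ, g0 ≤ g ∧ 2 * i + 3 ≤ g ∧
    D * (4 * i + 1 + 1) ≤ g ∧ 2 * ((2 * g + 1 : ℕ) : ℝ) ≤ η * ((4 * i + 1 : ℕ) : ℝ) ^ 2 := by
  obtain ⟨i, hi⟩ := exists_nat_ge ((8 * D + 10) / η + g0 + 1)
  have h0 : (0 : ℝ) ≤ (8 * D + 10) / η := by positivity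
  have h1 : g0 + 1 ≤ i := by exact_mod_cast (by linarith : (g0 : ℝ) + 1 ≤ i)
  refine ⟨i, (D + 1) * (4 * i + 2), by nlinarith, by nlinarith, by nlinarith, ?_⟩
  have h2 : (8 * D + 10 : ℝ) ≤ η * (4 * i + 1) := by
    have : (8 * D + 10 : ℝ) / η ≤ 4 * i + 1 := by
      have : (0 : ℝ) ≤ g0 := Nat.cast_nonneg _
      linarith
    rw [div_le_iff₀ hη] at this
    linarith
  have hi0 : (0 : ℝ) ≤ i := Nat.cast_nonneg _
  have hD : (0 : ℝ) ≤ D := Nat.cast_nonneg _
  push_cast
  nlinarith [mul_le_mul_of_nonneg_right h2 (show (0 : ℝ) ≤ 4 * i + 1 by positivity),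
    mul_nonneg hi0 hD]

lemma SA.step {α η : ℝ} (hα : 0 ≤ α) (hη : 0 < η) (h : SA α) : SA (α / 2 + η) := by
  obtain ⟨D, hD⟩ := h
  obtain ⟨i, g, -, hg1, hg2, hg3⟩ := exists_window D hη 0
  obtain ⟨e, he⟩ : ∃ e, e = 2 * g + 1 := ⟨_, rfl⟩
  rw [← he] at hg3
  choose! lo hlo using fun c => hD (4 * i + 1) e c (by omega)
  obtain ⟨b0, hb0⟩ := step_av e
  refine ⟨(4 * e + 1) * (3 * e + 1) + e + b0 + 4, fun W N t h1 h2 h3 => ?_⟩
  obtain ⟨b, rfl⟩ : ∃ b, N = e + b := ⟨N - e, by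
    have := (Nat.le_mul_of_pos_right _ (Nat.succ_pos W)).trans h1
    omega⟩
  have hb1 : (4 * e + 1) * (W + e + 2 * e) + b0 + 4 ≤ b := by nlinarith [Nat.zero_le (W * e)]
  have hb2 : 2 * W + 6 * e + b0 + 4 ≤ b := by nlinarith [Nat.zero_le (W * e)]
  have hr : ∀ i ≤ e, ∀ j ≤ e, b.choose (t - i) ≤ 2 * b.choose (t - j) := fun i hi j hj =>
    ratio_choose (W := W + e) (by omega) (by omega) (by omega) hi hj
  let T : ℕ → ℝ := fun π => ∑ c ∈ range (e + 1), if Act (g - 2 * i + π) (g + 2 * i + π) c then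
    (b.choose (t - c) : ℝ) * (e + 1).choose (c + 1) else 0
  have hT : T 0 + T 1 ≤ (e + b + 1).choose (t + 1) := by
    rw [show e + b + 1 = (e + 1) + b by ring, vdm (by omega), sum_range_succ']
    simp only [T, ← sum_add_distrib, Nat.add_sub_add_right]
    push_cast
    refine le_trans (sum_le_sum fun c _ => ?_) (le_add_of_nonneg_right (by positivity))
    have : (0 : ℝ) ≤ (b.choose (t - c) : ℝ) * (e + 1).choose (c + 1) := by positivity
    split_ifs with a1 a2
    · simp only [Act] at a1 a2; omega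
    all_goals linarith
  have main : ∀ π ≤ 1, ∃ m, Av (Fin (e + b)) t m ∧
      (m : ℝ) ≤ α * T π + η * (e + b + 1).choose (t + 1) := by
    intro π hπ
    have hA : ∀ c, Act (g - 2 * i + π) (g + 2 * i + π) c →
        e ≤ 2 * c + (4 * i + 1) ∧ 2 * c ≤ e + (4 * i + 1) := by
      intro c hc; simp only [Act] at hc; omega
    have := hb0 (Fin b) t (g - 2 * i + π) (g + 2 * i + π) (fun p => lo (t - p.card))
      (by simp; omega) (by omega) (by omega) (by omega) (by omega) (by simp; omega)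
      (by simp; omega) (fun p hp => (hlo _ (hA _ hp).1 (hA _ hp).2).1)
    refine ⟨_, this.congr (by simp [add_comm]), ?_⟩
    rw [← powerset_univ, sum_sites univ (e := e) (by omega) (by omega) (by omega) lo]
    simp only [card_univ, Fintype.card_fin]
    push_cast
    refine add_le_add ?_ ?_
    · simp only [T, mul_sum]
      refine sum_le_sum fun c _ => ?_
      split_ifs with a
      · rw [mul_left_comm]
        exact mul_le_mul_of_nonneg_left (hlo _ (hA _ a).1 (hA _ a).2).2 (Nat.cast_nonneg _)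
      · simp
    · have k1 := rout_le (b' := b - 1) (c1 := g - 2 * i + π) (c2 := g + 2 * i + π)
        (w := 4 * i + 1) (by omega) (show e ≤ t by omega) hr
        (fun j hj => by simp only [Areg] at hj; omega)
      have k2 : ((e + b).choose t : ℝ) ≤ (e + b + 1).choose (t + 1) := by
        rw [Nat.cast_le, Nat.choose_succ_succ]; exact Nat.le_add_right _ _
      refine le_trans ?_ (mul_le_mul_of_nonneg_left k2 hη.le)
      refine le_of_mul_le_mul_left ?_ (show (0 : ℝ) < ((4 * i + 1 : ℕ) : ℝ) ^ 2 by positivity)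
      have := mul_le_mul_of_nonneg_right hg3 (show (0 : ℝ) ≤ (e + b).choose t by positivity)
      nlinarith
  rcases le_total (T 0) (T 1) with h | h
  · obtain ⟨m, h4, h5⟩ := main 0 (by omega)
    exact ⟨m, h4, by nlinarith⟩
  · obtain ⟨m, h4, h5⟩ := main 1 (by omega)
    exact ⟨m, h4, by nlinarith⟩

theorem SA_all {α : ℝ} (hα : 0 < α) : SA α := by
  have key : ∀ n : ℕ, SA ((3 / 4) ^ n) := by
    intro n
    induction n with
    | zero => simpa using SA_one
    | succ n ih =>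
      have := ih.step (η := (3 / 4) ^ n / 4) (by positivity) (by positivity)
      rwa [show (3 / 4 : ℝ) ^ n / 2 + (3 / 4) ^ n / 4 = (3 / 4) ^ (n + 1) by ring] at this
  obtain ⟨n, hn⟩ := exists_pow_lt_of_lt_one hα (show (3 / 4 : ℝ) < 1 by norm_num)
  obtain ⟨D, hD⟩ := key n
  refine ⟨D, fun w e c h1 h2 h3 => ?_⟩
  obtain ⟨m, h4, h5⟩ := hD w e c h1 h2 h3
  exact ⟨m, h4, h5.trans (mul_le_mul_of_nonneg_right hn.le (Nat.cast_nonneg _))⟩

theorem unit_av : ∃ g0 : ℕ, ∀ g, g0 ≤ g → ∃ m, Av (Fin (2 * g + 1)) g m ∧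
    Av (Fin (2 * g + 1)) g (m + 1) := by
  obtain ⟨b0, hb0⟩ := step_av 9
  refine ⟨b0 + 20, fun g hg => ?_⟩
  obtain ⟨p0, -, hp0⟩ := exists_subset_card_eq (s := (univ : Finset (Fin (2 * g - 8))))
    (n := g - 3) (by simp; omega)
  have hA : ∀ p : Finset (Fin (2 * g - 8)), Act 3 3 (g - p.card) → g - p.card = 3 := by
    intro p hp; simp only [Act] at hp; omega
  have h1 := hb0 (Fin (2 * g - 8)) g 3 3 (fun _ => 42) (by simp; omega) (by omega) le_rfl rfl
    (by omega) (by simp; omega) (by simp; omega) (fun p hp => by rw [hA p hp]; exact av_42)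
  have h2 := hb0 (Fin (2 * g - 8)) g 3 3 (fun p => if p = p0 then 43 else 42) (by simp; omega)
    (by omega) le_rfl rfl (by omega) (by simp; omega) (by simp; omega) (fun p hp => by
      rw [hA p hp]; split_ifs; exacts [av_43, av_42])
  refine ⟨_, h1.congr (by simp; omega), ?_⟩
  convert h2.congr (κ := Fin (2 * g + 1)) (by simp; omega) using 1
  rw [add_right_comm]
  congr 1
  have h3 : Act 3 3 (g - p0.card) := by simp only [Act]; omega
  rw [← add_sum_erase _ _ (mem_univ p0), ← add_sum_erase _ _ (mem_univ p0), if_pos h3, if_pos h3,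
    if_pos rfl, add_right_comm]
  congr 1
  exact sum_congr rfl fun p hp => by rw [if_neg (ne_of_mem_erase hp)]

end Pool.Agent.P.MP_7cff07_gt
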