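import Pool.Agent.P.MP_7cff07_gt.SlStr

namespace Pool.Agent.P.MP_7cff07_gt

open Finset

/-- active levels -/
def Act (c1 c2 c : ℕ) : Prop := c1 ≤ c ∧ c ≤ c2 ∧ c % 2 = c1 % 2

/-- the outer region -/
def Areg (c1 c2 j : ℕ) : Prop := j < c1 ∨ c2 + 2 ≤ j

instance (c1 c2 : ℕ) : DecidablePred (Act c1 c2) := fun _ => by unfold Act; infer_instance

instance (c1 c2 : ℕ) : DecidablePred (Areg c1 c2) := fun _ => by unfold Areg; infer_instance

variable {B E : Type} [Fintype B] [DecidableEq B] [Fintype E] [DecidableEq E]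

/-- orientation of the outer edges -/
def Lsig {E : Type} (h : E) (c1 c2 : ℕ) (x : Finset E) : Prop :=
  x.card = c2 + 2 ∨ (x.card + 1 ≠ c1 ∧ h ∉ x)

/-- two levels of a product -/
def lvp {B E : Type} (t : ℕ) (v : Finset B × Finset E) : Prop :=
  v.1.card + v.2.card = t ∨ v.1.card + v.2.card = t + 1

/-- matched vertices of the glued structure -/
def stM {B E : Type} (a : B) (t c1 c2 : ℕ) (M : Finset B → Finset E → Prop)
    (v : Finset B × Finset E) : Prop :=
  (Act c1 c2 (t - v.1.card) ∧ M v.1 v.2) ∨ (Areg c1 c2 v.2.card ∧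
    ((a ∉ v.1 ∧ v.1.card + v.2.card = t) ∨ (a ∈ v.1 ∧ v.1.card + v.2.card = t + 1)))

/-- membership in the dominating side of the glued structure -/
def stP {B E : Type} (a : B) (h : E) (t c1 c2 : ℕ) (S : Finset B → Finset (Finset E))
    (v : Finset B × Finset E) : Prop :=
  (Act c1 c2 (t - v.1.card) ∧ v.2 ∈ S v.1) ∨ (Areg c1 c2 v.2.card ∧
    ((a ∉ v.1 ∧ v.1.card + v.2.card = t ∧ Lsig h c1 c2 v.2) ∨
      (a ∈ v.1 ∧ v.1.card + v.2.card = t + 1 ∧ ¬ Lsig h c1 c2 v.2)))

open Classical in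
/-- dominating side of the glued structure -/
noncomputable def stS (a : B) (h : E) (t c1 c2 : ℕ) (S : Finset B → Finset (Finset E)) :
    Finset (Finset B × Finset E) := univ.filter (stP a h t c1 c2 S)

omit [DecidableEq B] [DecidableEq E] in
lemma mem_stS {a : B} {h : E} {t c1 c2 : ℕ} {S : Finset B → Finset (Finset E)}
    {v : Finset B × Finset E} : v ∈ stS a h t c1 c2 S ↔ stP a h t c1 c2 S v := by
  simp [stS]

omit [Fintype B] [Fintype E] [DecidableEq E] in
lemma step_key {a : B} {t c1 c2 : ℕ} {M : Finset B → Finset E → Prop} (hc1 : 2 ≤ c1)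
    (hlev : ∀ p x, Act c1 c2 (t - p.card) → M p x → lv (t - p.card) x)
    {p q : Finset B} {x y : Finset E} (hv : stM a t c1 c2 M (p, x)) (hw : stM a t c1 c2 M (q, y))
    (hlt : (p, x) < (q, y)) :
    (Act c1 c2 (t - p.card) ∧ q = p ∧ M p x ∧ M p y ∧ x < y) ∨
      (Areg c1 c2 x.card ∧ y = x ∧ a ∉ p ∧ p.card + x.card = t ∧ q = insert a p) := by
  have h1 : p ⊆ q := hlt.le.1
  have h2 : x ⊆ y := hlt.le.2
  have c1' := card_le_card h1
  have c2' := card_le_card h2
  have h3 : p.card + x.card < q.card + y.card := by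
    rcases Prod.lt_iff.1 hlt with h | h
    · have := card_lt_card h.1; dsimp only at this; omega
    · have := card_lt_card h.2; dsimp only at this; omega
  have l1 := hlev p x
  have l2 := hlev q y
  simp only [stM, Act, Areg, lv] at hv hw l1 l2 ⊢
  by_cases hpq : p.card = q.card
  · obtain rfl := eq_of_subset_of_card_le h1 hpq.ge
    have hxy : x < y := lt_of_le_of_ne h2 (by rintro rfl; omega)
    rcases hv with hv | hv <;> rcases hw with hw | hw
    · exact Or.inl ⟨hv.1, rfl, hv.2, hw.2, hxy⟩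
    · have := l1 hv.1 hv.2; omega
    · have := l2 hw.1 hw.2; omega
    · rcases hv.2 with a1 | a1 <;> rcases hw.2 with a2 | a2
      · omega
      · exact absurd a2.1 a1.1
      · omega
      · omega
  · rcases hv with hv | hv <;> rcases hw with hw | hw
    · have := l1 hv.1 hv.2; have := l2 hw.1 hw.2; omega
    · have := l1 hv.1 hv.2; omega
    · have := l2 hw.1 hw.2; omega
    · rcases hv.2 with a1 | a1 <;> rcases hw.2 with a2 | a2
      · omega
      · refine Or.inr ⟨hv.1, (eq_of_subset_of_card_le h2 (by omega)).symm, a1.1, a1.2, ?_⟩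
        refine (eq_of_subset_of_card_le (insert_subset a2.1 h1) ?_).symm
        rw [card_insert_of_notMem a1.1]; omega
      · omega
      · omega

theorem step_str {a : B} {h : E} {t c1 c2 : ℕ} {M : Finset B → Finset E → Prop}
    {S : Finset B → Finset (Finset E)} (hc1 : 2 ≤ c1) (hc12 : c1 ≤ c2) (hpar : c2 % 2 = c1 % 2)
    (hc2 : c2 + 2 < Fintype.card E) (ht1 : c2 + 2 ≤ t) (ht2 : t < Fintype.card B)
    (hS : ∀ p, Act c1 c2 (t - p.card) → Str cmp (lv (t - p.card)) (M p) (S p))
    (hup : ∀ (p : Finset B) (x : Finset E), p.card + x.card = t → Act c1 c2 (x.card - 1) →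
      ∃ b ∉ p, x ∈ S (insert b p))
    (hdown : ∀ (p : Finset B) (x : Finset E), p.card + x.card = t + 1 → Act c1 c2 x.card →
      ∃ b ∈ p, x ∈ S (p.erase b)) :
    Str cmp (lvp t) (stM a t c1 c2 M) (stS a h t c1 c2 S) := by
  have hlev : ∀ p x, Act c1 c2 (t - p.card) → M p x → lv (t - p.card) x :=
    fun p x h1 h2 => (hS p h1).lev x h2
  have hna : ∀ p x, Act c1 c2 (t - p.card) → M p x → ¬ Areg c1 c2 x.card := by
    intro p x h1 h2
    have := hlev p x h1 h2
    simp only [Act, Areg, lv] at *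
    omega
  have key : ∀ p x q y, stM a t c1 c2 M (p, x) → stM a t c1 c2 M (q, y) → cmp (p, x) (q, y) →
      (Act c1 c2 (t - p.card) ∧ q = p ∧ M p x ∧ M p y ∧ cmp x y) ∨
      (Areg c1 c2 x.card ∧ y = x ∧ ((a ∉ p ∧ p.card + x.card = t ∧ q = insert a p) ∨
        (a ∈ p ∧ p.card + x.card = t + 1 ∧ q = p.erase a))) := by
    rintro p x q y hv hw (hlt | hlt)
    · rcases step_key hc1 hlev hv hw hlt with k | k
      · exact Or.inl ⟨k.1, k.2.1, k.2.2.1, k.2.2.2.1, Or.inl k.2.2.2.2⟩
      · exact Or.inr ⟨k.1, k.2.1, Or.inl k.2.2⟩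
    · rcases step_key hc1 hlev hw hv hlt with ⟨k1, rfl, k2, k3, k4⟩ | ⟨k1, rfl, k2, k3, rfl⟩
      · exact Or.inl ⟨k1, rfl, k3, k2, Or.inr k4⟩
      · exact Or.inr ⟨k1, rfl, Or.inr ⟨mem_insert_self _ _,
          by rw [card_insert_of_notMem k2]; omega, (erase_insert k2).symm⟩⟩
  have cR : ∀ (p : Finset B) (x y : Finset E), cmp x y → cmp (p, x) (p, y) := fun p x y h =>
    h.imp (fun h => Prod.mk_lt_mk_iff_right.2 h) (fun h => Prod.mk_lt_mk_iff_right.2 h)
  have cL : ∀ (x : Finset E) (p q : Finset B), cmp p q → cmp (p, x) (q, x) := fun p x y h =>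
    h.imp (fun h => Prod.mk_lt_mk_iff_left.2 h) (fun h => Prod.mk_lt_mk_iff_left.2 h)
  refine ⟨?_, ?_, ?_, ?_, ?_, ?_⟩
  · rintro ⟨p, x⟩ hv
    rcases mem_stS.1 hv with hv | hv
    · exact Or.inl ⟨hv.1, (hS p hv.1).sub _ hv.2⟩
    · exact Or.inr ⟨hv.1, hv.2.imp (fun h => ⟨h.1, h.2.1⟩) (fun h => ⟨h.1, h.2.1⟩)⟩
  · rintro ⟨p, x⟩ (hv | hv)
    · have := hlev p x hv.1 hv.2
      have := hv.1
      simp only [Act, lv, lvp] at *
      omega
    · exact hv.2.imp (fun h => h.2) (fun h => h.2)
  · rintro ⟨p, x⟩ (hv | ⟨hv, h1 | h1⟩)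
    · obtain ⟨y, hy, hc⟩ := (hS p hv.1).ex x hv.2
      exact ⟨(p, y), Or.inl ⟨hv.1, hy⟩, cR _ _ _ hc⟩
    · refine ⟨(insert a p, x), Or.inr ⟨hv, Or.inr ⟨mem_insert_self _ _, ?_⟩⟩,
        cL _ _ _ (Or.inl (ssubset_insert h1.1))⟩
      have := h1.2
      simp only [card_insert_of_notMem h1.1] at this ⊢
      omega
    · refine ⟨(p.erase a, x), Or.inr ⟨hv, Or.inl ⟨notMem_erase _ _, ?_⟩⟩,
        cL _ _ _ (Or.inr (erase_ssubset h1.1))⟩
      have := h1.2
      have := card_erase_add_one h1.1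
      dsimp only at *
      omega
  · rintro ⟨p, x⟩ ⟨q, y⟩ ⟨q', y'⟩ hv hw hw' k1 k2
    rcases key _ _ _ _ hv hw k1 with ⟨a1, rfl, a2, a3, a4⟩ | ⟨a1, rfl, a2⟩ <;>
      rcases key _ _ _ _ hv hw' k2 with ⟨b1, rfl, b2, b3, b4⟩ | ⟨b1, rfl, b2⟩
    · rw [(hS _ a1).uniq _ _ _ a2 a3 b3 a4 b4]
    · exact absurd b1 (hna _ _ a1 a2)
    · exact absurd a1 (hna _ _ b1 b2)
    · rcases a2 with a2 | a2 <;> rcases b2 with b2 | b2
      · rw [a2.2.2, b2.2.2]
      · exact absurd b2.1 a2.1
      · exact absurd a2.1 b2.1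
      · rw [a2.2.2, b2.2.2]
  · rintro ⟨p, x⟩ ⟨q, y⟩ hv hw k1
    simp only [mem_stS, stP]
    rcases key _ _ _ _ hv hw k1 with ⟨a1, rfl, a2, a3, a4⟩ | ⟨a1, rfl, a2⟩
    · simpa [a1, hna _ _ a1 a2, hna _ _ a1 a3] using (hS _ a1).one _ _ a2 a3 a4
    · have n1 : ∀ p, ¬ (Act c1 c2 (t - p.card) ∧ y ∈ S p) := fun p h =>
        hna _ _ h.1 ((hS p h.1).sub _ h.2) a1
      rcases a2 with ⟨a2, a3, rfl⟩ | ⟨a2, a3, rfl⟩
      · have a4 : (insert a p).card + y.card = t + 1 := by rw [card_insert_of_notMem a2]; omega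
        simp only [n1, a1, a2, a3, a4, mem_insert_self]
        simp
      · have a4 : (p.erase a).card + y.card = t := by have := card_erase_add_one a2; omega
        simp only [n1, a1, a2, a3, a4, notMem_erase]
        simp
  · rintro ⟨p, x⟩ hv hn
    simp only [mem_stS, stP, lvp, not_or] at hn hv ⊢
    have upB : p.card + x.card = t → ∃ b, b ∉ p := fun h => by
      obtain ⟨z, -, hz⟩ := exists_mem_notMem_of_card_lt_card
        (show p.card < (univ : Finset B).card by rw [card_univ]; omega)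
      exact ⟨z, hz⟩
    by_cases hA : Act c1 c2 (t - p.card)
    · obtain ⟨y, hy, hc⟩ := (hS p hA).dom x (by simp only [Act, lv] at *; omega)
        (fun h => hn.1 ⟨hA, h⟩)
      exact ⟨(p, y), Or.inl ⟨hA, hy⟩, cR _ _ _ hc⟩
    by_cases hR : Areg c1 c2 x.card
    swap
    · rcases hv with hv | hv
      · have k : Act c1 c2 (x.card - 1) := by simp only [Act, Areg] at *; omega
        obtain ⟨b, hb, hx⟩ := hup p x hv k
        refine ⟨(insert b p, x), Or.inl ⟨?_, hx⟩, cL _ _ _ (Or.inl (ssubset_insert hb))⟩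
        rw [card_insert_of_notMem hb, show t - (p.card + 1) = x.card - 1 by omega]
        exact k
      · have k : Act c1 c2 x.card := by simp only [Act, Areg] at *; omega
        obtain ⟨b, hb, hx⟩ := hdown p x hv k
        refine ⟨(p.erase b, x), Or.inl ⟨?_, hx⟩, cL _ _ _ (Or.inr (erase_ssubset hb))⟩
        have := card_erase_add_one hb
        rw [show t - (p.erase b).card = x.card by omega]
        exact k
    have hn2 := fun h => hn.2 ⟨hR, h⟩
    rcases hv with hv | hv
    · by_cases hL : Lsig h c1 c2 x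
      swap
      · obtain ⟨b, hb, hab⟩ : ∃ b ∉ p, a ∈ insert b p := by
          by_cases ha : a ∈ p
          · obtain ⟨b, hb⟩ := upB hv; exact ⟨b, hb, mem_insert_of_mem ha⟩
          · exact ⟨a, ha, mem_insert_self _ _⟩
        exact ⟨(insert b p, x), Or.inr ⟨hR, Or.inr ⟨hab,
          by simp only [card_insert_of_notMem hb]; omega, hL⟩⟩,
          cL _ _ _ (Or.inl (ssubset_insert hb))⟩
      · have ha : a ∈ p := by by_contra ha; exact hn2 (Or.inl ⟨ha, hv, hL⟩)
        obtain ⟨z, hz, hhz⟩ : ∃ z ∉ x, h ∈ insert z x := by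
          by_cases hh : h ∈ x
          · obtain ⟨z, -, hz⟩ := exists_mem_notMem_of_card_lt_card
              (show x.card < (univ : Finset E).card by
                rw [card_univ]; simp only [Lsig, hh] at hL; simp at hL; omega)
            exact ⟨z, hz, mem_insert_of_mem hh⟩
          · exact ⟨h, hh, mem_insert_self _ _⟩
        have hc := card_insert_of_notMem hz
        refine ⟨(p, insert z x), Or.inr ⟨?_, Or.inr ⟨ha, by simp only [hc]; omega, ?_⟩⟩,
          cR _ _ _ (Or.inl (ssubset_insert hz))⟩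
        · simp only [hc, Areg, Lsig] at *; omega
        · simp only [hc, Areg, Lsig, hhz] at *; simp; omega
    · by_cases hL : Lsig h c1 c2 x
      · by_cases ha : a ∈ p
        · have := card_erase_add_one ha
          exact ⟨(p.erase a, x), Or.inr ⟨hR, Or.inl ⟨notMem_erase _ _, by dsimp only; omega, hL⟩⟩,
            cL _ _ _ (Or.inr (erase_ssubset ha))⟩
        · by_cases hp : p.Nonempty
          · obtain ⟨b, hb⟩ := hp
            have := card_erase_add_one hb
            exact ⟨(p.erase b, x), Or.inr ⟨hR, Or.inl ⟨fun h => ha (mem_of_mem_erase h),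
              by dsimp only; omega, hL⟩⟩, cL _ _ _ (Or.inr (erase_ssubset hb))⟩
          · have hp0 : p.card = 0 := by simpa using hp
            obtain ⟨z, hz⟩ := card_pos.1 (show 0 < x.card by omega)
            have hc := card_erase_add_one hz
            have hh : h ∉ x := by simp only [Lsig] at hL; exact (hL.resolve_left (by omega)).2
            refine ⟨(p, x.erase z), Or.inr ⟨?_, Or.inl ⟨ha, by dsimp only; omega, ?_⟩⟩,
              cR _ _ _ (Or.inr (erase_ssubset hz))⟩
            · simp only [Areg] at *; omega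
            · exact Or.inr ⟨by dsimp only; omega, fun h' => hh (mem_of_mem_erase h')⟩
      · have ha : a ∉ p := fun ha => hn2 (Or.inr ⟨ha, hv, hL⟩)
        obtain ⟨z, hz, hhz⟩ : ∃ z ∈ x, h ∉ x.erase z := by
          by_cases hh : h ∈ x
          · exact ⟨h, hh, notMem_erase _ _⟩
          · obtain ⟨z, hz⟩ := card_pos.1 (show 0 < x.card by
              simp only [Lsig, hh] at hL; simp at hL; omega)
            exact ⟨z, hz, fun h' => hh (mem_of_mem_erase h')⟩
        have hc := card_erase_add_one hz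
        refine ⟨(p, x.erase z), Or.inr ⟨?_, Or.inl ⟨ha, by dsimp only; omega, ?_⟩⟩,
          cR _ _ _ (Or.inr (erase_ssubset hz))⟩
        · simp only [Areg, Lsig] at *; omega
        · simp only [Areg, Lsig, hhz] at *; simp; omega

theorem card_stS {a : B} {h : E} {t c1 c2 : ℕ} {S : Finset B → Finset (Finset E)}
    (hS : ∀ p, Act c1 c2 (t - p.card) → ∀ x ∈ S p, lv (t - p.card) x) :
    (stS a h t c1 c2 S).card = (∑ p, if Act c1 c2 (t - p.card) then (S p).card else 0) +
      ∑ j ∈ range (Fintype.card E + 1), if Areg c1 c2 j ∧ j ≤ t then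
        (Fintype.card E).choose j * (Fintype.card B - 1).choose (t - j) else 0 := by
  classical
  have h1 : stS a h t c1 c2 S =
      (univ.filter fun v => Act c1 c2 (t - v.1.card) ∧ v.2 ∈ S v.1) ∪
      univ.filter fun v => Areg c1 c2 v.2.card ∧
        ((a ∉ v.1 ∧ v.1.card + v.2.card = t ∧ Lsig h c1 c2 v.2) ∨
          (a ∈ v.1 ∧ v.1.card + v.2.card = t + 1 ∧ ¬ Lsig h c1 c2 v.2)) := by
    ext v; simp [mem_stS, stP]
  rw [h1, card_union_of_disjoint]
  swap
  · rw [disjoint_filter]
    rintro ⟨p, x⟩ - h1 h2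
    have := hS p h1.1 x h1.2
    have := h1.1
    have := h2.1
    simp only [Act, Areg, lv] at *
    omega
  congr 1
  · rw [card_filter, Fintype.sum_prod_type]
    refine sum_congr rfl fun p _ => ?_
    split_ifs with hA <;> simp [hA]
  · trans (univ.filter fun v : Finset B × Finset E =>
      Areg c1 c2 v.2.card ∧ a ∉ v.1 ∧ v.1.card + v.2.card = t).card
    · refine card_nbij' (fun v => (v.1.erase a, v.2))
        (fun v => (if Lsig h c1 c2 v.2 then v.1 else insert a v.1, v.2)) ?_ ?_ ?_ ?_ <;>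
        rintro ⟨p, x⟩ hv <;> simp only [coe_filter, mem_univ, true_and, Set.mem_ofPred_eq] at hv ⊢
      · refine ⟨hv.1, notMem_erase _ _, ?_⟩
        rcases hv.2 with k | k
        · rw [erase_eq_of_notMem k.1]; exact k.2.1
        · have := card_erase_add_one k.1; omega
      · refine ⟨hv.1, ?_⟩
        split_ifs with k
        · exact Or.inl ⟨hv.2.1, hv.2.2, k⟩
        · exact Or.inr ⟨mem_insert_self _ _, by rw [card_insert_of_notMem hv.2.1]; omega, k⟩
      · rcases hv.2 with k | k <;> simp [k.1, k.2.2]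
      · split_ifs with k <;> simp [hv.2.1]
    · rw [card_filter, Fintype.sum_prod_type_right, ← powerset_univ (α := E), ← card_univ (α := E)]
      simp only [← card_filter]
      have h2 : ∀ x : Finset E, (univ.filter fun p : Finset B =>
          Areg c1 c2 x.card ∧ a ∉ p ∧ p.card + x.card = t).card =
          if Areg c1 c2 x.card ∧ x.card ≤ t then (Fintype.card B - 1).choose (t - x.card)
            else 0 := by
        intro x
        split_ifs with k
        · rw [← card_univ, ← card_erase_of_mem (mem_univ a), ← card_powersetCard]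
          congr 1
          ext p
          simp only [mem_filter, mem_univ, true_and, mem_powersetCard, subset_erase, subset_univ,
            k.1]
          exact and_congr_right fun _ => by omega
        · rw [card_eq_zero, filter_eq_empty_iff]
          exact fun p _ hp => k ⟨hp.1, by omega⟩
      simp only [h2]
      rw [sum_powerset_apply_card (fun j => if Areg c1 c2 j ∧ j ≤ t then
        (Fintype.card B - 1).choose (t - j) else 0)]
      simp

end Pool.Agent.P.MP_7cff07_gt
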