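import Pool.Agent.P.MP_7cff07_gt.SlRet

namespace Pool.Agent.P.MP_7cff07_gt

open Finset

/-- an induced matching one side of which dominates -/
structure Str {V : Type} (adj : V → V → Prop) (X M : V → Prop) (σ : Finset V) : Prop where
  sub : ∀ v ∈ σ, M v
  lev : ∀ v, M v → X v
  ex : ∀ v, M v → ∃ w, M w ∧ adj v w
  uniq : ∀ v w w', M v → M w → M w' → adj v w → adj v w' → w = w'
  one : ∀ v w, M v → M w → adj v w → (v ∈ σ ↔ w ∉ σ)
  dom : ∀ v, X v → v ∉ σ → ∃ w ∈ σ, adj v w

theorem Str.nontrivial {V W : Type} [LinearOrder V] [Fintype V] [DecidableEq W]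
    {close : V → V → Prop} (hrefl : ∀ x, close x x) (hsymm : ∀ x y, close x y → close y x)
    {X : Set V} {adj : W → W → Prop} (hadj : ∀ x y, adj x y → adj y x) {Y M : W → Prop}
    {σ : Finset W} (hR : Ret X close {w | Y w} (fun u v => ¬ adj u v)) (h : Str adj Y M σ)
    {q : ℕ} (hq : σ.card = q + 1) : Nontrivial (reducedHomology (Cl close X) q) := by
  classical
  obtain ⟨π, s, a1, a2, a3, a4, a5⟩ := hR
  have hy : ∀ x, ∃ y, M x → M y ∧ adj x y := by
    intro x
    by_cases hx : M x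
    · obtain ⟨y, hy⟩ := h.ex x hx; exact ⟨y, fun _ => hy⟩
    · exact ⟨x, fun h => absurd h hx⟩
  choose y hy using hy
  refine nontrivial_of_cross hrefl hsymm X {w | Y w} π s a1 a2 a3 a4 a5 σ y
    (fun x hx => h.lev _ (h.sub x hx)) (fun x hx => h.lev _ (hy x (h.sub x hx)).1)
    (fun x hx x' hx' ha => (h.one _ _ (h.sub x hx) (h.sub x' hx') ha).1 hx hx')
    (fun x hx x' hx' hne ha => hne ?_) (fun x hx x' hx' ha => ?_)
    (fun x hx => not_not.2 (hy x (h.sub x hx)).2) (fun w hw hall => ?_) q hq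
  · exact h.uniq _ _ _ (hy x' (h.sub x' hx')).1 (h.sub x hx) (h.sub x' hx') (hadj _ _ ha)
      (hadj _ _ (hy x' (h.sub x' hx')).2)
  · have h1 := hy x (h.sub x hx)
    have h2 := hy x' (h.sub x' hx')
    have h3 := h.uniq _ _ _ h1.1 (h.sub x hx) h2.1 (hadj _ _ h1.2) ha
    exact (h.one _ _ (h.sub x' hx') h2.1 h2.2).1 hx' (h3 ▸ hx)
  · by_contra hw'
    obtain ⟨x, hx, ha⟩ := h.dom w hw hw'
    exact hall x hx ha

theorem Str.map {V W : Type} {adj : V → V → Prop} {X M : V → Prop} {σ : Finset V}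
    (h : Str adj X M σ) (φ : V ≃ W) {adj' : W → W → Prop} {X' : W → Prop}
    (h1 : ∀ v w, adj' (φ v) (φ w) ↔ adj v w) (h2 : ∀ v, X' (φ v) ↔ X v) :
    Str adj' X' (fun w => M (φ.symm w)) (σ.map φ.toEmbedding) := by
  refine ⟨?_, ?_, ?_, ?_, ?_, ?_⟩ <;> simp only [φ.surjective.forall, φ.surjective.exists,
    mem_map_equiv, Equiv.symm_apply_apply, h1, h2, φ.injective.eq_iff]
  exacts [h.sub, h.lev, h.ex, h.uniq, h.one, h.dom]

/-- comparability -/
def cmp {V : Type} [Preorder V] (v w : V) : Prop := v < w ∨ w < v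

lemma cmp_symm {V : Type} [Preorder V] {v w : V} (h : cmp v w) : cmp w v := Or.symm h

variable {ι : Type} [Fintype ι] [DecidableEq ι]

/-- two consecutive levels -/
def lv {ι : Type} (c : ℕ) (v : Finset ι) : Prop := v.card = c ∨ v.card = c + 1

/-- available sizes -/
def Av (ι : Type) (c m : ℕ) : Prop :=
  ∃ (M : Finset ι → Prop) (σ : Finset (Finset ι)), Str cmp (lv c) M σ ∧ σ.card = m

omit [Fintype ι] [DecidableEq ι] in
lemma Str.congr {κ : Type} {c : ℕ} {M : Finset ι → Prop} {σ : Finset (Finset ι)}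
    (h : Str cmp (lv c) M σ) (e : ι ≃ κ) :
    Str cmp (lv c) (fun w => M (e.finsetCongr.symm w)) (σ.map e.finsetCongr.toEmbedding) :=
  h.map _ (fun v w => by simp [cmp, map_ssubset_map])
    (fun v => by simp [lv])

omit [DecidableEq ι] in
lemma Av.congr {κ : Type} [Fintype κ] {c m : ℕ} (h : Av ι c m)
    (hc : Fintype.card ι = Fintype.card κ) : Av κ c m := by
  obtain ⟨M, σ, h, rfl⟩ := h
  exact ⟨_, _, h.congr (Fintype.equivOfCardEq hc), card_map _⟩

/-- complementation -/
def cpl (ι : Type) [Fintype ι] [DecidableEq ι] : Finset ι ≃ Finset ι :=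
  Function.Involutive.toPerm compl compl_involutive

lemma Str.mirror {c c' : ℕ} {M : Finset ι → Prop} {σ : Finset (Finset ι)}
    (h : Str cmp (lv c) M σ) (hc : c + c' + 1 = Fintype.card ι) :
    Str cmp (lv c') (fun w => M wᶜ) (σ.map (cpl ι).toEmbedding) :=
  h.map (cpl ι) (fun v w => by
    simp only [cmp, cpl, Function.Involutive.coe_toPerm, compl_lt_compl_iff_lt]; tauto)
    (fun v => by
      have := card_le_univ v
      simp only [lv, cpl, Function.Involutive.coe_toPerm, card_compl]; omega)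

lemma mem_map_cpl {σ : Finset (Finset ι)} {v : Finset ι} :
    v ∈ σ.map (cpl ι).toEmbedding ↔ vᶜ ∈ σ := mem_map_equiv

omit [Fintype ι] [DecidableEq ι] in
lemma cmp_card {v w : Finset ι} (h : cmp v w) : v.card ≠ w.card := by
  rcases h with h | h
  · exact (card_lt_card h).ne
  · exact (card_lt_card h).ne'

lemma Str.exists_up {c : ℕ} {M : Finset ι → Prop} {σ : Finset (Finset ι)}
    (h : Str cmp (lv c) M σ) (h1 : 1 ≤ c) (h2 : c ≤ Fintype.card ι) :
    ∃ x ∈ σ, x.card = c + 1 := by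
  by_contra hcon
  push Not at hcon
  have hall : ∀ L : Finset ι, L.card = c → L ∈ σ := by
    intro L hL
    by_contra hn
    obtain ⟨w, hw, ha⟩ := h.dom L (Or.inl hL) hn
    exact cmp_card ha (hL.trans ((h.lev _ (h.sub w hw)).resolve_right (hcon w hw)).symm)
  obtain ⟨L, -, hL⟩ := exists_subset_card_eq (s := (univ : Finset ι)) h2
  obtain ⟨U, hU, ha⟩ := h.ex L (h.sub _ (hall L hL))
  have hUc : U.card = c + 1 := (h.lev _ hU).resolve_left fun h => cmp_card ha (hL.trans h.symm)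
  obtain ⟨i, hi, j, hj, hij⟩ := one_lt_card.1 (show 1 < U.card by omega)
  have e1 : ∀ i ∈ U, M (U.erase i) := fun i hi =>
    h.sub _ (hall _ (by rw [card_erase_of_mem hi]; omega))
  have := h.uniq U _ _ hU (e1 i hi) (e1 j hj) (Or.inr (erase_ssubset hi))
    (Or.inr (erase_ssubset hj))
  exact hij (erase_injOn U hi hj this)

lemma Av.target {c m : ℕ} (h : Av ι c m) (h1 : 1 ≤ c) (h2 : c + 2 ≤ Fintype.card ι)
    (x : Finset ι) :
    ∃ (M : Finset ι → Prop) (σ : Finset (Finset ι)), Str cmp (lv c) M σ ∧ σ.card = m ∧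
      (lv c x → x ∈ σ) := by
  obtain ⟨M, σ, h, rfl⟩ := h
  by_cases hx : lv c x
  swap
  · exact ⟨M, σ, h, rfl, fun h => absurd h hx⟩
  have : ∃ x0 ∈ σ, x0.card = x.card := by
    rcases hx with hx | hx
    · obtain ⟨y, hy, hy'⟩ := (h.mirror (c' := Fintype.card ι - c - 1) (by omega)).exists_up
        (by omega) (by omega)
      refine ⟨yᶜ, mem_map_cpl.1 hy, ?_⟩
      rw [card_compl]; omega
    · rw [hx]; exact h.exists_up h1 (by omega)
  obtain ⟨x0, hx0, hc⟩ := this
  obtain ⟨e, he⟩ := Equiv.Perm.exists_map_finset_eq x0 x hc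
  exact ⟨_, _, h.congr e, card_map _, fun _ => mem_map.2 ⟨x0, hx0, he⟩⟩

omit [DecidableEq ι] in
lemma Av.le {c m : ℕ} (h : Av ι c m) : m ≤ 2 ^ Fintype.card ι := by
  obtain ⟨M, σ, h, rfl⟩ := h
  simpa using card_le_univ σ

omit [Fintype ι] in
lemma lt_insert_of_lv {c : ℕ} {v w : Finset ι} (hv : lv c v) (hw : lv c w) (h : v < w) :
    v.card = c ∧ w.card = c + 1 ∧ ∃ a ∉ v, insert a v = w := by
  have := card_lt_card h
  unfold lv at hv hw
  exact ⟨by omega, by omega, exists_eq_insert_iff.2 ⟨h.le, by omega⟩⟩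

theorem av_top {c : ℕ} (h2 : 2 ≤ Fintype.card ι) (hc : c + 1 ≤ Fintype.card ι) :
    Av ι c ((Fintype.card ι - 1).choose c) := by
  obtain ⟨i, h, hih⟩ := Fintype.exists_pair_of_one_lt_card (α := ι) (by omega)
  have key : ∀ v w : Finset ι, ((v.card = c ∧ i ∉ v) ∨ (v.card = c + 1 ∧ i ∈ v)) →
      ((w.card = c ∧ i ∉ w) ∨ (w.card = c + 1 ∧ i ∈ w)) → v < w →
      v.card = c ∧ i ∉ v ∧ w = insert i v := by
    intro v w hv hw hlt
    obtain ⟨a1, a2, a, ha, rfl⟩ := lt_insert_of_lv (c := c) (by unfold lv; tauto)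
      (by unfold lv; tauto) hlt
    have b1 : i ∉ v := by rcases hv with hv | hv; exacts [hv.2, by omega]
    have b2 : i ∈ insert a v := by rcases hw with hw | hw; exacts [by omega, hw.2]
    rw [(mem_insert.1 b2).resolve_right b1]
    exact ⟨a1, by rwa [← (mem_insert.1 b2).resolve_right b1], rfl⟩
  refine ⟨fun v => (v.card = c ∧ i ∉ v) ∨ (v.card = c + 1 ∧ i ∈ v),
    univ.filter fun v => (v.card = c ∧ i ∉ v ∧ h ∉ v) ∨ (v.card = c + 1 ∧ i ∈ v ∧ h ∈ v),
    ⟨?_, ?_, ?_, ?_, ?_, ?_⟩, ?_⟩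
  · intro v hv; simp only [mem_filter] at hv; tauto
  · intro v hv; unfold lv; tauto
  · rintro v (hv | hv)
    · exact ⟨insert i v, Or.inr ⟨by rw [card_insert_of_notMem hv.2, hv.1], mem_insert_self _ _⟩,
        Or.inl (ssubset_insert hv.2)⟩
    · exact ⟨v.erase i, Or.inl ⟨by rw [card_erase_of_mem hv.2]; omega, notMem_erase _ _⟩,
        Or.inr (erase_ssubset hv.2)⟩
  · rintro v w w' hv hw hw' (a | a) (b | b)
    · rw [(key _ _ hv hw a).2.2, (key _ _ hv hw' b).2.2]
    · exact absurd ((key _ _ hw' hv b).2.2 ▸ mem_insert_self _ _) (key _ _ hv hw a).2.1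
    · exact absurd ((key _ _ hw hv a).2.2 ▸ mem_insert_self _ _) (key _ _ hv hw' b).2.1
    · obtain ⟨-, a1, a2⟩ := key _ _ hw hv a
      obtain ⟨-, b1, b2⟩ := key _ _ hw' hv b
      rw [← erase_insert a1, ← a2, b2, erase_insert b1]
  · have k2 : ∀ v : Finset ι, v.card = c → i ∉ v →
        (((v.card = c ∧ i ∉ v ∧ h ∉ v) ∨ (v.card = c + 1 ∧ i ∈ v ∧ h ∈ v)) ↔
        ¬ (((insert i v).card = c ∧ i ∉ insert i v ∧ h ∉ insert i v) ∨
          ((insert i v).card = c + 1 ∧ i ∈ insert i v ∧ h ∈ insert i v))) := by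
      intro v h1 h2
      simp [h1, h2, hih.symm]
    rintro v w hv hw (a | a) <;> simp only [mem_filter, mem_univ, true_and]
    · obtain ⟨a0, a1, rfl⟩ := key _ _ hv hw a
      exact k2 v a0 a1
    · obtain ⟨a0, a1, rfl⟩ := key _ _ hw hv a
      exact iff_not_comm.1 (k2 w a0 a1)
  · intro v hv hn
    simp only [mem_filter, mem_univ, true_and] at hn ⊢
    rcases hv with hv | hv
    · have : ∃ z ∉ v, i ∈ insert z v ∧ h ∈ insert z v := by
        by_cases a : i ∈ v <;> by_cases b : h ∈ v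
        · obtain ⟨z, -, hz⟩ := exists_mem_notMem_of_card_lt_card
            (show v.card < (univ : Finset ι).card by rw [card_univ]; omega)
          exact ⟨z, hz, by simp [a], by simp [b]⟩
        · exact ⟨h, b, by simp [a], by simp⟩
        · exact ⟨i, a, by simp, by simp [b]⟩
        · tauto
      obtain ⟨z, hz, a, b⟩ := this
      exact ⟨insert z v, Or.inr ⟨by rw [card_insert_of_notMem hz, hv], a, b⟩,
        Or.inl (ssubset_insert hz)⟩
    · have : ∃ z ∈ v, i ∉ v.erase z ∧ h ∉ v.erase z := by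
        by_cases a : i ∈ v <;> by_cases b : h ∈ v
        · tauto
        · exact ⟨i, a, by simp, by simp [b]⟩
        · exact ⟨h, b, by simp [a], by simp⟩
        · obtain ⟨z, hz⟩ := card_pos.1 (show 0 < v.card by omega)
          exact ⟨z, hz, by simp [a], by simp [b]⟩
      obtain ⟨z, hz, a, b⟩ := this
      exact ⟨v.erase z, Or.inl ⟨by rw [card_erase_of_mem hz]; omega, a, b⟩,
        Or.inr (erase_ssubset hz)⟩
  · rw [← card_univ, ← card_erase_of_mem (mem_univ i), ← card_powersetCard]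
    refine card_nbij' (fun v => v.erase i) (fun u => if h ∈ u then insert i u else u) ?_ ?_ ?_ ?_
    · intro v hv
      simp only [coe_filter, mem_univ, true_and, Set.mem_ofPred_eq] at hv
      simp only [mem_coe, mem_powersetCard]
      refine ⟨erase_subset_erase _ (subset_univ _), ?_⟩
      rcases hv with hv | hv
      · rw [erase_eq_of_notMem hv.2.1, hv.1]
      · rw [card_erase_of_mem hv.2.1]; omega
    · intro u hu
      simp only [mem_coe, mem_powersetCard, subset_erase, subset_univ, true_and] at hu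
      simp only [coe_filter, mem_univ, true_and, Set.mem_ofPred_eq]
      split_ifs with a <;> simp [hu.1, hu.2, a]
    · intro v hv
      simp only [coe_filter, mem_univ, true_and, Set.mem_ofPred_eq] at hv
      rcases hv with hv | hv
      · simp [hv.2.1, hv.2.2]
      · simp [hv.2.1, hv.2.2, hih.symm]
    · intro u hu
      simp only [mem_coe, mem_powersetCard, subset_erase, subset_univ, true_and] at hu
      beta_reduce
      split_ifs with a <;> simp [hu.1]

theorem Str.fold {k : ℕ} (hk : Fintype.card ι = 2 * k + 1) {M : Finset ι → Prop}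
    {σ : Finset (Finset ι)} (h : Str cmp (lv k) M σ) (hM : ∀ v, M v → M vᶜ)
    (hσ : ∀ v ∈ σ, vᶜ ∈ σ) :
    Str Disjoint (fun v => v.card = k) (fun v => M v ∧ v.card = k)
      (σ.filter fun v => v.card = k) ∧ 2 * (σ.filter fun v => v.card = k).card = σ.card := by
  have hσ' : ∀ v, vᶜ ∈ σ ↔ v ∈ σ := fun v => ⟨fun h => by simpa using hσ _ h, hσ v⟩
  have k1 : ∀ u v : Finset ι, u.card = k → v.card = k → (Disjoint u v ↔ cmp u vᶜ) := by
    intro u v hu hv
    have hc : vᶜ.card = k + 1 := by rw [card_compl]; omega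
    rw [← le_compl_iff_disjoint_right]
    constructor
    · intro h; exact Or.inl (lt_of_le_of_ne h (by rintro rfl; omega))
    · rintro (h | h)
      · exact h.le
      · have := card_lt_card h; omega
  have k2 : ∀ u w : Finset ι, u.card = k → lv k w → cmp u w → wᶜ.card = k := by
    intro u w hu hw ha
    have := cmp_card ha
    unfold lv at hw
    rw [card_compl]; omega
  refine ⟨⟨?_, fun v hv => hv.2, ?_, ?_, ?_, ?_⟩, ?_⟩
  · intro v hv; exact ⟨h.sub _ (mem_filter.1 hv).1, (mem_filter.1 hv).2⟩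
  · rintro v ⟨hv, hv'⟩
    obtain ⟨w, hw, ha⟩ := h.ex v hv
    have := k2 v w hv' (h.lev _ hw) ha
    exact ⟨wᶜ, ⟨hM _ hw, this⟩, (k1 _ _ hv' this).2 (by rwa [compl_compl])⟩
  · rintro v w w' hv hw hw' a b
    exact compl_injective (h.uniq v _ _ hv.1 (hM _ hw.1) (hM _ hw'.1) ((k1 _ _ hv.2 hw.2).1 a)
      ((k1 _ _ hv.2 hw'.2).1 b))
  · rintro v w hv hw a
    have := h.one v _ hv.1 (hM _ hw.1) ((k1 _ _ hv.2 hw.2).1 a)
    simpa [hv.2, hw.2, hσ'] using this
  · intro v hv hn
    obtain ⟨w, hw, ha⟩ := h.dom v (Or.inl hv) (by simpa [hv] using hn)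
    have := k2 v w hv (h.lev _ (h.sub _ hw)) ha
    exact ⟨wᶜ, mem_filter.2 ⟨hσ _ hw, this⟩, (k1 _ _ hv this).2 (by rwa [compl_compl])⟩
  · rw [two_mul, ← card_filter_add_card_filter_not (s := σ) (fun v => v.card = k)]
    congr 1
    refine card_nbij' compl compl ?_ ?_ (fun v _ => compl_compl v) (fun v _ => compl_compl v)
    · intro v hv
      simp only [coe_filter, Set.mem_ofPred_eq] at hv ⊢
      exact ⟨hσ _ hv.1, by rw [card_compl]; omega⟩
    · intro v hv
      simp only [coe_filter, Set.mem_ofPred_eq] at hv ⊢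
      have := h.lev _ (h.sub _ hv.1)
      unfold lv at this
      exact ⟨hσ _ hv.1, by rw [card_compl]; omega⟩

end Pool.Agent.P.MP_7cff07_gt
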