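import Pool.Agent.P.MP_7cff07_gt.SoNum

namespace Pool.Agent.P.MP_7cff07_gt.So

open Finset

theorem upper (R : ℕ) : ∃ C : ℕ, ∀ r n : ℕ, r + (R + 1) + 1 ≤ n →
    2 ^ r * r ^ (R + 1) ≤
      {q | Nontrivial (reducedHomology (VR (Set.univ : Set (Lex (Fin n → Bool))) r) q)}.ncard *
        r ^ (R + 1) + C * 2 ^ r := by
  obtain ⟨C, D, r0, H⟩ := window_low R
  obtain ⟨x1, hx1⟩ := poly_le_exp (10000 * 7 ^ (4 + (R + 1))) (4 + (R + 1))
  obtain ⟨x2, hx2⟩ := poly_le_exp 1 (R + 1)
  set r1 := r0 + 36 + 4000000000 * D + (2 * x1 + 6) + x2 with hr1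
  refine ⟨r1 ^ (R + 1) + 2 * (C + 1), fun r n hn => ?_⟩
  set S := {q | Nontrivial (reducedHomology (VR (Set.univ : Set (Lex (Fin n → Bool))) r) q)}
    with hS
  rcases lt_or_ge r r1 with hr | hr
  · have : r ^ (R + 1) ≤ r1 ^ (R + 1) := Nat.pow_le_pow_left hr.le _
    nlinarith [Nat.zero_le (S.ncard * r ^ (R + 1)), Nat.zero_le (2 ^ r), Nat.zero_le (C * 2 ^ r)]
  have hp : 0 < r ^ (R + 1) := by have : 0 < r := by omega
                                  positivity
  obtain ⟨G, hG1, hG2⟩ : ∃ G, 2 ^ r ≤ G * r ^ (R + 1) ∧ G * r ^ (R + 1) ≤ 2 * 2 ^ r := by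
    refine ⟨2 ^ r / r ^ (R + 1) + 1, ?_, ?_⟩
    · rw [mul_comm]; exact (Nat.lt_mul_div_succ _ hp).le
    · have h1 := Nat.div_mul_le_self (2 ^ r) (r ^ (R + 1))
      have h2 := hx2 r (by omega)
      have h3 : r ^ (R + 1) ≤ (r + 1) ^ (R + 1) := Nat.pow_le_pow_left (by omega) _
      rw [add_mul]; omega
  have htop : 10000 * r ^ 4 * 2 ^ r ≤ G * 2 ^ ((r - 6) / 2) := by
    have h1 := hx1 ((r - 6) / 2) (by omega)
    have h2 : r ^ (4 + (R + 1)) ≤ (7 * ((r - 6) / 2 + 1)) ^ (4 + (R + 1)) :=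
      Nat.pow_le_pow_left (by omega) _
    calc 10000 * r ^ 4 * 2 ^ r ≤ 10000 * r ^ 4 * (G * r ^ (R + 1)) := by gcongr
      _ = G * (10000 * r ^ (4 + (R + 1))) := by ring
      _ ≤ G * (10000 * (7 * ((r - 6) / 2 + 1)) ^ (4 + (R + 1))) := by gcongr
      _ ≤ _ := by rw [mul_pow, ← mul_assoc 10000]; gcongr
  have hsub : (↑(Finset.Ico (C * G) (2 ^ r - G)) : Set ℕ) ⊆ S := by
    intro q hq
    have hq' := Finset.mem_Ico.1 hq
    by_cases h1 : (q + 1) * D ≤ 2 ^ r
    · refine H r n q (by omega) hn ?_ h1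
      calc C * 2 ^ r ≤ C * (G * r ^ (R + 1)) := by gcongr
        _ = C * G * r ^ (R + 1) := by ring
        _ ≤ _ := Nat.mul_le_mul_right _ (by omega)
    · refine window_two (by omega) (by omega) ?_ ?_
      · calc 4000000000 * 2 ^ r ≤ 4000000000 * ((q + 1) * D) := by omega
          _ = 4000000000 * D * (q + 1) := by ring
          _ ≤ _ := Nat.mul_le_mul_right _ (by omega)
      · calc _ ≤ (q + 1) * 2 ^ ((r - 6) / 2) + G * 2 ^ ((r - 6) / 2) := by omega
          _ = (q + 1 + G) * 2 ^ ((r - 6) / 2) := by ring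
          _ ≤ _ := Nat.mul_le_mul_right _ (by omega)
  have h1 := Set.ncard_le_ncard hsub ((Finset.finite_toSet _).subset (degrees_subset n r))
  rw [Set.ncard_coe_finset, Nat.card_Ico] at h1
  have h2 : 2 ^ r ≤ S.ncard + (C * G + G) := by omega
  calc 2 ^ r * r ^ (R + 1) ≤ (S.ncard + (C * G + G)) * r ^ (R + 1) := by gcongr
    _ = S.ncard * r ^ (R + 1) + (C + 1) * (G * r ^ (R + 1)) := by ring
    _ ≤ S.ncard * r ^ (R + 1) + (C + 1) * (2 * 2 ^ r) := by gcongr
    _ ≤ _ := by nlinarith [Nat.zero_le (r1 ^ (R + 1) * 2 ^ r)]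

lemma acyc_one {V : Type} [LinearOrder V] [Fintype V] {close : V → V → Prop}
    (hrefl : ∀ x, close x x) (hsymm : ∀ x y, close x y → close y x) (v0 : V)
    (hconn : ∀ v, Relation.ReflTransGen close v0 v) : Acyc close Finset.univ 1 := by
  intro z hz hz0
  have h1 : ∀ v, Finsupp.single {v} (1 : ℤ) - Finsupp.single {v0} 1 ∈
      (chains (Cl close (↑(Finset.univ : Finset V))) 2).map (boundary V) := by
    intro v
    induction hconn v with
    | refl => simp
    | @tail u v _ huv ih =>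
      have h2 : cone u (Finsupp.single {v} 1) ∈ chains (Cl close (↑(Finset.univ : Finset V))) 2 :=
        cone_mem_chains hrefl hsymm (Y := {v}) (by simp) (by simp) (by simpa using huv)
          (single_mem_supported ⟨⟨by simp, by simpa using hrefl v⟩, by simp⟩)
      have h3 : boundary V (cone u (Finsupp.single {v} 1)) =
          Finsupp.single {v} 1 - Finsupp.single {u} 1 := by
        rw [boundary_cone, boundary_single]
        simp [sgn, cone_single, Finset.filter_singleton]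
      have h4 := Submodule.add_mem _ (Submodule.mem_map_of_mem (f := boundary V) h2) ih
      rwa [h3, sub_add_sub_cancel] at h4
  have h2 := map_supported_le (LinearMap.id - cone v0 ∘ₗ boundary V)
    (N := (chains (Cl close (↑(Finset.univ : Finset V))) 2).map (boundary V)) (by
      rintro σ ⟨-, hσ⟩
      obtain ⟨v, rfl⟩ := Finset.card_eq_one.1 hσ
      have h3 : cone v0 (boundary V (Finsupp.single {v} 1)) = Finsupp.single {v0} 1 := by
        rw [boundary_single]
        simp [sgn, cone_single, Finset.filter_singleton]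
      simpa [h3] using h1 v) hz
  simpa [hz0] using h2

lemma vanish_zero {n r : ℕ} (hr : 1 ≤ r) :
    ¬ Nontrivial (reducedHomology (VR (Set.univ : Set (Lex (Fin n → Bool))) r) 0) := by
  classical
  rw [VR_eq, nontrivial_reducedHomology_iff]
  rintro ⟨z, hz, hz0, hc⟩
  rw [← Finset.coe_univ] at hz hc
  obtain ⟨c, hc1, hc2⟩ := acyc_one
    (close := fun x y : Lex (Fin n → Bool) => hammingDist (ofLex x) (ofLex y) ≤ r)
    (by simp) (fun x y h => by rwa [hammingDist_comm]) (toLex fun _ => false) (fun v => by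
      have key : ∀ S : Finset (Fin n), Relation.ReflTransGen
          (fun x y : Lex (Fin n → Bool) => hammingDist (ofLex x) (ofLex y) ≤ r)
          (toLex fun _ => false) (toLex fun i => decide (i ∈ S)) := by
        intro S
        induction S using Finset.induction_on with
        | empty => simpa using Relation.ReflTransGen.refl
        | insert a S ha ih =>
          refine ih.tail (le_trans ?_ hr)
          refine (Finset.card_le_card (t := {a}) fun i hi => ?_).trans (by simp)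
          by_contra h
          rw [Finset.mem_singleton] at h
          simp [h] at hi
      have := key (Finset.univ.filter fun i => ofLex v i = true)
      simpa only [Finset.mem_filter, Finset.mem_univ, true_and, Bool.decide_eq_true,
        toLex_ofLex] using this) z hz hz0
  exact hc c hc1 hc2

theorem lower (R r : ℕ) (hr : 1 ≤ r) : ∃ m : ℕ,
    {q | Nontrivial (reducedHomology
      (VR (Set.univ : Set (Lex (Fin (r + R + 1) → Bool))) r) q)}.ncard + m ≤ 2 ^ r ∧
      2 ^ r ≤ 2 * m * ((R + 3) * r) ^ R := by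
  have hp : 0 < (r + R + 2) ^ R := by positivity
  have h0 : 0 < 2 ^ r := by positivity
  refine ⟨max 1 ((2 ^ r - 1) / (r + R + 2) ^ R), ?_, ?_⟩
  · have h1 : (2 ^ r - 1) / (r + R + 2) ^ R ≤ 2 ^ r - 1 := Nat.div_le_self _ _
    have hsub : {q | Nontrivial (reducedHomology
        (VR (Set.univ : Set (Lex (Fin (r + R + 1) → Bool))) r) q)} ⊆
        ↑(Finset.Ico (max 1 ((2 ^ r - 1) / (r + R + 2) ^ R)) (2 ^ r)) := by
      intro q hq
      refine Finset.mem_Ico.2 ⟨max_le ?_ ?_, Finset.mem_range.1 (degrees_subset _ r hq)⟩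
      · by_contra h
        obtain rfl : q = 0 := by omega
        exact vanish_zero hr hq
      · by_contra h
        refine vanish_low ?_ hq
        have h2 : (q + 1) * (r + R + 2) ^ R ≤ 2 ^ r - 1 :=
          (Nat.le_div_iff_mul_le hp).1 (by omega)
        have h3 : 2 ^ (r + 1) ≤ 2 ^ (r + R + 1) := Nat.pow_le_pow_right (by norm_num) (by omega)
        rw [pow_succ 2 r] at h3
        rw [mul_assoc]
        omega
    have h2 := Set.ncard_le_ncard hsub (Finset.finite_toSet _)
    rw [Set.ncard_coe_finset, Nat.card_Ico] at h2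
    omega
  · have h1 := Nat.lt_mul_div_succ (2 ^ r - 1) hp
    have h2 : (r + R + 2) ^ R ≤ ((R + 3) * r) ^ R := Nat.pow_le_pow_left (by nlinarith) _
    generalize (2 ^ r - 1) / (r + R + 2) ^ R = m at h1
    calc 2 ^ r ≤ (r + R + 2) ^ R * (m + 1) := by omega
      _ ≤ ((R + 3) * r) ^ R * (2 * max 1 m) := Nat.mul_le_mul h2 (by omega)
      _ = _ := by ring

theorem second_order (s : ℕ) (hs : 2 ≤ s) : ∃ c C : ℝ, 0 < c ∧ ∀ r : ℕ, 1 ≤ r →
    c * 2 ^ r / (r : ℝ) ^ (s - 1) ≤ 2 ^ r - ({q | Nontrivial (reducedHomology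
      (VR (Set.univ : Set (Lex (Fin (r + s) → Bool))) r) q)}.ncard : ℝ) ∧
    ∀ n : ℕ, r + s ≤ n →
      0 ≤ 2 ^ r - ({q | Nontrivial (reducedHomology
        (VR (Set.univ : Set (Lex (Fin n → Bool))) r) q)}.ncard : ℝ) ∧
      2 ^ r - ({q | Nontrivial (reducedHomology
        (VR (Set.univ : Set (Lex (Fin n → Bool))) r) q)}.ncard : ℝ) ≤
        C * 2 ^ r / (r : ℝ) ^ (s - 1) := by
  obtain ⟨R, rfl⟩ : ∃ R, s = R + 1 + 1 := ⟨s - 2, by omega⟩
  obtain ⟨C, hC⟩ := upper R
  refine ⟨1 / (2 * ((R : ℝ) + 4) ^ (R + 1)), C, by positivity, fun r hr => ⟨?_, fun n hn => ?_⟩⟩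
  · obtain ⟨m, h1, h2⟩ := lower (R + 1) r hr
    have hr' : (0 : ℝ) < r := by exact_mod_cast hr
    have h3 : (2 : ℝ) ^ r ≤ 2 * m * ((R + 4) * r) ^ (R + 1) := by exact_mod_cast h2
    have h4 : (({q | Nontrivial (reducedHomology
      (VR (Set.univ : Set (Lex (Fin (r + (R + 1 + 1)) → Bool))) r) q)}.ncard : ℕ) : ℝ) + m ≤
        2 ^ r := by exact_mod_cast h1
    refine le_trans ?_ (le_sub_iff_add_le'.2 h4)
    rw [Nat.add_sub_cancel, div_le_iff₀ (by positivity), one_div, inv_mul_le_iff₀ (by positivity)]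
    calc (2 : ℝ) ^ r ≤ _ := h3
      _ = _ := by rw [mul_pow]; ring
  · have hr' : (0 : ℝ) < r := by exact_mod_cast hr
    refine ⟨sub_nonneg.2 (by exact_mod_cast ncard_le n r), ?_⟩
    rw [Nat.add_sub_cancel, le_div_iff₀ (by positivity), sub_mul, sub_le_iff_le_add']
    exact_mod_cast hC r n hn

end Pool.Agent.P.MP_7cff07_gt.So
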