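import Pool.Agent.P.MP_7cff07_gt.SoLow
import Pool.Agent.P.MP_7cff07_gt.Coarse

namespace Pool.Agent.P.MP_7cff07_gt.So

open Finset

section general

variable {ι X : Type} [Fintype ι] [DecidableEq ι] [Fintype X] [DecidableEq X]

omit [DecidableEq ι] in
lemma norm_sum_le {α : Type} (s : Finset α) (v : α → ι → ZMod 2) (l : ℕ)
    (h : ∀ a ∈ s, hammingNorm (v a) ≤ l) : hammingNorm (∑ a ∈ s, v a) ≤ s.card * l := by
  classical
  induction s using Finset.induction_on with
  | empty => simp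
  | insert a s ha ih =>
    rw [Finset.sum_insert ha, Finset.card_insert_of_notMem ha]
    have h1 := hammingNorm_add_le' (v a) (∑ a ∈ s, v a)
    have h2 := h a (by simp)
    have h3 := ih fun b hb => h b (by simp [hb])
    nlinarith

omit [Fintype X] [DecidableEq X] in
lemma lin_eq_sum (lam : ι → X → ZMod 2) (e : ι → ZMod 2) :
    lin lam e = ∑ j ∈ Finset.univ.filter (fun j => e j ≠ 0), lam j := by
  rw [Finset.sum_filter]
  refine Finset.sum_congr rfl fun j _ => ?_
  rcases z2_cases (e j) with h | h <;> simp [h]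

omit [DecidableEq X] in
lemma norm_lin_le (lam : ι → X → ZMod 2) {l : ℕ} (h : ∀ j, hammingNorm (lam j) ≤ l)
    (e : ι → ZMod 2) : hammingNorm (lin lam e) ≤ hammingNorm e * l := by
  classical
  rw [lin_eq_sum]
  exact norm_sum_le _ _ _ fun a _ => h a

omit [DecidableEq X] in
lemma norm_one : hammingNorm (1 : X → ZMod 2) = Fintype.card X := by
  simp [hammingNorm]

omit [DecidableEq X] in
lemma lin_ne_one (lam : ι → X → ZMod 2) {l R : ℕ} (hX : Fintype.card X = R * l + 1)
    (h : ∀ j, hammingNorm (lam j) ≤ l) {e : ι → ZMod 2} (he : hammingNorm e ≤ R) :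
    lin lam e ≠ 1 := by
  intro h1
  have h2 := norm_lin_le lam h e
  rw [h1, norm_one, hX] at h2
  have : hammingNorm e * l ≤ R * l := Nat.mul_le_mul_right _ he
  omega

lemma not_norm_add (lam : ι → X → ZMod 2) {l R : ℕ} (hX : Fintype.card X = R * l + 1)
    (h : ∀ j, hammingNorm (lam j) ≤ l) {e : ι → ZMod 2} (he : hammingNorm e ≤ R)
    (v : X → ZMod 2) (h1 : lin lam e = 1 + v) {j : ι} (hj : e j ≠ 0) :
    ¬ hammingNorm (lam j + v) ≤ l := by
  intro h2
  refine lin_ne_one (lam + Pi.single j v) hX (fun i => ?_) he ?_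
  · by_cases hi : i = j
    · subst hi; simpa using h2
    · simpa [hi] using h i
  · have h3 : lin (lam + Pi.single j v) e = lin lam e + v := by
      have h4 : e j = 1 := (z2_cases _).resolve_left hj
      simp only [lin, AddMonoidHom.coe_mk, ZeroHom.coe_mk, Pi.add_apply, smul_add,
        Finset.sum_add_distrib]
      congr 1
      rw [Finset.sum_eq_single j (fun i _ hi => by simp [hi]) (by simp), h4]
      simp
    rw [h3, h1, add_assoc, add_self_cube, add_zero]

lemma norm_sum_single {ρ : Type} [Fintype ρ] (t : ρ → ι) :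
    hammingNorm (∑ m, (Pi.single (t m) 1 : ι → ZMod 2)) ≤ Fintype.card ρ := by
  have := norm_sum_le Finset.univ (fun m => (Pi.single (t m) 1 : ι → ZMod 2)) 1
    (fun m _ => (norm_single _).le)
  simpa using this

lemma exists_parts_fin (R : ℕ) : ∀ c : ι → ZMod 2, hammingNorm c ≤ R →
    ∃ γ : Fin R → Option ι, ∑ m, (γ m).elim 0 (fun k => Pi.single k 1) = c := by
  induction R with
  | zero =>
    intro c hc
    rw [Nat.le_zero, hammingNorm_eq_zero] at hc
    exact ⟨Fin.elim0, by simp [hc]⟩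
  | succ R ih =>
    intro c hc
    by_cases h0 : c = 0
    · exact ⟨fun _ => none, by simp [h0]⟩
    · obtain ⟨i, hi⟩ := Function.ne_iff.1 h0
      have := norm_flip hi
      obtain ⟨γ, hγ⟩ := ih (c + Pi.single i 1) (by omega)
      refine ⟨Fin.cons (some i) γ, ?_⟩
      rw [Fin.sum_univ_succ]
      simp only [Fin.cons_zero, Fin.cons_succ, hγ, Option.elim_some]
      rw [add_comm, add_assoc, add_self_cube, add_zero]

lemma exists_parts {ρ : Type} [Fintype ρ] (c : ι → ZMod 2) (hc : hammingNorm c ≤ Fintype.card ρ) :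
    ∃ γ : ρ → Option ι, ∑ m, (γ m).elim 0 (fun k => Pi.single k 1) = c := by
  obtain ⟨γ, hγ⟩ := exists_parts_fin _ c hc
  exact ⟨fun m => γ (Fintype.equivFin ρ m), by
    rw [← hγ]
    exact Equiv.sum_comp (Fintype.equivFin ρ)
      (fun m => (γ m).elim (0 : ι → ZMod 2) (fun k => Pi.single k 1))⟩

end general

variable {ρ μ : Type} [Fintype ρ] [DecidableEq ρ] [Fintype μ] [DecidableEq μ]

/-- positions of the label vectors -/
abbrev Pos (ρ μ : Type) := Option (ρ × (ρ ⊕ μ))

/-- indices of the ordinary labels -/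
abbrev Ix (ρ μ : Type) := ρ × ZMod 2 × (ρ ⊕ μ → ZMod 2)

lemma card_Pos : Fintype.card (Pos ρ μ) =
    Fintype.card ρ * (Fintype.card ρ + Fintype.card μ) + 1 := by simp

lemma card_Ix : Fintype.card (Ix ρ μ) =
    Fintype.card ρ * (2 * 2 ^ (Fintype.card ρ + Fintype.card μ)) := by simp

/-- a vector supported in one row and the extra position -/
def vec (i : Ix ρ μ) : Pos ρ μ → ZMod 2
  | none => i.2.1
  | some p => if p.1 = i.1 then i.2.2 p.2 else 0

/-- the marked unit vector -/
def es (m0 : ρ) : Pos ρ μ → ZMod 2 := Pi.single (some (m0, Sum.inl m0)) 1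

lemma norm_row_le (m : ρ) (v : Pos ρ μ → ZMod 2) (hv : ∀ p : ρ × (ρ ⊕ μ), p.1 ≠ m → v (some p) = 0)
    (o : Option (ρ ⊕ μ)) (ho : v (o.map fun j => (m, j)) = 0) :
    hammingNorm v ≤ Fintype.card ρ + Fintype.card μ := by
  have h : (Finset.univ.filter (fun x => v x ≠ 0)) ⊆
      (Finset.univ.erase o).image (fun o : Option (ρ ⊕ μ) => o.map fun j => (m, j)) := by
    intro x hx
    have hx' : v x ≠ 0 := (Finset.mem_filter.1 hx).2
    have : ∃ o' : Option (ρ ⊕ μ), o'.map (fun j => (m, j)) = x := by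
      rcases x with _ | ⟨m', j⟩
      · exact ⟨none, rfl⟩
      · have : m' = m := by
          by_contra h
          exact hx' (hv (m', j) h)
        exact ⟨some j, by simp [this]⟩
    obtain ⟨o', rfl⟩ := this
    refine Finset.mem_image_of_mem _ (Finset.mem_erase.2 ⟨?_, Finset.mem_univ _⟩)
    rintro rfl
    exact hx' ho
  have h1 := (Finset.card_le_card h).trans Finset.card_image_le
  rw [Finset.card_erase_of_mem (Finset.mem_univ _)] at h1
  simpa [hammingNorm] using h1

/-- ordinary labels -/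
def nl (m0 : ρ) (i : Ix ρ μ) : Pos ρ μ → ZMod 2 :=
  if hammingNorm (vec i) ≤ Fintype.card ρ + Fintype.card μ ∧
    (i.1 = m0 → hammingNorm (vec i + es m0) ≤ Fintype.card ρ + Fintype.card μ) then vec i else 0

/-- the property of ordinary labels -/
def Ord (m0 : ρ) (v : Pos ρ μ → ZMod 2) : Prop :=
  hammingNorm v ≤ Fintype.card ρ + Fintype.card μ ∧
    ((∀ j, v (some (m0, j)) = 0) ∨ hammingNorm (v + es m0) ≤ Fintype.card ρ + Fintype.card μ)

omit [DecidableEq ρ] [DecidableEq μ] in
lemma card_pos_of (m0 : ρ) : 1 ≤ Fintype.card ρ + Fintype.card μ := by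
  have : 0 < Fintype.card ρ := Fintype.card_pos_iff.2 ⟨m0⟩
  omega

lemma ord_zero (m0 : ρ) : Ord m0 (0 : Pos ρ μ → ZMod 2) := ⟨by simp, Or.inl fun _ => rfl⟩

lemma ord_es (m0 : ρ) : Ord m0 (es m0 : Pos ρ μ → ZMod 2) :=
  ⟨by rw [es, norm_single]; exact card_pos_of m0, Or.inr (by simp [add_self_cube])⟩

lemma ord_nl (m0 : ρ) (i : Ix ρ μ) : Ord m0 (nl m0 i) := by
  unfold nl
  split_ifs with h
  · refine ⟨h.1, ?_⟩
    by_cases hi : i.1 = m0
    · exact Or.inr (h.2 hi)
    · exact Or.inl fun j => by simp [vec, Ne.symm hi]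
  · exact ord_zero m0

lemma exists_cover (m0 : ρ) (g : Pos ρ μ → ZMod 2) (x0 : Pos ρ μ)
    (hx0 : x0 ≠ some (m0, Sum.inl m0)) (hg : g x0 = 0) :
    ∃ b : ρ → Ix ρ μ, ∑ m, nl m0 (b m) = g := by
  let m1 : ρ := x0.elim m0 Prod.fst
  let b : ρ → Ix ρ μ := fun m => (m, if m = m1 then g none else 0, fun j => g (some (m, j)))
  have hz : ∀ m, ∃ o : Option (ρ ⊕ μ), vec (b m) (o.map fun j => (m, j)) = 0 ∧
      o.map (fun j => (m, j)) ≠ some (m0, Sum.inl m0) := by
    intro m
    by_cases hm : m = m1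
    · rcases x0 with _ | ⟨m', j⟩
      · exact ⟨none, by simp [vec, b, hg], by simp⟩
      · have : m = m' := hm
        subst this
        exact ⟨some j, by simp [vec, b, hg], hx0⟩
    · exact ⟨none, by simp [vec, b, hm], by simp⟩
  have hnl : ∀ m, nl m0 (b m) = vec (b m) := by
    intro m
    obtain ⟨o, ho, ho'⟩ := hz m
    have h1 : ∀ p : ρ × (ρ ⊕ μ), p.1 ≠ m → vec (b m) (some p) = 0 := by
      intro p hp; simp [vec, b, hp]
    refine if_pos ⟨norm_row_le m _ h1 o ho, fun hm => norm_row_le m _ (fun p hp => ?_) o ?_⟩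
    · have hm' : m = m0 := hm
      rw [Pi.add_apply, h1 p hp, es, Pi.single_eq_of_ne, add_zero]
      intro h
      apply hp
      rw [Option.some.inj h, hm']
    · rw [Pi.add_apply, ho, es, Pi.single_eq_of_ne ho', add_zero]
  refine ⟨b, ?_⟩
  simp only [hnl]
  ext (_ | ⟨m, j⟩)
  · simp [vec, b, Finset.sum_apply]
  · simp [vec, b, Finset.sum_apply]

/-- the permutation producing the special labels -/
def prm (m0 : ρ) : Pos ρ μ → Pos ρ μ
  | none => some (m0, Sum.inl m0)
  | some (m, Sum.inl m') => if m = m0 ∧ m' = m0 then none else some (m', Sum.inl m)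
  | some (m, Sum.inr j) => some (m, Sum.inr j)

omit [Fintype ρ] [Fintype μ] [DecidableEq μ] in
lemma prm_prm (m0 : ρ) : Function.Involutive (prm (μ := μ) m0) := by
  rintro (_ | ⟨m, m' | j⟩)
  · simp [prm]
  · by_cases h : m = m0 ∧ m' = m0
    · simp [prm, h.1, h.2]
    · have h' : ¬ (m' = m0 ∧ m = m0) := fun h' => h ⟨h'.2, h'.1⟩
      simp only [prm, if_neg h, if_neg h']
  · simp [prm]

/-- special labels -/
def sp (m0 m : ρ) : Pos ρ μ → ZMod 2 := fun x => vec (m, 0, 1) (prm m0 x)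

lemma norm_sp (m0 m : ρ) :
    hammingNorm (sp m0 m : Pos ρ μ → ZMod 2) ≤ Fintype.card ρ + Fintype.card μ := by
  have h1 : hammingNorm (vec (m, 0, 1) : Pos ρ μ → ZMod 2) ≤ Fintype.card ρ + Fintype.card μ :=
    norm_row_le m _ (fun p hp => by simp [vec, hp]) none rfl
  refine le_trans ?_ h1
  unfold hammingNorm
  refine Finset.card_le_card_of_injOn (prm m0) ?_ (prm_prm m0).injective.injOn
  intro x hx
  have hx' := (Finset.mem_filter.1 hx).2
  exact Finset.mem_filter.2 ⟨Finset.mem_univ _, hx'⟩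

lemma sum_sp (m0 : ρ) : ∑ m, (sp m0 m : Pos ρ μ → ZMod 2) = 1 + es m0 := by
  ext (_ | ⟨m, m' | j⟩)
  · simp [sp, prm, vec, es, Finset.sum_apply]
  · by_cases h : m = m0 ∧ m' = m0
    · simp [sp, prm, vec, es, Finset.sum_apply, h.1, h.2, CharTwo.add_self_eq_zero]
    · have : (some (m, Sum.inl m') : Pos ρ μ) ≠ some (m0, Sum.inl m0) := by simpa using h
      simp only [sp, prm, if_neg h, vec, es, Finset.sum_apply, Pi.add_apply,
        Pi.single_eq_of_ne this]
      simp
  · simp [sp, prm, vec, es, Finset.sum_apply]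

lemma exists_witness (m0 : ρ) (j0 : μ) (m : ρ) : ∃ j : ρ ⊕ μ, j ≠ Sum.inl m0 ∧
    ∀ m', m' ≠ m → (sp m0 m' : Pos ρ μ → ZMod 2) (some (m0, j)) = 0 := by
  by_cases h : m = m0
  · exact ⟨Sum.inr j0, by simp, fun m' hm' => by simp [sp, prm, vec, ← h, Ne.symm hm']⟩
  · exact ⟨Sum.inl m, by simpa using h, fun m' hm' => by simp [sp, prm, vec, h, Ne.symm hm']⟩

variable {ι : Type} [Fintype ι] [DecidableEq ι]

/-- a labelling of coordinates by ordinary labels and one copy of each special label -/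
structure Lab (m0 : ρ) (lam : ι → Pos ρ μ → ZMod 2) (s : ρ → ι) : Prop where
  inj : Function.Injective s
  spec : ∀ m, lam (s m) = sp m0 m
  ord : ∀ j, (∀ m, s m ≠ j) → Ord m0 (lam j)

variable {m0 : ρ} {lam : ι → Pos ρ μ → ZMod 2} {s : ρ → ι}

omit [Fintype ι] [DecidableEq ι] in
lemma Lab.norm_le (h : Lab m0 lam s) (j : ι) :
    hammingNorm (lam j) ≤ Fintype.card ρ + Fintype.card μ := by
  by_cases hj : ∀ m, s m ≠ j
  · exact (h.ord j hj).1
  · push Not at hj
    obtain ⟨m, rfl⟩ := hj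
    rw [h.spec]; exact norm_sp _ _

lemma Lab.ne_one (h : Lab m0 lam s) {e : ι → ZMod 2} (he : hammingNorm e ≤ Fintype.card ρ) :
    lin lam e ≠ 1 := lin_ne_one lam card_Pos h.norm_le he

lemma Lab.unique (h : Lab m0 lam s) (j0 : μ) {e : ι → ZMod 2}
    (he : hammingNorm e ≤ Fintype.card ρ) (h1 : lin lam e = 1 + es m0) :
    e = ∑ m, Pi.single (s m) 1 := by
  have h2 : ∀ m, e (s m) ≠ 0 := by
    intro m hm
    obtain ⟨j, hj, hj'⟩ := exists_witness m0 j0 m
    have h3 := congrFun h1 (some (m0, j))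
    rw [lin_eq_sum, Finset.sum_apply, Finset.sum_eq_zero, Pi.add_apply, es,
      Pi.single_eq_of_ne (by simpa using hj)] at h3
    · simp at h3
    · intro i hi
      have hi' : e i ≠ 0 := (Finset.mem_filter.1 hi).2
      by_cases hs : ∀ m, s m ≠ i
      · exact ((h.ord i hs).2.resolve_right
          (not_norm_add lam card_Pos h.norm_le he _ h1 hi')) j
      · push Not at hs
        obtain ⟨m', rfl⟩ := hs
        rw [h.spec]
        exact hj' m' (by rintro rfl; exact hi' hm)
  have h3 : Finset.univ.image s = Finset.univ.filter (fun j => e j ≠ 0) := by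
    refine Finset.eq_of_subset_of_card_le ?_ ?_
    · intro j hj
      obtain ⟨m, -, rfl⟩ := Finset.mem_image.1 hj
      simpa using h2 m
    · rw [Finset.card_image_of_injective _ h.inj]
      exact he
  ext j
  by_cases hj : e j = 0
  · rw [hj, Finset.sum_apply, Finset.sum_eq_zero]
    intro m _
    refine Pi.single_eq_of_ne ?_ _
    rintro rfl
    exact h2 m hj
  · have : j ∈ Finset.univ.image s := by rw [h3]; simpa using hj
    obtain ⟨m, -, rfl⟩ := Finset.mem_image.1 this
    rw [(z2_cases _).resolve_left hj, Finset.sum_apply, Finset.sum_eq_single m]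
    · simp
    · intro m' _ hm'
      exact Pi.single_eq_of_ne (h.inj.ne hm'.symm) _
    · simp

lemma Lab.lin_special (h : Lab m0 lam s) :
    lin lam (∑ m, Pi.single (s m) 1) = 1 + es m0 := by
  rw [map_sum, ← sum_sp]
  exact Finset.sum_congr rfl fun m _ => by rw [lin_single, h.spec]

/-- every vector other than the all-one vector is a sum of few labels -/
lemma Lab.cover (h : Lab m0 lam s) (t : Ix ρ μ → ι) (ht : ∀ i, lam (t i) = nl m0 i)
    {g : Pos ρ μ → ZMod 2} (hg : g ≠ 1) :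
    ∃ u : ρ → ι, (∀ m, u m = s m ∨ ∃ i, u m = t i) ∧ lin lam (∑ m, Pi.single (u m) 1) = g := by
  by_cases h1 : ∃ x0, x0 ≠ some (m0, Sum.inl m0) ∧ g x0 = 0
  · obtain ⟨x0, hx0, hgx⟩ := h1
    obtain ⟨b, hb⟩ := exists_cover m0 g x0 hx0 hgx
    refine ⟨fun m => t (b m), fun m => Or.inr ⟨_, rfl⟩, ?_⟩
    rw [map_sum, ← hb]
    exact Finset.sum_congr rfl fun m _ => by rw [lin_single, ht]
  · push Not at h1
    refine ⟨s, fun m => Or.inl rfl, ?_⟩
    rw [h.lin_special]
    have h2 : ∀ x, x ≠ some (m0, Sum.inl m0) → g x = 1 :=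
      fun x hx => (z2_cases _).resolve_left (h1 x hx)
    ext x
    by_cases hx : x = some (m0, Sum.inl m0)
    · subst hx
      rcases z2_cases (g (some (m0, Sum.inl m0))) with h3 | h3
      · simp [es, h3, CharTwo.add_self_eq_zero]
      · refine absurd (funext fun y => ?_) hg
        by_cases hy : y = some (m0, Sum.inl m0)
        · rw [hy, h3]; rfl
        · exact h2 y hy
    · rw [h2 x hx, Pi.add_apply, es, Pi.single_eq_of_ne hx]; simp

end Pool.Agent.P.MP_7cff07_gt.So
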