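import Pool.Agent.P.MP_7cff07_gt.Top

namespace Pool.Agent.P.MP_7cff07_gt.So

open Finset

section chain

variable {V : Type} [LinearOrder V] [Fintype V] {close : V → V → Prop}

/-- every cycle with `k` vertices per simplex bounds -/
def Acyc (close : V → V → Prop) (X : Finset V) (k : ℕ) : Prop :=
  ∀ z ∈ chains (Cl close (↑X)) k, boundary V z = 0 →
    ∃ c ∈ chains (Cl close (↑X)) (k + 1), boundary V c = z

lemma acyc_step [DecidableRel close] (hrefl : ∀ x, close x x)
    (hsymm : ∀ x y, close x y → close y x) {X : Finset V} {a : V} (ha : a ∈ X) {k : ℕ}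
    (h1 : Acyc close ((X.erase a).filter (fun y => close a y)) k)
    (h2 : Acyc close (X.erase a) (k + 1)) : Acyc close X (k + 1) := by
  intro z hz hz0
  set Y : Finset V := (X.erase a).filter (fun y => close a y) with hYdef
  have hYX : (↑Y : Set V) ⊆ ↑X := by
    intro y hy
    have := Finset.mem_filter.1 hy
    exact Finset.mem_of_mem_erase this.1
  have hYa : ∀ y ∈ (↑Y : Set V), close a y := fun y hy => (Finset.mem_filter.1 hy).2
  have hYE : (↑Y : Set V) ⊆ ↑(X.erase a) := by
    intro y hy
    exact (Finset.mem_filter.1 hy).1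
  have hEX : (↑(X.erase a) : Set V) ⊆ ↑X := by
    intro y hy; exact Finset.mem_of_mem_erase hy
  have hdel : del a z ∈ chains (Cl close (↑Y)) k := by
    refine map_supported_le (del a) ?_ hz
    rintro σ ⟨⟨hσ1, hσ2⟩, hσ3⟩
    rw [del_single]
    split_ifs with h
    · refine Submodule.smul_mem _ _ (single_mem_supported ⟨⟨?_, ?_⟩, ?_⟩)
      · intro x hx
        have hx' := Finset.mem_erase.1 hx
        exact Finset.mem_filter.2 ⟨Finset.mem_erase.2 ⟨hx'.1, hσ1 hx'.2⟩, hσ2 a h x hx'.2⟩
      · intro x hx y hy
        exact hσ2 x (Finset.mem_of_mem_erase hx) y (Finset.mem_of_mem_erase hy)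
      · rw [Finset.card_erase_of_mem h, hσ3]; rfl
    · exact Submodule.zero_mem _
  have hdel0 : boundary V (del a z) = 0 := by
    have := del_boundary a z
    rw [hz0, map_zero] at this
    exact neg_eq_zero.1 this.symm
  obtain ⟨c1, hc1, hc1'⟩ := h1 _ hdel hdel0
  have hcc : cone a c1 ∈ chains (Cl close (↑X)) (k + 1 + 1) :=
    cone_mem_chains hrefl hsymm hYX ha hYa hc1
  have hz' : z + boundary V (cone a c1) ∈ chains (Cl close (↑(X.erase a))) (k + 1) := by
    rw [boundary_cone, hc1']
    have h1 : z - cone a (del a z) = del a (cone a z) := by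
      have := LinearMap.congr_fun (del_cone_self a) z
      simp only [LinearMap.add_apply, LinearMap.comp_apply, LinearMap.id_apply] at this
      exact (eq_sub_of_add_eq this).symm
    have h2 : z + (c1 - cone a (del a z)) = del a (cone a z) + c1 := by
      rw [← h1]; abel
    rw [h2]
    refine Submodule.add_mem _ ?_ (chains_mono hYE hc1)
    refine map_supported_le (del a ∘ₗ cone a) ?_ hz
    rintro σ ⟨⟨hσ1, hσ2⟩, hσ3⟩
    rw [LinearMap.comp_apply, cone_single]
    split_ifs with h
    · simp
    · rw [map_smul, del_single, if_pos (Finset.mem_insert_self _ _), Finset.erase_insert h]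
      refine Submodule.smul_mem _ _ (Submodule.smul_mem _ _
        (single_mem_supported ⟨⟨?_, hσ2⟩, hσ3⟩))
      intro x hx
      refine Finset.mem_erase.2 ⟨?_, hσ1 hx⟩
      rintro rfl
      exact h hx
  have hz'0 : boundary V (z + boundary V (cone a c1)) = 0 := by
    rw [map_add, hz0, boundary_boundary, add_zero]
  obtain ⟨c2, hc2, hc2'⟩ := h2 _ hz' hz'0
  refine ⟨c2 - cone a c1, Submodule.sub_mem _ (chains_mono hEX hc2) hcc, ?_⟩
  rw [map_sub, hc2']; abel

/-- vanishing below half the total domination number -/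
theorem acyc_of_undominated (hrefl : ∀ x, close x x) (hsymm : ∀ x y, close x y → close y x)
    (k : ℕ) : ∀ X : Finset V,
      (∀ S : Finset V, S.card ≤ 2 * k → ∃ x ∈ X, ∀ s ∈ S, close s x) → Acyc close X k := by
  classical
  induction k with
  | zero =>
    intro X hX z hz hz0
    obtain ⟨a, ha, -⟩ := hX ∅ (by simp)
    have hz' : z ∈ chains (Cl close (∅ : Set V)) 0 := by
      refine Finsupp.supported_mono ?_ hz
      rintro σ ⟨-, hσ⟩
      have : σ = ∅ := Finset.card_eq_zero.1 hσ
      subst this
      exact ⟨⟨by simp, by simp⟩, rfl⟩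
    refine ⟨cone a z, cone_mem_chains hrefl hsymm (Set.empty_subset _) ha (by simp) hz', ?_⟩
    rw [boundary_cone, hz0]; simp
  | succ k ih =>
    intro X hX
    obtain ⟨v, hv, -⟩ := hX ∅ (by simp)
    have key : ∀ (N : ℕ) (X' : Finset V), X'.card = N → v ∈ X' →
        (∀ x ∈ X, x ∉ X' → ¬ close v x) → Acyc close X' (k + 1) := by
      intro N
      induction N using Nat.strong_induction_on with
      | _ N ihN =>
      intro X' hN hv' hfar
      by_cases hall : ∀ y ∈ X', close v y
      · intro z hz hz0
        refine ⟨cone v z, cone_mem_chains hrefl hsymm subset_rfl hv' hall hz, ?_⟩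
        rw [boundary_cone, hz0]; simp
      push Not at hall
      obtain ⟨b, hb, hvb⟩ := hall
      have hbv : v ≠ b := by rintro rfl; exact hvb (hrefl _)
      refine acyc_step hrefl hsymm hb (ih _ fun S hS => ?_)
        (ihN _ (hN ▸ Finset.card_erase_lt_of_mem hb) _ rfl (Finset.mem_erase.2 ⟨hbv, hv'⟩) ?_)
      · obtain ⟨x, hx, hxs⟩ := hX (insert v (insert b S)) (by
          have := Finset.card_insert_le v (insert b S)
          have := Finset.card_insert_le b S
          omega)
        have h1 : close v x := hxs v (by simp)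
        have h2 : close b x := hxs b (by simp)
        refine ⟨x, Finset.mem_filter.2 ⟨Finset.mem_erase.2 ⟨?_, ?_⟩, h2⟩,
          fun s hs => hxs s (by simp [hs])⟩
        · rintro rfl; exact hvb h1
        · by_contra h; exact hfar x hx h h1
      · intro x hx hx'
        by_cases hxb : x = b
        · rwa [hxb]
        · exact hfar x hx fun h => hx' (Finset.mem_erase.2 ⟨hxb, h⟩)
    exact key _ X rfl hv (fun x hx h => absurd hx h)

end chain

variable {ι : Type} [Fintype ι] [DecidableEq ι]

lemma z2_cases (c : ZMod 2) : c = 0 ∨ c = 1 := by revert c; decide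

lemma norm_single (i : ι) : hammingNorm (Pi.single i (1 : ZMod 2) : ι → ZMod 2) = 1 := by
  unfold hammingNorm
  rw [Finset.card_eq_one]
  refine ⟨i, ?_⟩
  ext j
  by_cases h : j = i
  · subst h; simp
  · simp [h]

lemma norm_flip {x : ι → ZMod 2} {i : ι} (hi : x i ≠ 0) :
    hammingNorm (x + Pi.single i 1) + 1 = hammingNorm x := by
  unfold hammingNorm
  rw [← Finset.card_insert_of_notMem (a := i)]
  · congr 1
    ext j
    by_cases h : j = i
    · subst h; simp [hi]
    · simp [h]
  · have : x i = 1 := (z2_cases _).resolve_left hi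
    simp [this, CharTwo.add_self_eq_zero]

/-- the Hamming ball about the origin -/
def ball (ι : Type) [Fintype ι] [DecidableEq ι] (R : ℕ) : Finset (ι → ZMod 2) :=
  Finset.univ.filter (fun x => hammingNorm x ≤ R)

lemma mem_ball {R : ℕ} {x : ι → ZMod 2} : x ∈ ball ι R ↔ hammingNorm x ≤ R := by simp [ball]

lemma card_ball (R : ℕ) : (ball ι R).card ≤ (Fintype.card ι + 1) ^ R := by
  induction R with
  | zero =>
    rw [pow_zero, Finset.card_le_one]
    intro a ha b hb
    rw [mem_ball, Nat.le_zero, hammingNorm_eq_zero] at ha hb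
    rw [ha, hb]
  | succ R ih =>
    have hsub : ball ι (R + 1) ⊆ ((ball ι R) ×ˢ (Finset.univ : Finset (Option ι))).image
        (fun p => p.1 + p.2.elim 0 (fun i => Pi.single i 1)) := by
      intro x hx
      rw [mem_ball] at hx
      by_cases h0 : x = 0
      · exact Finset.mem_image.2 ⟨(0, none), by simp [mem_ball], by simp [h0]⟩
      · obtain ⟨i, hi⟩ := Function.ne_iff.1 h0
        have := norm_flip hi
        refine Finset.mem_image.2 ⟨(x + Pi.single i 1, some i), ?_, ?_⟩
        · simp only [Finset.mem_product, mem_ball, Finset.mem_univ, and_true]; omega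
        · simp [add_assoc, add_self_cube]
    calc _ ≤ _ := Finset.card_le_card hsub
      _ ≤ _ := Finset.card_image_le
      _ = (ball ι R).card * (Fintype.card ι + 1) := by simp
      _ ≤ _ := by rw [pow_succ]; gcongr

/-- the points within distance `R` of a set -/
def near (R : ℕ) (A : Finset (ι → ZMod 2)) : Finset (ι → ZMod 2) :=
  Finset.univ.filter (fun u : ι → ZMod 2 => ∃ a ∈ A, hammingNorm (u + a) ≤ R)

lemma mem_near {R : ℕ} {A : Finset (ι → ZMod 2)} {u : ι → ZMod 2} :
    u ∈ near R A ↔ ∃ a ∈ A, hammingNorm (u + a) ≤ R := by simp [near]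

lemma card_near (R : ℕ) (A : Finset (ι → ZMod 2)) :
    (near R A).card ≤ A.card * (Fintype.card ι + 1) ^ R := by
  have hsub : near R A ⊆ (A ×ˢ ball ι R).image (fun p => p.1 + p.2) := by
    intro u hu
    obtain ⟨a, ha, h⟩ := mem_near.1 hu
    refine Finset.mem_image.2 ⟨(a, u + a), by simp [ha, mem_ball, h], ?_⟩
    simp only
    rw [add_comm u, ← add_assoc, add_self_cube, zero_add]
  calc _ ≤ _ := Finset.card_le_card hsub
    _ ≤ _ := Finset.card_image_le
    _ = A.card * (ball ι R).card := by simp
    _ ≤ _ := by gcongr; exact card_ball R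

lemma far_iff' {r R : ℕ} (hr : Fintype.card ι = r + R + 1) (a b : ι → ZMod 2) :
    ¬ hammingDist a b ≤ r ↔ hammingNorm (a + b + 1) ≤ R := by
  have h1 := hammingNorm_add_one a b
  have h2 : -a + (b + 1) = a + b + 1 := by
    rw [neg_eq_of_add_eq_zero_left (add_self_cube a), add_assoc]
  rw [h2] at h1
  omega

/-- vanishing in low degrees for the cube -/
theorem vanish_low {r R q : ℕ} (hq : 2 * (q + 1) * (r + R + 2) ^ R < 2 ^ (r + R + 1)) :
    ¬ Nontrivial (reducedHomology (VR (Set.univ : Set (Lex (Fin (r + R + 1) → Bool))) r) q) := by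
  classical
  rw [VR_eq, nontrivial_reducedHomology_iff]
  rintro ⟨z, hz, hz0, hc⟩
  rw [← Finset.coe_univ] at hz hc
  obtain ⟨c, hc1, hc2⟩ := acyc_of_undominated
    (close := fun x y : Lex (Fin (r + R + 1) → Bool) => hammingDist (ofLex x) (ofLex y) ≤ r)
    (by simp) (fun x y h => by rwa [hammingDist_comm]) (q + 1) Finset.univ (fun S hS => by
      by_contra hne
      push Not at hne
      let e : Lex (Fin (r + R + 1) → Bool) → (Fin (r + R + 1) → ZMod 2) :=
        fun x i => bz (ofLex x i)
      have he : Function.Injective e := by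
        intro x y h
        exact ofLex.injective (funext fun i => bz_injective (congrFun h i))
      have h1 := card_near R (S.image (fun s => e s + 1))
      have h2 : (Finset.univ.image e) ⊆ near R (S.image (fun s => e s + 1)) := by
        intro u hu
        obtain ⟨x, -, rfl⟩ := Finset.mem_image.1 hu
        obtain ⟨s, hs, hsx⟩ := hne x (Finset.mem_univ _)
        refine mem_near.2 ⟨_, Finset.mem_image_of_mem _ hs, ?_⟩
        rw [← add_assoc, ← far_iff' (r := r) (by simp), hammingDist_comm]
        rw [← hammingDist_bz] at hsx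
        exact not_le.2 hsx
      have h3 := Finset.card_le_card h2
      rw [Finset.card_image_of_injective _ he] at h3
      have h4 : (S.image (fun s => e s + 1)).card ≤ 2 * (q + 1) := Finset.card_image_le.trans hS
      have h5 : (Finset.univ : Finset (Lex (Fin (r + R + 1) → Bool))).card = 2 ^ (r + R + 1) := by
        rw [Finset.card_univ, Fintype.card_lex]; simp
      rw [Fintype.card_fin] at h1
      have h6 : (S.image (fun s => e s + 1)).card * (r + R + 1 + 1) ^ R ≤
          2 * (q + 1) * (r + R + 2) ^ R := Nat.mul_le_mul h4 le_rfl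
      omega) z hz hz0
  exact hc c hc1 hc2

end Pool.Agent.P.MP_7cff07_gt.So
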