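import Pool.Agent.P.MP_7cff07_gt.Final

namespace Pool.Agent.P.MP_7cff07_gt.So

open Finset

section sizes
variable {ι κ : Type} [Fintype ι] [DecidableEq ι] [Fintype κ] [DecidableEq κ]

theorem sizes_two (C : Cover ι κ) {h : ℕ} (hh : Fintype.card κ = h) (h4 : 4 ≤ h)
    (hM : 8 * (128 * (h + 2)) ≤ 2 ^ h) :
    ∃ F z A : ℕ, F * 2 ^ h = 2 ^ (Fintype.card ι + 6) ∧ (h + 2) * A ≤ 2 ^ (h + 2) ∧
      z ≤ 128 * (h + 2) * (1 + 2 * h ^ 2) ∧
      ∀ k, F * (A + z * ((h + 1) * (h + 1) + 1)) ≤ k →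
        k + F * (z * (h + 1) + 128 * (h + 2)) ≤ F * 2 ^ h →
        ∃ σ, Good (1, C.τ) σ ∧ σ.card = k := by
  obtain ⟨U, Z, hUc, hZ, hZc, hU0, hU1, hU2⟩ := exists_UZ (κ := κ) (128 * (h + 2))
    (by rwa [hh]) (by rwa [hh])
  obtain ⟨A, hA, hAc⟩ := exists_code (κ := κ) (Nat.log 2 (h + 2))
    (Nat.log_pos (by norm_num) (by omega))
    (by rw [hh]; exact Nat.pow_log_le_self 2 (by omega))
  obtain ⟨B, hB, hBc⟩ := exists_code (κ := κ) 1 le_rfl (by omega)
  rw [hh] at hAc hBc hZc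
  have hBc' : B.card = 2 ^ h := by rw [pow_succ 2 h] at hBc; omega
  set F := (Finset.univ.filter (fun x => (C.Φ.prod C.col) x = 0)).card with hF
  set F' := (Finset.univ.filter (fun x => (C.φ.prod C.θ) x = 0)).card with hF'
  set P := (Finset.univ.filter (fun x => C.φ x ∈ U ∧ C.θ x = 0)).card with hP
  have hF1 := card_ker_mul _ C.Φcol_surjective
  have hF2 := card_ker_mul _ C.φθ_surjective
  simp only [Fintype.card_pi, ZMod.card, Finset.prod_const, Finset.card_univ,
    Fintype.card_prod, Fintype.card_fin, hh] at hF1 hF2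
  rw [← hF] at hF1
  rw [← hF'] at hF2
  have hpos : 0 < 2 ^ h := by positivity
  have hFF : F = 128 * F' := by
    apply Nat.eq_of_mul_eq_mul_left (show 0 < 2 * 2 ^ h * 2 by positivity)
    rw [hF1, ← hF2]; ring
  have hPF : P = 128 * (h + 2) * F' := by
    rw [← hUc, ← Finset.card_image_of_injective U (Prod.mk_left_injective (0 : ZMod 2)), hF',
      ← card_filter_mem_of_surjective _ C.φθ_surjective, hP]
    congr 1
    ext x
    simp only [Finset.mem_filter, Finset.mem_univ, true_and, Finset.mem_image,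
      AddMonoidHom.prod_apply, Prod.mk.injEq]
    constructor
    · rintro ⟨h1, h2⟩; exact ⟨_, h1, rfl, h2.symm⟩
    · rintro ⟨u, h1, rfl, h2⟩; exact ⟨h1, h2.symm⟩
  have hF'pos : 0 < F' := by
    rcases Nat.eq_zero_or_pos F' with h0 | h0
    · rw [h0, mul_zero] at hF2
      exact absurd hF2.symm (by positivity)
    · exact h0
  have hFpos : 0 < F := by omega
  have hMz : U.card ≤ Z.card := by
    rw [← Finset.card_image_of_injective U (Prod.mk_right_injective (0 : ZMod 2))]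
    refine Finset.card_le_card ?_
    intro y hy
    obtain ⟨u, hu, rfl⟩ := Finset.mem_image.1 hy
    exact hU0 u hu
  set q0 := A.card + Z.card * ((h + 1) * (h + 1) + 1) with hq0
  have hMq : U.card ≤ q0 := by
    have : Z.card ≤ Z.card * ((h + 1) * (h + 1) + 1) := Nat.le_mul_of_pos_right _ (by omega)
    omega
  refine ⟨F, Z.card, A.card, ?_, ?_, hZc, ?_⟩
  · apply Nat.eq_of_mul_eq_mul_left (show 0 < 4 by norm_num)
    calc 4 * (F * 2 ^ h) = 2 * 2 ^ h * 2 * F := by ring
      _ = _ := by rw [hF1]; ring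
  · have h1 := Nat.lt_pow_succ_log_self (b := 2) (by norm_num) (h + 2)
    calc (h + 2) * A.card ≤ 2 ^ (Nat.log 2 (h + 2)).succ * A.card :=
          Nat.mul_le_mul_right _ h1.le
      _ = 2 * (2 ^ Nat.log 2 (h + 2) * A.card) := by rw [Nat.succ_eq_add_one, pow_succ]; ring
      _ = _ := by rw [hAc]; ring
  · intro k hk1 hk2
    rw [← hq0] at hk1
    have g1 : F * (q0 - U.card) + F * U.card = F * q0 := by
      rw [← mul_add, Nat.sub_add_cancel hMq]
    have g2 : F * U.card = 128 * P := by rw [hUc, hPF, hFF]; ring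
    obtain ⟨j, rfl⟩ : ∃ j, k = 68 * P + F * (q0 - U.card) + j :=
      ⟨k - (68 * P + F * (q0 - U.card)), by omega⟩
    have hj : j + F * (q0 + Z.card * (h + 1)) ≤ F * 2 ^ h := by
      rw [← hUc, mul_add] at hk2
      rw [mul_add]
      omega
    have hdm := Nat.div_add_mod j F
    have hmod := Nat.mod_lt j hFpos
    generalize j / F = d at hdm
    have hq2 : q0 + d + Z.card * (h + 1) ≤ B.card := by
      rw [hBc']
      apply Nat.le_of_mul_le_mul_left _ hFpos
      have : F * (q0 + d + Z.card * (h + 1)) = F * d + F * (q0 + Z.card * (h + 1)) := by ring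
      omega
    obtain ⟨J, hJ, hZJ, hJ1, hJ2⟩ := exists_IDS_near (adj := adjH) adjH_symm adjH_irrefl
      (D := h + 1) (by intro v; rw [← hh]; exact adjH_deg v) hA hB hZ (q := q0 + d)
      (by omega) hq2
    have hMJ : U.card ≤ J.card := hMz.trans (Finset.card_le_card hZJ)
    obtain ⟨σ, hσ, hσc⟩ := C.exists_good J U hJ (fun u hu => hZJ (hU0 u hu)) hU1
      (fun u hu k e => by
        obtain ⟨l, hl, hl'⟩ := hU2 u hu k e
        exact ⟨l, hZJ hl, hl'⟩)
      (F * (q0 + d - J.card) + j % F) (by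
        rw [← hP]
        have e1 : P = F * (h + 1) + F := by rw [hPF, hFF]; ring
        have e2 : F * (q0 + d - J.card) ≤ F * (h + 1) := Nat.mul_le_mul_left _ (by omega)
        omega)
    refine ⟨σ, hσ, ?_⟩
    rw [hσc, ← hF, ← hP]
    have e3 : (J.card - U.card) * F + F * (q0 + d - J.card) = F * (q0 - U.card) + F * d := by
      rw [mul_comm _ F, ← mul_add, ← mul_add]
      congr 1
      omega
    omega

end sizes

theorem window_two {n r q : ℕ} (hr : 36 ≤ r) (hn : r + 2 ≤ n)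
    (h1 : 4000000000 * 2 ^ r ≤ r * (q + 1))
    (h2 : (q + 1) * 2 ^ ((r - 6) / 2) + 10000 * r ^ 4 * 2 ^ r ≤ 2 ^ r * 2 ^ ((r - 6) / 2)) :
    Nontrivial (reducedHomology (VR (Set.univ : Set (Lex (Fin n → Bool))) r) q) := by
  obtain ⟨h, e, he, hre⟩ : ∃ h e, e ≤ 1 ∧ r = 2 * h + e + 6 :=
    ⟨(r - 6) / 2, (r - 6) % 2, by omega, by omega⟩
  have h15 : 15 ≤ h := by omega
  let C := mkCover h e ⟨0, by omega⟩
  have hcard : Fintype.card ((Fin h ⊕ Fin h) ⊕ Fin e) + 6 = r := by simp; omega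
  have hτ : C.τ = 1 ∨ ∃ i, C.τ = 1 + Pi.single i 1 ∧ ∑ j, C.τ j = 0 := by
    rcases Nat.le_one_iff_eq_zero_or_eq_one.1 he with rfl | rfl
    · left
      ext (j | j)
      · rfl
      · exact j.elim0
    · right
      refine ⟨Sum.inr 0, ?_, ?_⟩
      · ext (j | j)
        · simp [C, mkCover]
        · have : j = 0 := Subsingleton.elim _ _
          subst this
          simp [C, mkCover, CharTwo.add_self_eq_zero]
      · simp [C, mkCover, Fintype.sum_sum_type, CharTwo.add_self_eq_zero]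
  obtain ⟨F, z, A, hF, hA, hz, hall⟩ := sizes_two C (Fintype.card_fin h) (by omega)
    (big_enough h15)
  rw [hcard] at hF
  rw [show (r - 6) / 2 = h by omega] at h2
  have a2 : z ≤ 128 * (3 * h) * (3 * h ^ 2) := by
    refine hz.trans ?_
    gcongr
    · omega
    · nlinarith
  obtain ⟨σ, hσ, hσc⟩ := hall (q + 1) (by
    have e1 : r * A ≤ 16 * 2 ^ h := by
      calc r * A ≤ 4 * (h + 2) * A := Nat.mul_le_mul_right _ (by omega)
        _ = 4 * ((h + 2) * A) := by ring
        _ ≤ 4 * 2 ^ (h + 2) := by gcongr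
        _ = 16 * 2 ^ h := by ring
    have e2 : r * (z * ((h + 1) * (h + 1) + 1)) ≤ 72576 * h ^ 6 := by
      have a1 : r ≤ 9 * h := by omega
      have a3 : (h + 1) * (h + 1) + 1 ≤ 7 * h ^ 2 := by nlinarith
      calc r * (z * ((h + 1) * (h + 1) + 1))
          ≤ (9 * h) * ((128 * (3 * h) * (3 * h ^ 2)) * (7 * h ^ 2)) := by gcongr
        _ = 72576 * h ^ 6 := by ring
    have e3 := pow_six_le h
    refine Nat.le_of_mul_le_mul_left ?_ (show 0 < r by omega)
    calc r * (F * (A + z * ((h + 1) * (h + 1) + 1)))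
        = F * (r * A + r * (z * ((h + 1) * (h + 1) + 1))) := by ring
      _ ≤ F * (4000000000 * 2 ^ h) := Nat.mul_le_mul_left _ (by omega)
      _ = 4000000000 * (F * 2 ^ h) := by ring
      _ ≤ _ := by rw [hF]; exact h1) (by
    have e1 : z * (h + 1) + 128 * (h + 2) ≤ 10000 * r ^ 4 := by
      have b1 : z * (h + 1) ≤ 128 * (3 * h) * (3 * h ^ 2) * (2 * h) :=
        Nat.mul_le_mul a2 (by omega)
      have b2 : h ^ 4 ≤ r ^ 4 := Nat.pow_le_pow_left (by omega) 4
      have b3 : r ≤ r ^ 4 := Nat.le_self_pow (by norm_num) r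
      have b4 : 128 * (3 * h) * (3 * h ^ 2) * (2 * h) = 2304 * h ^ 4 := by ring
      omega
    refine Nat.le_of_mul_le_mul_right ?_ (show 0 < 2 ^ h by positivity)
    calc (q + 1 + F * (z * (h + 1) + 128 * (h + 2))) * 2 ^ h
        = (q + 1) * 2 ^ h + (z * (h + 1) + 128 * (h + 2)) * (F * 2 ^ h) := by ring
      _ ≤ (q + 1) * 2 ^ h + 10000 * r ^ 4 * 2 ^ r := by rw [hF]; gcongr
      _ ≤ _ := by rw [hF]; exact h2)
  exact nontrivial_of_good hcard hn C.τ hτ σ hσ hσc

end Pool.Agent.P.MP_7cff07_gt.So
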