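import Pool.Agent.P.MP_7cff07_gt.SoWindow
import Pool.Agent.P.MP_7cff07_gt.SoTwo

namespace Pool.Agent.P.MP_7cff07_gt.So

open Finset Filter

lemma poly_le_exp (c k : ℕ) : ∃ x0 : ℕ, ∀ x, x0 ≤ x → c * (x + 1) ^ k ≤ 2 ^ x := by
  have h1 := (tendsto_pow_const_div_const_pow_of_one_lt k (r := 2) (by norm_num)).comp
    (tendsto_add_atTop_nat 1)
  obtain ⟨x0, hx0⟩ := eventually_atTop.1 (h1.eventually
    (gt_mem_nhds (show (0 : ℝ) < 1 / (2 * (c + 1)) by positivity)))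
  refine ⟨x0, fun x hx => ?_⟩
  have h2 := hx0 x hx
  simp only [Function.comp] at h2
  rw [div_lt_div_iff₀ (by positivity) (by positivity), pow_succ] at h2
  push_cast at h2
  have h3 : (0 : ℝ) ≤ ((x : ℝ) + 1) ^ k := by positivity
  have h4 : (c : ℝ) * ((x : ℝ) + 1) ^ k ≤ 2 ^ x := by nlinarith
  exact_mod_cast h4

/-- size parameter of the coarse labels -/
def lp (l : ℕ) : ℕ := Nat.log 2 l + 1

/-- number of blocks -/
def hh (R l : ℕ) : ℕ := (R + 1) * (2 * 2 ^ (R + 1 + lp l)) + (R + 1)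

/-- number of coordinates needed -/
def cost (R l : ℕ) : ℕ := (2 * hh R l + 2) * ((R + 1) * (2 * 2 ^ (R + 1 + (l + 1)))) + R + 264

lemma lt_lp (l : ℕ) : l < 2 ^ lp l := Nat.lt_pow_succ_log_self (by norm_num) l

lemma lp_le {l : ℕ} (hl : 1 ≤ l) : 2 ^ lp l ≤ 2 * l := by
  have := Nat.pow_log_le_self 2 (show l ≠ 0 by omega)
  rw [lp, pow_succ]; omega

lemma hh_le (R l : ℕ) : hh R l + 1 ≤ (R + 2) * (4 * 2 ^ R + 1) * 2 ^ lp l := by
  have h1 : 1 ≤ 2 ^ lp l := Nat.one_le_two_pow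
  have h2 : hh R l = (R + 1) * (4 * 2 ^ R) * 2 ^ lp l + (R + 1) := by rw [hh]; ring
  have h3 : 0 ≤ 2 ^ R * 2 ^ lp l := Nat.zero_le _
  rw [h2]
  nlinarith

lemma le_hh (R l : ℕ) : (R + 1) * (4 * l + 5) ≤ hh R l := by
  have h1 := lt_lp l
  have h2 : hh R l = (R + 1) * (4 * (2 ^ R * 2 ^ lp l) + 1) := by rw [hh]; ring
  have h3 : 2 ^ lp l ≤ 2 ^ R * 2 ^ lp l := Nat.le_mul_of_pos_left _ (by positivity)
  rw [h2]
  exact Nat.mul_le_mul_left _ (by omega)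

theorem window_l (R : ℕ) : ∃ l0 : ℕ, 4 ≤ l0 ∧ ∀ l r n q : ℕ, l0 ≤ l → cost R l ≤ r →
    r + (R + 1) + 1 ≤ n →
    4 * 2 ^ (r + (R + 1) + 1) ≤ (q + 1) * (2 ^ ((R + 1) * (R + 1 + (l + 1)) + 1) *
      2 ^ ((R + 1) * (R + 1 + lp l) + 1)) →
    (q + 1) * (2 ^ ((R + 1) * (R + 1 + (l + 1)) + 1) * 2) ≤ 2 ^ (r + (R + 1) + 1) →
    Nontrivial (reducedHomology (VR (Set.univ : Set (Lex (Fin n → Bool))) r) q) := by
  obtain ⟨h0, H⟩ := window R
  obtain ⟨x1, hx1⟩ := poly_le_exp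
    (((R + 2) * (4 * 2 ^ R + 1) * 2) ^ (R + 1) * (2 ^ (R + 1) * 1024)) (R + 1)
  obtain ⟨x2, hx2⟩ := poly_le_exp 10 (4 * (R + 1))
  refine ⟨h0 + x1 + x2 + R + 4, by omega, fun l r n q hl => ?_⟩
  have b1 := le_hh R l
  have b2 : 4 * l + 5 ≤ (R + 1) * (4 * l + 5) := Nat.le_mul_of_pos_left _ (by omega)
  have b3 := lp_le (l := l) (by omega)
  refine H l (lp l) (hh R l) r n q (by omega) le_rfl ?_ ?_ ?_
  · have c1 : hh R l + 1 ≤ (R + 2) * (4 * 2 ^ R + 1) * 2 * (l + 1) := by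
      refine (hh_le R l).trans ?_
      rw [mul_assoc _ 2]
      exact Nat.mul_le_mul_left _ (by omega)
    calc _ ≤ ((R + 2) * (4 * 2 ^ R + 1) * 2 * (l + 1)) ^ (R + 1) * (2 ^ (R + 1) * 1024) := by
          gcongr
      _ = ((R + 2) * (4 * 2 ^ R + 1) * 2) ^ (R + 1) * (2 ^ (R + 1) * 1024) * (l + 1) ^ (R + 1) := by
          rw [mul_pow _ (l + 1)]; ring
      _ ≤ 2 ^ l := hx1 l (by omega)
      _ ≤ _ := Nat.pow_le_pow_right (by norm_num) (by nlinarith)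
  · have c1 : lp l < 2 ^ lp l := Nat.lt_two_pow_self
    have c2 : R + 4 ≤ l := by omega
    have c3 : (R + 1) * (R + 1 + lp l) ≤ (R + 1) * (R + 1 + l) := by
      refine Nat.mul_le_mul_left _ ?_
      have : Nat.log 2 l < l := Nat.log_lt_self 2 (by omega)
      rw [lp]; omega
    nlinarith
  · have c1 : 2 ^ (R + 1 + lp l) ≤ hh R l + 1 := by
      have : 2 * 2 ^ (R + 1 + lp l) ≤ (R + 1) * (2 * 2 ^ (R + 1 + lp l)) :=
        Nat.le_mul_of_pos_left _ (by omega)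
      rw [hh]; omega
    calc _ = 10 * (hh R l + 1) ^ (3 * (R + 1)) * (2 ^ (R + 1 + lp l)) ^ (R + 1) := by
          rw [← pow_mul, mul_comm (R + 1 + lp l)]; ring
      _ ≤ 10 * (hh R l + 1) ^ (3 * (R + 1)) * (hh R l + 1) ^ (R + 1) := by gcongr
      _ = 10 * (hh R l + 1) ^ (4 * (R + 1)) := by ring
      _ ≤ _ := hx2 _ (by omega)

lemma cost_le (R : ℕ) : ∃ K : ℕ, ∀ l, cost R (l + 1) ≤ K * (2 ^ l * 2 ^ lp l) := by
  refine ⟨2 * ((R + 2) * (4 * 2 ^ R + 1) * 2) * ((R + 1) * (16 * 2 ^ R)) + (R + 264), fun l => ?_⟩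
  have h1 := lp_le (l := l + 1) (by omega)
  have h2 := lt_lp l
  have h3 : hh R (l + 1) + 1 ≤ (R + 2) * (4 * 2 ^ R + 1) * 2 * 2 ^ lp l := by
    refine (hh_le R _).trans ?_
    rw [mul_assoc _ 2]
    exact Nat.mul_le_mul_left _ (by omega)
  have h4 : R + 264 ≤ (R + 264) * (2 ^ l * 2 ^ lp l) := Nat.le_mul_of_pos_right _ (by positivity)
  calc cost R (l + 1) = 2 * (hh R (l + 1) + 1) * ((R + 1) * (16 * 2 ^ R) * 2 ^ l) + (R + 264) := by
        rw [cost]; ring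
    _ ≤ 2 * ((R + 2) * (4 * 2 ^ R + 1) * 2 * 2 ^ lp l) * ((R + 1) * (16 * 2 ^ R) * 2 ^ l) +
        (R + 264) * (2 ^ l * 2 ^ lp l) := by gcongr
    _ = _ := by ring

lemma lt_cost (R l : ℕ) : l < cost R l := by
  have h1 : l < 2 ^ l := Nat.lt_two_pow_self
  have h2 : 2 ^ l ≤ 2 ^ (R + 1 + (l + 1)) := Nat.pow_le_pow_right (by norm_num) (by omega)
  have h3 : 2 * 2 ^ (R + 1 + (l + 1)) ≤ (R + 1) * (2 * 2 ^ (R + 1 + (l + 1))) :=
    Nat.le_mul_of_pos_left _ (by omega)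
  have h4 : (R + 1) * (2 * 2 ^ (R + 1 + (l + 1))) ≤
      (2 * hh R l + 2) * ((R + 1) * (2 * 2 ^ (R + 1 + (l + 1)))) :=
    Nat.le_mul_of_pos_left _ (by omega)
  rw [cost]; omega

theorem window_low (R : ℕ) : ∃ C D r0 : ℕ, ∀ r n q : ℕ, r0 ≤ r → r + (R + 1) + 1 ≤ n →
    C * 2 ^ r ≤ (q + 1) * r ^ (R + 1) → (q + 1) * D ≤ 2 ^ r →
    Nontrivial (reducedHomology (VR (Set.univ : Set (Lex (Fin n → Bool))) r) q) := by
  classical
  obtain ⟨l0, hl0, H⟩ := window_l R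
  obtain ⟨K, hK⟩ := cost_le R
  refine ⟨K ^ (R + 1) * (4 * 2 ^ (R + 2)), 2 ^ ((R + 1) * (R + 1 + (l0 + 1)) + 1) * 2,
    cost R l0 + 1, fun r n q hr hn h1 h2 => ?_⟩
  have key : ∀ L, l0 ≤ L → (∀ l, l0 ≤ l → l ≤ L → cost R l ≤ r) →
      4 * 2 ^ (r + (R + 1) + 1) ≤ (q + 1) * (2 ^ ((R + 1) * (R + 1 + (L + 1)) + 1) *
        2 ^ ((R + 1) * (R + 1 + lp L) + 1)) →
      Nontrivial (reducedHomology (VR (Set.univ : Set (Lex (Fin n → Bool))) r) q) := by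
    intro L hL
    induction L, hL using Nat.le_induction with
    | base =>
      intro a1 a2
      exact H l0 r n q le_rfl (a1 _ le_rfl le_rfl) hn a2
        (h2.trans (Nat.pow_le_pow_right (by norm_num) (by omega)))
    | succ L hL ih =>
      intro a1 a2
      by_cases a3 : (q + 1) * (2 ^ ((R + 1) * (R + 1 + (L + 1 + 1)) + 1) * 2) ≤
          2 ^ (r + (R + 1) + 1)
      · exact H (L + 1) r n q (by omega) (a1 _ (by omega) le_rfl) hn a2 a3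
      · refine ih (fun l b1 b2 => a1 l b1 (by omega)) ?_
        have b1 : 3 ≤ lp L := by
          have : 2 ≤ Nat.log 2 L := Nat.le_log_of_pow_le (by norm_num) (by omega)
          rw [lp]; omega
        have b2 : 2 ^ (R + 4) ≤ 2 ^ ((R + 1) * (R + 1 + lp L) + 1) :=
          Nat.pow_le_pow_right (by norm_num) (by nlinarith)
        calc _ ≤ 4 * ((q + 1) * (2 ^ ((R + 1) * (R + 1 + (L + 1 + 1)) + 1) * 2)) := by omega
          _ = (q + 1) * (2 ^ ((R + 1) * (R + 1 + (L + 1)) + 1) * 2 ^ (R + 4)) := by ring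
          _ ≤ _ := by gcongr
  have hex : ∃ l, r < cost R (l0 + l + 1) := ⟨r, by have := lt_cost R (l0 + r + 1); omega⟩
  refine key (l0 + Nat.find hex) (by omega) (fun l b1 b2 => ?_) ?_
  · rcases b1.eq_or_lt with rfl | b3
    · omega
    · have := Nat.find_min hex (m := l - l0 - 1) (by omega)
      rw [show l0 + (l - l0 - 1) + 1 = l by omega] at this
      omega
  · have b1 := (Nat.find_spec hex).le.trans (hK _)
    generalize l0 + Nat.find hex = L at b1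
    have b2 : (2 ^ L * 2 ^ lp L) ^ (R + 1) ≤ 2 ^ ((R + 1) * (R + 1 + (L + 1)) + 1) *
        2 ^ ((R + 1) * (R + 1 + lp L) + 1) := by
      rw [← pow_add, ← pow_add, ← pow_mul]
      exact Nat.pow_le_pow_right (by norm_num) (by nlinarith)
    have b3 : 0 < K := Nat.pos_of_ne_zero (by rintro rfl; omega)
    refine Nat.le_of_mul_le_mul_left ?_ (show 0 < K ^ (R + 1) by positivity)
    calc K ^ (R + 1) * (4 * 2 ^ (r + (R + 1) + 1)) = K ^ (R + 1) * (4 * 2 ^ (R + 2)) * 2 ^ r := by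
          ring
      _ ≤ (q + 1) * r ^ (R + 1) := h1
      _ ≤ (q + 1) * (K * (2 ^ L * 2 ^ lp L)) ^ (R + 1) := by gcongr
      _ = K ^ (R + 1) * ((q + 1) * (2 ^ L * 2 ^ lp L) ^ (R + 1)) := by rw [mul_pow]; ring
      _ ≤ _ := by gcongr

end Pool.Agent.P.MP_7cff07_gt.So
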