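import Pool.Agent.P.MP_7cff07_gt.SoSeed

namespace Pool.Agent.P.MP_7cff07_gt.So

open Finset

lemma exists_between {α : Type} [DecidableEq α] (f : Finset α → ℕ) {D q : ℕ}
    (hf : ∀ A a, f A ≤ f (insert a A) + D) (A0 : Finset α) (h0 : q ≤ f A0) (E : Finset α) :
    f (A0 ∪ E) ≤ q → ∃ E' ⊆ E, q ≤ f (A0 ∪ E') ∧ f (A0 ∪ E') ≤ q + D := by
  induction E using Finset.induction_on with
  | empty => intro h; exact ⟨∅, subset_rfl, by simpa using h0, by omega⟩
  | insert a E _ ih =>
    intro h
    by_cases h1 : f (A0 ∪ E) ≤ q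
    · obtain ⟨E', h2, h3⟩ := ih h1
      exact ⟨E', h2.trans (Finset.subset_insert _ _), h3⟩
    · refine ⟨E, Finset.subset_insert _ _, by omega, ?_⟩
      have := hf (A0 ∪ E) a
      rw [← Finset.union_insert] at this
      omega

variable {κ : Type} [Fintype κ] [DecidableEq κ]

/-- two far apart sets avoiding the ball about the origin, each dominating all other nonzero
points -/
structure Pair (R : ℕ) (P N : Finset (κ → ZMod 2)) : Prop where
  outP : ∀ u ∈ P, R < hammingNorm u
  outN : ∀ u ∈ N, R < hammingNorm u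
  far : ∀ p ∈ P, ∀ n ∈ N, R < hammingNorm (p + n)
  dom : ∀ u, u ≠ 0 → u ∉ P → u ∉ N → u ∈ near R P ∧ u ∈ near R N

/-- the points outside the ball that are far from a set -/
def away (R : ℕ) (A : Finset (κ → ZMod 2)) : Finset (κ → ZMod 2) :=
  Finset.univ \ (ball κ R ∪ near R A)

lemma mem_away {R : ℕ} {A : Finset (κ → ZMod 2)} {u : κ → ZMod 2} :
    u ∈ away R A ↔ R < hammingNorm u ∧ ∀ a ∈ A, R < hammingNorm (u + a) := by
  simp [away, mem_ball, mem_near]

lemma away_anti {R : ℕ} {A B : Finset (κ → ZMod 2)} (h : A ⊆ B) : away R B ⊆ away R A := by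
  intro u hu
  rw [mem_away] at hu ⊢
  exact ⟨hu.1, fun a ha => hu.2 a (h ha)⟩

lemma near_mono {R : ℕ} {A B : Finset (κ → ZMod 2)} (h : A ⊆ B) : near R A ⊆ near R B := by
  intro u hu
  obtain ⟨a, ha, h'⟩ := mem_near.1 hu
  exact mem_near.2 ⟨a, h ha, h'⟩

lemma mem_near_of_not_away {R : ℕ} {A : Finset (κ → ZMod 2)} {u : κ → ZMod 2}
    (h : u ∉ away R A) : u ∈ ball κ R ∪ near R A := by
  by_contra h'
  exact h (Finset.mem_sdiff.2 ⟨Finset.mem_univ _, h'⟩)

lemma card_fringe {R : ℕ} {A : Finset (κ → ZMod 2)} (hA : A.card ≤ (Fintype.card κ + 1) ^ R) :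
    (ball κ R ∪ near R A).card ≤ 2 * (Fintype.card κ + 1) ^ (2 * R) := by
  have h1 := card_ball (ι := κ) R
  have h2 := card_near R A
  have h3 : (Fintype.card κ + 1) ^ R ≤ (Fintype.card κ + 1) ^ (2 * R) :=
    Nat.pow_le_pow_right (by omega) (by omega)
  have h4 : A.card * (Fintype.card κ + 1) ^ R ≤ (Fintype.card κ + 1) ^ (2 * R) := by
    rw [two_mul, pow_add]; exact Nat.mul_le_mul_right _ hA
  have := Finset.card_union_le (ball κ R) (near R A)
  omega

lemma card_fringe' {R : ℕ} {A : Finset (κ → ZMod 2)} (hA : A.card ≤ (Fintype.card κ + 1) ^ R) :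
    (near R (ball κ R ∪ near R A)).card ≤ 2 * (Fintype.card κ + 1) ^ (3 * R) := by
  refine (card_near _ _).trans ?_
  calc _ ≤ 2 * (Fintype.card κ + 1) ^ (2 * R) * (Fintype.card κ + 1) ^ R :=
        Nat.mul_le_mul_right _ (card_fringe hA)
    _ = _ := by ring

theorem exists_pair (R : ℕ) : ∃ h0 : ℕ, ∀ (κ : Type) [Fintype κ] [DecidableEq κ],
    h0 ≤ Fintype.card κ → ∀ Ps Ns : Finset (κ → ZMod 2),
      (∀ p ∈ Ps, ∀ n ∈ Ns, R < hammingNorm (p + n)) → (∀ u, u ∉ Ps → u ∈ near R Ns) →
      (∀ u, u ∉ Ns → u ∈ near R Ps) → ∀ q : ℕ,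
      Ps.card + Ns.card + 4 * (Fintype.card κ + 1) ^ (3 * R) ≤ q →
      q + 2 * (Fintype.card κ + 1) ^ (2 * R) ≤ 2 ^ Fintype.card κ →
      ∃ P N : Finset (κ → ZMod 2), Pair R P N ∧ q ≤ P.card + N.card ∧
        P.card + N.card ≤ q + (Fintype.card κ + 1) ^ R := by
  obtain ⟨h0, H⟩ := exists_seeds R
  refine ⟨h0, fun κ _ _ hκ Ps Ns hfar hPs hNs q hq1 hq2 => ?_⟩
  obtain ⟨p, hp1, hp2⟩ := H κ hκ
  let S : Bool → Finset (κ → ZMod 2) := fun c => ((ball κ R).erase 0).image (p c)
  have hSc : ∀ c, (S c).card ≤ (Fintype.card κ + 1) ^ R := fun c =>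
    Finset.card_image_le.trans (Finset.card_erase_le.trans (card_ball R))
  have hSout : ∀ c, ∀ u ∈ S c, R < hammingNorm u := by
    intro c u hu
    obtain ⟨v, hv, rfl⟩ := Finset.mem_image.1 hu
    exact (hp1 c v (Finset.mem_erase.1 hv).1 (mem_ball.1 (Finset.mem_erase.1 hv).2)).1
  have hSdom : ∀ c u, u ≠ 0 → hammingNorm u ≤ R → u ∈ near R (S c) := fun c u h1 h2 =>
    mem_near.2 ⟨p c u, Finset.mem_image_of_mem _ (Finset.mem_erase.2 ⟨h1, mem_ball.2 h2⟩),
      (hp1 c u h1 h2).2⟩
  have hSfar : ∀ u ∈ S true, ∀ v ∈ S false, R < hammingNorm (u + v) := by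
    intro u hu v hv
    obtain ⟨u', hu', rfl⟩ := Finset.mem_image.1 hu
    obtain ⟨v', hv', rfl⟩ := Finset.mem_image.1 hv
    rw [Finset.mem_erase, mem_ball] at hu' hv'
    exact hp2 _ _ hu'.1 hv'.1 hu'.2 hv'.2
  obtain ⟨E, hE, h1, h2⟩ := exists_between
    (fun A => (away R A).card + (away R (away R A)).card) (D := (Fintype.card κ + 1) ^ R) (q := q)
    (fun A a => by
      have e1 : (away R (away R A)).card ≤ (away R (away R (insert a A))).card :=
        Finset.card_le_card (away_anti (away_anti (Finset.subset_insert _ _)))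
      have e2 : away R A ⊆ away R (insert a A) ∪ near R {a} := by
        intro u hu
        rw [Finset.mem_union, mem_near, mem_away]
        rw [mem_away] at hu
        by_cases h : hammingNorm (u + a) ≤ R
        · exact Or.inr ⟨a, by simp, h⟩
        · refine Or.inl ⟨hu.1, fun b hb => ?_⟩
          rcases Finset.mem_insert.1 hb with rfl | hb
          · exact not_le.1 h
          · exact hu.2 b hb
      have e3 := (Finset.card_le_card e2).trans (Finset.card_union_le _ _)
      have e4 := card_near R {a}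
      rw [Finset.card_singleton, one_mul] at e4
      omega)
    (S false)
    (by
      have e1 := card_fringe (hSc false)
      have e2 : (away R (S false)).card + (ball κ R ∪ near R (S false)).card =
          2 ^ Fintype.card κ := by
        rw [away, Finset.card_sdiff_add_card_eq_card (Finset.subset_univ _)]
        simp
      omega)
    (Ns ∩ away R (S true))
    (by
      have e1 : away R (S false ∪ Ns ∩ away R (S true)) ⊆
          Ps ∪ near R (ball κ R ∪ near R (S true)) := by
        intro u hu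
        rw [Finset.mem_union]
        by_cases h : u ∈ Ps
        · exact Or.inl h
        · obtain ⟨n, hn, hn'⟩ := mem_near.1 (hPs u h)
          refine Or.inr (mem_near.2 ⟨n, mem_near_of_not_away fun h' => ?_, hn'⟩)
          exact absurd ((mem_away.1 hu).2 n (by simp [hn, h'])) (not_lt.2 hn')
      have e2 : away R (away R (S false ∪ Ns ∩ away R (S true))) ⊆
          Ns ∪ near R (ball κ R ∪ near R (S false)) := by
        intro u hu
        rw [Finset.mem_union]
        by_cases h : u ∈ Ns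
        · exact Or.inl h
        · obtain ⟨n, hn, hn'⟩ := mem_near.1 (hNs u h)
          refine Or.inr (mem_near.2 ⟨n, mem_near_of_not_away fun h' => ?_, hn'⟩)
          refine absurd ((mem_away.1 hu).2 n ?_) (not_lt.2 hn')
          rw [mem_away] at h' ⊢
          refine ⟨h'.1, fun a ha => ?_⟩
          rcases Finset.mem_union.1 ha with ha | ha
          · exact h'.2 a ha
          · exact hfar n hn a (Finset.mem_inter.1 ha).1
      have e3 := (Finset.card_le_card e1).trans (Finset.card_union_le _ _)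
      have e4 := (Finset.card_le_card e2).trans (Finset.card_union_le _ _)
      have e5 := card_fringe' (hSc true)
      have e6 := card_fringe' (hSc false)
      omega)
  refine ⟨away R (S false ∪ E), away R (away R (S false ∪ E)), ⟨fun u hu => (mem_away.1 hu).1,
    fun u hu => (mem_away.1 hu).1,
    fun a ha n hn => by rw [add_comm]; exact (mem_away.1 hn).2 a ha, ?_⟩, h1, h2⟩
  have hAN : S false ∪ E ⊆ away R (away R (S false ∪ E)) := by
    intro a ha
    refine mem_away.2 ⟨?_, fun b hb => by rw [add_comm]; exact (mem_away.1 hb).2 a ha⟩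
    rcases Finset.mem_union.1 ha with ha | ha
    · exact hSout _ a ha
    · exact (mem_away.1 (Finset.mem_inter.1 (hE ha)).2).1
  have hSP : S true ⊆ away R (S false ∪ E) := by
    intro a ha
    refine mem_away.2 ⟨hSout _ a ha, fun b hb => ?_⟩
    rcases Finset.mem_union.1 hb with hb | hb
    · exact hSfar a ha b hb
    · rw [add_comm]
      exact (mem_away.1 (Finset.mem_inter.1 (hE hb)).2).2 a ha
  intro u hu0 hP hN
  by_cases hu : hammingNorm u ≤ R
  · exact ⟨near_mono hSP (hSdom _ u hu0 hu),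
      near_mono (Finset.subset_union_left.trans hAN) (hSdom _ u hu0 hu)⟩
  · have hb : u ∉ ball κ R := fun h => hu (mem_ball.1 h)
    exact ⟨(Finset.mem_union.1 (mem_near_of_not_away hN)).resolve_left hb,
      near_mono hAN ((Finset.mem_union.1 (mem_near_of_not_away hP)).resolve_left hb)⟩

variable {ρ μ : Type} [Fintype ρ] [DecidableEq ρ] [Fintype μ] [DecidableEq μ]

lemma mem_of_ne_one (m0 : ρ) (H : AddSubgroup (Pos ρ μ → ZMod 2)) (h : ∀ g, g ≠ 1 → g ∈ H)
    (g : Pos ρ μ → ZMod 2) : g ∈ H := by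
  by_cases hg : g = 1
  · have : g = (1 + es m0) + es m0 := by rw [add_assoc, add_self_cube, add_zero, hg]
    rw [this]
    refine H.add_mem (h _ fun h1 => ?_) (h _ fun h1 => ?_)
    · simpa [es] using congrFun h1 (some (m0, Sum.inl m0))
    · simpa [es] using congrFun h1 none
  · exact h g hg

/-- a sparse pair of cosets -/
theorem exists_small (m0 : ρ) (hκ : Fintype.card (Ix ρ μ ⊕ ρ) ≤ Fintype.card κ) :
    ∃ Ps Ns : Finset (κ → ZMod 2),
      (∀ p ∈ Ps, ∀ n ∈ Ns, Fintype.card ρ < hammingNorm (p + n)) ∧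
      (∀ u, u ∉ Ps → u ∈ near (Fintype.card ρ) Ns) ∧
      (∀ u, u ∉ Ns → u ∈ near (Fintype.card ρ) Ps) ∧
      (Ps.card + Ns.card) * 2 ^ Fintype.card (Pos ρ μ) = 2 * 2 ^ Fintype.card κ := by
  classical
  obtain ⟨f⟩ := Function.Embedding.nonempty_of_card_le hκ
  let lam : κ → Pos ρ μ → ZMod 2 := Function.extend f (Sum.elim (nl m0) (sp m0)) (fun _ => 0)
  have hlam : ∀ x, lam (f x) = Sum.elim (nl m0) (sp m0) x :=
    fun x => f.injective.extend_apply _ _ _
  have hL : Lab m0 lam (fun m => f (Sum.inr m)) := by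
    refine ⟨fun m m' h => by simpa using f.injective h, fun m => hlam _, fun j hj => ?_⟩
    by_cases h : ∃ x, f x = j
    · obtain ⟨x | m, rfl⟩ := h
      · rw [hlam]; exact ord_nl _ _
      · exact absurd rfl (hj m)
    · have : lam j = 0 := Function.extend_apply' _ _ _ h
      rw [this]; exact ord_zero _
  have hcov : ∀ g, g ≠ 1 → ∃ e, hammingNorm e ≤ Fintype.card ρ ∧ lin lam e = g := by
    intro g hg
    obtain ⟨u, -, hu⟩ := hL.cover (fun i => f (Sum.inl i)) (fun i => hlam _) hg
    exact ⟨_, norm_sum_single u, hu⟩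
  have hsurj : Function.Surjective (lin lam) := fun g =>
    mem_of_ne_one m0 (lin lam).range (fun g hg => (hcov g hg).imp fun _ h => h.2) g
  refine ⟨Finset.univ.filter (fun u => lin lam u = 0), Finset.univ.filter (fun u => lin lam u = 1),
    ?_, ?_, ?_, ?_⟩
  · intro p hp n hn
    by_contra h
    refine hL.ne_one (not_lt.1 h) ?_
    rw [map_add, (Finset.mem_filter.1 hp).2, (Finset.mem_filter.1 hn).2, zero_add]
  · intro u hu
    obtain ⟨e, he, he'⟩ := hcov (lin lam u + 1) (by simpa using hu)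
    refine mem_near.2 ⟨u + e, ?_, by rwa [← add_assoc, add_self_cube, zero_add]⟩
    simp only [Finset.mem_filter, Finset.mem_univ, true_and]
    rw [map_add, he', ← add_assoc, add_self_cube, zero_add]
  · intro u hu
    obtain ⟨e, he, he'⟩ := hcov (lin lam u) (by simpa using hu)
    refine mem_near.2 ⟨u + e, ?_, by rwa [← add_assoc, add_self_cube, zero_add]⟩
    simp only [Finset.mem_filter, Finset.mem_univ, true_and]
    rw [map_add, he', add_self_cube]
  · have h1 := card_filter_mem_of_surjective _ hsurj {1}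
    have h2 := card_ker_mul _ hsurj
    simp only [Finset.mem_singleton, Finset.card_singleton, one_mul] at h1
    simp only [Fintype.card_pi, ZMod.card, Finset.prod_const, Finset.card_univ] at h2
    rw [h1, ← h2]
    ring

end Pool.Agent.P.MP_7cff07_gt.So
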