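import Pool.Agent.P.MP_7cff07_gt.SoLab

namespace Pool.Agent.P.MP_7cff07_gt.So

open Finset

variable {κ : Type} [Fintype κ] [DecidableEq κ]

omit [DecidableEq κ] in
lemma card_le_norm {v : κ → ZMod 2} {T : Finset κ} (h : ∀ k ∈ T, v k ≠ 0) :
    T.card ≤ hammingNorm v :=
  Finset.card_le_card fun k hk => Finset.mem_filter.2 ⟨Finset.mem_univ _, h k hk⟩

omit [Fintype κ] in
lemma sum_single_apply {ρ : Type} [Fintype ρ] {t : ρ → κ} (ht : Function.Injective t) (m : ρ) :
    (∑ m, (Pi.single (t m) 1 : κ → ZMod 2)) (t m) = 1 := by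
  rw [Finset.sum_apply, Finset.sum_eq_single m]
  · simp
  · intro m' _ hm'
    exact Pi.single_eq_of_ne (ht.ne hm'.symm) _
  · simp

omit [Fintype κ] in
lemma sum_single_apply_of_ne {ρ : Type} [Fintype ρ] {t : ρ → κ} {k : κ} (hk : ∀ m, t m ≠ k) :
    (∑ m, (Pi.single (t m) 1 : κ → ZMod 2)) k = 0 := by
  rw [Finset.sum_apply]
  exact Finset.sum_eq_zero fun m _ => Pi.single_eq_of_ne (hk m).symm _

lemma lt_norm_of {R : ℕ} {v : κ → ZMod 2} {t : Fin R → κ} (ht : Function.Injective t)
    (h1 : ∀ m, v (t m) ≠ 0) {k : κ} (hk : ∀ m, t m ≠ k) (h2 : v k ≠ 0) : R < hammingNorm v := by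
  have h := card_le_norm (v := v) (T := insert k (Finset.univ.image t)) (by
    intro j hj
    rcases Finset.mem_insert.1 hj with rfl | hj
    · exact h2
    · obtain ⟨m, -, rfl⟩ := Finset.mem_image.1 hj
      exact h1 m)
  rw [Finset.card_insert_of_notMem (by simpa using hk), Finset.card_image_of_injective _ ht] at h
  simpa using h

lemma seed_cross {R : ℕ} {u u' : κ → ZMod 2} (hu : u ≠ 0) (hu' : hammingNorm u' ≤ R)
    {t t' : Fin R → κ} (ht : Function.Injective t) (ht' : Function.Injective t')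
    (htt : ∀ m m', t m ≠ t' m') (h1 : ∀ m, u (t m) = 0) (h2 : ∀ m, u' (t' m) = 0)
    (h3 : ∀ m, u (t' m) = 0) :
    R < hammingNorm ((u + ∑ m, Pi.single (t m) 1) + (u' + ∑ m, Pi.single (t' m) 1)) := by
  have hA : ∀ m, ((u + ∑ m, Pi.single (t m) 1) + (u' + ∑ m, Pi.single (t' m) 1) :
      κ → ZMod 2) (t' m) ≠ 0 := by
    intro m
    simp only [Pi.add_apply, h2, h3, sum_single_apply ht',
      sum_single_apply_of_ne (fun m' => htt m' m)]
    decide
  by_cases h : ∃ m, u' (t m) = 0
  · obtain ⟨m, hm⟩ := h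
    refine lt_norm_of ht' hA (k := t m) (fun m' => (htt m m').symm) ?_
    simp only [Pi.add_apply, h1, hm, sum_single_apply ht,
      sum_single_apply_of_ne (fun m' => (htt m m').symm)]
    decide
  · push Not at h
    obtain ⟨k, hk⟩ := Function.ne_iff.1 hu
    have hk0 : u k ≠ 0 := hk
    have hk1 : ∀ m, t m ≠ k := by rintro m rfl; exact hk0 (h1 m)
    have hk2 : ∀ m, t' m ≠ k := by rintro m rfl; exact hk0 (h3 m)
    have hk3 : u' k = 0 := by
      by_contra h0
      exact absurd (lt_norm_of ht h hk1 h0) (not_lt.2 hu')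
    refine lt_norm_of ht' hA hk2 ?_
    simp only [Pi.add_apply, hk3, sum_single_apply_of_ne hk1, sum_single_apply_of_ne hk2]
    simpa using hk0

/-- two far apart families dominating the punctured ball from outside -/
theorem exists_seeds (R : ℕ) : ∃ h0 : ℕ, ∀ (κ : Type) [Fintype κ] [DecidableEq κ],
    h0 ≤ Fintype.card κ → ∃ p : Bool → (κ → ZMod 2) → (κ → ZMod 2),
      (∀ c u, u ≠ 0 → hammingNorm u ≤ R →
        R < hammingNorm (p c u) ∧ hammingNorm (u + p c u) ≤ R) ∧
      ∀ u u', u ≠ 0 → u' ≠ 0 → hammingNorm u ≤ R → hammingNorm u' ≤ R →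
        R < hammingNorm (p true u + p false u') := by
  classical
  refine ⟨Fintype.card (Fin (R * R + 1) × Finset (Fin (R * R + 1)) × Bool × Fin R), ?_⟩
  intro κ _ _ hκ
  obtain ⟨f⟩ := Function.Embedding.nonempty_of_card_le hκ
  let adr : κ → Fin (R * R + 1) := Function.extend f (fun x => x.1) (fun _ => 0)
  let tgt : κ → Finset (Fin (R * R + 1)) :=
    Function.extend f (fun x => if x.2.1.card ≤ R then x.2.1 else ∅) (fun _ => ∅)
  have hadr : ∀ x, adr (f x) = x.1 := fun x => f.injective.extend_apply _ _ _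
  have htgt : ∀ x, x.2.1.card ≤ R → tgt (f x) = x.2.1 := fun x hx =>
    (f.injective.extend_apply _ _ _).trans (if_pos hx)
  have htc : ∀ k, (tgt k).card ≤ R := by
    intro k
    by_cases hk : ∃ x, f x = k
    · obtain ⟨x, rfl⟩ := hk
      have : tgt (f x) = if x.2.1.card ≤ R then x.2.1 else ∅ := f.injective.extend_apply _ _ _
      rw [this]
      split_ifs with h
      · exact h
      · simp
    · have : tgt k = ∅ := Function.extend_apply' _ _ _ hk
      simp [this]
  let S : (κ → ZMod 2) → Finset (Fin (R * R + 1)) :=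
    fun u => (Finset.univ.filter (fun k => u k ≠ 0)).image adr
  have hS : ∀ u, hammingNorm u ≤ R → (S u).card ≤ R := fun u hu => Finset.card_image_le.trans hu
  have ha : ∀ u : κ → ZMod 2, ∃ a : Fin (R * R + 1),
      hammingNorm u ≤ R → ∀ k, u k ≠ 0 → a ∉ tgt k := by
    intro u
    by_cases hu : hammingNorm u ≤ R
    · have h1 : ((Finset.univ.filter (fun k => u k ≠ 0)).biUnion tgt).card ≤ R * R :=
        (Finset.card_biUnion_le_card_mul _ _ R fun k _ => htc k).trans
          (Nat.mul_le_mul_right _ hu)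
      obtain ⟨a, -, ha⟩ := Finset.exists_mem_notMem_of_card_lt_card
        (s := (Finset.univ.filter (fun k => u k ≠ 0)).biUnion tgt) (t := Finset.univ)
        (by simp only [Finset.card_univ, Fintype.card_fin]; omega)
      exact ⟨a, fun _ k hk h => ha (Finset.mem_biUnion.2 ⟨k, by simpa using hk, h⟩)⟩
    · exact ⟨0, fun h => absurd h hu⟩
  choose a ha using ha
  let t : Bool → (κ → ZMod 2) → Fin R → κ := fun c u m => f (a u, S u, c, m)
  have ht : ∀ c u, Function.Injective (t c u) := by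
    intro c u m m' h
    simpa using f.injective h
  have htt : ∀ u u' m m', t true u m ≠ t false u' m' := by
    intro u u' m m' h
    simpa using f.injective h
  have hex : ∀ c c' u u' m m', hammingNorm u ≤ R → hammingNorm u' ≤ R →
      u' (t c u m) ≠ 0 → u (t c' u' m') = 0 := by
    intro c c' u u' m m' hu hu' h1
    by_contra h2
    have h3 := ha u' hu' _ h1
    rw [htgt _ (hS u hu)] at h3
    exact h3 (Finset.mem_image.2 ⟨t c' u' m', by simpa using h2, hadr _⟩)
  have h0 : ∀ c u m, hammingNorm u ≤ R → u (t c u m) = 0 := by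
    intro c u m hu
    by_contra h
    exact h (hex c c u u m m hu hu h)
  refine ⟨fun c u => u + ∑ m, Pi.single (t c u m) 1, fun c u hu0 hu => ⟨?_, ?_⟩, ?_⟩
  · obtain ⟨k, hk⟩ := Function.ne_iff.1 hu0
    have hk0 : u k ≠ 0 := hk
    have hk1 : ∀ m, t c u m ≠ k := by rintro m rfl; exact hk0 (h0 c u m hu)
    refine lt_norm_of (ht c u) (fun m => ?_) hk1 ?_
    · simp only [Pi.add_apply, h0 c u m hu, sum_single_apply (ht c u)]
      decide
    · simp only [Pi.add_apply, sum_single_apply_of_ne hk1]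
      simpa using hk0
  · rw [← add_assoc, add_self_cube, zero_add]
    simpa using norm_sum_single (t c u)
  · intro u u' hu0 hu0' hu hu'
    by_cases h : ∀ m, u (t false u' m) = 0
    · exact seed_cross hu0 hu' (ht _ _) (ht _ _) (htt u u') (fun m => h0 _ _ m hu)
        (fun m => h0 _ _ m hu') h
    · push Not at h
      obtain ⟨m, hm⟩ := h
      rw [add_comm]
      exact seed_cross hu0' hu (ht _ _) (ht _ _) (fun m m' => (htt u u' m' m).symm)
        (fun m => h0 _ _ m hu') (fun m => h0 _ _ m hu)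
        (fun m' => hex _ _ _ _ m m' hu' hu hm)

end Pool.Agent.P.MP_7cff07_gt.So
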