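import Pool.Agent.P.MP_7cff07_gt.SoPair
import Pool.Agent.P.MP_7cff07_gt.Transfer

namespace Pool.Agent.P.MP_7cff07_gt.So

open Finset

variable {U W : Type} [Fintype U] [DecidableEq U] [Fintype W] [DecidableEq W]

/-- a signed configuration of a cube -/
structure Sgn (P N : Finset (U → ZMod 2)) : Prop where
  disj : ∀ z ∈ P, z ∉ N
  indep : ∀ z i, (z ∈ P ∨ z ∈ N) → ¬ (z + Pi.single i 1 ∈ P ∨ z + Pi.single i 1 ∈ N)
  dom : ∀ z, z ∉ P → z ∉ N → (∃ i, z + Pi.single i 1 ∈ P) ∧ ∃ i, z + Pi.single i 1 ∈ N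

omit [Fintype U] in
lemma Sgn.symm {P N : Finset (U → ZMod 2)} (h : Sgn P N) : Sgn N P :=
  ⟨fun z h1 h2 => h.disj z h2 h1, fun z i h1 h2 => h.indep z i h1.symm h2.symm,
    fun z h1 h2 => (h.dom z h2 h1).symm⟩

lemma Sgn.eq_of_norm {P N : Finset (U → ZMod 2)} (h : Sgn P N) {a b : U → ZMod 2}
    (ha : a ∈ P ∨ a ∈ N) (hb : b ∈ P ∨ b ∈ N) (hab : hammingNorm (a + b) ≤ 1) : a = b := by
  rcases (hammingNorm_le_one_iff _).1 hab with h0 | ⟨i, hi⟩
  · rw [(z2_eq_add_iff _ _ _).1 h0, zero_add]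
  · rw [(z2_eq_add_iff _ _ _).1 hi, add_comm] at ha
    exact absurd ha (h.indep b i hb)

lemma Sgn.near_one {P N : Finset (U → ZMod 2)} (h : Sgn P N) {a : U → ZMod 2} (ha : a ∉ P) :
    ∃ b ∈ N, hammingNorm (a + b) ≤ 1 := by
  by_cases hN : a ∈ N
  · exact ⟨a, hN, by simp [add_self_cube]⟩
  · obtain ⟨i, hi⟩ := (h.dom a ha hN).2
    exact ⟨_, hi, by rw [← add_assoc, add_self_cube, zero_add, norm_single]⟩

lemma Sgn.near_two {P N : Finset (U → ZMod 2)} (h : Sgn P N) (i : U) (a : U → ZMod 2) :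
    ∃ b ∈ N, hammingNorm (a + b) ≤ 2 := by
  by_cases ha : a ∈ P
  · obtain ⟨b, hb, hb'⟩ := h.near_one (a := a + Pi.single i 1)
      (fun h' => h.indep a i (Or.inl ha) (Or.inl h'))
    refine ⟨b, hb, ?_⟩
    have h1 := hammingNorm_add_le' (a + Pi.single i 1 + b) (Pi.single i 1)
    have h2 : a + Pi.single i 1 + b + Pi.single i 1 = a + b := by
      rw [add_right_comm a, add_assoc, add_self_cube, add_zero]
    rw [norm_single, h2] at h1
    omega
  · obtain ⟨b, hb, hb'⟩ := h.near_one ha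
    exact ⟨b, hb, by omega⟩

theorem exists_gadget_common : ∃ P N : Bool → Finset (Fin 8 → ZMod 2),
    (∀ t, Valid (P t) (N t)) ∧ (∀ t, (P t).card + (N t).card = 68 + (if t then 1 else 0)) ∧
      (∃ z, ∀ t, z ∈ P t) ∧ ∃ z, ∀ t, z ∈ N t := by
  refine ⟨fun t => Finset.univ.filter (fun z => gP t z = true),
    fun t => Finset.univ.filter (fun z => gN t z = true), fun t => ⟨?_, ?_, ?_⟩, gadget_card,
    ⟨0, ?_⟩, ⟨![0, 0, 1, 1, 0, 1, 0, 0], ?_⟩⟩
  · intro z; simpa using gadget_disj t z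
  · intro z i; simpa only [Finset.mem_filter, Finset.mem_univ, true_and] using gadget_indep t z i
  · intro z; simpa only [Finset.mem_filter, Finset.mem_univ, true_and] using gadget_dom t z
  · simp only [Finset.mem_filter, Finset.mem_univ, true_and]
    decide +kernel
  · simp only [Finset.mem_filter, Finset.mem_univ, true_and]
    decide +kernel

/-- the subset of a cube with prescribed slices -/
def slices (Q : (W → ZMod 2) → Finset (U → ZMod 2)) : Finset (U ⊕ W → ZMod 2) :=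
  Finset.univ.filter (fun x => x ∘ Sum.inl ∈ Q (x ∘ Sum.inr))

lemma mem_slices {Q : (W → ZMod 2) → Finset (U → ZMod 2)} {x : U ⊕ W → ZMod 2} :
    x ∈ slices Q ↔ x ∘ Sum.inl ∈ Q (x ∘ Sum.inr) := by simp [slices]

lemma card_slices (Q : (W → ZMod 2) → Finset (U → ZMod 2)) :
    (slices Q).card = ∑ w, (Q w).card := by
  rw [← Finset.card_sigma]
  refine Finset.card_bij' (fun x _ => ⟨x ∘ Sum.inr, x ∘ Sum.inl⟩) (fun p _ => Sum.elim p.2 p.1)
    ?_ ?_ ?_ ?_
  · intro x hx; simpa using mem_slices.1 hx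
  · intro p hp; simpa [mem_slices] using hp
  · intro x _; ext (i | i) <;> rfl
  · intro p _; rfl

/-- the translate of a set -/
def shift (A : Finset (U → ZMod 2)) (v : U → ZMod 2) : Finset (U → ZMod 2) :=
  Finset.univ.filter (fun z => z + v ∈ A)

lemma mem_shift {A : Finset (U → ZMod 2)} {v z : U → ZMod 2} : z ∈ shift A v ↔ z + v ∈ A := by
  simp [shift]

lemma card_shift (A : Finset (U → ZMod 2)) (v : U → ZMod 2) : (shift A v).card = A.card := by
  refine Finset.card_bij' (fun x _ => x + v) (fun x _ => x + v) ?_ ?_ ?_ ?_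
  · intro x hx; exact mem_shift.1 hx
  · intro x hx; rwa [mem_shift, add_assoc, add_self_cube, add_zero]
  · intro x _; simp only [add_assoc, add_self_cube, add_zero]
  · intro x _; simp only [add_assoc, add_self_cube, add_zero]

omit [Fintype U] [Fintype W] in
lemma single_inl_inl (i : U) :
    (Pi.single (Sum.inl i) 1 : U ⊕ W → ZMod 2) ∘ Sum.inl = Pi.single i 1 := by
  ext j; simp [Pi.single_apply]

omit [Fintype U] [Fintype W] in
lemma single_inl_inr (i : U) : (Pi.single (Sum.inl i) 1 : U ⊕ W → ZMod 2) ∘ Sum.inr = 0 := by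
  ext j; simp

omit [Fintype U] [Fintype W] in
lemma single_inr_inr (i : W) :
    (Pi.single (Sum.inr i) 1 : U ⊕ W → ZMod 2) ∘ Sum.inr = Pi.single i 1 := by
  ext j; simp [Pi.single_apply]

omit [Fintype U] [Fintype W] in
lemma single_inr_inl (i : W) : (Pi.single (Sum.inr i) 1 : U ⊕ W → ZMod 2) ∘ Sum.inl = 0 := by
  ext j; simp

theorem exists_sgn (hW : 256 ≤ Fintype.card W) : ∃ K : ℕ, 2 * K = 2 ^ Fintype.card W ∧
    ∀ j ≤ K, ∃ P N : Finset (Fin 8 ⊕ W → ZMod 2), Sgn P N ∧ P.card + N.card = 68 * K + j := by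
  obtain ⟨P, N, hV, hc, ⟨p0, hp0⟩, ⟨n0, hn0⟩⟩ := exists_gadget_common
  obtain ⟨s, hs⟩ := exists_surj (α := Fin 8 → ZMod 2) (β := W) (by simpa using hW)
  let par : (W → ZMod 2) →+ ZMod 2 := lin (fun _ => 1)
  have hpar : ∀ (w : W → ZMod 2) i, par (w + Pi.single i 1) = par w + 1 := by
    intro w i; rw [map_add, lin_single]
  have hsurj : Function.Surjective par := by
    obtain ⟨i, -⟩ := hs 0
    intro c
    rcases z2_cases c with rfl | rfl
    · exact ⟨0, map_zero _⟩
    · exact ⟨Pi.single i 1, lin_single _ _⟩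
  have hK := card_ker_mul par hsurj
  simp only [Fintype.card_pi, ZMod.card, Finset.prod_const, Finset.card_univ] at hK
  refine ⟨_, hK, fun j hj => ?_⟩
  obtain ⟨T, hT, rfl⟩ := Finset.exists_subset_card_eq hj
  let F : (Bool → Finset (Fin 8 → ZMod 2)) → (W → ZMod 2) → Finset (Fin 8 → ZMod 2) :=
    fun A w => if par w = 0 then shift (A (decide (w ∈ T))) (lin s w) else ∅
  have hF : ∀ A x, x ∈ slices (F A) ↔ par (x ∘ Sum.inr) = 0 ∧
      x ∘ Sum.inl + lin s (x ∘ Sum.inr) ∈ A (decide (x ∘ Sum.inr ∈ T)) := by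
    intro A x
    rw [mem_slices]
    by_cases h : par (x ∘ Sum.inr) = 0 <;> simp [F, h, mem_shift]
  have hodd : ∀ (A : Bool → Finset (Fin 8 → ZMod 2)) (a : Fin 8 → ZMod 2), (∀ t, a ∈ A t) →
      ∀ x : Fin 8 ⊕ W → ZMod 2, par (x ∘ Sum.inr) ≠ 0 →
        ∃ i, x + Pi.single i 1 ∈ slices (F A) := by
    intro A a ha x hx
    obtain ⟨i, hi⟩ := hs (x ∘ Sum.inl + lin s (x ∘ Sum.inr) + a)
    refine ⟨Sum.inr i, ?_⟩
    rw [hF, Pi.add_comp, Pi.add_comp, single_inr_inr, single_inr_inl, hpar, map_add, lin_single,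
      (z2_cases _).resolve_left hx, add_zero, hi, ← add_assoc, ← add_assoc, add_self_cube,
      zero_add]
    exact ⟨by decide, ha _⟩
  refine ⟨slices (F P), slices (F N), ⟨?_, ?_, ?_⟩, ?_⟩
  · intro z h1 h2
    rw [hF] at h1 h2
    exact (hV _).disj _ h1.2 h2.2
  · rintro z (i | i) h1 h2
    · simp only [hF, Pi.add_comp, single_inl_inl, single_inl_inr, add_zero,
        add_right_comm _ (Pi.single i (1 : ZMod 2) : Fin 8 → ZMod 2)] at h1 h2
      exact (hV _).indep _ i (h1.imp And.right And.right) (h2.imp And.right And.right)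
    · simp only [hF, Pi.add_comp, single_inr_inr, hpar] at h1 h2
      have h3 : par (z ∘ Sum.inr) = 0 := h1.elim And.left And.left
      have h4 : par (z ∘ Sum.inr) + 1 = 0 := h2.elim And.left And.left
      rw [h3] at h4
      exact absurd h4 (by decide)
  · intro z h1 h2
    by_cases hz : par (z ∘ Sum.inr) = 0
    · rw [hF] at h1 h2
      obtain ⟨⟨i, hi⟩, ⟨i', hi'⟩⟩ := (hV _).dom _ (fun h => h1 ⟨hz, h⟩) (fun h => h2 ⟨hz, h⟩)
      refine ⟨⟨Sum.inl i, ?_⟩, ⟨Sum.inl i', ?_⟩⟩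
      · rw [hF, Pi.add_comp, Pi.add_comp, single_inl_inl, single_inl_inr, add_zero,
          add_right_comm]
        exact ⟨hz, hi⟩
      · rw [hF, Pi.add_comp, Pi.add_comp, single_inl_inl, single_inl_inr, add_zero,
          add_right_comm]
        exact ⟨hz, hi'⟩
    · exact ⟨hodd P p0 hp0 z hz, hodd N n0 hn0 z hz⟩
  · rw [card_slices, card_slices, ← Finset.sum_add_distrib]
    have h1 : ∀ w, (F P w).card + (F N w).card =
        (if par w = 0 then 68 else 0) + (if w ∈ T then 1 else 0) := by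
      intro w
      by_cases h : par w = 0
      · simp only [F, if_pos h, card_shift, hc, decide_eq_true_eq]
      · have : w ∉ T := fun h' => h (Finset.mem_filter.1 (hT h')).2
        simp [F, h, this]
    simp only [h1, Finset.sum_add_distrib]
    rw [← Finset.sum_filter, ← Finset.sum_filter]
    simp [mul_comm]

lemma exists_distrib {α : Type} [DecidableEq α] (s : Finset α) (m : ℕ) :
    ∀ j ≤ s.card * m, ∃ f : α → ℕ, (∀ a, f a ≤ m) ∧ ∑ a ∈ s, f a = j := by
  induction s using Finset.induction_on with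
  | empty => intro j hj; exact ⟨0, by simp, by simpa using hj.antisymm' (by simp)⟩
  | insert a s ha ih =>
    intro j hj
    rw [Finset.card_insert_of_notMem ha, add_mul, one_mul] at hj
    obtain ⟨f, hf, hf'⟩ := ih (j - m) (by omega)
    refine ⟨Function.update f a (min j m), fun b => ?_, ?_⟩
    · by_cases h : b = a
      · subst h; simp
      · simpa [h] using hf b
    · rw [Finset.sum_insert ha, Function.update_self, Finset.sum_update_of_notMem ha, hf']
      omega

end Pool.Agent.P.MP_7cff07_gt.So
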