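import Pool.Agent.P.MP_7cff07_gt.SoSign

namespace Pool.Agent.P.MP_7cff07_gt.So

open Finset

section facet

variable {ι : Type} [Fintype ι] [DecidableEq ι]

/-- a maximal simplex whose vertices have their own partners, in terms of the distance to the antipode -/
structure Facet (R : ℕ) (σ : Finset (ι → ZMod 2)) (y : (ι → ZMod 2) → ι → ZMod 2) : Prop where
  xx : ∀ x ∈ σ, ∀ x' ∈ σ, ¬ hammingNorm (x + x' + 1) ≤ R
  xy : ∀ x ∈ σ, ∀ x' ∈ σ, hammingNorm (x + y x' + 1) ≤ R → x = x'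
  yy : ∀ x ∈ σ, ∀ x' ∈ σ, ¬ hammingNorm (y x + y x' + 1) ≤ R
  far : ∀ x ∈ σ, hammingNorm (x + y x + 1) ≤ R
  dom : ∀ w, w ∉ σ → ∃ x ∈ σ, hammingNorm (w + x + 1) ≤ R

omit [DecidableEq ι] in
theorem Facet.nontrivial {r R n q : ℕ} (hr : Fintype.card ι = r + R + 1) (hn : r + R + 1 ≤ n)
    {σ : Finset (ι → ZMod 2)} {y : (ι → ZMod 2) → ι → ZMod 2} (h : Facet R σ y)
    (hq : σ.card = q + 1) :
    Nontrivial (reducedHomology (VR (Set.univ : Set (Lex (Fin n → Bool))) r) q) := by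
  classical
  obtain ⟨f⟩ := Function.Embedding.nonempty_of_card_le (α := ι) (β := Fin n) (by simp; omega)
  have hcw := far_iff' hr
  rw [VR_eq]
  refine nontrivial_of_cross (V := Lex (Fin n → Bool)) (by simp)
    (fun x y h => by rwa [hammingDist_comm]) Set.univ
    (cw := fun a b : ι → ZMod 2 => hammingDist a b ≤ r) Set.univ
    (fun v : Lex (Fin n → Bool) => fun i => bz (ofLex v (f i)))
    (fun w => toLex (Function.extend f (fun i => zb (w i)) (fun _ => false)))
    (by simp) ?_ (by simp) ?_ ?_ σ y (by simp) (by simp) ?_ ?_ ?_ ?_ ?_ q hq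
  · intro u _ v _ h
    rw [hammingDist_bz (fun i => ofLex u (f i)) (fun i => ofLex v (f i))]
    exact (hammingDist_comp_embedding_le f _ _).trans h
  · intro w _ w' _ h
    simp only [ofLex_toLex]
    refine (hammingDist_extend_le f _ _ _).trans ?_
    rwa [hammingDist_comp (fun _ => zb) (fun _ => zb_injective)]
  · intro w _
    simp only [ofLex_toLex, f.injective.extend_apply, bz_zb]
  · intro x hx x' hx'
    by_contra h'
    exact h.xx x hx x' hx' ((hcw _ _).1 h')
  · intro x hx x' hx' hne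
    by_contra h'
    exact hne (h.xy x hx x' hx' ((hcw _ _).1 h'))
  · intro x hx x' hx'
    by_contra h'
    exact h.yy x hx x' hx' ((hcw _ _).1 h')
  · intro x hx
    exact (hcw _ _).2 (h.far x hx)
  · intro w _ hw
    by_contra hwσ
    obtain ⟨x, hx, hx'⟩ := h.dom w hwσ
    exact (hcw _ _).2 hx' (hw x hx)

end facet

variable {U Y B κ : Type} [Fintype U] [DecidableEq U] [Fintype Y] [DecidableEq Y]
  [Fintype B] [DecidableEq B] [Fintype κ] [DecidableEq κ]

omit [DecidableEq U] [DecidableEq Y] in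
lemma norm_sum_type (x : U ⊕ Y → ZMod 2) :
    hammingNorm x = hammingNorm (x ∘ Sum.inl) + hammingNorm (x ∘ Sum.inr) := by
  simp only [hammingNorm, Finset.card_filter, Fintype.sum_sum_type, Function.comp]

omit [DecidableEq U] [DecidableEq Y] [DecidableEq B] in
lemma norm_three (x : (U ⊕ Y) ⊕ B → ZMod 2) :
    hammingNorm x = hammingNorm ((x ∘ Sum.inl) ∘ Sum.inl) + hammingNorm ((x ∘ Sum.inl) ∘ Sum.inr) +
      hammingNorm (x ∘ Sum.inr) := by
  rw [norm_sum_type x, norm_sum_type (x ∘ Sum.inl)]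

/-- block parities -/
def blk (β : B → κ) : (B → ZMod 2) →+ (κ → ZMod 2) := lin (fun b => Pi.single (β b) 1)

lemma norm_blk_le (β : B → κ) (e : B → ZMod 2) : hammingNorm (blk β e) ≤ hammingNorm e := by
  simpa [blk] using norm_lin_le (fun b => (Pi.single (β b) 1 : κ → ZMod 2)) (l := 1)
    (fun _ => (norm_single _).le) e

lemma blk_eq_zero (β : B → κ) {e : B → ZMod 2} (h : blk β e = 0) (he : hammingNorm e ≤ 1) :
    e = 0 := by
  rcases (hammingNorm_le_one_iff _).1 he with h0 | ⟨i, rfl⟩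
  · exact h0
  · rw [blk, lin_single] at h
    simpa using congrFun h (β i)

/-- the slice of the site configuration over a block vector -/
def siteSlice (b0 : B) (PP NN : (B → ZMod 2) → Finset (U → ZMod 2)) (b : B → ZMod 2) :
    Finset (U → ZMod 2) := if b b0 = 0 then PP b else shift (NN (b + 1)) 1

/-- the site configuration -/
def site (Y : Type) [Fintype Y] [DecidableEq Y] (β : B → κ) (b0 : B)
    (PP NN : (B → ZMod 2) → Finset (U → ZMod 2)) : Finset ((U ⊕ Y) ⊕ B → ZMod 2) :=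
  slices (fun b => if blk β b = 0 then
    slices (fun y : Y → ZMod 2 => if y = 0 then siteSlice b0 PP NN b else ∅) else ∅)

variable {β : B → κ} {b0 : B} {PP NN : (B → ZMod 2) → Finset (U → ZMod 2)}

lemma mem_site {x : (U ⊕ Y) ⊕ B → ZMod 2} : x ∈ site Y β b0 PP NN ↔
    blk β (x ∘ Sum.inr) = 0 ∧ (x ∘ Sum.inl) ∘ Sum.inr = 0 ∧
      (x ∘ Sum.inl) ∘ Sum.inl ∈ siteSlice b0 PP NN (x ∘ Sum.inr) := by
  rw [site, mem_slices]
  by_cases h : blk β (x ∘ Sum.inr) = 0
  · rw [if_pos h, mem_slices]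
    by_cases h' : (x ∘ Sum.inl) ∘ Sum.inr = 0 <;> simp [h, h']
  · simp [h]

lemma sum_ker (h1 : blk β 1 = 0) (b0 : B) (g : (B → ZMod 2) → ℕ) :
    ∑ b, (if blk β b = 0 then g b else 0) =
      ∑ b ∈ Finset.univ.filter (fun b => blk β b = 0 ∧ b b0 = 0), (g b + g (b + 1)) := by
  rw [← Finset.sum_filter, ← Finset.sum_filter_add_sum_filter_not _ (fun b => b b0 = 0),
    Finset.filter_filter, Finset.filter_filter, Finset.sum_add_distrib]
  congr 1
  refine Finset.sum_bij' (fun b _ => b + 1) (fun b _ => b + 1) ?_ ?_ ?_ ?_ ?_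
  · intro b hb
    simp only [Finset.mem_filter, Finset.mem_univ, true_and, map_add, h1, add_zero,
      Pi.add_apply, Pi.one_apply] at hb ⊢
    exact ⟨hb.1, by rw [(z2_cases _).resolve_left hb.2]; decide⟩
  · intro b hb
    simp only [Finset.mem_filter, Finset.mem_univ, true_and, map_add, h1, add_zero,
      Pi.add_apply, Pi.one_apply] at hb ⊢
    exact ⟨hb.1, by rw [hb.2]; decide⟩
  · intro b _; simp only [add_assoc, add_self_cube, add_zero]
  · intro b _; simp only [add_assoc, add_self_cube, add_zero]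
  · intro b _; simp only [add_assoc, add_self_cube, add_zero]

lemma card_site (h1 : blk β 1 = 0) : (site Y β b0 PP NN).card =
    ∑ b ∈ Finset.univ.filter (fun b => blk β b = 0 ∧ b b0 = 0), ((PP b).card + (NN b).card) := by
  rw [site, card_slices]
  have h2 : ∀ b, (if blk β b = 0 then
      slices (fun y : Y → ZMod 2 => if y = 0 then siteSlice b0 PP NN b else ∅) else ∅).card =
      if blk β b = 0 then (siteSlice b0 PP NN b).card else 0 := by
    intro b
    split_ifs
    · rw [card_slices, Finset.sum_eq_single 0 (fun y _ hy => by simp [hy]) (by simp)]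
      simp
    · rfl
  simp only [h2]
  rw [sum_ker h1 b0]
  refine Finset.sum_congr rfl fun b hb => ?_
  have h3 : b b0 = 0 := (Finset.mem_filter.1 hb).2.2
  simp [siteSlice, h3, card_shift, add_assoc, add_self_cube]

lemma slice_cross (hS : ∀ b, Sgn (PP b) (NN b)) {b : B → ZMod 2} {u u' : U → ZMod 2}
    (hu : u ∈ siteSlice b0 PP NN b) (hu' : u' ∈ siteSlice b0 PP NN (b + 1)) :
    ¬ hammingNorm (u + u' + 1) ≤ 1 := by
  intro h
  unfold siteSlice at hu hu'
  rcases z2_cases (b b0) with h0 | h0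
  · rw [if_pos h0] at hu
    rw [if_neg (by simp [h0]), mem_shift, add_assoc b, add_self_cube, add_zero] at hu'
    rw [add_assoc] at h
    exact (hS b).disj _ hu (by rwa [(hS b).eq_of_norm (Or.inl hu) (Or.inr hu') h])
  · rw [if_neg (by simp [h0]), mem_shift] at hu
    rw [if_pos (by simp [h0, CharTwo.add_self_eq_zero])] at hu'
    rw [add_right_comm] at h
    exact (hS _).disj _ hu' (by rwa [← (hS _).eq_of_norm (Or.inr hu) (Or.inl hu') h])

lemma slice_sep (hS : ∀ b, Sgn (PP b) (NN b)) {b : B → ZMod 2} {u u' : U → ZMod 2}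
    (hu : u ∈ siteSlice b0 PP NN b) (hu' : u' ∈ siteSlice b0 PP NN b)
    (h : hammingNorm (u + u') ≤ 1) : u = u' := by
  unfold siteSlice at hu hu'
  split_ifs at hu hu'
  · exact (hS b).eq_of_norm (Or.inl hu) (Or.inl hu') h
  · rw [mem_shift] at hu hu'
    refine add_right_cancel ((hS _).eq_of_norm (Or.inr hu) (Or.inr hu') ?_)
    rwa [add_add_add_comm, add_self_cube, add_zero]

lemma slice_dom (hS : ∀ b, Sgn (PP b) (NN b)) (i : U) (b : B → ZMod 2) (u : U → ZMod 2) :
    (u ∉ siteSlice b0 PP NN b → ∃ u' ∈ siteSlice b0 PP NN (b + 1), hammingNorm (u + u' + 1) ≤ 1) ∧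
      ∃ u' ∈ siteSlice b0 PP NN (b + 1), hammingNorm (u + u' + 1) ≤ 2 := by
  unfold siteSlice
  rcases z2_cases (b b0) with h0 | h0
  · rw [if_pos h0, if_neg (by simp [h0]), add_assoc b, add_self_cube, add_zero]
    have key : ∀ l, (∃ v ∈ NN b, hammingNorm (u + v) ≤ l) →
        ∃ u' ∈ shift (NN b) 1, hammingNorm (u + u' + 1) ≤ l := by
      rintro l ⟨v, hv, hv'⟩
      refine ⟨v + 1, ?_, ?_⟩
      · rwa [mem_shift, add_assoc, add_self_cube, add_zero]
      · rwa [add_assoc, add_assoc, add_self_cube, add_zero]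
    exact ⟨fun hu => key _ ((hS b).near_one hu), key _ ((hS b).near_two i u)⟩
  · rw [if_neg (by simp [h0]), if_pos (by simp [h0, CharTwo.add_self_eq_zero]), mem_shift]
    simp only [add_right_comm u _ 1]
    exact ⟨fun hu => (hS _).symm.near_one hu, (hS _).symm.near_two i _⟩

lemma site_xx (h1 : blk β 1 = 0) (hS : ∀ b, Sgn (PP b) (NN b)) {x x' : (U ⊕ Y) ⊕ B → ZMod 2}
    (hx : x ∈ site Y β b0 PP NN) (hx' : x' ∈ site Y β b0 PP NN) :
    ¬ hammingNorm (x + x' + 1) ≤ Fintype.card Y + 1 := by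
  intro h
  rw [mem_site] at hx hx'
  rw [norm_three] at h
  simp only [Pi.add_comp, Pi.one_comp, hx.2.1, hx'.2.1, zero_add, norm_one] at h
  have h2 : x ∘ Sum.inr + x' ∘ Sum.inr + 1 = 0 :=
    blk_eq_zero β (by simp [hx.1, hx'.1, h1]) (by omega)
  have h3 : x' ∘ Sum.inr = x ∘ Sum.inr + 1 := by
    rw [add_right_comm, z2_eq_add_iff, zero_add] at h2
    exact h2.symm
  rw [h3] at hx'
  exact slice_cross hS hx.2.2 hx'.2.2 (by omega)

/-- the indicator vector of the middle coordinates -/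
def oneY (U Y B : Type) : (U ⊕ Y) ⊕ B → ZMod 2 := Sum.elim (Sum.elim 0 1) 0

omit [DecidableEq U] [DecidableEq Y] [DecidableEq B] in
lemma norm_oneY : hammingNorm (oneY U Y B) = Fintype.card Y := by
  rw [norm_three]
  simp [oneY, norm_one]

lemma site_xy (hS : ∀ b, Sgn (PP b) (NN b)) {x x' : (U ⊕ Y) ⊕ B → ZMod 2}
    (hx : x ∈ site Y β b0 PP NN) (hx' : x' ∈ site Y β b0 PP NN)
    (h : hammingNorm (x + x' + oneY U Y B) ≤ Fintype.card Y + 1) : x = x' := by
  rw [mem_site] at hx hx'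
  rw [norm_three] at h
  simp only [oneY, Pi.add_comp, Sum.elim_comp_inl, Sum.elim_comp_inr, hx.2.1, hx'.2.1, zero_add,
    add_zero, norm_one] at h
  have h2 : x ∘ Sum.inr + x' ∘ Sum.inr = 0 :=
    blk_eq_zero β (by simp [hx.1, hx'.1]) (by omega)
  rw [z2_eq_add_iff, zero_add] at h2
  have h3 := slice_sep hS (h2 ▸ hx.2.2) hx'.2.2 (by omega)
  have h4 := hx.2.1.trans hx'.2.1.symm
  ext ((i | i) | i)
  · exact congrFun h3 i
  · exact congrFun h4 i
  · exact congrFun h2 i

lemma site_dom (h1 : blk β 1 = 0) (hS : ∀ b, Sgn (PP b) (NN b)) (i : U)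
    {w : (U ⊕ Y) ⊕ B → ZMod 2} (hw : w ∉ site Y β b0 PP NN) (hw0 : blk β (w ∘ Sum.inr) = 0) :
    ∃ x ∈ site Y β b0 PP NN, hammingNorm (w + x + 1) ≤ Fintype.card Y + 1 := by
  have key : ∀ u' ∈ siteSlice b0 PP NN (w ∘ Sum.inr + 1),
      hammingNorm ((w ∘ Sum.inl) ∘ Sum.inl + u' + 1) +
        hammingNorm ((w ∘ Sum.inl) ∘ Sum.inr + 1) ≤ Fintype.card Y + 1 →
      ∃ x ∈ site Y β b0 PP NN, hammingNorm (w + x + 1) ≤ Fintype.card Y + 1 := by
    intro u' hu' h
    refine ⟨Sum.elim (Sum.elim u' 0) (w ∘ Sum.inr + 1), ?_, ?_⟩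
    · rw [mem_site]
      simpa [hw0, h1] using hu'
    · rw [norm_three]
      simp only [Pi.add_comp, Pi.one_comp, Sum.elim_comp_inl, Sum.elim_comp_inr, add_zero]
      rw [← add_assoc (w ∘ Sum.inr), add_self_cube, zero_add, add_self_cube, hammingNorm_zero]
      omega
  obtain ⟨h2, u2, hu2, hu2'⟩ := slice_dom (b0 := b0) hS i (w ∘ Sum.inr) ((w ∘ Sum.inl) ∘ Sum.inl)
  by_cases hy : (w ∘ Sum.inl) ∘ Sum.inr = 0
  · obtain ⟨u', hu', hu''⟩ := h2 fun h => hw (mem_site.2 ⟨hw0, hy, h⟩)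
    refine key u' hu' ?_
    rw [hy, zero_add, norm_one]
    omega
  · refine key u2 hu2 ?_
    have h3 := hammingNorm_add_one (0 : Y → ZMod 2) ((w ∘ Sum.inl) ∘ Sum.inr)
    rw [neg_zero, zero_add, hammingDist_zero_left] at h3
    have h4 : hammingNorm ((w ∘ Sum.inl) ∘ Sum.inr) ≠ 0 := by
      rwa [ne_eq, hammingNorm_eq_zero]
    omega

end Pool.Agent.P.MP_7cff07_gt.So
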