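import Pool.Agent.P.MP_7cff07_gt.SoConfig

namespace Pool.Agent.P.MP_7cff07_gt.So

open Finset

/-- the concrete labelled block structure -/
def mkSys (R l h e : ℕ) (k0 : Fin h) :
    Sys (Fin 8 ⊕ ((Bool × Ix (Fin (R + 1)) (Fin (l + 1))) ⊕ (Fin (R + 1) ⊕ Option (Fin e))))
      (Fin R) (Fin h × Bool × Ix (Fin (R + 1)) (Fin (l + 1))) (Fin h) (Fin (R + 1))
      (Fin (l + 1)) where
  β := Prod.fst
  m0 := 0
  j0 := 0
  b0 := (k0, false, (0, 0, 0))
  lam := Sum.elim (Sum.elim (Sum.elim 0 (Sum.elim (fun p => nl 0 p.2)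
    (Sum.elim (sp 0) (fun o => o.elim (es 0) 0)))) 0) (fun b => nl 0 b.2.2)
  s m := Sum.inl (Sum.inr (Sum.inr (Sum.inl m)))
  t i := Sum.inl (Sum.inr (Sum.inl (false, i)))
  tb k i := (k, false, i)
  hY := by simp
  hL := by
    refine ⟨fun m m' h => by simpa using h, fun m => rfl, ?_⟩
    rintro (((j | j | j | _ | j) | j) | j) hj
    · exact ord_zero _
    · exact ord_nl _ _
    · exact absurd rfl (hj j)
    · exact ord_es _
    · exact ord_zero _
    · exact ord_zero _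
    · exact ord_nl _ _
  ht i := rfl
  hβ k i := rfl
  htb k i := rfl
  hone := by
    simp only [lin, AddMonoidHom.coe_mk, ZeroHom.coe_mk, Pi.one_apply, one_smul,
      Fintype.sum_sum_type, Fintype.sum_prod_type, Fintype.sum_bool, Fintype.sum_option,
      Sum.elim_inl, Sum.elim_inr, add_self_cube, sum_sp, Option.elim_none, Option.elim_some,
      Pi.zero_apply, Finset.sum_const_zero, add_zero, zero_add, add_assoc]
    rw [← add_assoc, add_self_cube, zero_add]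
  hblk := by
    simp only [blk, lin, AddMonoidHom.coe_mk, ZeroHom.coe_mk, Pi.one_apply, one_smul,
      Fintype.sum_prod_type, Fintype.sum_bool, add_self_cube, Finset.sum_const_zero]

lemma window_arith {a b c g F I S E D M k : ℕ} (hF : F * (a * b) = M) (hI : I * (a * g * 512) = M)
    (hS : S * c = 2 * a) (hD : D * (g * 1024) ≤ b) (hbc : b * c ≤ a) (hE : 5 * E * c ≤ a)
    (hDE : D ≤ E) (hD1 : 1 ≤ D) (hM : 0 < M) (hg : 1 ≤ g) (hc : 1 ≤ c)
    (hk1 : 4 * M ≤ k * (b * c)) (hk2 : k * (b * 2) ≤ M) :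
    ∃ q, S + 4 * E ≤ q ∧ q + 2 * E ≤ a ∧
      ∀ z, q ≤ z → z ≤ q + D → ∃ j ≤ I, z * F + 68 * I + j = k := by
  have hF0 : 0 < F := Nat.pos_of_ne_zero (by rintro rfl; simp at hF; omega)
  have ha0 : 0 < a := Nat.pos_of_ne_zero (by rintro rfl; simp at hF; omega)
  have hb0 : 0 < b := Nat.pos_of_ne_zero (by rintro rfl; simp at hF; omega)
  have h1 : (S + 5 * E) * F + 68 * I ≤ k := by
    refine Nat.le_of_mul_le_mul_right ?_ (show 0 < b * c by positivity)
    have e1 : S * F * (b * c) = 2 * M := by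
      calc S * F * (b * c) = (S * c) * F * b := by ring
        _ = 2 * (F * (a * b)) := by rw [hS]; ring
        _ = _ := by rw [hF]
    have e2 : 5 * E * F * (b * c) ≤ M := by
      calc 5 * E * F * (b * c) = (5 * E * c) * (F * b) := by ring
        _ ≤ a * (F * b) := Nat.mul_le_mul_right _ hE
        _ = _ := by rw [← hF]; ring
    have e3 : 68 * I * (b * c) ≤ M := by
      calc 68 * I * (b * c) ≤ 68 * I * a := Nat.mul_le_mul_left _ hbc
        _ = I * (a * 1 * 68) := by ring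
        _ ≤ I * (a * g * 512) := by gcongr; norm_num
        _ = _ := hI
    calc ((S + 5 * E) * F + 68 * I) * (b * c) =
        S * F * (b * c) + 5 * E * F * (b * c) + 68 * I * (b * c) := by ring
      _ ≤ _ := by omega
  have h2 : 2 * D * F ≤ I := by
    refine Nat.le_of_mul_le_mul_right ?_ (show 0 < a * g * 512 by positivity)
    calc 2 * D * F * (a * g * 512) = (D * (g * 1024)) * (F * a) := by ring
      _ ≤ b * (F * a) := Nat.mul_le_mul_right _ hD
      _ = _ := by rw [hI, ← hF]; ring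
  obtain ⟨k', rfl⟩ : ∃ k', k = k' + 68 * I := ⟨k - 68 * I, by omega⟩
  have h3 : S + 5 * E ≤ k' / F := (Nat.le_div_iff_mul_le hF0).2 (by omega)
  have h4 := Nat.div_add_mod k' F
  have h5 := Nat.mod_lt k' hF0
  generalize k' / F = Q at h3 h4
  have h6 : 2 * Q ≤ a := by
    refine Nat.le_of_mul_le_mul_right ?_ (show 0 < F * b by positivity)
    calc 2 * Q * (F * b) = (F * Q) * (b * 2) := by ring
      _ ≤ (k' + 68 * I) * (b * 2) := Nat.mul_le_mul_right _ (by omega)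
      _ ≤ M := hk2
      _ = _ := by rw [← hF]; ring
  have h7 : 5 * E ≤ a := le_trans (Nat.le_mul_of_pos_right _ hc) hE
  refine ⟨Q - D, by omega, by omega, fun z hz1 hz2 => ?_⟩
  obtain ⟨u, hu⟩ : ∃ u, Q = z + u := ⟨Q - z, by omega⟩
  have h8 : u * F ≤ D * F := Nat.mul_le_mul_right _ (by omega)
  have h9 : F ≤ D * F := Nat.le_mul_of_pos_left _ hD1
  refine ⟨u * F + k' % F, by rw [mul_assoc] at h2; omega, ?_⟩
  rw [hu] at h4
  have : F * (z + u) = z * F + u * F := by ring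
  omega

theorem window (R : ℕ) : ∃ h0 : ℕ, ∀ l l' h r n q : ℕ, h0 ≤ h →
    (R + 1) * (2 * 2 ^ (R + 1 + l')) + (R + 1) ≤ h →
    (h + 1) ^ (R + 1) * (2 ^ (R + 1) * 1024) ≤ 2 ^ ((R + 1) * (R + 1 + (l + 1)) + 1) →
    ((R + 1) * (R + 1 + (l + 1)) + 1) + ((R + 1) * (R + 1 + l') + 1) ≤ h →
    5 * (h + 1) ^ (3 * (R + 1)) * 2 ^ ((R + 1) * (R + 1 + l') + 1) ≤ 2 ^ h →
    (2 * h + 2) * ((R + 1) * (2 * 2 ^ (R + 1 + (l + 1)))) + R + 264 ≤ r →
    r + (R + 1) + 1 ≤ n →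
    4 * 2 ^ (r + (R + 1) + 1) ≤ (q + 1) * (2 ^ ((R + 1) * (R + 1 + (l + 1)) + 1) *
      2 ^ ((R + 1) * (R + 1 + l') + 1)) →
    (q + 1) * (2 ^ ((R + 1) * (R + 1 + (l + 1)) + 1) * 2) ≤ 2 ^ (r + (R + 1) + 1) →
    Nontrivial (reducedHomology (VR (Set.univ : Set (Lex (Fin n → Bool))) r) q) := by
  obtain ⟨h0, H⟩ := exists_pair (R + 1)
  refine ⟨h0, fun l l' h r n q a1 a2 a3 a4 a5 a6 a7 a8 a9 => ?_⟩
  obtain ⟨e, he⟩ : ∃ e, r = (2 * h + 2) * ((R + 1) * (2 * 2 ^ (R + 1 + (l + 1)))) + R + 8 + e :=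
    ⟨r - ((2 * h + 2) * ((R + 1) * (2 * 2 ^ (R + 1 + (l + 1)))) + R + 8), by omega⟩
  have : DecidableEq (Ix (Fin (R + 1)) (Fin (l + 1))) := inferInstance
  obtain ⟨F, I, hF, hI, hall⟩ := (mkSys R l h e ⟨0, by omega⟩).sizes (by
    simp only [Fintype.card_sum, Fintype.card_option, Fintype.card_fin]
    omega)
  have hcard : Fintype.card (((Fin 8 ⊕ ((Bool × Ix (Fin (R + 1)) (Fin (l + 1))) ⊕
      (Fin (R + 1) ⊕ Option (Fin e)))) ⊕ Fin R) ⊕
      (Fin h × Bool × Ix (Fin (R + 1)) (Fin (l + 1)))) = r + (R + 1) + 1 := by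
    simp only [Fintype.card_sum, Fintype.card_option, Fintype.card_prod (α := Fin h),
      Fintype.card_prod (α := Bool), card_Ix, Fintype.card_fin, Fintype.card_bool]
    rw [he]; ring
  obtain ⟨Ps, Ns, b1, b2, b3, b4⟩ := exists_small (κ := Fin h) (ρ := Fin (R + 1)) (μ := Fin l') 0
    (by simpa only [Fintype.card_sum, card_Ix, Fintype.card_fin] using a2)
  rw [hcard] at hF hI
  simp only [card_Pos, Fintype.card_fin] at hF hI hall b1 b2 b3 b4
  rw [pow_add] at hF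
  rw [pow_add, pow_add] at hI
  obtain ⟨z, c1, c2, c3⟩ := window_arith (E := (h + 1) ^ (3 * (R + 1))) hF hI b4 a3
    (by rw [← pow_add]; exact Nat.pow_le_pow_right (by norm_num) a4) a5
    (Nat.pow_le_pow_right (by omega) (by omega)) (Nat.one_le_pow _ _ (by omega))
    (by positivity) Nat.one_le_two_pow Nat.one_le_two_pow a8 a9
  have c4 : (h + 1) ^ (2 * (R + 1)) ≤ (h + 1) ^ (3 * (R + 1)) :=
    Nat.pow_le_pow_right (by omega) (by omega)
  obtain ⟨P, N, hPN, d1, d2⟩ := H (Fin h) (by simpa using a1) Ps Ns b1 b2 b3 z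
    (by simpa using c1) (by rw [Fintype.card_fin]; omega)
  obtain ⟨j, hj, hj'⟩ := c3 _ d1 (by simpa using d2)
  obtain ⟨σ, y, hσ, hc⟩ := hall P N hPN j hj
  exact hσ.nontrivial hcard a7 (hc.trans hj')

end Pool.Agent.P.MP_7cff07_gt.So
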