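import Pool.Agent.P.MP_7cff07_gt.UnPair
import Pool.Agent.P.MP_7cff07_gt.SoSite

namespace Pool.Agent.P.MP_7cff07_gt.Un

open Finset So

variable {U Y B γ μ : Type} [Fintype U] [DecidableEq U] [Fintype Y] [DecidableEq Y]
  [Fintype B] [DecidableEq B] [Fintype γ] [DecidableEq γ] [Fintype μ] [DecidableEq μ] {R : ℕ}

/-- the labelled block structure of the cube, blocks sorted into rows -/
structure Sy (U Y B γ μ : Type) (R : ℕ) [Fintype U] [Fintype Y] [Fintype B] [DecidableEq γ]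
    [Fintype μ] [DecidableEq μ] where
  β : B → Fin (R + 1) × γ
  b0 : B
  lam : (U ⊕ Y) ⊕ B → Ps R μ → ZMod 2
  row : (U ⊕ Y) ⊕ B → Fin (R + 1)
  s : Fin (R + 1) → U ⊕ Y
  t : Fin (R + 1) → Ct μ → U ⊕ Y
  tb : Fin (R + 1) × γ → Ct μ → B
  hY : Fintype.card Y = R
  hL : Lb lam row (fun m => Sum.inl (s m))
  ht : ∀ m i, lam (Sum.inl (t m i)) = ol m i
  hβ : ∀ k i, β (tb k i) = k
  htb : ∀ k i, lam (Sum.inr (tb k i)) = ol k.1 i
  hrow : ∀ b, row (Sum.inr b) = (β b).1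
  hone : lin lam 1 = 1
  hblk : blk β 1 = 0

namespace Sy

variable (C : Sy U Y B γ μ R)

/-- the coarse projection -/
def Φ : ((U ⊕ Y) ⊕ B → ZMod 2) →+ (Fin (R + 1) × γ → ZMod 2) where
  toFun x := blk C.β (x ∘ Sum.inr)
  map_zero' := by simp
  map_add' x y := by rw [Pi.add_comp, map_add]

lemma Φ_apply (x : (U ⊕ Y) ⊕ B → ZMod 2) : C.Φ x = blk C.β (x ∘ Sum.inr) := rfl

lemma Φ_one : C.Φ 1 = 0 := C.hblk

lemma Φ_inl (i : U ⊕ Y) : C.Φ (Pi.single (Sum.inl i) 1) = 0 := by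
  rw [Φ_apply, single_inl_inr, map_zero]

lemma Φ_inr (b : B) : C.Φ (Pi.single (Sum.inr b) 1) = Pi.single (C.β b) 1 := by
  rw [Φ_apply, single_inr_inr, blk, lin_single]

lemma norm_Φ_le (e : (U ⊕ Y) ⊕ B → ZMod 2) : hammingNorm (C.Φ e) ≤ hammingNorm e := by
  have h1 := norm_blk_le C.β (e ∘ Sum.inr)
  have h2 := norm_sum_type e
  rw [Φ_apply]
  omega

lemma rb_Φ {e : (U ⊕ Y) ⊕ B → ZMod 2} (he : hammingNorm e ≤ R + 1)
    (h1 : ∀ m, lin C.lam e (some (m, Sum.inl 2)) = 1) : Rb (C.Φ e) := by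
  have key : ∀ k, C.Φ e k ≠ 0 → ∃ b, e (Sum.inr b) ≠ 0 ∧ C.β b = k := by
    intro k hk
    by_contra hne
    push Not at hne
    apply hk
    rw [Φ_apply, blk, lin_eq_sum, Finset.sum_apply]
    exact Finset.sum_eq_zero fun b hb =>
      Pi.single_eq_of_ne (hne b (Finset.mem_filter.1 hb).2).symm _
  intro m
  refine Finset.card_le_one.2 fun g hg g' hg' => ?_
  obtain ⟨b, hb, hb'⟩ := key (m, g) (Finset.mem_filter.1 hg).2
  obtain ⟨c, hc, hc'⟩ := key (m, g') (Finset.mem_filter.1 hg').2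
  have h2 := C.hL.row_inj he h1 hb hc (by rw [C.hrow, C.hrow, hb', hc'])
  rw [Sum.inr.inj h2, hc'] at hb'
  exact (congrArg Prod.snd hb').symm

lemma cover0 {g : Ps R μ → ZMod 2} (hg : g ≠ 1) :
    ∃ e, hammingNorm e ≤ R + 1 ∧ C.Φ e = 0 ∧ lin C.lam e = g := by
  obtain ⟨u, hu, hu'⟩ := C.hL.cover (fun m i => Sum.inl (C.t m i)) C.ht hg
  refine ⟨_, by simpa using norm_sum_single u, ?_, hu'⟩
  rw [map_sum]
  refine Finset.sum_eq_zero fun m _ => ?_
  rcases hu m with h | ⟨i, h⟩ <;> rw [h, Φ_inl]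

lemma cover1 {g : Ps R μ → ZMod 2} (hg : g none = 0) {c : Fin (R + 1) × γ → ZMod 2} (hc : Rb c) :
    ∃ e, hammingNorm e ≤ R + 1 ∧ C.Φ e = c ∧ lin C.lam e = g := by
  obtain ⟨τ, rfl⟩ := hc.exists
  obtain ⟨b, hb⟩ := exists_rows g none (by simp) hg
  have h0 := norm_sum_single (ι := (U ⊕ Y) ⊕ B) (fun m => (τ m).elim (Sum.inl (C.t m (b m)))
    (fun k => Sum.inr (C.tb (m, k) (b m))))
  rw [Fintype.card_fin] at h0
  refine ⟨_, h0, ?_, ?_⟩
  · rw [map_sum, ← sum_single_rb]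
    refine Finset.sum_congr rfl fun m _ => ?_
    rcases τ m with _ | k
    · exact C.Φ_inl _
    · rw [Option.elim_some, Φ_inr, C.hβ, Option.elim_some]
  · rw [map_sum, ← hb]
    refine Finset.sum_congr rfl fun m _ => ?_
    rw [lin_single]
    rcases τ m with _ | k
    · exact C.ht _ _
    · exact C.htb _ _

lemma surj : Function.Surjective (C.Φ.prod (lin C.lam)) := by
  have h1 : ∀ g, (0, g) ∈ (C.Φ.prod (lin C.lam)).range := fun g =>
    mem_of_ne_one' ((C.Φ.prod (lin C.lam)).range.comap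
      (AddMonoidHom.inr (Fin (R + 1) × γ → ZMod 2) (Ps R μ → ZMod 2)))
      (fun g hg => by
        obtain ⟨e, -, h1, h2⟩ := C.cover0 hg
        exact ⟨e, by simp [h1, h2]⟩) g
  have h2 : ∀ c, (c, 0) ∈ (C.Φ.prod (lin C.lam)).range := by
    intro c
    have hc : (c, (0 : Ps R μ → ZMod 2)) = ∑ k, (Pi.single k (c k), 0) := by
      rw [← prod_mk_sum, Finset.univ_sum_single]; simp
    rw [hc]
    refine AddSubgroup.sum_mem _ fun k _ => ?_
    rcases z2_cases (c k) with h | h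
    · rw [h, Pi.single_zero]; exact zero_mem _
    · obtain ⟨e, -, h1, h2⟩ := C.cover1 (g := 0) rfl (c := Pi.single k 1) (fun m => by
        have a1 := norm_rows (Pi.single k 1 : Fin (R + 1) × γ → ZMod 2)
        rw [norm_single] at a1
        exact (Finset.single_le_sum
          (f := fun m => hammingNorm (rowOf (Pi.single k 1 : Fin (R + 1) × γ → ZMod 2) m))
          (fun _ _ => Nat.zero_le _) (Finset.mem_univ m)).trans a1.ge)
      exact ⟨e, by simp [h, h1, h2]⟩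
  rintro ⟨c, g⟩
  simpa using AddSubgroup.add_mem _ (h2 c) (h1 g)

lemma blk_surj : Function.Surjective (blk C.β) := by
  intro c
  obtain ⟨e, he⟩ := C.surj (c, 0)
  exact ⟨e ∘ Sum.inr, congrArg Prod.fst he⟩

/-- the label attached to a coarse point -/
def lbl (P : Finset (Fin (R + 1) × γ → ZMod 2)) (u : Fin (R + 1) × γ → ZMod 2) :
    Ps R μ → ZMod 2 := if u ∈ P then 0 else Pi.single none 1

lemma lbl_some (P : Finset (Fin (R + 1) × γ → ZMod 2)) (u : Fin (R + 1) × γ → ZMod 2)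
    (p : Fin (R + 1) × (Fin 3 ⊕ μ)) : lbl P u (some p) = 0 := by
  unfold lbl
  split_ifs <;> simp

/-- the part of the configuration outside the site -/
def outer (P N : Finset (Fin (R + 1) × γ → ZMod 2)) : Finset ((U ⊕ Y) ⊕ B → ZMod 2) :=
  Finset.univ.filter (fun x => C.Φ x ∈ P ∪ N ∧ lin C.lam x = lbl P (C.Φ x))

lemma mem_outer {P N : Finset (Fin (R + 1) × γ → ZMod 2)} {x : (U ⊕ Y) ⊕ B → ZMod 2} :
    x ∈ C.outer P N ↔ C.Φ x ∈ P ∪ N ∧ lin C.lam x = lbl P (C.Φ x) := by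
  simp only [outer, Finset.mem_filter, Finset.mem_univ, true_and]

omit [DecidableEq γ] in
lemma rb_self (u : Fin (R + 1) × γ → ZMod 2) : Rb (u + u) := by
  intro m
  rw [add_self_cube, show rowOf (0 : Fin (R + 1) × γ → ZMod 2) m = 0 from rfl]
  simp

lemma card_outer {P N : Finset (Fin (R + 1) × γ → ZMod 2)} (h : Pr P N) :
    (C.outer P N).card = (P.card + N.card) *
      (Finset.univ.filter (fun x => (C.Φ.prod (lin C.lam)) x = 0)).card := by
  have hd : Disjoint P N := Finset.disjoint_left.2 fun u h1 h2 => h.far u h1 u h2 (rb_self u)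
  rw [← Finset.card_union_of_disjoint hd,
    ← Finset.card_image_of_injective (P ∪ N)
      (f := fun u => (u, (lbl P u : Ps R μ → ZMod 2))) (fun _ _ h => congrArg Prod.fst h),
    ← card_filter_mem_of_surjective _ C.surj]
  congr 1
  ext x
  simp only [mem_outer, Finset.mem_filter, Finset.mem_univ, true_and, Finset.mem_image,
    AddMonoidHom.prod_apply, Prod.mk.injEq]
  constructor
  · rintro ⟨h1, h2⟩; exact ⟨_, h1, rfl, h2.symm⟩
  · rintro ⟨u, h1, rfl, h2⟩; exact ⟨h1, h2.symm⟩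

/-- the shift defining the partners -/
def dlt (x : (U ⊕ Y) ⊕ B → ZMod 2) : (U ⊕ Y) ⊕ B → ZMod 2 :=
  if C.Φ x = 0 then oneY U Y B else ∑ m, Pi.single (Sum.inl (C.s m)) 1

lemma Φ_dlt (x : (U ⊕ Y) ⊕ B → ZMod 2) : C.Φ (C.dlt x) = 0 := by
  unfold dlt
  split_ifs
  · simp [Φ_apply, oneY]
  · rw [map_sum]; exact Finset.sum_eq_zero fun m _ => C.Φ_inl _

lemma norm_dlt (x : (U ⊕ Y) ⊕ B → ZMod 2) : hammingNorm (C.dlt x) ≤ R + 1 := by
  unfold dlt
  split_ifs
  · rw [norm_oneY, C.hY]; omega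
  · simpa using norm_sum_single (ι := (U ⊕ Y) ⊕ B) fun m => Sum.inl (C.s m)

theorem facet {P N : Finset (Fin (R + 1) × γ → ZMod 2)} (h : Pr P N)
    {PP NN : (B → ZMod 2) → Finset (U → ZMod 2)} (hS : ∀ b, Sgn (PP b) (NN b)) (i : U) :
    Facet (R + 1) (site Y C.β C.b0 PP NN ∪ C.outer P N) (fun x => x + 1 + C.dlt x) := by
  have hT : ∀ x ∈ site Y C.β C.b0 PP NN, C.Φ x = 0 := fun x hx => (mem_site.1 hx).1
  have hO : ∀ x ∈ C.outer P N, R + 1 < hammingNorm (C.Φ x) := fun x hx => by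
    simpa using (Finset.mem_union.1 (C.mem_outer.1 hx).1).elim (h.outP _) (h.outN _)
  have hO0 : ∀ x ∈ C.outer P N, C.Φ x ≠ 0 := fun x hx h0 => by simpa [h0] using hO x hx
  have hcls : ∀ x ∈ site Y C.β C.b0 PP NN ∪ C.outer P N,
      ∀ x' ∈ site Y C.β C.b0 PP NN ∪ C.outer P N, ∀ e, hammingNorm e ≤ R + 1 →
        C.Φ e = C.Φ x + C.Φ x' →
        (x ∈ site Y C.β C.b0 PP NN ∧ x' ∈ site Y C.β C.b0 PP NN) ∨
          (x ∈ C.outer P N ∧ x' ∈ C.outer P N) := by
    intro x hx x' hx' e he hΦ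
    have h1 : hammingNorm (C.Φ x + C.Φ x') ≤ R + 1 := hΦ ▸ (C.norm_Φ_le e).trans he
    rcases Finset.mem_union.1 hx with hx | hx <;> rcases Finset.mem_union.1 hx' with hx' | hx'
    · exact Or.inl ⟨hx, hx'⟩
    · rw [hT x hx, zero_add] at h1
      exact absurd (hO x' hx') (not_lt.2 h1)
    · rw [hT x' hx', add_zero] at h1
      exact absurd (hO x hx) (not_lt.2 h1)
    · exact Or.inr ⟨hx, hx'⟩
  have hlab : ∀ x ∈ C.outer P N, ∀ x' ∈ C.outer P N, ∀ d, hammingNorm (x + x' + d) ≤ R + 1 →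
      C.Φ d = 0 → (∀ m, lin C.lam d (some (m, Sum.inl 2)) = 1) →
        lin C.lam (x + x' + d) = lin C.lam d := by
    intro x hx x' hx' d he hd hd'
    obtain ⟨a1, a2⟩ := C.mem_outer.1 hx
    obtain ⟨b1, b2⟩ := C.mem_outer.1 hx'
    have h1 := C.rb_Φ he (fun m => by
      rw [map_add, map_add, a2, b2, Pi.add_apply, Pi.add_apply, lbl_some, lbl_some, hd']
      decide)
    rw [map_add, map_add, hd, add_zero] at h1
    have h2 : lin C.lam x = lin C.lam x' := by
      rw [a2, b2, lbl, lbl]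
      rw [Finset.mem_union] at a1 b1
      by_cases c1 : C.Φ x ∈ P <;> by_cases c2 : C.Φ x' ∈ P
      · rw [if_pos c1, if_pos c2]
      · exact absurd h1 (h.far _ c1 _ (b1.resolve_left c2))
      · rw [add_comm (C.Φ x)] at h1
        exact absurd h1 (h.far _ c2 _ (a1.resolve_left c1))
      · rw [if_neg c1, if_neg c2]
    rw [map_add, map_add, h2, add_self_cube, zero_add]
  have hxx : ∀ x ∈ site Y C.β C.b0 PP NN ∪ C.outer P N,
      ∀ x' ∈ site Y C.β C.b0 PP NN ∪ C.outer P N, ¬ hammingNorm (x + x' + 1) ≤ R + 1 := by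
    intro x hx x' hx' he
    rcases hcls x hx x' hx' _ he (by simp [Φ_one]) with ⟨h1, h2⟩ | ⟨h1, h2⟩
    · exact site_xx C.hblk hS h1 h2 (by rwa [C.hY])
    · exact C.hL.ne_one he ((hlab x h1 x' h2 1 he C.Φ_one (by simp [C.hone])).trans C.hone)
  refine ⟨hxx, ?_, ?_, ?_, ?_⟩
  · intro x hx x' hx' he
    have e1 : x + (x' + 1 + C.dlt x') + 1 = x + x' + C.dlt x' := by
      rw [show x + (x' + 1 + C.dlt x') + 1 = x + x' + C.dlt x' + (1 + 1) by abel, add_self_cube,
        add_zero]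
    rw [e1] at he
    rcases hcls x hx x' hx' _ he (by simp [Φ_dlt]) with ⟨h1, h2⟩ | ⟨h1, h2⟩
    · rw [dlt, if_pos (hT x' h2)] at he
      exact site_xy hS h1 h2 (by rwa [C.hY])
    · have h4 := C.Φ_dlt x'
      rw [dlt, if_neg (hO0 x' h2)] at he h4
      have h3 := C.hL.unique he ((hlab x h1 x' h2 _ he h4
        (fun m => by rw [C.hL.lin_special]; simp [em])).trans C.hL.lin_special)
      rw [add_eq_right, z2_eq_add_iff, zero_add] at h3
      exact h3
  · intro x hx x' hx' he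
    have e1 : x + 1 + C.dlt x + (x' + 1 + C.dlt x') + 1 = x + x' + 1 + (C.dlt x + C.dlt x') := by
      rw [show x + 1 + C.dlt x + (x' + 1 + C.dlt x') + 1 =
        x + x' + 1 + (C.dlt x + C.dlt x') + (1 + 1) by abel, add_self_cube, add_zero]
    rw [e1] at he
    have e2 : C.dlt x = C.dlt x' := by
      rcases hcls x hx x' hx' _ he (by simp [Φ_dlt, Φ_one]) with ⟨h1, h2⟩ | ⟨h1, h2⟩
      · rw [dlt, dlt, if_pos (hT x h1), if_pos (hT x' h2)]
      · rw [dlt, dlt, if_neg (hO0 x h1), if_neg (hO0 x' h2)]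
    rw [e2, add_self_cube, add_zero] at he
    exact hxx x hx x' hx' he
  · intro x _
    rw [show x + (x + 1 + C.dlt x) + 1 = C.dlt x + (x + x) + (1 + 1) by abel, add_self_cube,
      add_self_cube, add_zero, add_zero]
    exact C.norm_dlt x
  · intro w hw
    rw [Finset.mem_union, not_or] at hw
    have key : ∀ j ∈ P ∪ N, ∀ e, hammingNorm e ≤ R + 1 → C.Φ e = C.Φ w + j →
        lin C.lam e = lin C.lam w + lbl P j + 1 →
        ∃ x ∈ site Y C.β C.b0 PP NN ∪ C.outer P N, hammingNorm (w + x + 1) ≤ R + 1 := by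
      intro j hj e he h1 h2
      have h3 : C.Φ (w + e + 1) = j := by
        rw [map_add, map_add, h1, Φ_one, add_zero, ← add_assoc, add_self_cube, zero_add]
      refine ⟨w + e + 1, Finset.mem_union_right _ (C.mem_outer.2 ⟨h3 ▸ hj, ?_⟩), ?_⟩
      · rw [h3, map_add, map_add, h2, C.hone,
          show lin C.lam w + (lin C.lam w + lbl P j + 1) + 1 =
            lbl P j + (lin C.lam w + lin C.lam w) + (1 + 1) by abel, add_self_cube,
          add_self_cube, add_zero, add_zero]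
      · rwa [show w + (w + e + 1) + 1 = e + (w + w) + (1 + 1) by abel, add_self_cube,
          add_self_cube, add_zero, add_zero]
    by_cases h0 : C.Φ w = 0
    · obtain ⟨x, hx, hx'⟩ := site_dom C.hblk hS i hw.1 h0
      exact ⟨x, Finset.mem_union_left _ hx, by rwa [C.hY] at hx'⟩
    by_cases h1 : C.Φ w ∈ P ∪ N
    · obtain ⟨e, he, he1, he2⟩ := C.cover0 (g := lin C.lam w + lbl P (C.Φ w) + 1) (by
        intro h2
        rw [add_eq_right, z2_eq_add_iff, zero_add] at h2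
        exact hw.2 (C.mem_outer.2 ⟨h1, h2⟩))
      exact key _ h1 e he (by rw [he1, add_self_cube]) he2
    · rw [Finset.mem_union, not_or] at h1
      obtain ⟨h2, h3⟩ := h.dom _ h0 h1.1 h1.2
      obtain ⟨p, hp, hp'⟩ := mem_nr.1 h2
      obtain ⟨n, hn, hn'⟩ := mem_nr.1 h3
      have hnP : n ∉ P := fun h' => h.far n h' n hn (rb_self n)
      rcases z2_cases (lin C.lam w none) with h4 | h4
      · obtain ⟨e, he, he1, he2⟩ := C.cover1 (g := lin C.lam w + lbl P n + 1)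
          (by simp [lbl, hnP, h4, CharTwo.add_self_eq_zero]) hn'
        exact key n (Finset.mem_union_right _ hn) e he he1 he2
      · obtain ⟨e, he, he1, he2⟩ := C.cover1 (g := lin C.lam w + lbl P p + 1)
          (by simp [lbl, hp, h4, CharTwo.add_self_eq_zero]) hp'
        exact key p (Finset.mem_union_left _ hp) e he he1 he2

end Sy

variable {W : Type} [Fintype W] [DecidableEq W]

theorem Sy.sizes (C : Sy (Fin 8 ⊕ W) Y B γ μ R) (hW : 256 ≤ Fintype.card W) :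
    ∃ F I : ℕ, F * (2 ^ Fintype.card (Fin (R + 1) × γ) * 2 ^ Fintype.card (Ps R μ)) =
        2 ^ Fintype.card (((Fin 8 ⊕ W) ⊕ Y) ⊕ B) ∧
      I * (2 ^ Fintype.card (Fin (R + 1) × γ) * 2 ^ (R + 1) * 512) =
        2 ^ Fintype.card (((Fin 8 ⊕ W) ⊕ Y) ⊕ B) ∧
      ∀ P N : Finset (Fin (R + 1) × γ → ZMod 2), Pr P N → ∀ j ≤ I,
        ∃ (σ : Finset (((Fin 8 ⊕ W) ⊕ Y) ⊕ B → ZMod 2)) (y : _), Facet (R + 1) σ y ∧
          σ.card = (P.card + N.card) * F + 68 * I + j := by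
  obtain ⟨K, hK, H⟩ := exists_sgn hW
  set B0 := Finset.univ.filter (fun b => blk C.β b = 0 ∧ b C.b0 = 0) with hB0
  have h1 := card_ker_mul _ C.surj
  have h2 := card_ker_mul _ C.blk_surj
  have h3 := sum_ker C.hblk C.b0 (fun _ => 1)
  rw [← Finset.card_filter, ← hB0] at h3
  rw [Fintype.card_prod] at h1
  simp only [Fintype.card_pi, ZMod.card, Finset.prod_const, Finset.card_univ,
    Finset.sum_const, smul_eq_mul] at h1 h2 h3
  refine ⟨_, B0.card * K, by rw [← h1, mul_comm], ?_, fun P N hPN j hj => ?_⟩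
  · rw [h3] at h2
    simp only [Fintype.card_sum, Fintype.card_fin, C.hY, pow_add, ← hK, ← h2]
    ring
  · obtain ⟨f, hf, hf'⟩ := exists_distrib B0 K j hj
    choose PP NN hS hc using fun b => H (f b) (hf b)
    refine ⟨_, _, C.facet hPN hS (Sum.inl 0), ?_⟩
    rw [Finset.card_union_of_disjoint, C.card_outer hPN, card_site C.hblk, ← hB0]
    · simp only [hc, Finset.sum_add_distrib, hf', Finset.sum_const, smul_eq_mul]
      ring
    · refine Finset.disjoint_left.2 fun x hx hx' => ?_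
      have a1 : C.Φ x = 0 := (mem_site.1 hx).1
      have a2 := (C.mem_outer.1 hx').1
      rw [a1, Finset.mem_union] at a2
      simpa using a2.elim (hPN.outP _) (hPN.outN _)

end Pool.Agent.P.MP_7cff07_gt.Un
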