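import Pool.Agent.P.MP_7cff07_gt.UnNum

namespace Pool.Agent.P.MP_7cff07_gt.Un

open Finset So

lemma card_near_ball {ι : Type} [Fintype ι] [DecidableEq ι] (R : ℕ) (A : Finset (ι → ZMod 2)) :
    (near R A).card ≤ A.card * (ball ι R).card := by
  have hsub : near R A ⊆ (A ×ˢ ball ι R).image (fun p => p.1 + p.2) := by
    intro u hu
    obtain ⟨a, ha, h⟩ := mem_near.1 hu
    refine Finset.mem_image.2 ⟨(a, u + a), by simp [ha, mem_ball, h], ?_⟩
    simp only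
    rw [add_comm u, ← add_assoc, add_self_cube, zero_add]
  calc _ ≤ _ := Finset.card_le_card hsub
    _ ≤ _ := Finset.card_image_le
    _ = _ := by simp

theorem vanish_low' {r R q : ℕ}
    (hq : 2 * (q + 1) * (ball (Fin (r + R + 1)) R).card < 2 ^ (r + R + 1)) :
    ¬ Nontrivial (reducedHomology (VR (Set.univ : Set (Lex (Fin (r + R + 1) → Bool))) r) q) := by
  classical
  rw [VR_eq, nontrivial_reducedHomology_iff]
  rintro ⟨z, hz, hz0, hc⟩
  rw [← Finset.coe_univ] at hz hc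
  obtain ⟨c, hc1, hc2⟩ := acyc_of_undominated
    (close := fun x y : Lex (Fin (r + R + 1) → Bool) => hammingDist (ofLex x) (ofLex y) ≤ r)
    (by simp) (fun x y h => by rwa [hammingDist_comm]) (q + 1) Finset.univ (fun S hS => by
      by_contra hne
      push Not at hne
      let e : Lex (Fin (r + R + 1) → Bool) → (Fin (r + R + 1) → ZMod 2) :=
        fun x i => bz (ofLex x i)
      have he : Function.Injective e := by
        intro x y h
        exact ofLex.injective (funext fun i => bz_injective (congrFun h i))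
      have h1 := card_near_ball R (S.image (fun s => e s + 1))
      have h2 : (Finset.univ.image e) ⊆ near R (S.image (fun s => e s + 1)) := by
        intro u hu
        obtain ⟨x, -, rfl⟩ := Finset.mem_image.1 hu
        obtain ⟨s, hs, hsx⟩ := hne x (Finset.mem_univ _)
        refine mem_near.2 ⟨_, Finset.mem_image_of_mem _ hs, ?_⟩
        rw [← add_assoc, ← far_iff' (r := r) (by simp), hammingDist_comm]
        rw [← hammingDist_bz] at hsx
        exact not_le.2 hsx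
      have h3 := Finset.card_le_card h2
      rw [Finset.card_image_of_injective _ he] at h3
      have h4 : (S.image (fun s => e s + 1)).card ≤ 2 * (q + 1) := Finset.card_image_le.trans hS
      have h5 : (Finset.univ : Finset (Lex (Fin (r + R + 1) → Bool))).card = 2 ^ (r + R + 1) := by
        rw [Finset.card_univ, Fintype.card_lex]; simp
      have h6 := Nat.mul_le_mul_right (ball (Fin (r + R + 1)) R).card h4
      omega) z hz hz0
  exact hc c hc1 hc2

lemma card_ball_le {n R : ℕ} (hR : 1 ≤ R) (hn : R ≤ n) :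
    ((ball (Fin n) R).card : ℝ) ≤ (6 * n / R) ^ R := by
  have hy1 : 1 ≤ n / R + 1 := Nat.le_add_left _ _
  have h1 := card_ball_mul (ι := Fin n) R (n / R + 1) hy1
  have h2 : n ≤ R * (n / R + 1) := (Nat.lt_mul_div_succ n hR).le
  have h3 : R * (n / R + 1) ≤ 2 * n := by
    have := Nat.mul_div_le n R
    rw [mul_add]; omega
  rw [Fintype.card_fin] at h1
  generalize n / R + 1 = y at hy1 h1 h2 h3
  have hy : (0 : ℝ) < y := by exact_mod_cast hy1
  have hR' : (0 : ℝ) < R := by exact_mod_cast hR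
  have h4 : ((ball (Fin n) R).card : ℝ) * y ^ n ≤ y ^ R * (y + 1) ^ n := by exact_mod_cast h1
  have h5 : ((y : ℝ) + 1) ^ n ≤ 3 ^ R * y ^ n := by
    have a1 : (y : ℝ) + 1 ≤ Real.exp (1 / y) * y := by
      have := Real.add_one_le_exp (1 / (y : ℝ))
      calc (y : ℝ) + 1 = (1 / y + 1) * y := by field_simp; ring
        _ ≤ _ := by gcongr
    have a2 : Real.exp (1 / y) ^ n ≤ 3 ^ R := by
      calc Real.exp (1 / y) ^ n = Real.exp (n * (1 / y)) := (Real.exp_nat_mul _ _).symm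
        _ ≤ Real.exp (R * 1) := by
          refine Real.exp_le_exp.2 ?_
          rw [mul_one_div, mul_one, div_le_iff₀ hy]
          exact_mod_cast h2
        _ = Real.exp 1 ^ R := Real.exp_nat_mul _ _
        _ ≤ _ := by
          gcongr
          exact (Real.exp_one_lt_d9.trans (by norm_num)).le
    calc ((y : ℝ) + 1) ^ n ≤ (Real.exp (1 / y) * y) ^ n := by gcongr
      _ ≤ _ := by rw [mul_pow]; gcongr
  have h6 : ((ball (Fin n) R).card : ℝ) ≤ (3 * y) ^ R := by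
    refine le_of_mul_le_mul_right (h4.trans ?_) (pow_pos hy n)
    calc (y : ℝ) ^ R * (y + 1) ^ n ≤ y ^ R * (3 ^ R * y ^ n) := by gcongr
      _ = _ := by rw [mul_pow]; ring
  refine h6.trans ?_
  gcongr
  rw [le_div_iff₀ hR']
  have : (R : ℝ) * y ≤ 2 * n := by exact_mod_cast h3
  linarith

theorem lower' (R r : ℕ) (hr : 1 ≤ r) : ∃ m : ℕ,
    {q | Nontrivial (reducedHomology
      (VR (Set.univ : Set (Lex (Fin (r + R + 1) → Bool))) r) q)}.ncard + m ≤ 2 ^ r ∧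
      2 ^ r ≤ 2 * m * (ball (Fin (r + R + 1)) R).card := by
  have hp : 0 < (ball (Fin (r + R + 1)) R).card := Finset.card_pos.2 ⟨0, by simp [mem_ball]⟩
  have h0 : 0 < 2 ^ r := by positivity
  have hv := fun q => vanish_low' (r := r) (R := R) (q := q)
  generalize (ball (Fin (r + R + 1)) R).card = V at hp hv
  refine ⟨max 1 ((2 ^ r - 1) / V), ?_, ?_⟩
  · have h1 : (2 ^ r - 1) / V ≤ 2 ^ r - 1 := Nat.div_le_self _ _
    have hsub : {q | Nontrivial (reducedHomology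
        (VR (Set.univ : Set (Lex (Fin (r + R + 1) → Bool))) r) q)} ⊆
        ↑(Finset.Ico (max 1 ((2 ^ r - 1) / V)) (2 ^ r)) := by
      intro q hq
      refine Finset.mem_Ico.2 ⟨max_le ?_ ?_, Finset.mem_range.1 (degrees_subset _ r hq)⟩
      · by_contra h
        obtain rfl : q = 0 := by omega
        exact vanish_zero hr hq
      · by_contra h
        refine hv q ?_ hq
        have h2 : (q + 1) * V ≤ 2 ^ r - 1 := (Nat.le_div_iff_mul_le hp).1 (by omega)
        have h3 : 2 ^ (r + 1) ≤ 2 ^ (r + R + 1) := Nat.pow_le_pow_right (by norm_num) (by omega)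
        rw [pow_succ 2 r] at h3
        rw [mul_assoc]
        omega
    have h2 := Set.ncard_le_ncard hsub (Finset.finite_toSet _)
    rw [Set.ncard_coe_finset, Nat.card_Ico] at h2
    omega
  · have h1 := Nat.lt_mul_div_succ (2 ^ r - 1) hp
    generalize (2 ^ r - 1) / V = m at h1
    calc 2 ^ r ≤ V * (m + 1) := by omega
      _ ≤ V * (2 * max 1 m) := Nat.mul_le_mul_left _ (by omega)
      _ = _ := by ring

theorem upper' : ∃ K : ℝ, 1 ≤ K ∧ ∀ R r n : ℕ, 1 ≤ r → r + (R + 1) + 1 ≤ n →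
    2 ^ r - ({q | Nontrivial (reducedHomology
      (VR (Set.univ : Set (Lex (Fin n → Bool))) r) q)}.ncard : ℝ) ≤
      2 ^ r * (K * (R + 1) / r) ^ (R + 1) + K * r ^ 4 * Real.sqrt 2 ^ r := by
  obtain ⟨A, K, H⟩ := window_all
  refine ⟨A + K + 200000, by have : (0 : ℝ) ≤ A + K := by positivity
                             linarith, fun R r n hr hn => ?_⟩
  set S := {q | Nontrivial (reducedHomology (VR (Set.univ : Set (Lex (Fin n → Bool))) r) q)}
    with hS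
  have hr' : (1 : ℝ) ≤ r := by exact_mod_cast hr
  have hA : (0 : ℝ) ≤ A := by positivity
  have hK : (0 : ℝ) ≤ K := by positivity
  have hN : (0 : ℝ) ≤ S.ncard := by positivity
  have hs1 : (1 : ℝ) ≤ Real.sqrt 2 := Real.one_le_sqrt.2 (by norm_num)
  have hy1 : (1 : ℝ) ≤ r ^ 4 * Real.sqrt 2 ^ r :=
    one_le_mul_of_one_le_of_one_le (one_le_pow₀ hr') (one_le_pow₀ hs1)
  rw [mul_assoc _ ((r : ℝ) ^ 4)]
  rcases lt_or_ge r (K * (R + 1)) with h | h
  · have h1 : (1 : ℝ) ≤ ((A : ℝ) + K + 200000) * (R + 1) / r := by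
      rw [le_div_iff₀ (by linarith), one_mul]
      have : (r : ℝ) ≤ K * (R + 1) := by exact_mod_cast h.le
      have : (0 : ℝ) ≤ (A + 200000) * (R + 1) := by positivity
      linarith
    have h2 : (2 : ℝ) ^ r ≤ 2 ^ r * (((A : ℝ) + K + 200000) * (R + 1) / r) ^ (R + 1) :=
      le_mul_of_one_le_right (by positivity) (one_le_pow₀ h1)
    have h3 : (0 : ℝ) ≤ ((A : ℝ) + K + 200000) * (r ^ 4 * Real.sqrt 2 ^ r) := by positivity
    linarith
  set x : ℝ := 2 ^ r * (A * (R + 1) / r) ^ (R + 1) with hx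
  set y : ℝ := 10000 * r ^ 4 * 2 ^ r / 2 ^ ((r - 6) / 2) with hy
  have hx0 : 0 ≤ x := by positivity
  have hy0 : 0 ≤ y := by positivity
  have hsub : (↑(Finset.Ico ⌈x⌉₊ (2 ^ r - ⌈y⌉₊)) : Set ℕ) ⊆ S := by
    intro q hq
    have hq' := Finset.mem_Ico.1 hq
    refine H R r n q h hn ?_ ?_
    · have h1 : x ≤ q + 1 := (Nat.ceil_le.1 hq'.1).trans (by linarith)
      rw [hx, div_pow, ← mul_div_assoc, div_le_iff₀ (by positivity)] at h1
      exact_mod_cast h1
    · have h1 : y ≤ ⌈y⌉₊ := Nat.le_ceil y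
      rw [hy, div_le_iff₀ (by positivity), ← hy] at h1
      have h2 : 10000 * r ^ 4 * 2 ^ r ≤ ⌈y⌉₊ * 2 ^ ((r - 6) / 2) := by exact_mod_cast h1
      calc _ ≤ (q + 1) * 2 ^ ((r - 6) / 2) + ⌈y⌉₊ * 2 ^ ((r - 6) / 2) := by omega
        _ = (q + 1 + ⌈y⌉₊) * 2 ^ ((r - 6) / 2) := by ring
        _ ≤ _ := Nat.mul_le_mul_right _ (by omega)
  have h1 := Set.ncard_le_ncard hsub ((Finset.finite_toSet _).subset (degrees_subset n r))
  rw [Set.ncard_coe_finset, Nat.card_Ico] at h1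
  have h2 : 2 ^ r ≤ S.ncard + ⌈x⌉₊ + ⌈y⌉₊ := by omega
  have h3 : (2 : ℝ) ^ r ≤ S.ncard + ⌈x⌉₊ + ⌈y⌉₊ := by exact_mod_cast h2
  have h4 := Nat.ceil_lt_add_one hx0
  have h5 := Nat.ceil_lt_add_one hy0
  have h6 : x ≤ 2 ^ r * (((A : ℝ) + K + 200000) * (R + 1) / r) ^ (R + 1) := by
    rw [hx]; gcongr; linarith
  have h7 : y ≤ 160000 * (r ^ 4 * Real.sqrt 2 ^ r) := by
    rw [hy, div_le_iff₀ (by positivity)]
    have a1 : (2 : ℝ) ^ r = Real.sqrt 2 ^ r * Real.sqrt 2 ^ r := by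
      rw [← mul_pow, Real.mul_self_sqrt (by norm_num)]
    have a2 : Real.sqrt 2 ^ r ≤ 16 * 2 ^ ((r - 6) / 2) := by
      calc Real.sqrt 2 ^ r ≤ Real.sqrt 2 ^ (2 * (4 + (r - 6) / 2)) :=
            pow_le_pow_right₀ hs1 (by omega)
        _ = _ := by rw [pow_mul, Real.sq_sqrt (by norm_num), pow_add]; norm_num
    calc 10000 * (r : ℝ) ^ 4 * 2 ^ r = 10000 * (r ^ 4 * Real.sqrt 2 ^ r) * Real.sqrt 2 ^ r := by
          rw [a1]; ring
      _ ≤ 10000 * (r ^ 4 * Real.sqrt 2 ^ r) * (16 * 2 ^ ((r - 6) / 2)) := by gcongr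
      _ = _ := by ring
  nlinarith [mul_nonneg (add_nonneg hA hK) (zero_le_one.trans hy1)]

theorem upper'' : ∃ K : ℝ, 1 ≤ K ∧ ∀ R r n : ℕ, 1 ≤ r → r + (R + 1) + 1 ≤ n →
    2 ^ r - ({q | Nontrivial (reducedHomology
      (VR (Set.univ : Set (Lex (Fin n → Bool))) r) q)}.ncard : ℝ) ≤
      2 ^ r * (K * (R + 1) / r) ^ (R + 1) := by
  obtain ⟨K, hK, H⟩ := upper'
  obtain ⟨x0, hx0⟩ := poly_le_exp (⌈K⌉₊ * 256) 4
  have hx : (0 : ℝ) ≤ x0 := by positivity
  refine ⟨2 * (K + 4 * x0 + 4), by linarith, fun R r n hr hn => ?_⟩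
  have hr' : (0 : ℝ) < r := by exact_mod_cast hr
  have hR : (0 : ℝ) ≤ R := by positivity
  set L : ℝ := K + 4 * x0 + 4 with hL
  have hL0 : 0 < L := by linarith
  set u : ℝ := L * (R + 1) / r with hu
  have hu0 : 0 < u := by positivity
  have h2 : (2 : ℝ) ≤ 2 ^ (R + 1) := le_self_pow₀ (by norm_num) (by omega)
  have h3 : 2 * ((2 : ℝ) ^ r * u ^ (R + 1)) ≤ 2 ^ r * (2 * L * (R + 1) / r) ^ (R + 1) := by
    rw [mul_assoc 2 L, mul_div_assoc 2, ← hu, mul_pow]
    calc 2 * ((2 : ℝ) ^ r * u ^ (R + 1)) = 2 ^ r * (2 * u ^ (R + 1)) := by ring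
      _ ≤ _ := by gcongr
  refine le_trans ?_ h3
  rcases le_or_gt 1 u with h | h
  · have h4 : (2 : ℝ) ^ r ≤ 2 ^ r * u ^ (R + 1) :=
      le_mul_of_one_le_right (by positivity) (one_le_pow₀ h)
    have h5 : (0 : ℝ) ≤ ({q | Nontrivial (reducedHomology
      (VR (Set.univ : Set (Lex (Fin n → Bool))) r) q)}.ncard : ℝ) := by positivity
    have h6 : (0 : ℝ) ≤ 2 ^ r := by positivity
    linarith
  refine (H R r n hr hn).trans ?_
  have h4 : (2 : ℝ) ^ r * (K * (R + 1) / r) ^ (R + 1) ≤ 2 ^ r * u ^ (R + 1) := by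
    rw [hu]; gcongr; linarith
  have h5 : L * (R + 1) < r := by rwa [hu, div_lt_one hr'] at h
  have h6 : x0 ≤ r / 4 := by
    have : (x0 : ℝ) * 4 ≤ r := by nlinarith
    exact (Nat.le_div_iff_mul_le (by norm_num)).2 (by exact_mod_cast this)
  have h7 : K * r ^ 4 ≤ 2 ^ (r / 4) := by
    have a1 : ⌈K⌉₊ * r ^ 4 ≤ 2 ^ (r / 4) := by
      refine le_trans ?_ (hx0 _ h6)
      calc ⌈K⌉₊ * r ^ 4 ≤ ⌈K⌉₊ * (4 * (r / 4 + 1)) ^ 4 := by gcongr; omega
        _ = _ := by ring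
    have a2 : (⌈K⌉₊ : ℝ) * r ^ 4 ≤ 2 ^ (r / 4) := by exact_mod_cast a1
    exact le_trans (by gcongr; exact Nat.le_ceil K) a2
  have h8 : 1 ≤ (2 : ℝ) ^ (r / 4) * u ^ (R + 1) := by
    have a1 : u⁻¹ ≤ 2 ^ ⌊u⁻¹⌋₊ := by
      have : ⌊u⁻¹⌋₊ + 1 ≤ 2 ^ ⌊u⁻¹⌋₊ := Nat.lt_two_pow_self
      exact (Nat.lt_floor_add_one _).le.trans (by exact_mod_cast this)
    have a2 : ⌊u⁻¹⌋₊ * (R + 1) ≤ r / 4 := by
      have b1 : (⌊u⁻¹⌋₊ : ℝ) ≤ u⁻¹ := Nat.floor_le (by positivity)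
      rw [hu, inv_div, le_div_iff₀ (by positivity), ← inv_div, ← hu] at b1
      have b2 : (⌊u⁻¹⌋₊ : ℝ) * (R + 1) * 4 ≤ r := by
        refine le_trans ?_ b1
        rw [mul_assoc, mul_comm L]
        gcongr; linarith
      exact (Nat.le_div_iff_mul_le (by norm_num)).2 (by exact_mod_cast b2)
    calc (1 : ℝ) = u⁻¹ ^ (R + 1) * u ^ (R + 1) := by
          rw [← mul_pow, inv_mul_cancel₀ hu0.ne', one_pow]
      _ ≤ (2 ^ ⌊u⁻¹⌋₊) ^ (R + 1) * u ^ (R + 1) := by gcongr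
      _ ≤ _ := by
          rw [← pow_mul]
          gcongr
          norm_num
  have hs1 : (1 : ℝ) ≤ Real.sqrt 2 := Real.one_le_sqrt.2 (by norm_num)
  have h9 : (2 : ℝ) ^ (r / 4) * 2 ^ (r / 4) ≤ Real.sqrt 2 ^ r := by
    calc (2 : ℝ) ^ (r / 4) * 2 ^ (r / 4) = Real.sqrt 2 ^ (2 * (r / 4 + r / 4)) := by
          rw [pow_mul, Real.sq_sqrt (by norm_num), pow_add]
      _ ≤ _ := pow_le_pow_right₀ hs1 (by omega)
  have h10 : K * r ^ 4 * Real.sqrt 2 ^ r ≤ 2 ^ r * u ^ (R + 1) := by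
    calc K * r ^ 4 * Real.sqrt 2 ^ r
        ≤ 2 ^ (r / 4) * Real.sqrt 2 ^ r * (2 ^ (r / 4) * u ^ (R + 1)) :=
          le_trans (by gcongr) (le_mul_of_one_le_right (by positivity) h8)
      _ = 2 ^ (r / 4) * 2 ^ (r / 4) * Real.sqrt 2 ^ r * u ^ (R + 1) := by ring
      _ ≤ Real.sqrt 2 ^ r * Real.sqrt 2 ^ r * u ^ (R + 1) := by gcongr
      _ = _ := by rw [← mul_pow, Real.mul_self_sqrt (by norm_num)]
  linarith

theorem uniform : ∃ K : ℝ, 0 < K ∧ ∀ r s : ℕ, 1 ≤ r → 2 ≤ s →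
    2 ^ r * (s / (K * (r + s))) ^ (s - 1) ≤ 2 ^ r - ({q | Nontrivial (reducedHomology
      (VR (Set.univ : Set (Lex (Fin (r + s) → Bool))) r) q)}.ncard : ℝ) ∧
    ∀ n : ℕ, r + s ≤ n →
      0 ≤ 2 ^ r - ({q | Nontrivial (reducedHomology
        (VR (Set.univ : Set (Lex (Fin n → Bool))) r) q)}.ncard : ℝ) ∧
      2 ^ r - ({q | Nontrivial (reducedHomology
        (VR (Set.univ : Set (Lex (Fin n → Bool))) r) q)}.ncard : ℝ) ≤
        2 ^ r * (K * s / r) ^ (s - 1) := by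
  obtain ⟨K, hK, H⟩ := upper''
  refine ⟨24 * K, by linarith, fun r s hr hs => ?_⟩
  obtain ⟨R, rfl⟩ : ∃ R, s = R + 1 + 1 := ⟨s - 2, by omega⟩
  have hr' : (0 : ℝ) < r := by exact_mod_cast hr
  have hR : (0 : ℝ) ≤ R := by positivity
  rw [Nat.add_sub_cancel]
  refine ⟨?_, fun n hn => ⟨sub_nonneg.2 (by exact_mod_cast ncard_le n r), (H R r n hr hn).trans ?_⟩⟩
  · obtain ⟨m, h1, h2⟩ := lower' (R + 1) r hr
    have h3 := card_ball_le (n := r + (R + 1) + 1) (R := R + 1) (by omega) (by omega)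
    have h4 : (({q | Nontrivial (reducedHomology
      (VR (Set.univ : Set (Lex (Fin (r + (R + 1 + 1)) → Bool))) r) q)}.ncard : ℕ) : ℝ) + m ≤
        2 ^ r := by exact_mod_cast h1
    have h5 : (2 : ℝ) ^ r ≤ 2 * m * (ball (Fin (r + (R + 1) + 1)) (R + 1)).card := by
      exact_mod_cast h2
    refine le_trans ?_ (le_sub_iff_add_le'.2 h4)
    push_cast at h3 ⊢
    have h6 : (2 : ℝ) ≤ 2 ^ (R + 1) := le_self_pow₀ (by norm_num) (by omega)
    have h7 : 2 * (6 * (r + (R + 1) + 1) / (R + 1)) *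
        ((R + 1 + 1) / (24 * K * (r + (R + 1 + 1)))) ≤ (1 : ℝ) := by
      rw [← mul_div_assoc 2, div_mul_div_comm, div_le_one (by positivity)]
      have a1 : (0 : ℝ) ≤ r + (R + 1 + 1) := by positivity
      have a2 : (R : ℝ) + 1 + 1 ≤ (R + 1) * (2 * K) := by nlinarith
      calc _ = 12 * (r + (R + 1 + 1)) * ((R : ℝ) + 1 + 1) := by ring
        _ ≤ 12 * (r + (R + 1 + 1)) * ((R + 1) * (2 * K)) := by gcongr
        _ = _ := by ring
    calc (2 : ℝ) ^ r * ((R + 1 + 1) / (24 * K * (r + (R + 1 + 1)))) ^ (R + 1)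
        ≤ 2 ^ (R + 1) * m * (6 * (r + (R + 1) + 1) / (R + 1)) ^ (R + 1) *
          ((R + 1 + 1) / (24 * K * (r + (R + 1 + 1)))) ^ (R + 1) := by
          gcongr
          exact h5.trans (by gcongr)
      _ = m * (2 * (6 * (r + (R + 1) + 1) / (R + 1)) *
          ((R + 1 + 1) / (24 * K * (r + (R + 1 + 1))))) ^ (R + 1) := by
          rw [mul_pow, mul_pow]; ring
      _ ≤ m * 1 := by
          gcongr
          exact pow_le_one₀ (by positivity) h7
      _ = m := mul_one _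
  · push_cast
    gcongr <;> linarith

end Pool.Agent.P.MP_7cff07_gt.Un
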