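import Pool.Agent.P.MP_7cff07_gt.SoLab

namespace Pool.Agent.P.MP_7cff07_gt.Un

open Finset So

variable {R : ℕ} {μ : Type} [Fintype μ] [DecidableEq μ]

/-- positions of the label vectors: rows of equal width and one extra position -/
abbrev Ps (R : ℕ) (μ : Type) := Option (Fin (R + 1) × (Fin 3 ⊕ μ))

/-- contents of an ordinary label in its row -/
abbrev Ct (μ : Type) := ZMod 2 × (Fin 3 ⊕ μ → ZMod 2)

omit [DecidableEq μ] in
lemma card_Ps : Fintype.card (Ps R μ) = (R + 1) * (3 + Fintype.card μ) + 1 := by simp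

lemma card_Ct : Fintype.card (Ct μ) = 2 * 2 ^ (3 + Fintype.card μ) := by simp

/-- a vector supported in one row and the extra position -/
def vc (m : Fin (R + 1)) (i : Ct μ) : Ps R μ → ZMod 2
  | none => i.1
  | some p => if p.1 = m then i.2 p.2 else 0

/-- the marked unit vector -/
def em (R : ℕ) (μ : Type) [DecidableEq μ] : Ps R μ → ZMod 2 := Pi.single (some (0, Sum.inl 0)) 1

lemma norm_row (m : Fin (R + 1)) (v : Ps R μ → ZMod 2)
    (hv : ∀ p : Fin (R + 1) × (Fin 3 ⊕ μ), p.1 ≠ m → v (some p) = 0)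
    (o : Option (Fin 3 ⊕ μ)) (ho : v (o.map fun j => (m, j)) = 0) :
    hammingNorm v ≤ 3 + Fintype.card μ := by
  have h : (Finset.univ.filter (fun x => v x ≠ 0)) ⊆
      (Finset.univ.erase o).image (fun o : Option (Fin 3 ⊕ μ) => o.map fun j => (m, j)) := by
    intro x hx
    have hx' : v x ≠ 0 := (Finset.mem_filter.1 hx).2
    have : ∃ o' : Option (Fin 3 ⊕ μ), o'.map (fun j => (m, j)) = x := by
      rcases x with _ | ⟨m', j⟩
      · exact ⟨none, rfl⟩
      · have : m' = m := by
          by_contra h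
          exact hx' (hv (m', j) h)
        exact ⟨some j, by simp [this]⟩
    obtain ⟨o', rfl⟩ := this
    refine Finset.mem_image_of_mem _ (Finset.mem_erase.2 ⟨?_, Finset.mem_univ _⟩)
    rintro rfl
    exact hx' ho
  have h1 := (Finset.card_le_card h).trans Finset.card_image_le
  rw [Finset.card_erase_of_mem (Finset.mem_univ _)] at h1
  simpa [hammingNorm] using h1

/-- ordinary labels -/
def ol (m : Fin (R + 1)) (i : Ct μ) : Ps R μ → ZMod 2 :=
  if hammingNorm (vc m i) ≤ 3 + Fintype.card μ ∧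
    (m = 0 → hammingNorm (vc m i + em R μ) ≤ 3 + Fintype.card μ) then vc m i else 0

/-- the property of ordinary labels of a given row -/
def Ordn (m : Fin (R + 1)) (v : Ps R μ → ZMod 2) : Prop :=
  hammingNorm v ≤ 3 + Fintype.card μ ∧
    (∀ p : Fin (R + 1) × (Fin 3 ⊕ μ), p.1 ≠ m → v (some p) = 0) ∧
    (m = 0 → hammingNorm (v + em R μ) ≤ 3 + Fintype.card μ)

lemma ordn_zero (m : Fin (R + 1)) : Ordn m (0 : Ps R μ → ZMod 2) :=
  ⟨by simp, fun _ _ => rfl, fun _ => by rw [zero_add, em, norm_single]; omega⟩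

lemma ordn_em : Ordn 0 (em R μ) :=
  ⟨by rw [em, norm_single]; omega, fun p hp => Pi.single_eq_of_ne (fun h => hp (by
    rw [Option.some.inj h])) _, fun _ => by simp [add_self_cube]⟩

lemma ordn_ol (m : Fin (R + 1)) (i : Ct μ) : Ordn m (ol m i) := by
  unfold ol
  split_ifs with h
  · exact ⟨h.1, fun p hp => by simp [vc, hp], h.2⟩
  · exact ordn_zero m

lemma exists_rows (g : Ps R μ → ZMod 2) (x0 : Ps R μ) (hx0 : x0 ≠ some (0, Sum.inl 0))
    (hg : g x0 = 0) : ∃ b : Fin (R + 1) → Ct μ, ∑ m, ol m (b m) = g := by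
  let m1 : Fin (R + 1) := x0.elim 0 Prod.fst
  let b : Fin (R + 1) → Ct μ := fun m => (if m = m1 then g none else 0, fun j => g (some (m, j)))
  have hz : ∀ m, ∃ o : Option (Fin 3 ⊕ μ), vc m (b m) (o.map fun j => (m, j)) = 0 ∧
      o.map (fun j => (m, j)) ≠ some (0, Sum.inl 0) := by
    intro m
    by_cases hm : m = m1
    · rcases x0 with _ | ⟨m', j⟩
      · exact ⟨none, by simp [vc, b, hg], by simp⟩
      · have : m = m' := hm
        subst this
        exact ⟨some j, by simp [vc, b, hg], hx0⟩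
    · exact ⟨none, by simp [vc, b, hm], by simp⟩
  have hnl : ∀ m, ol m (b m) = vc m (b m) := by
    intro m
    obtain ⟨o, ho, ho'⟩ := hz m
    have h1 : ∀ p : Fin (R + 1) × (Fin 3 ⊕ μ), p.1 ≠ m → vc m (b m) (some p) = 0 := by
      intro p hp; simp [vc, hp]
    refine if_pos ⟨norm_row m _ h1 o ho, fun hm => norm_row m _ (fun p hp => ?_) o ?_⟩
    · rw [Pi.add_apply, h1 p hp, em, Pi.single_eq_of_ne, add_zero]
      intro h
      apply hp
      rw [Option.some.inj h, hm]
    · rw [Pi.add_apply, ho, em, Pi.single_eq_of_ne ho', add_zero]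
  refine ⟨b, ?_⟩
  simp only [hnl]
  ext (_ | ⟨m, j⟩)
  · simp [vc, b, Finset.sum_apply]
  · simp [vc, b, Finset.sum_apply]

/-- the permutation producing the special labels -/
def rot : Ps R μ → Ps R μ
  | none => some (0, Sum.inl 0)
  | some (m, j) => if m = 0 ∧ j = Sum.inl 0 then none else
      if j = Sum.inl 1 then some (m + 1, j) else some (m, j)

omit [Fintype μ] in
lemma rot_inj : Function.Injective (rot (R := R) (μ := μ)) := by
  rintro (_ | ⟨m, j⟩) (_ | ⟨m', j'⟩) h
  · rfl
  · simp only [rot] at h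
    split_ifs at h with h1 h2
    · simp [h2] at h
    · simp only [Option.some.injEq, Prod.mk.injEq] at h
      exact absurd ⟨h.1.symm, h.2.symm⟩ h1
  · simp only [rot] at h
    split_ifs at h with h1 h2
    · simp [h2] at h
    · simp only [Option.some.injEq, Prod.mk.injEq] at h
      exact absurd h h1
  · simp only [rot] at h
    split_ifs at h with h1 h2 h3 h4 h5 h6 <;> simp_all

/-- special labels -/
def sl (m : Fin (R + 1)) : Ps R μ → ZMod 2 := fun x => vc m (0, 1) (rot x)

lemma norm_sl (m : Fin (R + 1)) : hammingNorm (sl m : Ps R μ → ZMod 2) ≤ 3 + Fintype.card μ := by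
  have h1 : hammingNorm (vc m (0, 1) : Ps R μ → ZMod 2) ≤ 3 + Fintype.card μ :=
    norm_row m _ (fun p hp => by simp [vc, hp]) none rfl
  refine le_trans ?_ h1
  unfold hammingNorm
  refine Finset.card_le_card_of_injOn rot ?_ rot_inj.injOn
  intro x hx
  have hx' := (Finset.mem_filter.1 hx).2
  exact Finset.mem_filter.2 ⟨Finset.mem_univ _, hx'⟩

omit [Fintype μ] in
lemma sum_sl : ∑ m, (sl m : Ps R μ → ZMod 2) = 1 + em R μ := by
  ext (_ | ⟨m, j⟩)
  · simp [sl, rot, vc, em, Finset.sum_apply]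
  · by_cases h : m = 0 ∧ j = Sum.inl 0
    · simp [sl, rot, vc, em, Finset.sum_apply, h.1, h.2, CharTwo.add_self_eq_zero]
    · have : (some (m, j) : Ps R μ) ≠ some (0, Sum.inl 0) := by simpa using h
      simp only [sl, rot, if_neg h, em, Finset.sum_apply, Pi.add_apply, Pi.single_eq_of_ne this]
      split_ifs <;> simp [vc]

omit [Fintype μ] in
lemma sl_core {m m' : Fin (R + 1)} (h : m' ≠ m) :
    (sl m : Ps R μ → ZMod 2) (some (m', Sum.inl 2)) = 0 := by
  simp [sl, rot, vc, h]

omit [Fintype μ] in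
lemma sl_shift {m m' : Fin (R + 1)} (h : m' + 1 ≠ m) :
    (sl m : Ps R μ → ZMod 2) (some (m', Sum.inl 1)) = 0 := by
  simp [sl, rot, vc, h]

variable {ι : Type} [Fintype ι] [DecidableEq ι]

/-- a labelling of coordinates by ordinary labels and one copy of each special label -/
structure Lb (lam : ι → Ps R μ → ZMod 2) (row : ι → Fin (R + 1)) (s : Fin (R + 1) → ι) :
    Prop where
  hrow : ∀ m, row (s m) = m
  spec : ∀ m, lam (s m) = sl m
  ord : ∀ j, (∀ m, s m ≠ j) → Ordn (row j) (lam j)

variable {lam : ι → Ps R μ → ZMod 2} {row : ι → Fin (R + 1)} {s : Fin (R + 1) → ι}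

omit [Fintype ι] [DecidableEq ι] in
lemma Lb.norm_le (h : Lb lam row s) (j : ι) : hammingNorm (lam j) ≤ 3 + Fintype.card μ := by
  by_cases hj : ∀ m, s m ≠ j
  · exact (h.ord j hj).1
  · push Not at hj
    obtain ⟨m, rfl⟩ := hj
    rw [h.spec]; exact norm_sl _

lemma Lb.ne_one (h : Lb lam row s) {e : ι → ZMod 2} (he : hammingNorm e ≤ R + 1) :
    lin lam e ≠ 1 := lin_ne_one lam card_Ps h.norm_le he

omit [Fintype μ] [DecidableEq μ] in
lemma exists_of_lin {e : ι → ZMod 2} {x : Ps R μ} (h : lin lam e x = 1) :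
    ∃ j, e j ≠ 0 ∧ lam j x ≠ 0 := by
  by_contra hne
  push Not at hne
  rw [lin_eq_sum, Finset.sum_apply,
    Finset.sum_eq_zero fun j hj => hne j (Finset.mem_filter.1 hj).2] at h
  exact absurd h (by decide)

lemma Lb.exists_row (h : Lb lam row s) {e : ι → ZMod 2} {m : Fin (R + 1)}
    (h1 : lin lam e (some (m, Sum.inl 2)) = 1) : ∃ j, e j ≠ 0 ∧ row j = m := by
  obtain ⟨j, hj, hj'⟩ := exists_of_lin h1
  refine ⟨j, hj, ?_⟩
  by_contra hne
  by_cases hs : ∀ m, s m ≠ j
  · exact hj' ((h.ord j hs).2.1 (m, Sum.inl 2) (Ne.symm hne))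
  · push Not at hs
    obtain ⟨m', rfl⟩ := hs
    rw [h.hrow] at hne
    rw [h.spec] at hj'
    exact hj' (sl_core (Ne.symm hne))

/-- a short vector whose label is one at all core positions uses each row once -/
lemma Lb.row_inj (h : Lb lam row s) {e : ι → ZMod 2} (he : hammingNorm e ≤ R + 1)
    (h1 : ∀ m, lin lam e (some (m, Sum.inl 2)) = 1) {i j : ι} (hi : e i ≠ 0) (hj : e j ≠ 0)
    (hij : row i = row j) : i = j := by
  have h2 : (Finset.univ.filter (fun j => e j ≠ 0)).image row = Finset.univ := by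
    refine Finset.eq_univ_of_forall fun m => ?_
    obtain ⟨j, hj, hj'⟩ := h.exists_row (h1 m)
    exact Finset.mem_image.2 ⟨j, by simpa using hj, hj'⟩
  have h3 : Set.InjOn row (Finset.univ.filter (fun j => e j ≠ 0)) := by
    rw [← Finset.card_image_iff]
    refine le_antisymm Finset.card_image_le ?_
    rw [h2]
    simpa [hammingNorm] using he
  exact h3 (by simpa using hi) (by simpa using hj) hij

lemma Lb.unique (h : Lb lam row s) {e : ι → ZMod 2} (he : hammingNorm e ≤ R + 1)
    (h1 : lin lam e = 1 + em R μ) : e = ∑ m, Pi.single (s m) 1 := by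
  have hc : ∀ m, lin lam e (some (m, Sum.inl 2)) = 1 := by
    intro m; simp [h1, em]
  have h2 : ∀ m, e (s m) ≠ 0 := by
    intro m
    induction m using Fin.induction with
    | zero =>
      obtain ⟨j, hj, hj'⟩ := h.exists_row (hc 0)
      by_cases hs : ∀ m, s m ≠ j
      · exact absurd ((h.ord j hs).2.2 hj') (not_norm_add lam card_Ps h.norm_le he _ h1 hj)
      · push Not at hs
        obtain ⟨m', rfl⟩ := hs
        rw [h.hrow] at hj'
        rwa [hj'] at hj
    | succ m ih =>
      obtain ⟨j, hj, hj'⟩ := exists_of_lin (lam := lam) (e := e)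
        (x := some (m.castSucc, Sum.inl 1)) (by simp [h1, em])
      by_cases hs : ∀ m, s m ≠ j
      · refine absurd (h.row_inj he hc ih hj ?_) (hs _)
        rw [h.hrow]
        by_contra hne
        exact hj' ((h.ord j hs).2.1 (m.castSucc, Sum.inl 1) hne)
      · push Not at hs
        obtain ⟨m', rfl⟩ := hs
        rw [h.spec] at hj'
        have : m.castSucc + 1 = m' := by
          by_contra hne
          exact hj' (sl_shift hne)
        rwa [← this, Fin.coeSucc_eq_succ] at hj
  have hinj : Function.Injective s := fun m m' hm => by rw [← h.hrow m, hm, h.hrow]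
  ext j
  by_cases hj : e j = 0
  · rw [hj, Finset.sum_apply, Finset.sum_eq_zero]
    intro m _
    refine Pi.single_eq_of_ne ?_ _
    rintro rfl
    exact h2 m hj
  · have h3 : s (row j) = j := h.row_inj he hc (h2 _) hj (h.hrow _)
    rw [(z2_cases _).resolve_left hj, Finset.sum_apply, Finset.sum_eq_single (row j)]
    · simp [h3]
    · intro m' _ hm'
      refine Pi.single_eq_of_ne ?_ _
      rintro rfl
      exact hm' (h.hrow _).symm
    · simp

lemma Lb.lin_special (h : Lb lam row s) : lin lam (∑ m, Pi.single (s m) 1) = 1 + em R μ := by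
  rw [map_sum, ← sum_sl]
  exact Finset.sum_congr rfl fun m _ => by rw [lin_single, h.spec]

/-- every vector other than the all-one vector is a sum of one label from each row -/
lemma Lb.cover (h : Lb lam row s) (t : Fin (R + 1) → Ct μ → ι) (ht : ∀ m i, lam (t m i) = ol m i)
    {g : Ps R μ → ZMod 2} (hg : g ≠ 1) :
    ∃ u : Fin (R + 1) → ι, (∀ m, u m = s m ∨ ∃ i, u m = t m i) ∧
      lin lam (∑ m, Pi.single (u m) 1) = g := by
  by_cases h1 : ∃ x0, x0 ≠ some (0, Sum.inl 0) ∧ g x0 = 0
  · obtain ⟨x0, hx0, hgx⟩ := h1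
    obtain ⟨b, hb⟩ := exists_rows g x0 hx0 hgx
    refine ⟨fun m => t m (b m), fun m => Or.inr ⟨_, rfl⟩, ?_⟩
    rw [map_sum, ← hb]
    exact Finset.sum_congr rfl fun m _ => by rw [lin_single, ht]
  · push Not at h1
    refine ⟨s, fun m => Or.inl rfl, ?_⟩
    rw [h.lin_special]
    have h2 : ∀ x, x ≠ some (0, Sum.inl 0) → g x = 1 :=
      fun x hx => (z2_cases _).resolve_left (h1 x hx)
    ext x
    by_cases hx : x = some (0, Sum.inl 0)
    · subst hx
      rcases z2_cases (g (some (0, Sum.inl 0))) with h3 | h3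
      · simp [em, h3, CharTwo.add_self_eq_zero]
      · refine absurd (funext fun y => ?_) hg
        by_cases hy : y = some (0, Sum.inl 0)
        · rw [hy, h3]; rfl
        · exact h2 y hy
    · rw [h2 x hx, Pi.add_apply, em, Pi.single_eq_of_ne hx]; simp

lemma mem_of_ne_one' (H : AddSubgroup (Ps R μ → ZMod 2)) (h : ∀ g, g ≠ 1 → g ∈ H)
    (g : Ps R μ → ZMod 2) : g ∈ H := by
  by_cases hg : g = 1
  · have : g = (1 + em R μ) + em R μ := by rw [add_assoc, add_self_cube, add_zero, hg]
    rw [this]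
    refine H.add_mem (h _ fun h1 => ?_) (h _ fun h1 => ?_)
    · simpa [em] using congrFun h1 (some (0, Sum.inl 0))
    · simpa [em] using congrFun h1 none
  · exact h g hg

end Pool.Agent.P.MP_7cff07_gt.Un
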