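import Pool.Agent.P.MP_7cff07_gt.UnWindow
import Pool.Agent.P.MP_7cff07_gt.SoFinal

namespace Pool.Agent.P.MP_7cff07_gt.Un

open Finset So

/-- coordinates needed per row -/
def cc (l : ℕ) : ℕ := (2 * (2 * 2 ^ (3 + lp l) + 1) + 2) * (2 * 2 ^ (3 + l)) + 265

lemma cc_le (l : ℕ) : cc (l + 1) ≤ 2569 * (2 ^ l * 2 ^ lp l) := by
  have h1 := lp_le (l := l + 1) (by omega)
  have h2 := lt_lp l
  have h3 : 1 ≤ 2 ^ l * 2 ^ lp l := Nat.one_le_iff_ne_zero.2 (by positivity)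
  have h4 : cc (l + 1) = 32 * (2 ^ l * (32 * 2 ^ lp (l + 1) + 4)) + 265 := by rw [cc]; ring
  have h5 : 2 ^ l * (32 * 2 ^ lp (l + 1) + 4) ≤ 2 ^ l * (72 * 2 ^ lp l) :=
    Nat.mul_le_mul_left _ (by omega)
  have h6 : 2 ^ l * (72 * 2 ^ lp l) = 72 * (2 ^ l * 2 ^ lp l) := by ring
  omega

lemma lt_cc (l : ℕ) : l < cc l := by
  have h1 : l < 2 ^ l := Nat.lt_two_pow_self
  have h2 : 2 ^ l ≤ 2 ^ (3 + l) := Nat.pow_le_pow_right (by norm_num) (by omega)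
  have h3 : 2 * 2 ^ (3 + l) ≤ (2 * (2 * 2 ^ (3 + lp l) + 1) + 2) * (2 * 2 ^ (3 + l)) :=
    Nat.le_mul_of_pos_left _ (by omega)
  rw [cc]; omega

lemma three_pow_big : ∃ g1 : ℕ, ∀ g, g1 ≤ g → 30 * (g + 1) ^ 3 * 2 ^ g ≤ 3 ^ g := by
  obtain ⟨x0, hx0⟩ := poly_le_exp 240 3
  refine ⟨2 * x0, fun g hg => ?_⟩
  obtain ⟨x, e, he, rfl⟩ : ∃ x e, e ≤ 1 ∧ g = 2 * x + e := ⟨g / 2, g % 2, by omega, by omega⟩
  calc 30 * (2 * x + e + 1) ^ 3 * 2 ^ (2 * x + e) ≤ 30 * (2 * (x + 1)) ^ 3 * 2 ^ (2 * x + e) := by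
        gcongr; omega
    _ = 240 * (x + 1) ^ 3 * 2 ^ (2 * x + e) := by ring
    _ ≤ 2 ^ x * 2 ^ (2 * x + e) := Nat.mul_le_mul_right _ (hx0 x (by omega))
    _ = 8 ^ x * 2 ^ e := by rw [show (8 : ℕ) = 2 ^ 3 by norm_num, ← pow_mul]; ring
    _ ≤ 9 ^ x * 3 ^ e := by gcongr <;> norm_num
    _ = _ := by rw [show (9 : ℕ) = 3 ^ 2 by norm_num, ← pow_mul]; ring

theorem window_l' : ∃ l0 : ℕ, ∀ R l r n q : ℕ, l0 ≤ l → (R + 1) * cc l ≤ r →
    r + (R + 1) + 1 ≤ n →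
    4 * 2 ^ (r + (R + 1) + 1) ≤
      (q + 1) * (2 ^ ((R + 1) * (3 + l) + 1) * 2 ^ ((R + 1) * (3 + lp l) + 1)) →
    (q + 1) * (2 ^ ((R + 1) * (3 + l) + 1) * 2) ≤ 2 ^ (r + (R + 1) + 1) →
    Nontrivial (reducedHomology (VR (Set.univ : Set (Lex (Fin n → Bool))) r) q) := by
  obtain ⟨g1, hg1⟩ := three_pow_big
  obtain ⟨x1, hx1⟩ := poly_le_exp 8192 1
  refine ⟨3840 + g1 + x1, fun R l r n q hl hr => ?_⟩
  have b1 := lt_lp l
  have b2 := lp_le (l := l) (by omega)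
  have b3 : 2 ^ (3 + lp l) = 8 * 2 ^ lp l := by ring
  have b4 := hx1 l (by omega)
  rw [pow_one] at b4
  have b5 : 2 ^ (3 + l) = 8 * 2 ^ l := by ring
  have b6 : Nat.log 2 l < l := Nat.log_lt_self 2 (by omega)
  have b7 : lp l = Nat.log 2 l + 1 := rfl
  refine window' R l (lp l) (2 * 2 ^ (3 + lp l) + 1) r n q (by omega) le_rfl (by omega) (by omega)
    (hg1 _ (by omega)) ?_
  rw [cc, mul_add] at hr
  omega

theorem window_low' : ∃ l0 : ℕ, ∀ R r n q : ℕ, (R + 1) * cc l0 ≤ r → r + (R + 1) + 1 ≤ n →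
    2 ^ r * (2569 * (R + 1)) ^ (R + 1) ≤ (q + 1) * r ^ (R + 1) →
    (q + 1) * 2 ^ ((R + 1) * (3 + l0)) ≤ 2 ^ r →
    Nontrivial (reducedHomology (VR (Set.univ : Set (Lex (Fin n → Bool))) r) q) := by
  classical
  obtain ⟨l0, H⟩ := window_l'
  refine ⟨l0, fun R r n q hr hn h1 h2 => ?_⟩
  have key : ∀ L, l0 ≤ L → (∀ l, l0 ≤ l → l ≤ L → (R + 1) * cc l ≤ r) →
      4 * 2 ^ (r + (R + 1) + 1) ≤
        (q + 1) * (2 ^ ((R + 1) * (3 + L) + 1) * 2 ^ ((R + 1) * (3 + lp L) + 1)) →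
      Nontrivial (reducedHomology (VR (Set.univ : Set (Lex (Fin n → Bool))) r) q) := by
    intro L hL
    induction L, hL using Nat.le_induction with
    | base =>
      intro a1 a2
      refine H R l0 r n q le_rfl hr hn a2 ?_
      calc _ = (q + 1) * 2 ^ ((R + 1) * (3 + l0)) * 2 ^ 2 := by ring
        _ ≤ 2 ^ r * 2 ^ (R + 1 + 1) :=
          Nat.mul_le_mul h2 (Nat.pow_le_pow_right (by norm_num) (by omega))
        _ = _ := by ring
    | succ L hL ih =>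
      intro a1 a2
      by_cases a3 : (q + 1) * (2 ^ ((R + 1) * (3 + (L + 1)) + 1) * 2) ≤ 2 ^ (r + (R + 1) + 1)
      · exact H R (L + 1) r n q (by omega) (a1 _ (by omega) le_rfl) hn a2 a3
      · refine ih (fun l b1 b2 => a1 l b1 (by omega)) ?_
        have b2 : 2 ^ (R + 4) ≤ 2 ^ ((R + 1) * (3 + lp L) + 1) :=
          Nat.pow_le_pow_right (by norm_num) (by nlinarith [Nat.zero_le (lp L)])
        calc _ ≤ 4 * ((q + 1) * (2 ^ ((R + 1) * (3 + (L + 1)) + 1) * 2)) := by omega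
          _ = (q + 1) * (2 ^ ((R + 1) * (3 + L) + 1) * 2 ^ (R + 4)) := by ring
          _ ≤ _ := by gcongr
  have hex : ∃ l, r < (R + 1) * cc (l0 + l + 1) := ⟨r, by
    have h3 := lt_cc (l0 + r + 1)
    have h4 : cc (l0 + r + 1) ≤ (R + 1) * cc (l0 + r + 1) := Nat.le_mul_of_pos_left _ (by omega)
    omega⟩
  refine key (l0 + Nat.find hex) (by omega) (fun l b1 b2 => ?_) ?_
  · rcases b1.eq_or_lt with rfl | b3
    · exact hr
    · have := Nat.find_min hex (m := l - l0 - 1) (by omega)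
      rw [show l0 + (l - l0 - 1) + 1 = l by omega] at this
      omega
  · have b1 := (Nat.find_spec hex).le.trans (Nat.mul_le_mul_left _ (cc_le _))
    generalize l0 + Nat.find hex = L at b1
    have b2 : 2 ^ r ≤ (q + 1) * (2 ^ L * 2 ^ lp L) ^ (R + 1) := by
      refine Nat.le_of_mul_le_mul_right ?_ (show 0 < (2569 * (R + 1)) ^ (R + 1) by positivity)
      calc _ ≤ (q + 1) * r ^ (R + 1) := h1
        _ ≤ (q + 1) * ((R + 1) * (2569 * (2 ^ L * 2 ^ lp L))) ^ (R + 1) := by gcongr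
        _ = _ := by simp only [mul_pow]; ring
    calc 4 * 2 ^ (r + (R + 1) + 1) = 2 ^ r * 2 ^ (R + 4) := by ring
      _ ≤ (q + 1) * (2 ^ L * 2 ^ lp L) ^ (R + 1) * 2 ^ (6 * (R + 1) + 2) :=
        Nat.mul_le_mul b2 (Nat.pow_le_pow_right (by norm_num) (by omega))
      _ = _ := by simp only [mul_pow, ← pow_mul]; ring

theorem window_all : ∃ A K : ℕ, ∀ R r n q : ℕ, K * (R + 1) ≤ r → r + (R + 1) + 1 ≤ n →
    2 ^ r * (A * (R + 1)) ^ (R + 1) ≤ (q + 1) * r ^ (R + 1) →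
    (q + 1) * 2 ^ ((r - 6) / 2) + 10000 * r ^ 4 * 2 ^ r ≤ 2 ^ r * 2 ^ ((r - 6) / 2) →
    Nontrivial (reducedHomology (VR (Set.univ : Set (Lex (Fin n → Bool))) r) q) := by
  obtain ⟨l0, H⟩ := window_low'
  refine ⟨4000000000, cc l0 + 4000000000 * 2 ^ (2 * (3 + l0)), fun R => ?_⟩
  have hM : 1 ≤ 2 ^ (2 * (3 + l0)) := Nat.one_le_two_pow
  induction R with
  | zero =>
    intro r n q h1 h2 h3 h4
    refine window_two (by omega) h2 ?_ h4
    simp only [zero_add, mul_one, pow_one] at h3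
    rwa [mul_comm, mul_comm r]
  | succ R ih =>
    intro r n q h1 h2 h3 h4
    rw [add_mul] at h1
    by_cases h5 : (q + 1) * 2 ^ ((R + 1 + 1) * (3 + l0)) ≤ 2 ^ r
    · refine H (R + 1) r n q (by rw [mul_comm]; omega) h2 (le_trans ?_ h3) h5
      gcongr; norm_num
    · refine ih r n q ?_ (by omega) ?_ h4
      · exact le_trans (Nat.mul_le_mul_left _ (Nat.le_succ (R + 1))) (by rw [add_mul]; exact h1)
      · have h6 : 4000000000 * 2 ^ (2 * (3 + l0)) * (R + 1) ≤ r :=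
          le_trans (Nat.mul_le_mul_left _ (by omega)) (le_trans (Nat.le_add_left _ _) h1)
        calc 2 ^ r * (4000000000 * (R + 1)) ^ (R + 1)
            ≤ (q + 1) * 2 ^ ((R + 1 + 1) * (3 + l0)) * (4000000000 * (R + 1)) ^ (R + 1) :=
              Nat.mul_le_mul_right _ (by omega)
          _ ≤ (q + 1) * 2 ^ (2 * (3 + l0) * (R + 1)) * (4000000000 * (R + 1)) ^ (R + 1) :=
              Nat.mul_le_mul_right _ (Nat.mul_le_mul_left _
                (Nat.pow_le_pow_right (by norm_num) (by nlinarith)))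
          _ = (q + 1) * (4000000000 * 2 ^ (2 * (3 + l0)) * (R + 1)) ^ (R + 1) := by
              simp only [mul_pow, ← pow_mul]; ring
          _ ≤ _ := by gcongr

end Pool.Agent.P.MP_7cff07_gt.Un
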