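import Pool.Agent.P.MP_7cff07_gt.UnSeed

namespace Pool.Agent.P.MP_7cff07_gt.Un

open Finset So

lemma exists_btw {α : Type} [DecidableEq α] (f : Finset α → ℕ) {D q : ℕ}
    (hf : ∀ A a, f A ≤ f (insert a A) + D) (A0 : Finset α) (h0 : q ≤ f A0) (E : Finset α) :
    f (A0 ∪ E) ≤ q → ∃ E' ⊆ E, q ≤ f (A0 ∪ E') ∧ f (A0 ∪ E') ≤ q + D := by
  induction E using Finset.induction_on with
  | empty => intro h; exact ⟨∅, subset_rfl, by simpa using h0, by omega⟩
  | insert a E _ ih =>
    intro h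
    by_cases h1 : f (A0 ∪ E) ≤ q
    · obtain ⟨E', h2, h3⟩ := ih h1
      exact ⟨E', h2.trans (Finset.subset_insert _ _), h3⟩
    · refine ⟨E, Finset.subset_insert _ _, by omega, ?_⟩
      have := hf (A0 ∪ E) a
      rw [← Finset.union_insert] at this
      omega

variable {ρ γ : Type} [Fintype ρ] [DecidableEq ρ] [Fintype γ] [DecidableEq γ]

open Classical in
/-- the points differing from a point of a set by at most one entry in each row -/
noncomputable def nr (A : Finset (ρ × γ → ZMod 2)) : Finset (ρ × γ → ZMod 2) :=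
  Finset.univ.filter (fun u => ∃ a ∈ A, Rb (u + a))

lemma mem_nr {A : Finset (ρ × γ → ZMod 2)} {u : ρ × γ → ZMod 2} :
    u ∈ nr A ↔ ∃ a ∈ A, Rb (u + a) := by simp [nr]

lemma card_nr (A : Finset (ρ × γ → ZMod 2)) :
    (nr A).card ≤ A.card * (Fintype.card γ + 1) ^ Fintype.card ρ := by
  have hsub : nr A ⊆ (A ×ˢ (Finset.univ : Finset (ρ → Option γ))).image
      (fun p => p.1 + rb p.2) := by
    intro u hu
    obtain ⟨a, ha, h⟩ := mem_nr.1 hu
    obtain ⟨t, ht⟩ := h.exists
    refine Finset.mem_image.2 ⟨(a, t), by simp [ha], ?_⟩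
    simp only
    rw [ht, add_comm u, ← add_assoc, add_self_cube, zero_add]
  calc _ ≤ _ := Finset.card_le_card hsub
    _ ≤ _ := Finset.card_image_le
    _ = _ := by simp

/-- two separated sets avoiding the ball about the origin, each dominating all other nonzero
points -/
structure Pr (P N : Finset (ρ × γ → ZMod 2)) : Prop where
  outP : ∀ u ∈ P, Fintype.card ρ < hammingNorm u
  outN : ∀ u ∈ N, Fintype.card ρ < hammingNorm u
  far : ∀ p ∈ P, ∀ n ∈ N, ¬ Rb (p + n)
  dom : ∀ u, u ≠ 0 → u ∉ P → u ∉ N → u ∈ nr P ∧ u ∈ nr N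

/-- the points outside the ball that are separated from a set -/
noncomputable def aw (A : Finset (ρ × γ → ZMod 2)) : Finset (ρ × γ → ZMod 2) :=
  Finset.univ \ (ball (ρ × γ) (Fintype.card ρ) ∪ nr A)

lemma mem_aw {A : Finset (ρ × γ → ZMod 2)} {u : ρ × γ → ZMod 2} :
    u ∈ aw A ↔ Fintype.card ρ < hammingNorm u ∧ ∀ a ∈ A, ¬ Rb (u + a) := by
  simp [aw, mem_ball, mem_nr]

lemma aw_anti {A B : Finset (ρ × γ → ZMod 2)} (h : A ⊆ B) : aw B ⊆ aw A := by
  intro u hu
  rw [mem_aw] at hu ⊢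
  exact ⟨hu.1, fun a ha => hu.2 a (h ha)⟩

lemma nr_mono {A B : Finset (ρ × γ → ZMod 2)} (h : A ⊆ B) : nr A ⊆ nr B := by
  intro u hu
  obtain ⟨a, ha, h'⟩ := mem_nr.1 hu
  exact mem_nr.2 ⟨a, h ha, h'⟩

lemma mem_of_not_aw {A : Finset (ρ × γ → ZMod 2)} {u : ρ × γ → ZMod 2} (h : u ∉ aw A) :
    u ∈ ball (ρ × γ) (Fintype.card ρ) ∪ nr A := by
  by_contra h'
  exact h (Finset.mem_sdiff.2 ⟨Finset.mem_univ _, h'⟩)

lemma card_frg {A : Finset (ρ × γ → ZMod 2)}
    (hA : A.card ≤ (ball (ρ × γ) (Fintype.card ρ)).card) :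
    (ball (ρ × γ) (Fintype.card ρ) ∪ nr A).card ≤
      2 * ((ball (ρ × γ) (Fintype.card ρ)).card * (Fintype.card γ + 1) ^ Fintype.card ρ) := by
  have h2 := (card_nr A).trans (Nat.mul_le_mul_right _ hA)
  have h3 : (ball (ρ × γ) (Fintype.card ρ)).card ≤
      (ball (ρ × γ) (Fintype.card ρ)).card * (Fintype.card γ + 1) ^ Fintype.card ρ :=
    Nat.le_mul_of_pos_right _ (by positivity)
  have := Finset.card_union_le (ball (ρ × γ) (Fintype.card ρ)) (nr A)
  omega

lemma card_frg' {A : Finset (ρ × γ → ZMod 2)}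
    (hA : A.card ≤ (ball (ρ × γ) (Fintype.card ρ)).card) :
    (nr (ball (ρ × γ) (Fintype.card ρ) ∪ nr A)).card ≤
      2 * ((ball (ρ × γ) (Fintype.card ρ)).card *
        (Fintype.card γ + 1) ^ (2 * Fintype.card ρ)) := by
  refine (card_nr _).trans ((Nat.mul_le_mul_right _ (card_frg hA)).trans (le_of_eq ?_))
  ring

theorem exists_pr (hγ : 61440 ≤ Fintype.card γ) (Ps Ns : Finset (ρ × γ → ZMod 2))
    (hfar : ∀ p ∈ Ps, ∀ n ∈ Ns, ¬ Rb (p + n)) (hPs : ∀ u, u ∉ Ps → u ∈ nr Ns)
    (hNs : ∀ u, u ∉ Ns → u ∈ nr Ps) (q : ℕ)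
    (hq1 : Ps.card + Ns.card + 4 * ((ball (ρ × γ) (Fintype.card ρ)).card *
      (Fintype.card γ + 1) ^ (2 * Fintype.card ρ)) ≤ q)
    (hq2 : q + 2 * ((ball (ρ × γ) (Fintype.card ρ)).card *
      (Fintype.card γ + 1) ^ (2 * Fintype.card ρ)) ≤ 2 ^ Fintype.card (ρ × γ)) :
    ∃ P N : Finset (ρ × γ → ZMod 2), Pr P N ∧ q ≤ P.card + N.card ∧
      P.card + N.card ≤ q + (Fintype.card γ + 1) ^ Fintype.card ρ := by
  obtain ⟨t, hp1, hp2⟩ := exists_seeds' (ρ := ρ) hγ
  let S : Bool → Finset (ρ × γ → ZMod 2) := fun c =>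
    ((ball (ρ × γ) (Fintype.card ρ)).erase 0).image (fun u => u + rb (t c u))
  have hSc : ∀ c, (S c).card ≤ (ball (ρ × γ) (Fintype.card ρ)).card := fun c =>
    Finset.card_image_le.trans Finset.card_erase_le
  have hSout : ∀ c, ∀ u ∈ S c, Fintype.card ρ < hammingNorm u := by
    intro c u hu
    obtain ⟨v, hv, rfl⟩ := Finset.mem_image.1 hu
    exact hp1 c v (Finset.mem_erase.1 hv).1
  have hSdom : ∀ c u, u ≠ 0 → hammingNorm u ≤ Fintype.card ρ → u ∈ nr (S c) := fun c u h1 h2 =>
    mem_nr.2 ⟨_, Finset.mem_image_of_mem _ (Finset.mem_erase.2 ⟨h1, mem_ball.2 h2⟩), by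
      rw [← add_assoc, add_self_cube, zero_add]; exact rb_rb _⟩
  have hSfar : ∀ u ∈ S true, ∀ v ∈ S false, ¬ Rb (u + v) := by
    intro u hu v hv
    obtain ⟨u', hu', rfl⟩ := Finset.mem_image.1 hu
    obtain ⟨v', hv', rfl⟩ := Finset.mem_image.1 hv
    rw [Finset.mem_erase, mem_ball] at hu' hv'
    exact hp2 _ _ hu'.1 hv'.1 hu'.2 hv'.2
  obtain ⟨E, hE, h1, h2⟩ := exists_btw
    (fun A : Finset (ρ × γ → ZMod 2) => (aw A).card + (aw (aw A)).card)
    (D := (Fintype.card γ + 1) ^ Fintype.card ρ) (q := q)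
    (fun A a => by
      have e1 : (aw (aw A)).card ≤ (aw (aw (insert a A))).card :=
        Finset.card_le_card (aw_anti (aw_anti (Finset.subset_insert _ _)))
      have e2 : aw A ⊆ aw (insert a A) ∪ nr {a} := by
        intro u hu
        rw [Finset.mem_union, mem_nr, mem_aw]
        rw [mem_aw] at hu
        by_cases h : Rb (u + a)
        · exact Or.inr ⟨a, by simp, h⟩
        · refine Or.inl ⟨hu.1, fun b hb => ?_⟩
          rcases Finset.mem_insert.1 hb with rfl | hb
          · exact h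
          · exact hu.2 b hb
      have e3 := (Finset.card_le_card e2).trans (Finset.card_union_le _ _)
      have e4 := card_nr ({a} : Finset (ρ × γ → ZMod 2))
      rw [Finset.card_singleton, one_mul] at e4
      omega)
    (S false)
    (by
      have e1 := card_frg (hSc false)
      have e2 : (aw (S false)).card + (ball (ρ × γ) (Fintype.card ρ) ∪ nr (S false)).card =
          2 ^ Fintype.card (ρ × γ) := by
        rw [aw, Finset.card_sdiff_add_card_eq_card (Finset.subset_univ _)]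
        simp
      have e3 : (ball (ρ × γ) (Fintype.card ρ)).card * (Fintype.card γ + 1) ^ Fintype.card ρ ≤
          (ball (ρ × γ) (Fintype.card ρ)).card * (Fintype.card γ + 1) ^ (2 * Fintype.card ρ) :=
        Nat.mul_le_mul_left _ (Nat.pow_le_pow_right (by omega) (by omega))
      omega)
    (Ns ∩ aw (S true))
    (by
      have e1 : aw (S false ∪ Ns ∩ aw (S true)) ⊆
          Ps ∪ nr (ball (ρ × γ) (Fintype.card ρ) ∪ nr (S true)) := by
        intro u hu
        rw [Finset.mem_union]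
        by_cases h : u ∈ Ps
        · exact Or.inl h
        · obtain ⟨n, hn, hn'⟩ := mem_nr.1 (hPs u h)
          refine Or.inr (mem_nr.2 ⟨n, mem_of_not_aw fun h' => ?_, hn'⟩)
          exact (mem_aw.1 hu).2 n (by simp [hn, h']) hn'
      have e2 : aw (aw (S false ∪ Ns ∩ aw (S true))) ⊆
          Ns ∪ nr (ball (ρ × γ) (Fintype.card ρ) ∪ nr (S false)) := by
        intro u hu
        rw [Finset.mem_union]
        by_cases h : u ∈ Ns
        · exact Or.inl h
        · obtain ⟨n, hn, hn'⟩ := mem_nr.1 (hNs u h)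
          refine Or.inr (mem_nr.2 ⟨n, mem_of_not_aw fun h' => ?_, hn'⟩)
          refine (mem_aw.1 hu).2 n ?_ hn'
          rw [mem_aw] at h' ⊢
          refine ⟨h'.1, fun a ha => ?_⟩
          rcases Finset.mem_union.1 ha with ha | ha
          · exact h'.2 a ha
          · exact hfar n hn a (Finset.mem_inter.1 ha).1
      have e3 := (Finset.card_le_card e1).trans (Finset.card_union_le _ _)
      have e4 := (Finset.card_le_card e2).trans (Finset.card_union_le _ _)
      have e5 := card_frg' (hSc true)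
      have e6 := card_frg' (hSc false)
      omega)
  refine ⟨aw (S false ∪ E), aw (aw (S false ∪ E)), ⟨fun u hu => (mem_aw.1 hu).1,
    fun u hu => (mem_aw.1 hu).1,
    fun a ha n hn => by rw [add_comm]; exact (mem_aw.1 hn).2 a ha, ?_⟩, h1, h2⟩
  have hAN : S false ∪ E ⊆ aw (aw (S false ∪ E)) := by
    intro a ha
    refine mem_aw.2 ⟨?_, fun b hb => by rw [add_comm]; exact (mem_aw.1 hb).2 a ha⟩
    rcases Finset.mem_union.1 ha with ha | ha
    · exact hSout _ a ha
    · exact (mem_aw.1 (Finset.mem_inter.1 (hE ha)).2).1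
  have hSP : S true ⊆ aw (S false ∪ E) := by
    intro a ha
    refine mem_aw.2 ⟨hSout _ a ha, fun b hb => ?_⟩
    rcases Finset.mem_union.1 hb with hb | hb
    · exact hSfar a ha b hb
    · rw [add_comm]
      exact (mem_aw.1 (Finset.mem_inter.1 (hE hb)).2).2 a ha
  intro u hu0 hP hN
  by_cases hu : hammingNorm u ≤ Fintype.card ρ
  · exact ⟨nr_mono hSP (hSdom _ u hu0 hu),
      nr_mono (Finset.subset_union_left.trans hAN) (hSdom _ u hu0 hu)⟩
  · have hb : u ∉ ball (ρ × γ) (Fintype.card ρ) := fun h => hu (mem_ball.1 h)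
    exact ⟨(Finset.mem_union.1 (mem_of_not_aw hN)).resolve_left hb,
      nr_mono hAN ((Finset.mem_union.1 (mem_of_not_aw hP)).resolve_left hb)⟩

omit [Fintype γ] in
lemma sum_single_rb (t : ρ → Option γ) :
    ∑ m, (t m).elim (0 : ρ × γ → ZMod 2) (fun g => Pi.single (m, g) 1) = rb t := by
  ext ⟨m, g⟩
  rw [Finset.sum_apply, Finset.sum_eq_single m]
  · rcases h : t m with _ | g'
    · simp [rb, ind, h]
    · simp [rb, ind, h, Pi.single_apply, eq_comm]
  · intro m' _ hm'
    rcases t m' with _ | g'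
    · rfl
    · exact Pi.single_eq_of_ne (fun h => hm' (congrArg Prod.fst h).symm) _
  · simp

variable {R : ℕ} {μ : Type} [Fintype μ] [DecidableEq μ]

/-- a sparse pair of cosets -/
theorem exists_sparse (hγ : Fintype.card (Option (Ct μ)) ≤ Fintype.card γ) :
    ∃ P N : Finset (Fin (R + 1) × γ → ZMod 2),
      (∀ p ∈ P, ∀ n ∈ N, ¬ Rb (p + n)) ∧ (∀ u, u ∉ P → u ∈ nr N) ∧ (∀ u, u ∉ N → u ∈ nr P) ∧
      (P.card + N.card) * 2 ^ Fintype.card (Ps R μ) = 2 * 2 ^ Fintype.card (Fin (R + 1) × γ) := by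
  classical
  obtain ⟨f⟩ := Function.Embedding.nonempty_of_card_le hγ
  let lam : Fin (R + 1) × γ → Ps R μ → ZMod 2 := fun p =>
    Function.extend f (fun o => o.elim (sl p.1) (ol p.1)) (fun _ => 0) p.2
  have hlam : ∀ m x, lam (m, f x) = x.elim (sl m) (ol m) :=
    fun m x => f.injective.extend_apply _ _ _
  have hL : Lb lam Prod.fst (fun m => (m, f none)) := by
    refine ⟨fun m => rfl, fun m => hlam _ _, fun ⟨m, j⟩ hj => ?_⟩
    by_cases h : ∃ x, f x = j
    · obtain ⟨_ | x, rfl⟩ := h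
      · exact absurd rfl (hj m)
      · rw [hlam]; exact ordn_ol _ _
    · have : lam (m, j) = 0 := Function.extend_apply' _ _ _ h
      rw [this]; exact ordn_zero _
  have hcov : ∀ g, g ≠ 1 → ∃ e, Rb e ∧ lin lam e = g := by
    intro g hg
    obtain ⟨u, hu, hu'⟩ := hL.cover (fun m i => (m, f (some i))) (fun m i => hlam _ _) hg
    refine ⟨_, ?_, hu'⟩
    have h1 : ∑ m, (Pi.single (u m) 1 : Fin (R + 1) × γ → ZMod 2) = rb fun m => some (u m).2 := by
      rw [← sum_single_rb]
      refine Finset.sum_congr rfl fun m _ => ?_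
      rcases hu m with h | ⟨i, h⟩ <;> rw [h] <;> rfl
    rw [h1]; exact rb_rb _
  have hsurj : Function.Surjective (lin lam) := fun g =>
    mem_of_ne_one' (lin lam).range (fun g hg => (hcov g hg).imp fun _ h => h.2) g
  refine ⟨Finset.univ.filter (fun u => lin lam u = 0), Finset.univ.filter (fun u => lin lam u = 1),
    ?_, ?_, ?_, ?_⟩
  · intro p hp n hn h
    refine hL.ne_one (by simpa using h.norm_le) ?_
    rw [map_add, (Finset.mem_filter.1 hp).2, (Finset.mem_filter.1 hn).2, zero_add]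
  · intro u hu
    obtain ⟨e, he, he'⟩ := hcov (lin lam u + 1) (by simpa using hu)
    refine mem_nr.2 ⟨u + e, ?_, by rwa [← add_assoc, add_self_cube, zero_add]⟩
    simp only [Finset.mem_filter, Finset.mem_univ, true_and]
    rw [map_add, he', ← add_assoc, add_self_cube, zero_add]
  · intro u hu
    obtain ⟨e, he, he'⟩ := hcov (lin lam u) (by simpa using hu)
    refine mem_nr.2 ⟨u + e, ?_, by rwa [← add_assoc, add_self_cube, zero_add]⟩
    simp only [Finset.mem_filter, Finset.mem_univ, true_and]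
    rw [map_add, he', add_self_cube]
  · have h1 := card_filter_mem_of_surjective _ hsurj {1}
    have h2 := card_ker_mul _ hsurj
    simp only [Finset.mem_singleton, Finset.card_singleton, one_mul] at h1
    simp only [Fintype.card_pi, ZMod.card, Finset.prod_const, Finset.card_univ] at h2
    rw [h1, ← h2]
    ring

/-- weighted count of the Hamming ball -/
lemma card_ball_mul {ι : Type} [Fintype ι] [DecidableEq ι] (R y : ℕ) (hy : 1 ≤ y) :
    (ball ι R).card * y ^ Fintype.card ι ≤ y ^ R * (y + 1) ^ Fintype.card ι := by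
  have h1 : ∑ v : ι → ZMod 2, y ^ (Fintype.card ι - hammingNorm v) = (y + 1) ^ Fintype.card ι := by
    have h2 : ∀ v : ι → ZMod 2, y ^ (Fintype.card ι - hammingNorm v) =
        ∏ i, (if v i = 0 then y else 1) := by
      intro v
      rw [Finset.prod_ite, Finset.prod_const_one, mul_one, Finset.prod_const, hammingNorm]
      congr 1
      have := Finset.card_filter_add_card_filter_not (s := Finset.univ) (fun i => v i = 0)
      rw [Finset.card_univ] at this
      simp only [ne_eq]
      omega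
    have h3 : ∑ c : ZMod 2, (if c = 0 then y else 1) = y + 1 := by
      rw [show (Finset.univ : Finset (ZMod 2)) = {0, 1} by decide, Finset.sum_pair (by decide)]
      simp
    simp only [h2]
    rw [← Fintype.piFinset_univ, ← Finset.prod_univ_sum (fun _ => Finset.univ)
      (fun (_ : ι) (c : ZMod 2) => if c = 0 then y else 1)]
    simp only [h3, Finset.prod_const, Finset.card_univ]
  rw [← h1, Finset.mul_sum, ← smul_eq_mul]
  refine (Finset.card_nsmul_le_sum _ (fun v => y ^ R * y ^ (Fintype.card ι - hammingNorm v)) _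
    fun v hv => ?_).trans (Finset.sum_le_sum_of_subset (Finset.subset_univ _))
  rw [← pow_add]
  exact Nat.pow_le_pow_right hy (by have := mem_ball.1 hv; omega)

end Pool.Agent.P.MP_7cff07_gt.Un
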