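import Pool.Agent.P.MP_7cff07_gt.UnLab

namespace Pool.Agent.P.MP_7cff07_gt.Un

open Finset So

variable {ρ γ : Type} [Fintype ρ] [DecidableEq ρ] [Fintype γ] [DecidableEq γ]

/-- the unit vector at an optional position -/
def ind (o : Option γ) : γ → ZMod 2 := fun g => if o = some g then 1 else 0

/-- the vector with at most one prescribed entry in each row -/
def rb (t : ρ → Option γ) : ρ × γ → ZMod 2 := fun p => ind (t p.1) p.2

/-- a row of a vector -/
def rowOf (c : ρ × γ → ZMod 2) (m : ρ) : γ → ZMod 2 := fun g => c (m, g)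

/-- vectors with at most one entry in each row -/
def Rb (c : ρ × γ → ZMod 2) : Prop := ∀ m, hammingNorm (rowOf c m) ≤ 1

omit [DecidableEq ρ] [DecidableEq γ] in
lemma norm_rows (c : ρ × γ → ZMod 2) : hammingNorm c = ∑ m, hammingNorm (rowOf c m) := by
  simp only [hammingNorm, Finset.card_filter, Fintype.sum_prod_type]
  rfl

omit [DecidableEq ρ] [DecidableEq γ] in
lemma Rb.norm_le {c : ρ × γ → ZMod 2} (h : Rb c) : hammingNorm c ≤ Fintype.card ρ := by
  rw [norm_rows]
  simpa using Finset.sum_le_card_nsmul Finset.univ _ 1 fun m _ => h m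

lemma norm_ind (o : Option γ) : hammingNorm (ind o) ≤ 1 := by
  refine Finset.card_le_one.2 fun a ha b hb => ?_
  simp only [Finset.mem_filter, Finset.mem_univ, true_and, ind, ne_eq, ite_eq_right_iff,
    one_ne_zero, imp_false, not_not] at ha hb
  exact Option.some.inj (ha.symm.trans hb)

omit [Fintype ρ] [DecidableEq ρ] in
lemma rb_rb (t : ρ → Option γ) : Rb (rb t) := fun m => norm_ind (t m)

omit [Fintype ρ] [DecidableEq ρ] in
lemma Rb.exists {c : ρ × γ → ZMod 2} (h : Rb c) : ∃ t, rb t = c := by
  have : ∀ m, ∃ o, ind o = rowOf c m := by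
    intro m
    by_cases h0 : rowOf c m = 0
    · exact ⟨none, by rw [h0]; ext g; simp [ind]⟩
    · obtain ⟨g, hg⟩ := Function.ne_iff.1 h0
      refine ⟨some g, funext fun g' => ?_⟩
      by_cases hgg : g = g'
      · subst hgg
        rw [(z2_cases _).resolve_left hg]; simp [ind]
      · rw [ind, if_neg (by simpa using hgg)]
        by_contra h1
        exact hgg (Finset.card_le_one.1 (h m) g (by simpa using hg) g'
          (by simpa using Ne.symm h1))
  choose t ht using this
  exact ⟨t, funext fun p => congrFun (ht p.1) p.2⟩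

omit [DecidableEq γ] in
lemma card_le_norm' {v : γ → ZMod 2} {T : Finset γ} (h : ∀ k ∈ T, v k ≠ 0) :
    T.card ≤ hammingNorm v :=
  Finset.card_le_card fun k hk => Finset.mem_filter.2 ⟨Finset.mem_univ _, h k hk⟩

lemma row_ineq {a a' : γ → ZMod 2} {o o' : Option γ} {Q : γ → Prop} [DecidablePred Q]
    (hw : hammingNorm ((a + ind o) + (a' + ind o')) ≤ 1) (h1 : ∀ g, o = some g → a g = 0)
    (h2 : ∀ g, o' = some g → a' g = 0 ∧ Q g ∧ o ≠ some g)
    (h3 : o' = none → ∃ T : Finset γ, T.card = 3 ∧ ∀ g ∈ T, a' g ≠ 0 ∧ Q g ∧ o ≠ some g) :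
    hammingNorm a + 1 ≤ 2 * (Finset.univ.filter (fun g => a g ≠ 0 ∧ Q g)).card +
      hammingNorm a' + (if o = none then 1 else 0) := by
  set A := Finset.univ.filter (fun g => a g ≠ 0) with hA
  set A' := Finset.univ.filter (fun g => a' g ≠ 0) with hA'
  set W := Finset.univ.filter (fun g => ((a + ind o) + (a' + ind o')) g ≠ 0) with hW
  set B := Finset.univ.filter (fun g => a g ≠ 0 ∧ Q g) with hB
  have hW1 : W.card ≤ 1 := hw
  have e1 := Finset.card_sdiff_add_card_inter A A'
  have e2 := Finset.card_sdiff_add_card_inter A' A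
  rw [Finset.inter_comm] at e2
  change A.card + 1 ≤ 2 * B.card + A'.card + _
  have mW : ∀ g, g ∈ W ↔ a g + ind o g + (a' g + ind o' g) ≠ 0 := fun g => by simp [hW]
  have hD : ∀ g ∈ A \ A', o' ≠ some g → g ∈ W := by
    intro g hg hg'
    simp only [hA, hA', Finset.mem_sdiff, Finset.mem_filter, Finset.mem_univ, true_and,
      not_not] at hg
    have : o ≠ some g := fun h => hg.1 (h1 g h)
    rw [mW, ind, ind, if_neg this, if_neg hg', hg.2]
    simpa using hg.1
  have hD' : ∀ g, o = some g → o' ≠ some g → g ∉ W → g ∈ A' \ A := by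
    intro g hg hg' hgW
    rw [mW, ind, ind, if_pos hg, if_neg hg', h1 g hg] at hgW
    simp only [hA, hA', Finset.mem_sdiff, Finset.mem_filter, Finset.mem_univ, true_and, not_not]
    exact ⟨fun h => by simp [h] at hgW, h1 g hg⟩
  rcases o' with _ | g'
  · obtain ⟨T, hT, hT'⟩ := h3 rfl
    have e3 : (A \ A').card ≤ W.card := Finset.card_le_card fun g hg => hD g hg (by simp)
    have e4 : T ⊆ B ∪ W := by
      intro g hg
      obtain ⟨b1, b2, b3⟩ := hT' g hg
      by_cases hg' : a g = 0
      · refine Finset.mem_union_right _ ?_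
        rw [mW, ind, ind, if_neg b3, hg']
        simpa using b1
      · exact Finset.mem_union_left _ (by simp [hB, hg', b2])
    have e5 := (Finset.card_le_card e4).trans (Finset.card_union_le _ _)
    omega
  · obtain ⟨b1, b2, b3⟩ := h2 g' rfl
    have hne : ∀ g, o = some g → (some g' : Option γ) ≠ some g := by
      intro g hg h
      exact b3 (hg.trans h.symm)
    by_cases hg' : a g' = 0
    · have c1 : g' ∈ W := by
        rw [mW, ind, ind, if_neg b3, if_pos rfl, hg', b1]; decide
      have c2 : A \ A' = ∅ := by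
        refine Finset.eq_empty_of_forall_notMem fun g hg => ?_
        have c3 : g ≠ g' := by
          rintro rfl
          exact (Finset.mem_filter.1 (Finset.mem_sdiff.1 hg).1).2 hg'
        exact c3 (Finset.card_le_one.1 hW1 g (hD g hg (by simpa using c3.symm)) g' c1)
      rw [c2, Finset.card_empty] at e1
      rcases o with _ | g
      · simp only [if_true]; omega
      · have c3 : g ∉ W := fun h =>
          hne g rfl (by rw [Finset.card_le_one.1 hW1 g h g' c1])
        have c4 := Finset.card_pos.2 ⟨g, hD' g rfl (hne g rfl) c3⟩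
        omega
    · have c1 : 0 < B.card := Finset.card_pos.2 ⟨g', by simp [hB, hg', b2]⟩
      have c2 : A \ A' ⊆ insert g' W := by
        intro g hg
        by_cases h : g = g'
        · simp [h]
        · exact Finset.mem_insert_of_mem (hD g hg (by simpa using Ne.symm h))
      have c3 := (Finset.card_le_card c2).trans (Finset.card_insert_le _ _)
      rcases o with _ | g
      · simp only [if_true]; omega
      · by_cases c4 : g ∈ W
        · have c5 : A \ A' ⊆ {g'} := by
            intro x hx
            rcases Finset.mem_insert.1 (c2 hx) with h | h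
            · simp [h]
            · rw [Finset.card_le_one.1 hW1 x h g c4] at hx
              exact absurd (h1 g rfl) (Finset.mem_filter.1 (Finset.mem_sdiff.1 hx).1).2
          have c6 := Finset.card_le_card c5
          rw [Finset.card_singleton] at c6
          omega
        · have c5 := Finset.card_pos.2 ⟨g, hD' g rfl (hne g rfl) c4⟩
          omega

/-- two separated families dominating the punctured ball from outside -/
theorem exists_seeds' (hγ : 61440 ≤ Fintype.card γ) :
    ∃ t : Bool → (ρ × γ → ZMod 2) → ρ → Option γ,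
      (∀ c u, u ≠ 0 → Fintype.card ρ < hammingNorm (u + rb (t c u))) ∧
      ∀ u u', u ≠ 0 → u' ≠ 0 → hammingNorm u ≤ Fintype.card ρ →
        hammingNorm u' ≤ Fintype.card ρ → ¬ Rb ((u + rb (t true u)) + (u' + rb (t false u'))) := by
  classical
  obtain ⟨f⟩ := Function.Embedding.nonempty_of_card_le
    (α := (Fin 10 × Finset (Fin 10)) × Bool × Fin 3) (β := γ) (by simpa using hγ)
  let lab : γ → Fin 10 × Finset (Fin 10) := Function.extend f Prod.fst (fun _ => (0, ∅))
  have hlab : ∀ x, lab (f x) = x.1 := fun x => f.injective.extend_apply _ _ _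
  let cnt : (ρ × γ → ZMod 2) → Fin 10 × Finset (Fin 10) → ℕ :=
    fun u l => (Finset.univ.filter (fun p => u p ≠ 0 ∧ lab p.2 = l)).card
  let T : (ρ × γ → ZMod 2) → Finset (Fin 10 × Finset (Fin 10)) :=
    fun u => Finset.univ.filter (fun l => hammingNorm u ≤ 3 * cnt u l)
  have hT : ∀ u, u ≠ 0 → (T u).card ≤ 3 := by
    intro u hu
    have h1 : hammingNorm u = ∑ l, cnt u l := by
      rw [hammingNorm, Finset.card_eq_sum_card_fiberwise (f := fun p => lab p.2)
        (t := Finset.univ) (by simp)]
      simp only [Finset.filter_filter, cnt]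
    have h2 : (T u).card * hammingNorm u ≤ ∑ l ∈ T u, 3 * cnt u l := by
      simpa using Finset.card_nsmul_le_sum (T u) (fun l => 3 * cnt u l) _
        fun l hl => (Finset.mem_filter.1 hl).2
    have h3 : ∑ l ∈ T u, 3 * cnt u l ≤ ∑ l, 3 * cnt u l :=
      Finset.sum_le_sum_of_subset (Finset.subset_univ _)
    rw [← Finset.mul_sum Finset.univ, ← h1] at h3
    exact Nat.le_of_mul_le_mul_right (h2.trans h3) (hammingNorm_pos_iff.2 hu)
  have ha : ∀ u : ρ × γ → ZMod 2, ∃ a : Fin 10, u ≠ 0 → ∀ l ∈ T u, l.2.card ≤ 3 → a ∉ l.2 := by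
    intro u
    by_cases hu : u = 0
    · exact ⟨0, fun h => absurd hu h⟩
    · have h1 : (((T u).filter fun l => l.2.card ≤ 3).biUnion Prod.snd).card ≤ 3 * 3 :=
        (Finset.card_biUnion_le_card_mul _ _ 3 fun l hl => (Finset.mem_filter.1 hl).2).trans
          (Nat.mul_le_mul_right _ ((Finset.card_filter_le _ _).trans (hT u hu)))
      obtain ⟨a, -, ha⟩ := Finset.exists_mem_notMem_of_card_lt_card
        (s := ((T u).filter fun l => l.2.card ≤ 3).biUnion Prod.snd) (t := Finset.univ)
        (by simp only [Finset.card_univ, Fintype.card_fin]; omega)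
      exact ⟨a, fun _ l hl hl' h =>
        ha (Finset.mem_biUnion.2 ⟨l, Finset.mem_filter.2 ⟨hl, hl'⟩, h⟩)⟩
  choose a ha using ha
  let e : (ρ × γ → ZMod 2) → Fin 10 × Finset (Fin 10) := fun u => (a u, (T u).image Prod.fst)
  have hex : ∀ u u', u ≠ 0 → u' ≠ 0 → e u ∈ T u' → e u' ∉ T u := fun u u' hu hu' h1 h2 =>
    ha u' hu' _ h1 (Finset.card_image_le.trans (hT u hu)) (Finset.mem_image.2 ⟨_, h2, rfl⟩)
  have ht : ∀ (c : Bool) (u : ρ × γ → ZMod 2) (m : ρ), ∃ o : Option γ,
      (∀ g, o = some g → u (m, g) = 0 ∧ ∃ i, g = f (e u, c, i)) ∧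
        (o = none → ∀ i, u (m, f (e u, c, i)) ≠ 0) := by
    intro c u m
    by_cases h : ∃ i, u (m, f (e u, c, i)) = 0
    · obtain ⟨i, hi⟩ := h
      exact ⟨some (f (e u, c, i)), fun g hg => by
        rw [← Option.some.inj hg]; exact ⟨hi, i, rfl⟩, by simp⟩
    · exact ⟨none, by simp, fun _ i hi => h ⟨i, hi⟩⟩
  choose t ht1 ht2 using ht
  have hc3 : ∀ (c : Bool) (u : ρ × γ → ZMod 2),
      (Finset.univ.image fun i : Fin 3 => f (e u, c, i)).card = 3 := fun c u => by
    rw [Finset.card_image_of_injective _ (fun i j h => by simpa using f.injective h)]; simp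
  have hskip : ∀ c u m, t c u m = none → 3 ≤ hammingNorm (rowOf u m) := by
    intro c u m h
    rw [← hc3 c u]
    refine card_le_norm' fun g hg => ?_
    obtain ⟨i, -, rfl⟩ := Finset.mem_image.1 hg
    exact ht2 c u m h i
  have hkey : ∀ c c' u u', c ≠ c' → hammingNorm u' ≤ Fintype.card ρ →
      Rb ((u + rb (t c u)) + (u' + rb (t c' u'))) → e u' ∈ T u := by
    intro c c' u u' hcc hu' h
    have hne : ∀ m i, t c u m ≠ some (f (e u', c', i)) := by
      intro m i h1
      obtain ⟨-, j, hj⟩ := ht1 c u m _ h1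
      have := f.injective hj
      simp only [Prod.mk.injEq] at this
      exact hcc this.2.1.symm
    have h1 := fun m => row_ineq (a := rowOf u m) (a' := rowOf u' m) (o := t c u m)
      (o' := t c' u' m) (Q := fun g => lab g = e u') (h m) (fun g hg => (ht1 c u m g hg).1)
      (fun g hg => by
        obtain ⟨b1, i, rfl⟩ := ht1 c' u' m g hg
        exact ⟨b1, hlab _, hne m i⟩)
      (fun ho => ⟨_, hc3 c' u', fun g hg => by
        obtain ⟨i, -, rfl⟩ := Finset.mem_image.1 hg
        exact ⟨ht2 c' u' m ho i, hlab _, hne m i⟩⟩)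
    have h2 := Finset.sum_le_sum (s := Finset.univ) fun m _ => h1 m
    have h3 : ∑ m, 3 * (if t c u m = none then 1 else 0) ≤ ∑ m, hammingNorm (rowOf u m) :=
      Finset.sum_le_sum fun m _ => by
        split_ifs with h4
        · exact hskip c u m h4
        · simp
    have h4 : ∑ m, (Finset.univ.filter (fun g => rowOf u m g ≠ 0 ∧ lab g = e u')).card =
        cnt u (e u') := by
      simp only [cnt, Finset.card_filter, Fintype.sum_prod_type]
      rfl
    simp only [Finset.sum_add_distrib, ← Finset.mul_sum, ← norm_rows, h4, Finset.sum_const,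
      Finset.card_univ, smul_eq_mul, mul_one] at h2 h3
    exact Finset.mem_filter.2 ⟨Finset.mem_univ _, by omega⟩
  refine ⟨t, fun c u hu => ?_, fun u u' hu hu' h1 h2 h => ?_⟩
  · have h1 : ∀ m, min (hammingNorm (rowOf u m)) 1 + 1 ≤
        hammingNorm (rowOf (u + rb (t c u)) m) := by
      intro m
      rcases ho : t c u m with _ | g
      · have h2 := hskip c u m ho
        have h3 : rowOf (u + rb (t c u)) m = rowOf u m := by
          ext g; simp [rowOf, rb, ho, ind]
        rw [h3]; omega
      · have h2 := (ht1 c u m g ho).1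
        have h3 : rowOf (u + rb (t c u)) m + Pi.single g 1 = rowOf u m := by
          ext g'
          by_cases hg : g' = g
          · subst hg; simp [rowOf, rb, ho, ind, h2, CharTwo.add_self_eq_zero]
          · simp [rowOf, rb, ho, ind, hg, Ne.symm hg]
        have h4 := norm_flip (x := rowOf (u + rb (t c u)) m) (i := g)
          (by simp [rowOf, rb, ho, ind, h2])
        rw [h3] at h4
        omega
    obtain ⟨⟨m, g⟩, hp⟩ := Function.ne_iff.1 hu
    have h2 : 0 < hammingNorm (rowOf u m) :=
      hammingNorm_pos_iff.2 (Function.ne_iff.2 ⟨g, hp⟩)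
    have h3 := Finset.sum_le_sum (s := Finset.univ) fun m _ => h1 m
    have h4 := Finset.single_le_sum (f := fun m => min (hammingNorm (rowOf u m)) 1)
      (fun _ _ => Nat.zero_le _) (Finset.mem_univ m)
    simp only [Finset.sum_add_distrib, ← norm_rows, Finset.sum_const, Finset.card_univ,
      smul_eq_mul, mul_one] at h3
    omega
  · exact hex u u' hu hu' (hkey false true u' u (by simp) h1 (by rwa [add_comm]))
      (hkey true false u u' (by simp) h2 h)

end Pool.Agent.P.MP_7cff07_gt.Un
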