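import Pool.Agent.P.MP_7cff07_gt.UnConfig
import Pool.Agent.P.MP_7cff07_gt.SoWindow

namespace Pool.Agent.P.MP_7cff07_gt.Un

open Finset So

/-- the concrete labelled block structure -/
def mkSy (R l g e : ℕ) (k0 : Fin g) :
    Sy (Fin 8 ⊕ ((Bool × Fin (R + 1) × Ct (Fin l)) ⊕ (Fin (R + 1) ⊕ Option (Fin e))))
      (Fin R) ((Fin (R + 1) × Fin g) × Bool × Ct (Fin l)) (Fin g) (Fin l) R where
  β := Prod.fst
  b0 := ((0, k0), false, (0, 0))
  lam := Sum.elim (Sum.elim (Sum.elim 0 (Sum.elim (fun p => ol p.2.1 p.2.2)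
    (Sum.elim sl (fun o => o.elim (em R (Fin l)) 0)))) 0) (fun b => ol b.1.1 b.2.2)
  row := Sum.elim (Sum.elim (Sum.elim 0 (Sum.elim (fun p => p.2.1) (Sum.elim id 0))) 0)
    (fun b => b.1.1)
  s m := Sum.inl (Sum.inr (Sum.inr (Sum.inl m)))
  t m i := Sum.inl (Sum.inr (Sum.inl (false, m, i)))
  tb k i := (k, false, i)
  hY := by simp
  hL := by
    refine ⟨fun m => rfl, fun m => rfl, ?_⟩
    rintro (((j | j | j | _ | j) | j) | j) hj
    · exact ordn_zero _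
    · exact ordn_ol _ _
    · exact absurd rfl (hj j)
    · exact ordn_em
    · exact ordn_zero _
    · exact ordn_zero _
    · exact ordn_ol _ _
  ht m i := rfl
  hβ k i := rfl
  htb k i := rfl
  hrow b := rfl
  hone := by
    simp only [lin, AddMonoidHom.coe_mk, ZeroHom.coe_mk, Pi.one_apply, one_smul,
      Fintype.sum_sum_type, Fintype.sum_prod_type, Fintype.sum_bool, Fintype.sum_option,
      Sum.elim_inl, Sum.elim_inr, add_self_cube, sum_sl, Option.elim_none, Option.elim_some,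
      Pi.zero_apply, Finset.sum_const_zero, add_zero, zero_add, add_assoc]
    rw [← add_assoc, add_self_cube, zero_add]
  hblk := by
    simp only [blk, lin, AddMonoidHom.coe_mk, ZeroHom.coe_mk, Pi.one_apply, one_smul,
      Fintype.sum_prod_type, Fintype.sum_bool, add_self_cube, Finset.sum_const_zero]

lemma fringe_arith {b g p x : ℕ} (hp : 1 ≤ p) (hb : b * 3 ^ (p * g) ≤ 3 ^ p * (3 + 1) ^ (p * g))
    (hx : 2 ^ x ≤ g + 1) (hg : 30 * (g + 1) ^ 3 * 2 ^ g ≤ 3 ^ g) :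
    5 * (b * (g + 1) ^ (2 * p)) * 2 ^ (p * x + 1) ≤ 2 ^ (p * g) := by
  refine Nat.le_of_mul_le_mul_right ?_ (show 0 < 3 ^ (p * g) by positivity)
  have h1 : 10 ≤ 10 ^ p := Nat.le_self_pow (by omega) 10
  calc 5 * (b * (g + 1) ^ (2 * p)) * 2 ^ (p * x + 1) * 3 ^ (p * g)
      = 10 * (b * 3 ^ (p * g)) * (g + 1) ^ (2 * p) * (2 ^ x) ^ p := by
        rw [← pow_mul, mul_comm x p]; ring
    _ ≤ 10 ^ p * (3 ^ p * (3 + 1) ^ (p * g)) * (g + 1) ^ (2 * p) * (g + 1) ^ p := by gcongr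
    _ = (30 * (g + 1) ^ 3 * 2 ^ g * 2 ^ g) ^ p := by
        rw [show (30 : ℕ) = 10 * 3 by norm_num, show (3 + 1 : ℕ) = 2 * 2 by norm_num]
        simp only [mul_pow, ← pow_mul]
        ring
    _ ≤ (3 ^ g * 2 ^ g) ^ p := by gcongr
    _ = _ := by simp only [mul_pow, ← pow_mul]; ring

theorem window' (R l l' g r n q : ℕ) (a1 : 61440 ≤ g) (a2 : 2 * 2 ^ (3 + l') + 1 ≤ g)
    (a3 : 2048 * (g + 1) ≤ 2 ^ (3 + l)) (a4 : (3 + l) + (3 + l') + 2 ≤ g)
    (a5 : 30 * (g + 1) ^ 3 * 2 ^ g ≤ 3 ^ g)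
    (a6 : (R + 1) * ((2 * g + 2) * (2 * 2 ^ (3 + l))) + R + 264 ≤ r)
    (a7 : r + (R + 1) + 1 ≤ n)
    (a8 : 4 * 2 ^ (r + (R + 1) + 1) ≤
      (q + 1) * (2 ^ ((R + 1) * (3 + l) + 1) * 2 ^ ((R + 1) * (3 + l') + 1)))
    (a9 : (q + 1) * (2 ^ ((R + 1) * (3 + l) + 1) * 2) ≤ 2 ^ (r + (R + 1) + 1)) :
    Nontrivial (reducedHomology (VR (Set.univ : Set (Lex (Fin n → Bool))) r) q) := by
  obtain ⟨e, he⟩ : ∃ e, r = (R + 1) * ((2 * g + 2) * (2 * 2 ^ (3 + l))) + R + 8 + e :=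
    ⟨r - ((R + 1) * ((2 * g + 2) * (2 * 2 ^ (3 + l))) + R + 8), by omega⟩
  have : DecidableEq (Ct (Fin l)) := inferInstance
  obtain ⟨F, I, hF, hI, hall⟩ := (mkSy R l g e ⟨0, by omega⟩).sizes (by
    simp only [Fintype.card_sum, Fintype.card_option, Fintype.card_fin]
    omega)
  have hcard : Fintype.card (((Fin 8 ⊕ ((Bool × Fin (R + 1) × Ct (Fin l)) ⊕
      (Fin (R + 1) ⊕ Option (Fin e)))) ⊕ Fin R) ⊕
      ((Fin (R + 1) × Fin g) × Bool × Ct (Fin l))) = r + (R + 1) + 1 := by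
    simp only [Fintype.card_sum, Fintype.card_option, Fintype.card_prod, Fintype.card_fin,
      Fintype.card_bool, Fintype.card_pi, ZMod.card, Finset.prod_const, Finset.card_univ]
    rw [he]; ring
  obtain ⟨P0, N0, b1, b2, b3, b4⟩ := exists_sparse (γ := Fin g) (R := R) (μ := Fin l')
    (by simpa only [Fintype.card_option, card_Ct, Fintype.card_fin] using a2)
  have b5 := card_ball_mul (ι := Fin (R + 1) × Fin g) (R + 1) 3 (by norm_num)
  rw [hcard] at hF hI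
  simp only [card_Ps, Fintype.card_prod, Fintype.card_fin] at hF hI b4 b5
  have b6 : 1 ≤ (ball (Fin (R + 1) × Fin g) (R + 1)).card :=
    Finset.card_pos.2 ⟨0, by simp [mem_ball]⟩
  obtain ⟨z, c1, c2, c3⟩ := window_arith (D := (g + 1) ^ (R + 1))
    (E := (ball (Fin (R + 1) × Fin g) (R + 1)).card * (g + 1) ^ (2 * (R + 1))) hF hI b4
    (by
      have h1 : 1024 ≤ 1024 ^ (R + 1) := Nat.le_self_pow (by omega) _
      calc (g + 1) ^ (R + 1) * (2 ^ (R + 1) * 1024)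
          ≤ (g + 1) ^ (R + 1) * (2 ^ (R + 1) * 1024 ^ (R + 1)) := by gcongr
        _ = (2048 * (g + 1)) ^ (R + 1) := by
          rw [show (2048 : ℕ) = 2 * 1024 by norm_num, mul_pow, mul_pow]; ring
        _ ≤ (2 ^ (3 + l)) ^ (R + 1) := by gcongr
        _ ≤ _ := by
          rw [← pow_mul]; exact Nat.pow_le_pow_right (by norm_num) (by nlinarith))
    (by rw [← pow_add]; exact Nat.pow_le_pow_right (by norm_num) (by nlinarith))
    (fringe_arith (by omega) b5 (by omega) a5)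
    (le_trans (Nat.pow_le_pow_right (by omega) (by omega)) (Nat.le_mul_of_pos_left _ b6))
    (Nat.one_le_pow _ _ (by omega))
    (by positivity) Nat.one_le_two_pow Nat.one_le_two_pow a8 a9
  obtain ⟨P, N, hPN, d1, d2⟩ := exists_pr (by simpa using a1) P0 N0 b1 b2 b3 z
    (by simpa using c1) (by simpa using c2)
  obtain ⟨j, hj, hj'⟩ := c3 _ d1 (by simpa using d2)
  obtain ⟨σ, y, hσ, hc⟩ := hall P N hPN j hj
  exact hσ.nontrivial hcard a7 (hc.trans hj')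

end Pool.Agent.P.MP_7cff07_gt.Un
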