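import Pool.Agent.P.MP_7cff07_gt.Chain

namespace Pool.Agent.P.MP_7cff07_gt

open Finset

variable {V : Type} [LinearOrder V]

/-- clique complex of a relation on a vertex set -/
def Cl (close : V → V → Prop) (X : Set V) : Set (Finset V) :=
  {σ | (↑σ : Set V) ⊆ X ∧ ∀ x ∈ σ, ∀ y ∈ σ, close x y}

/-- skew sequences -/
def Skew (close : V → V → Prop) (X : Set V) (m : ℕ) : Prop :=
  ∃ v w : Fin m → V, (∀ i, v i ∈ X) ∧ (∀ i, w i ∈ X) ∧ (∀ i j, close (v i) (v j)) ∧
    (∀ i, ¬ close (v i) (w i)) ∧ ∀ i j, i < j → close (v i) (w j)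

omit [LinearOrder V] in
lemma Skew.mono {close : V → V → Prop} {X Y : Set V} (h : X ⊆ Y) {m : ℕ}
    (hs : Skew close X m) : Skew close Y m := by
  obtain ⟨v, w, h1, h2, h3⟩ := hs
  exact ⟨v, w, fun i => h (h1 i), fun i => h (h2 i), h3⟩

omit [LinearOrder V] in
lemma Skew.cons {close : V → V → Prop} (hrefl : ∀ x, close x x)
    (hsymm : ∀ x y, close x y → close y x) {X Y : Set V} (hYX : Y ⊆ X) {m : ℕ}
    {a b : V} (ha : a ∈ X) (hb : b ∈ X) (hab : ¬ close a b) (hY : ∀ y ∈ Y, close a y)
    (hs : Skew close Y m) : Skew close X (m + 1) := by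
  obtain ⟨v, w, h1, h2, h3, h4, h5⟩ := hs
  refine ⟨Fin.cons a v, Fin.cons b w, ?_, ?_, ?_, ?_, ?_⟩
  · intro i; refine Fin.cases ?_ (fun i => ?_) i
    · simpa using ha
    · simpa using hYX (h1 i)
  · intro i; refine Fin.cases ?_ (fun i => ?_) i
    · simpa using hb
    · simpa using hYX (h2 i)
  · intro i j
    refine Fin.cases ?_ (fun i => ?_) i <;> refine Fin.cases ?_ (fun j => ?_) j
    · simpa using hrefl a
    · simpa using hY _ (h1 j)
    · simpa using hsymm _ _ (hY _ (h1 i))
    · simpa using h3 i j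
  · intro i; refine Fin.cases ?_ (fun i => ?_) i
    · simpa using hab
    · simpa using h4 i
  · intro i j
    refine Fin.cases ?_ (fun i => ?_) i <;> refine Fin.cases ?_ (fun j => ?_) j
    · simp
    · intro _; simpa using hY _ (h2 j)
    · simp
    · intro hij; simpa using h5 i j (by simpa using hij)

lemma cone_mem_chains {close : V → V → Prop} (hrefl : ∀ x, close x x)
    (hsymm : ∀ x y, close x y → close y x) {X Y : Set V} (hYX : Y ⊆ X) {a : V} (ha : a ∈ X)
    (hY : ∀ y ∈ Y, close a y) {k : ℕ} {c : Finset V →₀ ℤ} (hc : c ∈ chains (Cl close Y) k) :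
    cone a c ∈ chains (Cl close X) (k + 1) := by
  refine map_supported_le (cone a) ?_ hc
  rintro σ ⟨⟨hσ1, hσ2⟩, hσ3⟩
  rw [cone_single]
  split_ifs with h
  · exact Submodule.zero_mem _
  · refine Submodule.smul_mem _ _ (single_mem_supported ⟨⟨?_, ?_⟩, ?_⟩)
    · intro x hx
      rcases Finset.mem_insert.1 hx with rfl | hx
      · exact ha
      · exact hYX (hσ1 hx)
    · intro x hx y hy
      rcases Finset.mem_insert.1 hx with rfl | hx' <;> rcases Finset.mem_insert.1 hy with rfl | hy'
      · exact hrefl _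
      · exact hY _ (hσ1 hy')
      · exact hsymm _ _ (hY _ (hσ1 hx'))
      · exact hσ2 x hx' y hy'
    · rw [Finset.card_insert_of_notMem h, hσ3]

omit [LinearOrder V] in
lemma chains_mono {close : V → V → Prop} {X Y : Set V} (hYX : Y ⊆ X) {k : ℕ}
    {c : Finset V →₀ ℤ} (hc : c ∈ chains (Cl close Y) k) : c ∈ chains (Cl close X) k := by
  refine Finsupp.supported_mono ?_ hc
  rintro σ ⟨⟨hσ1, hσ2⟩, hσ3⟩
  exact ⟨⟨hσ1.trans hYX, hσ2⟩, hσ3⟩

theorem vanish_aux [Fintype V] {close : V → V → Prop} (hrefl : ∀ x, close x x)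
    (hsymm : ∀ x y, close x y → close y x) (N : ℕ) :
    ∀ (X : Finset V), X.card = N → ∀ k : ℕ, ¬ Skew close (↑X) k →
      ∀ z ∈ chains (Cl close (↑X)) k, boundary V z = 0 →
        ∃ c ∈ chains (Cl close (↑X)) (k + 1), boundary V c = z := by
  classical
  induction N using Nat.strong_induction_on with
  | _ N ih =>
  intro X hX k hk z hz hz0
  rcases k with _ | k
  · exact absurd ⟨Fin.elim0, Fin.elim0, fun i => i.elim0, fun i => i.elim0, fun i => i.elim0,
      fun i => i.elim0, fun i => i.elim0⟩ hk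
  rcases X.eq_empty_or_nonempty with rfl | ⟨a, ha⟩
  · refine ⟨0, Submodule.zero_mem _, ?_⟩
    rw [map_zero]
    have : z ∈ (⊥ : Submodule ℤ (Finset V →₀ ℤ)) := by
      refine map_supported_le LinearMap.id ?_ hz
      rintro σ ⟨⟨hσ1, -⟩, hσ3⟩
      have : σ = ∅ := by simpa using hσ1
      subst this
      simp at hσ3
    exact ((Submodule.mem_bot ℤ).1 this).symm
  by_cases hall : ∀ y ∈ X, close a y
  · refine ⟨cone a z, cone_mem_chains hrefl hsymm subset_rfl ha hall hz, ?_⟩
    rw [boundary_cone, hz0]; simp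
  push Not at hall
  obtain ⟨b, hb, hab⟩ := hall
  set Y : Finset V := (X.erase a).filter (fun y => close a y) with hYdef
  have hYX : (↑Y : Set V) ⊆ ↑X := by
    intro y hy
    have := Finset.mem_filter.1 hy
    exact Finset.mem_of_mem_erase this.1
  have hYa : ∀ y ∈ (↑Y : Set V), close a y := fun y hy => (Finset.mem_filter.1 hy).2
  have hYE : (↑Y : Set V) ⊆ ↑(X.erase a) := by
    intro y hy
    exact (Finset.mem_filter.1 hy).1
  have hEX : (↑(X.erase a) : Set V) ⊆ ↑X := by
    intro y hy; exact Finset.mem_of_mem_erase hy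
  have hcardE : (X.erase a).card < N := by
    rw [← hX]; exact Finset.card_erase_lt_of_mem ha
  have hcardY : Y.card < N := lt_of_le_of_lt (Finset.card_filter_le _ _) hcardE
  have hskY : ¬ Skew close (↑Y) k := fun h => hk (Skew.cons hrefl hsymm hYX ha hb hab hYa h)
  have hskE : ¬ Skew close (↑(X.erase a)) (k + 1) := fun h => hk (h.mono hEX)
  have hdel : del a z ∈ chains (Cl close (↑Y)) k := by
    refine map_supported_le (del a) ?_ hz
    rintro σ ⟨⟨hσ1, hσ2⟩, hσ3⟩
    rw [del_single]
    split_ifs with h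
    · refine Submodule.smul_mem _ _ (single_mem_supported ⟨⟨?_, ?_⟩, ?_⟩)
      · intro x hx
        have hx' := Finset.mem_erase.1 hx
        exact Finset.mem_filter.2 ⟨Finset.mem_erase.2 ⟨hx'.1, hσ1 hx'.2⟩, hσ2 a h x hx'.2⟩
      · intro x hx y hy
        exact hσ2 x (Finset.mem_of_mem_erase hx) y (Finset.mem_of_mem_erase hy)
      · rw [Finset.card_erase_of_mem h, hσ3]; rfl
    · exact Submodule.zero_mem _
  have hdel0 : boundary V (del a z) = 0 := by
    have := del_boundary a z
    rw [hz0, map_zero] at this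
    exact neg_eq_zero.1 this.symm
  obtain ⟨c1, hc1, hc1'⟩ := ih _ hcardY Y rfl k hskY _ hdel hdel0
  have hcc : cone a c1 ∈ chains (Cl close (↑X)) (k + 1 + 1) :=
    cone_mem_chains hrefl hsymm hYX ha hYa hc1
  have hz' : z + boundary V (cone a c1) ∈ chains (Cl close (↑(X.erase a))) (k + 1) := by
    rw [boundary_cone, hc1']
    have h1 : z - cone a (del a z) = del a (cone a z) := by
      have := LinearMap.congr_fun (del_cone_self a) z
      simp only [LinearMap.add_apply, LinearMap.comp_apply, LinearMap.id_apply] at this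
      exact (eq_sub_of_add_eq this).symm
    have h2 : z + (c1 - cone a (del a z)) = del a (cone a z) + c1 := by
      rw [← h1]; abel
    rw [h2]
    refine Submodule.add_mem _ ?_ (chains_mono hYE hc1)
    refine map_supported_le (del a ∘ₗ cone a) ?_ hz
    rintro σ ⟨⟨hσ1, hσ2⟩, hσ3⟩
    rw [LinearMap.comp_apply, cone_single]
    split_ifs with h
    · simp
    · rw [map_smul, del_single, if_pos (Finset.mem_insert_self _ _), Finset.erase_insert h]
      refine Submodule.smul_mem _ _ (Submodule.smul_mem _ _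
        (single_mem_supported ⟨⟨?_, hσ2⟩, hσ3⟩))
      intro x hx
      refine Finset.mem_erase.2 ⟨?_, hσ1 hx⟩
      rintro rfl
      exact h hx
  have hz'0 : boundary V (z + boundary V (cone a c1)) = 0 := by
    rw [map_add, hz0, boundary_boundary, add_zero]
  obtain ⟨c2, hc2, hc2'⟩ := ih _ hcardE (X.erase a) rfl (k + 1) hskE _ hz' hz'0
  refine ⟨c2 - cone a c1, Submodule.sub_mem _ (chains_mono hEX hc2) hcc, ?_⟩
  rw [map_sub, hc2']; abel

theorem not_nontrivial_of_not_skew [Fintype V] {close : V → V → Prop} (hrefl : ∀ x, close x x)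
    (hsymm : ∀ x y, close x y → close y x) (X : Set V) (q : ℕ) (h : ¬ Skew close X (q + 1)) :
    ¬ Nontrivial (reducedHomology (Cl close X) q) := by
  classical
  rw [nontrivial_reducedHomology_iff]
  rintro ⟨z, hz, hz0, hc⟩
  have hX : X = ↑(X.toFinite.toFinset) := (Set.Finite.coe_toFinset _).symm
  rw [hX] at h hz hc
  obtain ⟨c, hc1, hc2⟩ := vanish_aux hrefl hsymm _ _ rfl (q + 1) h z hz hz0
  exact hc c hc1 hc2

end Pool.Agent.P.MP_7cff07_gt
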