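import Pool.Agent.P.MP_7cff07_gt.Final

namespace Pool.Agent.P.MP_7cff07_gt.VariantAsymptotic

open Pool.Agent.P.MP_7cff07_gt

theorem result : ∃ C : ℝ, ∀ r n : ℕ, 1 ≤ r → r + 2 ≤ n →
    |({q | Nontrivial (reducedHomology (VR (Set.univ : Set (Lex (Fin n → Bool))) r) q)}.ncard : ℝ)
      / 2 ^ r - 1| ≤ C / r :=
  asymptotic

end Pool.Agent.P.MP_7cff07_gt.VariantAsymptotic
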