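import Pool.Agent.P.MP_7cff07_gt.SoFinal

namespace Pool.Agent.P.MP_7cff07_gt.VariantSecondOrder

open Pool.Agent.P.MP_7cff07_gt

theorem result : ∀ s : ℕ, 2 ≤ s → ∃ c C : ℝ, 0 < c ∧ ∀ r : ℕ, 1 ≤ r →
    c * 2 ^ r / (r : ℝ) ^ (s - 1) ≤ 2 ^ r - ({q | Nontrivial (reducedHomology
      (VR (Set.univ : Set (Lex (Fin (r + s) → Bool))) r) q)}.ncard : ℝ) ∧
    ∀ n : ℕ, r + s ≤ n →
      0 ≤ 2 ^ r - ({q | Nontrivial (reducedHomology
        (VR (Set.univ : Set (Lex (Fin n → Bool))) r) q)}.ncard : ℝ) ∧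
      2 ^ r - ({q | Nontrivial (reducedHomology
        (VR (Set.univ : Set (Lex (Fin n → Bool))) r) q)}.ncard : ℝ) ≤
        C * 2 ^ r / (r : ℝ) ^ (s - 1) :=
  So.second_order

/-- the case `s = 2`: relative error `O(1/r)` uniformly in `n ≥ r + 2` -/
theorem case_two : ∃ C : ℝ, ∀ r n : ℕ, 1 ≤ r → r + 2 ≤ n →
    |({q | Nontrivial (reducedHomology (VR (Set.univ : Set (Lex (Fin n → Bool))) r) q)}.ncard : ℝ)
      / 2 ^ r - 1| ≤ C / r := by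
  obtain ⟨c, C, -, h⟩ := result 2 le_rfl
  refine ⟨C, fun r n hr hn => ?_⟩
  obtain ⟨h1, h2⟩ := (h r hr).2 n hn
  have hp : (0 : ℝ) < 2 ^ r := by positivity
  rw [abs_sub_comm, one_sub_div hp.ne', abs_of_nonneg (div_nonneg h1 hp.le), div_le_iff₀ hp]
  simpa [div_mul_eq_mul_div] using h2

end Pool.Agent.P.MP_7cff07_gt.VariantSecondOrder
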